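import Mathlib

/-!
# Growth of entire functions: from scale inequalities to polynomials
-/

open Complex Metric Set

namespace Pool.Agent.Stek

/-- Maximum modulus of `G` on the closed disc of radius `r`. -/
noncomputable def mx (G : ℂ → ℂ) (r : ℝ) : ℝ := sSup ((fun z => ‖G z‖) '' closedBall 0 r)

theorem mx_bdd {G : ℂ → ℂ} (hG : Continuous G) (r : ℝ) :
    BddAbove ((fun z => ‖G z‖) '' closedBall (0 : ℂ) r) :=
  ((isCompact_closedBall (0 : ℂ) r).image hG.norm).bddAbove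

theorem norm_le_mx {G : ℂ → ℂ} (hG : Continuous G) {z : ℂ} {r : ℝ} (h : ‖z‖ ≤ r) :
    ‖G z‖ ≤ mx G r :=
  le_csSup (mx_bdd hG r) ⟨z, by simpa using h, rfl⟩

theorem exists_mx {G : ℂ → ℂ} (hG : Continuous G) {r : ℝ} (h : 0 ≤ r) :
    ∃ z : ℂ, ‖z‖ ≤ r ∧ ‖G z‖ = mx G r := by
  have hne : (closedBall (0 : ℂ) r).Nonempty := ⟨0, by simpa using h⟩
  obtain ⟨z, hz, hmax⟩ := (isCompact_closedBall (0 : ℂ) r).exists_isMaxOn hne
    hG.norm.continuousOn
  refine ⟨z, by simpa using hz, le_antisymm (norm_le_mx hG (by simpa using hz)) ?_⟩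
  apply csSup_le (hne.image _)
  rintro _ ⟨w, hw, rfl⟩
  exact hmax hw

theorem mx_nonneg {G : ℂ → ℂ} (hG : Continuous G) {r : ℝ} (h : 0 ≤ r) : 0 ≤ mx G r :=
  (norm_nonneg (G 0)).trans (norm_le_mx hG (by simpa using h))

theorem mx_mono {G : ℂ → ℂ} (hG : Continuous G) {r s : ℝ} (hr : 0 ≤ r) (h : r ≤ s) :
    mx G r ≤ mx G s := by
  obtain ⟨z, hz, he⟩ := exists_mx hG hr
  rw [← he]
  exact norm_le_mx hG (hz.trans h)

theorem norm_deriv_le_mx {G : ℂ → ℂ} (hG : Differentiable ℂ G) {z : ℂ} {r ρ : ℝ} (hρ : 0 < ρ)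
    (h : ‖z‖ + ρ ≤ r) : ‖deriv G z‖ ≤ mx G r / ρ := by
  apply Complex.norm_deriv_le_of_forall_mem_sphere_norm_le hρ hG.diffContOnCl
  intro w hw
  apply norm_le_mx hG.continuous
  have : ‖w - z‖ = ρ := by simpa [dist_eq_norm] using hw
  calc ‖w‖ = ‖z + (w - z)‖ := by ring_nf
    _ ≤ ‖z‖ + ‖w - z‖ := norm_add_le _ _
    _ ≤ r := by rw [this]; exact h

/-- A monotone function with `f r ≤ C f (β r)`, `β < 1`, has polynomial growth. -/
theorem poly_of_scale {f : ℝ → ℝ} (hmono : ∀ r s, 0 ≤ r → r ≤ s → f r ≤ f s)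
    (h0 : ∀ r, 0 ≤ r → 0 ≤ f r) {β C r₀ : ℝ} (hβ0 : 0 < β) (hβ : β < 1)
    (h : ∀ r, r₀ ≤ r → f r ≤ C * f (β * r)) :
    ∃ (K : ℝ) (D : ℕ), 0 ≤ K ∧ ∀ r, 1 ≤ r → f r ≤ K * r ^ D := by
  set C' := max C 1 with hC'
  have hC1 : 1 ≤ C' := le_max_right _ _
  obtain ⟨D, hD⟩ := exists_pow_lt_of_lt_one (show (0 : ℝ) < 1 / C' by positivity) hβ
  have hDC : C' * β ^ D ≤ 1 := by
    have := (lt_div_iff₀ (by positivity : (0 : ℝ) < C')).1 hD
    linarith [mul_comm C' (β ^ D)]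
  set R := max r₀ (1 / β) with hR
  have hR1 : 1 / β ≤ R := le_max_right _ _
  have hβ1 : 1 < 1 / β := by rw [lt_div_iff₀ hβ0]; linarith
  have hRpos : 0 < R := by linarith
  refine ⟨f R, D, h0 R hRpos.le, ?_⟩
  have key : ∀ n : ℕ, ∀ r, 1 ≤ r → r ≤ R * (1 / β) ^ n → f r ≤ f R * r ^ D := by
    intro n
    induction n with
    | zero =>
      intro r h1 h2
      have h3 : f r ≤ f R := hmono r R (by linarith) (by simpa using h2)
      have h4 : (1 : ℝ) ≤ r ^ D := one_le_pow₀ h1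
      nlinarith [h0 R hRpos.le]
    | succ n ih =>
      intro r h1 h2
      by_cases hrR : r ≤ R
      · have h3 : f r ≤ f R := hmono r R (by linarith) hrR
        have h4 : (1 : ℝ) ≤ r ^ D := one_le_pow₀ h1
        nlinarith [h0 R hRpos.le]
      · push Not at hrR
        have hb1 : 1 ≤ β * r := by
          have : β * (1 / β) ≤ β * r := by
            apply mul_le_mul_of_nonneg_left _ hβ0.le
            linarith
          rwa [mul_one_div_cancel hβ0.ne'] at this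
        have hb2 : β * r ≤ R * (1 / β) ^ n := by
          have : β * r ≤ β * (R * (1 / β) ^ (n + 1)) := mul_le_mul_of_nonneg_left h2 hβ0.le
          calc β * r ≤ β * (R * (1 / β) ^ (n + 1)) := this
            _ = R * (1 / β) ^ n := by rw [pow_succ]; field_simp
        have h5 := ih (β * r) hb1 hb2
        have h6 : f r ≤ C' * f (β * r) := by
          refine (h r ((le_max_left _ _).trans hrR.le)).trans ?_
          exact mul_le_mul_of_nonneg_right (le_max_left _ _) (h0 _ (by linarith))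
        calc f r ≤ C' * f (β * r) := h6
          _ ≤ C' * (f R * (β * r) ^ D) := mul_le_mul_of_nonneg_left h5 (by linarith)
          _ = (C' * β ^ D) * (f R * r ^ D) := by rw [mul_pow]; ring
          _ ≤ 1 * (f R * r ^ D) := by
            apply mul_le_mul_of_nonneg_right hDC
            have := h0 R hRpos.le
            positivity
          _ = f R * r ^ D := one_mul _
  intro r h1
  obtain ⟨n, hn⟩ := pow_unbounded_of_one_lt (r / R) hβ1
  refine key n r h1 ?_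
  rw [div_lt_iff₀ hRpos] at hn
  linarith [mul_comm R ((1 / β) ^ n)]

/-- `2 ^ ⌊c r⌋` beats every quadratic. -/
theorem exists_pow_floor_gt (c K : ℝ) (hc : 0 < c) :
    ∃ R : ℝ, ∀ r, R ≤ r → K * r ^ 2 < 2 ^ ⌊c * r⌋₊ := by
  have h1 : Filter.Tendsto (fun n : ℕ => ((n : ℝ)) ^ 2 / 2 ^ n) Filter.atTop (nhds 0) :=
    tendsto_pow_const_div_const_pow_of_one_lt 2 (by norm_num)
  -- write `r ≤ (n + 1) / c` with `n = ⌊c r⌋`
  have h2 : ∀ᶠ n : ℕ in Filter.atTop,
      (n : ℝ) ^ 2 / 2 ^ n < 1 / ((|K| + 1) * (4 / c ^ 2)) :=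
    h1.eventually (gt_mem_nhds (by positivity))
  obtain ⟨N, hN⟩ := Filter.eventually_atTop.1 h2
  refine ⟨((N : ℝ) + 1) / c, fun r hr => ?_⟩
  set n := ⌊c * r⌋₊ with hn
  have hcr : (N : ℝ) + 1 ≤ c * r := by
    rw [div_le_iff₀ hc] at hr; linarith
  have hcr0 : 0 ≤ c * r := le_trans (by positivity) hcr
  have hnN : N + 1 ≤ n := Nat.le_floor (by exact_mod_cast hcr)
  have hn1 : c * r < n + 1 := Nat.lt_floor_add_one _
  have hn2 : (1 : ℝ) ≤ n := by
    have : 1 ≤ n := by omega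
    exact_mod_cast this
  have h3 := hN n (by omega)
  have h2n : (0 : ℝ) < 2 ^ n := by positivity
  rw [div_lt_div_iff₀ h2n (by positivity), one_mul] at h3
  -- r ≤ 2 n / c
  have hr2 : r ≤ 2 * n / c := by
    rw [le_div_iff₀ hc]; nlinarith
  have hrpos : 0 ≤ r := by
    by_contra hneg
    push Not at hneg
    have : c * r < 0 := mul_neg_of_pos_of_neg hc hneg
    linarith [Nat.cast_nonneg (α := ℝ) N]
  have hr3 : r ^ 2 ≤ (2 * n / c) ^ 2 := by gcongr
  calc K * r ^ 2 ≤ (|K| + 1) * r ^ 2 := by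
        apply mul_le_mul_of_nonneg_right _ (sq_nonneg r)
        linarith [le_abs_self K]
    _ ≤ (|K| + 1) * (2 * n / c) ^ 2 := by gcongr
    _ = n ^ 2 * ((|K| + 1) * (4 / c ^ 2)) := by field_simp; ring
    _ < 2 ^ n := h3

end Pool.Agent.Stek
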