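import Pool.Agent.Lib.MP_bd8415_an.Branch
import Pool.Agent.Lib.MP_bd8415_an.Growth

/-!
# The two scale inequalities
-/

open Complex Metric Set Filter Topology Bornology

namespace Pool.Agent.Stek

/-- Extracting the square root in the boundary relation. -/
theorem exists_tau {m A A' B B' : ℂ} {σ : ℝ}
    (h : (A' - m * B') ^ 2 = -((σ : ℂ) ^ 2 * m * (A + B) ^ 2)) :
    ∃ τ : ℂ, τ ^ 2 = -m ∧ A' + τ ^ 2 * B' = σ * τ * (A + B) := by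
  obtain ⟨τ₀, hτ₀⟩ := IsAlgClosed.exists_pow_nat_eq (-m) (n := 2) (by norm_num)
  have h1 : (A' + τ₀ ^ 2 * B') ^ 2 = (σ * τ₀ * (A + B)) ^ 2 := by
    have e1 : A' + τ₀ ^ 2 * B' = A' - m * B' := by rw [hτ₀]; ring
    rw [e1, h, mul_pow, mul_pow, hτ₀]
    ring
  rcases sq_eq_sq_iff_eq_or_eq_neg.1 h1 with h2 | h2
  · exact ⟨τ₀, hτ₀, h2⟩
  · refine ⟨-τ₀, by rw [neg_sq, hτ₀], ?_⟩
    rw [neg_sq, h2]
    ring

theorem norm_single_le {τ B B' : ℂ} {σ b : ℝ} (hB : ‖B‖ ≤ b) (hB' : ‖B'‖ ≤ b) :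
    ‖τ ^ 2 * B' - σ * τ * B‖ ≤ (‖τ‖ ^ 2 + |σ| * ‖τ‖) * b := by
  calc ‖τ ^ 2 * B' - σ * τ * B‖ ≤ ‖τ ^ 2 * B'‖ + ‖(σ : ℂ) * τ * B‖ := norm_sub_le _ _
    _ = ‖τ‖ ^ 2 * ‖B'‖ + |σ| * ‖τ‖ * ‖B‖ := by
      rw [norm_mul, norm_mul, norm_mul, norm_pow, Complex.norm_real, Real.norm_eq_abs]
    _ ≤ ‖τ‖ ^ 2 * b + |σ| * ‖τ‖ * b := by gcongr
    _ = _ := by ring

/-- Subtracting the relations on two branches. -/
theorem two_branch {m₁ m₂ A A' B₁ B₁' B₂ B₂' : ℂ} {σ b K₀ : ℝ}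
    (h1 : (A' - m₁ * B₁') ^ 2 = -((σ : ℂ) ^ 2 * m₁ * (A + B₁) ^ 2))
    (h2 : (A' - m₂ * B₂') ^ 2 = -((σ : ℂ) ^ 2 * m₂ * (A + B₂) ^ 2))
    (hB1 : ‖B₁‖ ≤ b) (hB1' : ‖B₁'‖ ≤ b) (hB2 : ‖B₂‖ ≤ b) (hB2' : ‖B₂'‖ ≤ b)
    (hm1 : ‖m₁‖ ≤ K₀) (hm2 : ‖m₂‖ ≤ K₀) :
    |σ| * ‖m₁ - m₂‖ * ‖A‖ ≤ 2 * (1 + 4 * K₀ + |σ|) * (‖m₁‖ + ‖m₂‖) * b := by
  obtain ⟨τ₁, ht1, hr1⟩ := exists_tau h1
  obtain ⟨τ₂, ht2, hr2⟩ := exists_tau h2
  have hb : 0 ≤ b := (norm_nonneg _).trans hB1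
  have hK : 0 ≤ K₀ := (norm_nonneg _).trans hm1
  have n1 : ‖τ₁‖ ^ 2 = ‖m₁‖ := by rw [← norm_pow, ht1, norm_neg]
  have n2 : ‖τ₂‖ ^ 2 = ‖m₂‖ := by rw [← norm_pow, ht2, norm_neg]
  have e1 : σ * (τ₁ - τ₂) * A = (τ₁ ^ 2 * B₁' - σ * τ₁ * B₁) - (τ₂ ^ 2 * B₂' - σ * τ₂ * B₂) := by
    linear_combination hr2 - hr1
  have e2 : |σ| * ‖τ₁ - τ₂‖ * ‖A‖ ≤
      (‖τ₁‖ ^ 2 + |σ| * ‖τ₁‖) * b + (‖τ₂‖ ^ 2 + |σ| * ‖τ₂‖) * b := by
    calc |σ| * ‖τ₁ - τ₂‖ * ‖A‖ = ‖σ * (τ₁ - τ₂) * A‖ := by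
          rw [norm_mul, norm_mul, Complex.norm_real, Real.norm_eq_abs]
      _ ≤ ‖τ₁ ^ 2 * B₁' - σ * τ₁ * B₁‖ + ‖τ₂ ^ 2 * B₂' - σ * τ₂ * B₂‖ := by
          rw [e1]; exact norm_sub_le _ _
      _ ≤ _ := add_le_add (norm_single_le hB1 hB1') (norm_single_le hB2 hB2')
  set x := ‖τ₁‖ with hx
  set y := ‖τ₂‖ with hy
  have hx0 : 0 ≤ x := norm_nonneg _
  have hy0 : 0 ≤ y := norm_nonneg _
  have hσ : 0 ≤ |σ| := abs_nonneg _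
  have e3 : ‖m₁ - m₂‖ ≤ ‖τ₁ - τ₂‖ * (x + y) := by
    have : m₁ - m₂ = -((τ₁ - τ₂) * (τ₁ + τ₂)) := by linear_combination ht1 - ht2
    rw [this, norm_neg, norm_mul]
    exact mul_le_mul_of_nonneg_left (norm_add_le _ _) (norm_nonneg _)
  have hT : x + y ≤ 1 + 4 * K₀ := by
    nlinarith [sq_nonneg (x - 1), sq_nonneg (y - 1), n1, n2]
  have hT2 : (x + y) ^ 2 ≤ 2 * (‖m₁‖ + ‖m₂‖) := by
    nlinarith [sq_nonneg (x - y), n1, n2]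
  calc |σ| * ‖m₁ - m₂‖ * ‖A‖ ≤ |σ| * (‖τ₁ - τ₂‖ * (x + y)) * ‖A‖ := by gcongr
    _ = (|σ| * ‖τ₁ - τ₂‖ * ‖A‖) * (x + y) := by ring
    _ ≤ ((x ^ 2 + |σ| * x) * b + (y ^ 2 + |σ| * y) * b) * (x + y) := by gcongr
    _ ≤ ((x + y) ^ 2 * (x + y + |σ|)) * b := by
      have : ((x ^ 2 + |σ| * x) + (y ^ 2 + |σ| * y)) * (x + y) ≤ (x + y) ^ 2 * (x + y + |σ|) := by
        have h3 : x ^ 2 + y ^ 2 ≤ (x + y) ^ 2 := by nlinarith [mul_nonneg hx0 hy0]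
        nlinarith [mul_nonneg (sub_nonneg.2 h3) (add_nonneg hx0 hy0)]
      calc ((x ^ 2 + |σ| * x) * b + (y ^ 2 + |σ| * y) * b) * (x + y)
          = (((x ^ 2 + |σ| * x) + (y ^ 2 + |σ| * y)) * (x + y)) * b := by ring
        _ ≤ _ := mul_le_mul_of_nonneg_right this hb
    _ ≤ ((2 * (‖m₁‖ + ‖m₂‖)) * (1 + 4 * K₀ + |σ|)) * b := by
      apply mul_le_mul_of_nonneg_right _ hb
      apply mul_le_mul hT2 (by linarith) (by positivity) (by positivity)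
    _ = _ := by ring

/-- Asymptotic data of one branch. -/
theorem branch_facts (M : ℕ) (hM : 1 ≤ M) (c d y : ℤ → ℂ) (α : ℂ) (ha : c M ≠ 0)
    (hd : ∀ j, d j = α * c j + y j) (e : ℤ) (heM : e < M) (heM' : -(M : ℤ) ≤ e)
    (hy : ∀ j, e < j → j ≤ M → (j : ℂ) * y j = 0) {α₁ : ℝ} (hα₁ : ‖α‖ < α₁)
    {ω : ℂ} (hω : ω ^ M = 1) :
    ∃ Y : ℂ → ℂ, Tendsto Y (cobounded ℂ) (𝓝 ω) ∧
      (∀ᶠ t in cobounded ℂ, t * Y t ≠ 0 ∧ lau M c (t * Y t) = c M * t ^ M ∧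
        lau M (fun j => (j : ℂ) * c j) (t * Y t) ≠ 0 ∧
        ‖lau M d (t * Y t)‖ ≤ α₁ * ‖c M * t ^ M‖) ∧
      Tendsto (fun t => lau M d (t * Y t) / (c M * t ^ M)) (cobounded ℂ) (𝓝 α) ∧
      Tendsto (fun t => (lau M (fun j => (j : ℂ) * d j) (t * Y t) /
        lau M (fun j => (j : ℂ) * c j) (t * Y t) - α) / t ^ (e - M)) (cobounded ℂ)
        (𝓝 ((e : ℂ) * y e / (M * c M) * ω ^ e)) := by
  have hω0 : ω ≠ 0 := by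
    rintro rfl
    rw [zero_pow (by omega)] at hω
    exact zero_ne_one hω
  have hMC : (M : ℂ) ≠ 0 := by exact_mod_cast (by omega : M ≠ 0)
  have hωM : ω ^ (M : ℤ) = 1 := by rw [zpow_natCast, hω]
  obtain ⟨Y, hY, hYeq⟩ := exists_branch M hM c ha hω
  have hne : ∀ᶠ t : ℂ in cobounded ℂ, t ≠ 0 := eventually_ne_cobounded 0
  -- `d` leading
  have hyM : y M = 0 := by
    have h1 := hy M heM le_rfl
    push_cast at h1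
    exact (mul_eq_zero.1 h1).resolve_left hMC
  have hdM : d M = α * c M := by rw [hd, hyM, add_zero]
  have hlimd : Tendsto (fun t => lau M d (t * Y t) / (c M * t ^ M)) (cobounded ℂ) (𝓝 α) := by
    have h1 := tendsto_lau M d M (fun j h1 h2 => absurd h1 (not_lt.2 h2)) (by simp) hY hω0
    have h2 := h1.div_const (c M)
    rw [hωM, mul_one, hdM, mul_div_cancel_right₀ _ ha] at h2
    refine h2.congr fun t => ?_
    rw [zpow_natCast, div_div, mul_comm (t ^ M)]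
  -- `ζ p'`
  have hlimp : Tendsto (fun t => lau M (fun j => (j : ℂ) * c j) (t * Y t) / t ^ (M : ℤ))
      (cobounded ℂ) (𝓝 (M * c M)) := by
    have h1 := tendsto_lau M (fun j => (j : ℂ) * c j) M
      (fun j h1 h2 => absurd h1 (not_lt.2 h2)) (by simp) hY hω0
    rw [hωM, mul_one] at h1
    exact_mod_cast h1
  have hlimy : Tendsto (fun t => lau M (fun j => (j : ℂ) * y j) (t * Y t) / t ^ e)
      (cobounded ℂ) (𝓝 ((e : ℂ) * y e * ω ^ e)) :=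
    tendsto_lau M (fun j => (j : ℂ) * y j) e (fun j h1 h2 => hy j h1 h2)
      (by simp only [Finset.mem_Icc]; omega) hY hω0
  have hp0 : ∀ᶠ t in cobounded ℂ, lau M (fun j => (j : ℂ) * c j) (t * Y t) / t ^ (M : ℤ) ≠ 0 :=
    hlimp.eventually_ne (mul_ne_zero hMC ha)
  have hdy : ∀ ζ, lau M (fun j => (j : ℂ) * d j) ζ =
      α * lau M (fun j => (j : ℂ) * c j) ζ + lau M (fun j => (j : ℂ) * y j) ζ := by
    intro ζ
    simp only [lau]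
    rw [Finset.mul_sum, ← Finset.sum_add_distrib]
    apply Finset.sum_congr rfl
    intro j _
    rw [hd]
    ring
  refine ⟨Y, hY, ?_, hlimd, ?_⟩
  · have h3 : ∀ᶠ t in cobounded ℂ, ‖lau M d (t * Y t) / (c M * t ^ M)‖ < α₁ :=
      hlimd.norm.eventually (gt_mem_nhds hα₁)
    filter_upwards [hne, hYeq, hp0, h3, hY.eventually_ne hω0] with t ht h1 h2 h3 h4
    refine ⟨mul_ne_zero ht h4, h1, fun h => h2 (by rw [h, zero_div]), ?_⟩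
    have h5 : c M * t ^ M ≠ 0 := mul_ne_zero ha (pow_ne_zero _ ht)
    rw [norm_div, div_lt_iff₀ (norm_pos_iff.2 h5)] at h3
    exact h3.le
  · have h3 := hlimy.div hlimp (mul_ne_zero hMC ha)
    have h4 : (e : ℂ) * y e * ω ^ e / (M * c M) = (e : ℂ) * y e / (M * c M) * ω ^ e := by ring
    rw [h4] at h3
    refine h3.congr' ?_
    filter_upwards [hne, hp0] with t ht h5
    have h6 : lau M (fun j => (j : ℂ) * c j) (t * Y t) ≠ 0 := fun h => h5 (by rw [h, zero_div])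
    rw [hdy, zpow_sub₀ ht]
    have h7 : t ^ e ≠ 0 := zpow_ne_zero _ ht
    have h8 : t ^ (M : ℤ) ≠ 0 := zpow_ne_zero _ ht
    simp only [Pi.div_apply]
    field_simp
    ring

end Pool.Agent.Stek
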