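import Mathlib

/-!
# Countable sets: isolated points, removable singularities, generic segments
-/

open Complex Metric Set Filter Topology

namespace Pool.Agent.Stek

/-- A nonempty countable locally closed subset of the plane has an isolated point. -/
theorem exists_isolated {N : Set ℂ} (hc : N.Countable) (hl : IsLocallyClosed N)
    (hne : N.Nonempty) : ∃ x ∈ N, ∀ᶠ y in 𝓝[≠] x, y ∉ N := by
  have : LocallyCompactSpace N := hl.locallyCompactSpace
  have : Nonempty N := hne.to_subtype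
  have : Countable N := hc.to_subtype
  obtain ⟨x, hx⟩ := nonempty_interior_of_iUnion_of_closed (X := N) (f := fun x : N => ({x} : Set N))
    (fun x => isClosed_singleton) (by ext y; simp)
  obtain ⟨y, hy⟩ := hx
  have hyx : y = x := by simpa using interior_subset hy
  subst hyx
  refine ⟨y.1, y.2, ?_⟩
  have h1 : ({y} : Set N) ∈ 𝓝 y := mem_interior_iff_mem_nhds.1 hy
  rw [mem_nhds_subtype] at h1
  obtain ⟨u, hu, hsub⟩ := h1
  rw [eventually_nhdsWithin_iff]
  filter_upwards [hu] with z hz hzy hzN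
  apply hzy
  have h2 : (⟨z, hzN⟩ : N) ∈ ({y} : Set N) := hsub hz
  have h3 : (⟨z, hzN⟩ : N) = y := by simpa using h2
  rw [← h3]
  rfl

/-- Cantor–Bendixson induction. -/
theorem cb_induction {D : Set ℂ} (hD : IsOpen D) {P : ℂ → Prop}
    (hopen : ∀ x ∈ D, P x → ∀ᶠ y in 𝓝 x, P y) (hc : {x | x ∈ D ∧ ¬ P x}.Countable)
    (hstep : ∀ x ∈ D, (∀ᶠ y in 𝓝[≠] x, P y) → P x) : ∀ x ∈ D, P x := by
  by_contra hcon
  push Not at hcon
  obtain ⟨x₀, hx₀, hPx₀⟩ := hcon
  have hl : IsLocallyClosed {x | x ∈ D ∧ ¬ P x} := by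
    have h1 : IsOpen {x | x ∈ D ∧ P x} := by
      rw [isOpen_iff_mem_nhds]
      rintro x ⟨hx, hPx⟩
      filter_upwards [hD.mem_nhds hx, hopen x hx hPx] with y h1 h2 using ⟨h1, h2⟩
    have h2 : {x | x ∈ D ∧ ¬ P x} = D ∩ {x | x ∈ D ∧ P x}ᶜ := by
      ext x
      simp only [mem_ofPred_eq, mem_inter_iff, mem_compl_iff]
      tauto
    rw [h2]
    exact hD.isLocallyClosed.inter h1.isClosed_compl.isLocallyClosed
  obtain ⟨x, ⟨hx, hPx⟩, hiso⟩ := exists_isolated hc hl ⟨x₀, hx₀, hPx₀⟩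
  apply hPx
  apply hstep x hx
  filter_upwards [hiso, nhdsWithin_le_nhds (hD.mem_nhds hx)] with y h1 h2
  by_contra h3
  exact h1 ⟨h2, h3⟩

/-- The complement of a countable set clusters everywhere. -/
theorem neBot_compl {F : Set ℂ} (hF : F.Countable) (x : ℂ) : (𝓝[Fᶜ] x).NeBot := by
  rw [← mem_closure_iff_nhdsWithin_neBot]
  have : Dense Fᶜ := hF.dense_compl ℝ
  exact this x

/-- The extension by limits. -/
noncomputable def ext (F : Set ℂ) (f : ℂ → ℂ) (x : ℂ) : ℂ :=
  @limUnder _ _ _ ⟨0⟩ (𝓝[Fᶜ] x) f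

theorem ext_eq {F : Set ℂ} (hF : F.Countable) {f : ℂ → ℂ} {x L : ℂ}
    (h : Tendsto f (𝓝[Fᶜ] x) (𝓝 L)) : ext F f x = L := by
  have := neBot_compl hF x
  exact h.limUnder_eq

/-- If an analytic function agrees with `f` off `F` near `x`, then it is the extension near `x`. -/
theorem ext_eventuallyEq {F : Set ℂ} (hF : F.Countable) {f g : ℂ → ℂ} {x : ℂ}
    (hg : AnalyticAt ℂ g x) (hfg : ∀ᶠ y in 𝓝 x, y ∉ F → g y = f y) : ext F f =ᶠ[𝓝 x] g := by
  filter_upwards [hg.eventually_analyticAt, hfg.eventually_nhds] with y h1 h2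
  apply ext_eq hF
  have h3 : Tendsto g (𝓝[Fᶜ] y) (𝓝 (g y)) := h1.continuousAt.tendsto.mono_left nhdsWithin_le_nhds
  refine h3.congr' ?_
  rw [Filter.EventuallyEq, eventually_nhdsWithin_iff]
  filter_upwards [h2] with z hz hzF using hz hzF

/-- Removable singularities: countable closed exceptional sets, bounded functions. -/
theorem ext_analyticAt {F D : Set ℂ} (hF : F.Countable) (hFc : IsClosed F) (hD : IsOpen D)
    {f : ℂ → ℂ} (hf : DifferentiableOn ℂ f (D \ F)) {M : ℝ} (hM : ∀ z ∈ D \ F, ‖f z‖ ≤ M) :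
    ∀ x ∈ D, AnalyticAt ℂ (ext F f) x ∧ ∀ᶠ y in 𝓝 x, y ∉ F → ext F f y = f y := by
  have hDF : IsOpen (D \ F) := hD.sdiff hFc
  have hfa : ∀ x ∈ D \ F, AnalyticAt ℂ f x := fun x hx => hf.analyticAt (hDF.mem_nhds hx)
  have main : ∀ x ∈ D, ∃ g : ℂ → ℂ, AnalyticAt ℂ g x ∧ ∀ᶠ y in 𝓝 x, y ∉ F → g y = f y := by
    apply cb_induction hD (P := fun x => ∃ g : ℂ → ℂ, AnalyticAt ℂ g x ∧
      ∀ᶠ y in 𝓝 x, y ∉ F → g y = f y)
    · rintro x hx ⟨g, hg, hgf⟩
      filter_upwards [hg.eventually_analyticAt, hgf.eventually_nhds] with y h1 h2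
      exact ⟨g, h1, h2⟩
    · refine hF.mono ?_
      rintro x ⟨hx, hn⟩
      by_contra hxF
      exact hn ⟨f, hfa x ⟨hx, hxF⟩, Eventually.of_forall fun y _ => rfl⟩
    · intro x hx hev
      by_cases hxF : x ∈ F
      swap
      · exact ⟨f, hfa x ⟨hx, hxF⟩, Eventually.of_forall fun y _ => rfl⟩
      have hev2 : ∀ᶠ y in 𝓝 x, y ∈ D ∧ (y ≠ x → ∃ g : ℂ → ℂ, AnalyticAt ℂ g y ∧
          ∀ᶠ z in 𝓝 y, z ∉ F → g z = f z) := by
        filter_upwards [hD.mem_nhds hx, eventually_nhdsWithin_iff.1 hev] with y h1 h2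
        exact ⟨h1, h2⟩
      obtain ⟨ε, hε, hball⟩ := Metric.eventually_nhds_iff_ball.1 hev2
      have hd : DifferentiableOn ℂ (ext F f) (ball x ε \ {x}) := by
        intro y hy
        obtain ⟨g, hg, hgf⟩ := (hball y hy.1).2 hy.2
        have := ext_eventuallyEq hF hg hgf
        exact (hg.differentiableAt.congr_of_eventuallyEq this).differentiableWithinAt
      have hb : BddAbove (norm ∘ ext F f '' (ball x ε \ {x})) := by
        refine ⟨M, ?_⟩
        rintro _ ⟨y, hy, rfl⟩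
        obtain ⟨g, hg, hgf⟩ := (hball y hy.1).2 hy.2
        have h1 := (ext_eventuallyEq hF hg hgf).eq_of_nhds
        have := neBot_compl hF y
        have h2 : Tendsto (fun z => ‖g z‖) (𝓝[Fᶜ] y) (𝓝 ‖g y‖) :=
          (hg.continuousAt.tendsto.mono_left nhdsWithin_le_nhds).norm
        show ‖ext F f y‖ ≤ M
        rw [h1]
        apply le_of_tendsto h2
        rw [eventually_nhdsWithin_iff]
        filter_upwards [hgf, hD.mem_nhds (hball y hy.1).1] with z h3 h4 h5
        rw [h3 h5]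
        exact hM z ⟨h4, h5⟩
      have h1 := differentiableOn_update_limUnder_of_bddAbove (ball_mem_nhds x hε) hd hb
      refine ⟨_, h1.analyticAt (ball_mem_nhds x hε), ?_⟩
      filter_upwards [ball_mem_nhds x hε] with y hy hyF
      have hyx : y ≠ x := fun h => hyF (h ▸ hxF)
      rw [Function.update_of_ne hyx]
      obtain ⟨g, hg, hgf⟩ := (hball y hy).2 hyx
      rw [(ext_eventuallyEq hF hg hgf).eq_of_nhds]
      exact hgf.self_of_nhds hyF
  intro x hx
  obtain ⟨g, hg, hgf⟩ := main x hx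
  have h := ext_eventuallyEq hF hg hgf
  refine ⟨hg.congr h.symm, ?_⟩
  filter_upwards [h, hgf] with y h1 h2 h3
  rw [h1, h2 h3]

/-- The zero set of an analytic function that vanishes identically near no point is countable. -/
theorem countable_zeros {W : Set ℂ} {f : ℂ → ℂ}
    (h : ∀ x ∈ W, ∀ᶠ y in 𝓝[≠] x, f y ≠ 0) : {x | x ∈ W ∧ f x = 0}.Countable := by
  have : DiscreteTopology {x | x ∈ W ∧ f x = 0} := by
    rw [discreteTopology_subtype_iff]
    rintro x ⟨hx, -⟩
    rw [← disjoint_iff, Filter.disjoint_principal_right]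
    filter_upwards [h x hx] with y hy hy2
    exact hy hy2.2
  have h2 : Countable {x | x ∈ W ∧ f x = 0} := TopologicalSpace.separableSpace_iff_countable.1
    inferInstance
  exact h2

end Pool.Agent.Stek
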