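import Pool.Agent.Lib.MP_bd8415_an.Final

/-!
# Hopf lemma for entire harmonic functions, sign of the eigenvalue, no holes
-/

open Complex Metric Set Filter Topology Bornology

namespace Pool.Agent.Stek

/-- Moving from a zero of `ρ` in a direction of decrease. -/
theorem ray_neg {ρ : ℂ → ℝ} {z e : ℂ} (hρ : DifferentiableAt ℝ ρ z) (hz : ρ z = 0)
    (he : fderiv ℝ ρ z e < 0) : ∀ᶠ t : ℝ in 𝓝[>] 0, ρ (z + t * e) < 0 := by
  have h1 : HasDerivAt (fun t : ℝ => z + t * e) e 0 := by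
    have := (Complex.ofRealCLM.hasDerivAt (x := (0 : ℝ))).mul_const e
    simpa using this.const_add z
  have h2 : HasFDerivAt ρ (fderiv ℝ ρ z) ((fun t : ℝ => z + t * e) 0) := by
    simpa using hρ.hasFDerivAt
  have h3 := h2.comp_hasDerivAt (0 : ℝ) h1
  rw [hasDerivAt_iff_tendsto_slope] at h3
  have h4 := h3.eventually (gt_mem_nhds he)
  have h5 : ∀ᶠ t : ℝ in 𝓝[>] 0, slope (ρ ∘ fun t : ℝ => z + t * e) 0 t < 0 :=
    h4.filter_mono (nhdsWithin_mono 0 (fun t (ht : 0 < t) => ne_of_gt ht))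
  filter_upwards [h5, self_mem_nhdsWithin] with t ht ht0
  have ht0' : (0 : ℝ) < t := ht0
  rw [slope_def_field] at ht
  simp only [Function.comp_apply, Complex.ofReal_zero, zero_mul, add_zero, hz, sub_zero] at ht
  by_contra hcon
  push Not at hcon
  exact absurd ht (not_lt.2 (div_nonneg hcon ht0'.le))

/-- Hopf lemma: at a boundary maximum of the real part of a nonconstant entire function the
outward normal derivative is positive. -/
theorem hopf {ρ : ℂ → ℝ} {z : ℂ} (hρ : DifferentiableAt ℝ ρ z) (hz : ρ z = 0)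
    (hg : grad ρ z ≠ 0) {G : ℂ → ℂ} (hG : Differentiable ℂ G) (hnc : ∃ a b, G a ≠ G b)
    (hmax : ∀ᶠ w in 𝓝 z, ρ w < 0 → (G w).re ≤ (G z).re) :
    0 < (deriv G z * grad ρ z).re := by
  by_contra hcon
  push Not at hcon
  set g := grad ρ z with hgdef
  -- factor `G - G z`
  have hGa : AnalyticAt ℂ (fun w => G w - G z) z := (hG.sub_const _).analyticAt z
  have hne : ¬ ∀ᶠ w in 𝓝 z, G w - G z = 0 := by
    intro h
    have h1 : EqOn (fun w => G w - G z) 0 univ :=
      AnalyticOnNhd.eqOn_zero_of_preconnected_of_eventuallyEq_zero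
        (fun w _ => (hG.sub_const _).analyticAt w) isPreconnected_univ (mem_univ z) h
    obtain ⟨a, b, hab⟩ := hnc
    apply hab
    have ha := h1 (mem_univ a)
    have hb := h1 (mem_univ b)
    simp only [Pi.zero_apply, sub_eq_zero] at ha hb
    rw [ha, hb]
  obtain ⟨m, A, hA, hAz, hAe⟩ := hGa.exists_eventuallyEq_pow_smul_nonzero_iff.2 hne
  have hm : 1 ≤ m := by
    rcases Nat.eq_zero_or_pos m with h | h
    · exfalso
      have := hAe.self_of_nhds
      rw [h] at this
      simp at this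
      exact hAz this.symm
    · exact h
  have hgn : 0 < ‖g‖ := norm_pos_iff.2 hg
  set e₀ : ℂ := -g / (‖g‖ : ℂ) with he₀
  have hgC : ((‖g‖ : ℝ) : ℂ) ≠ 0 := by exact_mod_cast hgn.ne'
  have he₀0 : e₀ ≠ 0 := div_ne_zero (neg_ne_zero.2 hg) hgC
  set B : ℂ := e₀ ^ m * A z with hB
  have hB0 : B ≠ 0 := mul_ne_zero (pow_ne_zero _ he₀0) hAz
  set β := Complex.arg B with hβ
  -- bound for `β / m`
  have hmR : (0 : ℝ) < m := by exact_mod_cast hm
  have hβm : |β| / m ≤ Real.pi / 2 := by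
    rcases Nat.lt_or_ge 1 m with h2 | h2
    · have h3 : |β| ≤ Real.pi := Complex.abs_arg_le_pi B
      have h4 : (2 : ℝ) ≤ m := by exact_mod_cast h2
      rw [div_le_iff₀ hmR]
      nlinarith [Real.pi_pos]
    · have h5 : m = 1 := by omega
      have hd : deriv G z = A z := by
        have h6 : HasDerivAt (fun w => (w - z) ^ 1 * A w) (A z) z := by
          have := (((hasDerivAt_id z).sub_const z).fun_pow 1).fun_mul hA.differentiableAt.hasDerivAt
          simpa using this
        have h7 : (fun w => G w - G z) =ᶠ[𝓝 z] fun w => (w - z) ^ 1 * A w := by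
          filter_upwards [hAe] with w hw
          rw [hw, h5, smul_eq_mul]
        have h8 := h7.deriv_eq
        rw [h6.deriv, deriv_sub_const] at h8
        exact h8
      have hre : 0 ≤ B.re := by
        have h9 : B = -(((‖g‖ : ℝ)⁻¹ : ℝ) : ℂ) * (deriv G z * g) := by
          rw [hB, he₀, h5, pow_one, hd]
          push_cast
          field_simp
        rw [h9, neg_mul, Complex.neg_re, Complex.re_ofReal_mul]
        have : 0 ≤ ‖g‖⁻¹ := by positivity
        nlinarith
      have h10 := Complex.abs_arg_le_pi_div_two_iff.2 hre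
      rw [h5, Nat.cast_one, div_one]
      exact h10
  set δ : ℝ := -(3 / 4) * β / m with hδ
  set e : ℂ := e₀ * Complex.exp (δ * I) with he
  -- `e` is a direction of decrease
  have hcos : 0 < Real.cos δ := by
    apply Real.cos_pos_of_mem_Ioo
    have h1 : |δ| = 3 / 4 * (|β| / m) := by
      rw [hδ, abs_div, abs_mul, abs_neg, abs_of_pos (show (0 : ℝ) < 3 / 4 by norm_num),
        abs_of_pos hmR]
      ring
    have h2 : |δ| < Real.pi / 2 := by
      rw [h1]
      nlinarith [Real.pi_pos]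
    exact ⟨by linarith [(abs_lt.1 h2).1], (abs_lt.1 h2).2⟩
  have hdir : fderiv ℝ ρ z e < 0 := by
    rw [fderiv_eq_grad, ← hgdef]
    have h1 : g.re * e.re + g.im * e.im = ((starRingEnd ℂ) g * e).re := by
      simp [Complex.mul_re]
    rw [h1]
    have h2 : (starRingEnd ℂ) g * e = ((-‖g‖ : ℝ) : ℂ) * Complex.exp (δ * I) := by
      have h3 : (starRingEnd ℂ) g * g = ((‖g‖ ^ 2 : ℝ) : ℂ) := by
        rw [mul_comm, Complex.mul_conj, Complex.normSq_eq_norm_sq]
      rw [he, he₀]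
      have h4 : (starRingEnd ℂ) g * (-g / (‖g‖ : ℂ) * Complex.exp (δ * I)) =
        -((starRingEnd ℂ) g * g) / (‖g‖ : ℂ) * Complex.exp (δ * I) := by ring
      rw [h4, h3]
      push_cast
      field_simp
    rw [h2, Complex.re_ofReal_mul, Complex.exp_ofReal_mul_I_re]
    nlinarith
  -- along the ray
  have hray := ray_neg hρ hz hdir
  have hlim : Tendsto (fun t : ℝ => z + t * e) (𝓝[>] 0) (𝓝 z) := by
    have h1 : Continuous (fun t : ℝ => z + t * e) := by fun_prop
    have h2 := h1.tendsto 0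
    simp only [Complex.ofReal_zero, zero_mul, add_zero] at h2
    exact h2.mono_left nhdsWithin_le_nhds
  have hpos : 0 < (e ^ m * A z).re := by
    have h1 : e ^ m * A z = B * Complex.exp ((m * δ : ℝ) * I) := by
      rw [he, mul_pow, hB, ← Complex.exp_nat_mul]
      push_cast
      ring_nf
    have h2 : B = (‖B‖ : ℂ) * Complex.exp (β * I) := (Complex.norm_mul_exp_arg_mul_I B).symm
    have h3 : (m : ℝ) * δ = -(3 / 4) * β := by
      rw [hδ]; field_simp
    rw [h1, h3, h2, mul_assoc, ← Complex.exp_add]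
    have h4 : (β : ℂ) * I + ((-(3 / 4) * β : ℝ) : ℂ) * I = ((β / 4 : ℝ) : ℂ) * I := by
      push_cast; ring
    rw [h4, Complex.re_ofReal_mul, Complex.exp_ofReal_mul_I_re]
    apply mul_pos (norm_pos_iff.2 hB0)
    apply Real.cos_pos_of_mem_Ioo
    have h5 : |β| ≤ Real.pi := Complex.abs_arg_le_pi B
    have h6 := abs_le.1 h5
    constructor <;> linarith [Real.pi_pos, h6.1, h6.2]
  have hcont : ContinuousAt (fun w => (e ^ m * A w).re) z :=
    Complex.continuous_re.continuousAt.comp (continuousAt_const.mul hA.continuousAt)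
  have h1 := hlim.eventually (hcont.eventually (lt_mem_nhds hpos))
  have h2 := hlim.eventually hmax
  have h3 := hlim.eventually hAe
  obtain ⟨t, ⟨⟨⟨t1, t2⟩, t3⟩, t4⟩, t5⟩ := ((((hray.and h1).and h2).and h3).and
    self_mem_nhdsWithin).exists
  have t5' : (0 : ℝ) < t := t5
  have h4 := t3 t1
  have h5 : (G (z + t * e) - G z).re ≤ 0 := by rw [Complex.sub_re]; linarith
  have h6 : G (z + t * e) - G z = ((t ^ m : ℝ) : ℂ) * (e ^ m * A (z + t * e)) := by
    rw [t4, smul_eq_mul]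
    push_cast
    ring
  rw [h6, Complex.re_ofReal_mul] at h5
  have h7 : 0 < t ^ m * (e ^ m * A (z + t * e)).re := mul_pos (pow_pos t5' m) t2
  linarith

/-- Zero gradient of `-ρ`. -/
theorem grad_neg (ρ : ℂ → ℝ) (z : ℂ) : grad (fun w => -ρ w) z = -grad ρ z := by
  simp only [grad, fderiv_fun_neg]
  simp
  ring

/-- The eigenvalue is positive. -/
theorem sigma_pos {ρ : ℂ → ℝ} (hρ : Differentiable ℝ ρ)
    (hgrad : ∀ z, ρ z = 0 → fderiv ℝ ρ z ≠ 0) (hbdd : IsBounded {z : ℂ | ρ z < 0})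
    {G : ℂ → ℂ} (hG : Differentiable ℂ G) {σ : ℝ}
    (hbc : ∀ z, ρ z = 0 → (deriv G z * grad ρ z).re = σ * (G z).re * ‖grad ρ z‖)
    (hne : ∃ z w, ρ z < 0 ∧ ρ w < 0 ∧ (G z).re ≠ (G w).re) : 0 < σ := by
  obtain ⟨a, b, ha, hb, hab⟩ := hne
  have hnc : ∃ a b, G a ≠ G b := ⟨a, b, fun h => hab (by rw [h])⟩
  have hopen : IsOpen {z : ℂ | ρ z < 0} := isOpen_lt hρ.continuous continuous_const
  have key : ∀ K : ℂ → ℂ, Differentiable ℂ K → (∃ a b, K a ≠ K b) → ∃ z, ρ z = 0 ∧
      (∀ w, ρ w < 0 → (K w).re ≤ (K z).re) ∧ 0 < (deriv K z * grad ρ z).re := by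
    intro K hK hKnc
    obtain ⟨z, hz, hzm⟩ := Complex.exists_mem_frontier_isMaxOn_norm hbdd ⟨a, ha⟩
      (f := fun w => Complex.exp (K w)) (hK.cexp).diffContOnCl
    have hz0 : ρ z = 0 := frontier_lt_subset_eq hρ.continuous continuous_const hz
    have hm : ∀ w, ρ w < 0 → (K w).re ≤ (K z).re := by
      intro w hw
      have h1 : ‖Complex.exp (K w)‖ ≤ ‖Complex.exp (K z)‖ := hzm (subset_closure hw)
      rw [Complex.norm_exp, Complex.norm_exp, Real.exp_le_exp] at h1
      exact h1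
    exact ⟨z, hz0, hm, hopf (hρ z) hz0 (grad_ne_zero (hgrad z hz0)) hK hKnc
      (Eventually.of_forall fun w hw => hm w hw)⟩
  obtain ⟨z₁, hz₁, hm₁, hp₁⟩ := key G hG hnc
  obtain ⟨z₂, hz₂, hm₂, hp₂⟩ := key (fun w => -G w) hG.neg (by
    obtain ⟨a, b, hab⟩ := hnc
    exact ⟨a, b, fun h => hab (neg_injective h)⟩)
  have hd : deriv (fun w => -G w) z₂ = -deriv G z₂ := by simp
  rw [hd, neg_mul, Complex.neg_re, hbc z₂ hz₂] at hp₂
  rw [hbc z₁ hz₁] at hp₁
  have n1 : 0 < ‖grad ρ z₁‖ := norm_pos_iff.2 (grad_ne_zero (hgrad z₁ hz₁))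
  have n2 : 0 < ‖grad ρ z₂‖ := norm_pos_iff.2 (grad_ne_zero (hgrad z₂ hz₂))
  have s1 : 0 < σ * (G z₁).re := by
    by_contra h; push Not at h; nlinarith
  have s2 : σ * (G z₂).re < 0 := by
    by_contra h; push Not at h; nlinarith
  have hle : (G z₂).re ≤ (G z₁).re := by
    have e1 := hm₁ a ha
    have e2 := hm₂ a ha
    simp only [Complex.neg_re] at e2
    linarith
  by_contra hcon
  push Not at hcon
  nlinarith

/-- Local structure of the positive side. -/
theorem local_push {ρ : ℂ → ℝ} (hρ : ContDiff ℝ 1 ρ) {z : ℂ} (hz : ρ z = 0)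
    (hd : fderiv ℝ ρ z ≠ 0) : ∃ v : ℂ, ∃ η > 0, (∀ p ∈ ball (z + v) η, 0 < ρ p) ∧
      ∀ w ∈ ball z η, 0 < ρ w → ∀ t ∈ Icc (0 : ℝ) 1, 0 < ρ (w + t * v) := by
  have hρd : Differentiable ℝ ρ := hρ.differentiable (by simp)
  set g := grad ρ z with hg
  have hg0 := grad_ne_zero hd
  have hgn : 0 < ‖g‖ := norm_pos_iff.2 hg0
  have hdg : 0 < fderiv ℝ ρ z g := by
    rw [fderiv_eq_grad, ← hg]
    have h1 : g.re * g.re + g.im * g.im = ‖g‖ ^ 2 := by
      rw [← Complex.normSq_eq_norm_sq, Complex.normSq_apply]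
    rw [h1]; positivity
  have hcont : Continuous (fun w => fderiv ℝ ρ w g) :=
    (hρ.continuous_fderiv (by simp)).clm_apply continuous_const
  obtain ⟨r, hr, hball⟩ := Metric.eventually_nhds_iff_ball.1
    (hcont.continuousAt.eventually (lt_mem_nhds hdg))
  set s₀ : ℝ := r / (4 * ‖g‖) with hs₀
  have hs₀0 : 0 < s₀ := by positivity
  have hs₀g : s₀ * ‖g‖ = r / 4 := by rw [hs₀]; field_simp
  -- monotonicity
  have hmono : ∀ w ∈ ball z (r / 2), ∀ t ∈ Icc (0 : ℝ) 1, ρ w ≤ ρ (w + t * (s₀ * g)) ∧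
      (0 < t → ρ w < ρ (w + t * (s₀ * g))) := by
    intro w hw t ht
    have hline : ∀ u : ℝ, HasDerivAt (fun u : ℝ => w + u * (s₀ * g)) (s₀ * g) u := by
      intro u
      have := (Complex.ofRealCLM.hasDerivAt (x := u)).mul_const (s₀ * g)
      simpa using this.const_add w
    have hder : ∀ u : ℝ, HasDerivAt (fun u : ℝ => ρ (w + u * (s₀ * g)))
        (s₀ * fderiv ℝ ρ (w + u * (s₀ * g)) g) u := by
      intro u
      have h1 := (hρd (w + u * (s₀ * g))).hasFDerivAt.comp_hasDerivAt u (hline u)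
      have h2 : fderiv ℝ ρ (w + u * (s₀ * g)) (s₀ * g) =
          s₀ * fderiv ℝ ρ (w + u * (s₀ * g)) g := by
        have : (s₀ : ℂ) * g = s₀ • g := by rw [Complex.real_smul]
        rw [this, map_smul, smul_eq_mul]
      rw [h2] at h1
      exact h1
    have hin : ∀ u ∈ Icc (0 : ℝ) 1, w + u * (s₀ * g) ∈ ball z r := by
      intro u hu
      rw [mem_ball, dist_eq_norm]
      have h1 : ‖w - z‖ < r / 2 := by rwa [mem_ball, dist_eq_norm] at hw
      have h2 : ‖(u : ℂ) * (s₀ * g)‖ ≤ r / 4 := by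
        rw [norm_mul, norm_mul, Complex.norm_real, Complex.norm_real, Real.norm_eq_abs,
          Real.norm_eq_abs, abs_of_nonneg hu.1, abs_of_pos hs₀0, hs₀g]
        nlinarith [hu.2]
      calc ‖w + u * (s₀ * g) - z‖ = ‖(w - z) + u * (s₀ * g)‖ := by ring_nf
        _ ≤ ‖w - z‖ + ‖(u : ℂ) * (s₀ * g)‖ := norm_add_le _ _
        _ < r := by linarith
    have hsm : StrictMonoOn (fun u : ℝ => ρ (w + u * (s₀ * g))) (Icc 0 1) := by
      apply strictMonoOn_of_deriv_pos (convex_Icc 0 1)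
      · exact fun u _ => (hder u).continuousAt.continuousWithinAt
      · intro u hu
        rw [interior_Icc] at hu
        rw [(hder u).deriv]
        exact mul_pos hs₀0 (hball _ (hin u ⟨hu.1.le, hu.2.le⟩))
    have h0 : (fun u : ℝ => ρ (w + u * (s₀ * g))) 0 = ρ w := by simp
    constructor
    · rw [← h0]
      exact hsm.monotoneOn ⟨le_rfl, zero_le_one⟩ ht ht.1
    · intro ht0
      rw [← h0]
      exact hsm ⟨le_rfl, zero_le_one⟩ ht ht0
  have hz1 : 0 < ρ (z + s₀ * g) := by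
    have := (hmono z (mem_ball_self (by positivity)) 1 ⟨zero_le_one, le_rfl⟩).2 one_pos
    rw [hz] at this
    simpa using this
  obtain ⟨η₁, hη₁, hball₁⟩ := Metric.eventually_nhds_iff_ball.1
    (hρ.continuous.continuousAt.eventually (lt_mem_nhds hz1))
  refine ⟨s₀ * g, min η₁ (r / 2), lt_min hη₁ (by positivity), ?_, ?_⟩
  · intro p hp
    exact hball₁ p (ball_subset_ball (min_le_left _ _) hp)
  · intro w hw hw0 t ht
    exact hw0.trans_le (hmono w (ball_subset_ball (min_le_right _ _) hw) t ht).1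

/-- A component of the positive set contains the whole positive side near a boundary point. -/
theorem comp_local {ρ : ℂ → ℝ} (hρ : ContDiff ℝ 1 ρ) {z y : ℂ} (hz : ρ z = 0)
    (hd : fderiv ℝ ρ z ≠ 0) (hy : 0 < ρ y)
    (hzK : z ∈ closure (connectedComponentIn {x : ℂ | 0 < ρ x} y)) :
    ∀ᶠ w in 𝓝 z, 0 < ρ w → w ∈ connectedComponentIn {x : ℂ | 0 < ρ x} y := by
  obtain ⟨v, η, hη, hN, hseg⟩ := local_push hρ hz hd
  -- connected sets
  have hS : ∀ w ∈ ball z η, 0 < ρ w → ∃ S : Set ℂ, IsPreconnected S ∧ w ∈ S ∧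
      ball (z + v) η ⊆ S ∧ S ⊆ {x : ℂ | 0 < ρ x} := by
    intro w hw hw0
    refine ⟨((fun t : ℝ => w + t * v) '' Icc 0 1) ∪ ball (z + v) η, ?_, ?_, subset_union_right, ?_⟩
    · apply IsPreconnected.union (w + v)
      · exact ⟨1, ⟨zero_le_one, le_rfl⟩, by simp⟩
      · rw [mem_ball, dist_eq_norm] at hw ⊢
        have : w + v - (z + v) = w - z := by ring
        rwa [this]
      · exact isPreconnected_Icc.image _ (by fun_prop)
      · exact (convex_ball _ _).isPreconnected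
    · left
      exact ⟨0, ⟨le_rfl, zero_le_one⟩, by simp⟩
    · rintro x (⟨t, ht, rfl⟩ | hx)
      · exact hseg w hw hw0 t ht
      · exact hN x hx
  obtain ⟨w', hw', hw'K⟩ : ∃ w' ∈ ball z η, w' ∈ connectedComponentIn {x : ℂ | 0 < ρ x} y := by
    have := mem_closure_iff.1 hzK (ball z η) isOpen_ball (mem_ball_self hη)
    obtain ⟨w', h1, h2⟩ := this
    exact ⟨w', h1, h2⟩
  have hw'0 : 0 < ρ w' := by
    have : w' ∈ {x : ℂ | 0 < ρ x} := connectedComponentIn_subset _ _ hw'K
    exact this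
  obtain ⟨S', hS'1, hS'2, hS'3, hS'4⟩ := hS w' hw' hw'0
  have hNK : ball (z + v) η ⊆ connectedComponentIn {x : ℂ | 0 < ρ x} y := by
    rw [connectedComponentIn_eq hw'K]
    exact hS'3.trans (hS'1.subset_connectedComponentIn hS'2 hS'4)
  filter_upwards [ball_mem_nhds z hη] with w hw hw0
  obtain ⟨S, hS1, hS2, hS3, hS4⟩ := hS w hw hw0
  have hv : z + v ∈ connectedComponentIn {x : ℂ | 0 < ρ x} y := hNK (mem_ball_self hη)
  rw [connectedComponentIn_eq hv]
  exact hS1.subset_connectedComponentIn (hS3 (mem_ball_self hη)) hS4 hS2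

/-- The zero set is in the closure of the negative set. -/
theorem zero_subset_closure {ρ : ℂ → ℝ} (hρ : Differentiable ℝ ρ) {z : ℂ} (hz : ρ z = 0)
    (hd : fderiv ℝ ρ z ≠ 0) : z ∈ closure {w : ℂ | ρ w < 0} := by
  have hg0 := grad_ne_zero hd
  have hgn : 0 < ‖grad ρ z‖ := norm_pos_iff.2 hg0
  have hdg : fderiv ℝ ρ z (-grad ρ z) < 0 := by
    rw [fderiv_eq_grad]
    have h1 : (grad ρ z).re * (-grad ρ z).re + (grad ρ z).im * (-grad ρ z).im =
        -‖grad ρ z‖ ^ 2 := by
      rw [← Complex.normSq_eq_norm_sq, Complex.normSq_apply]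
      simp; ring
    rw [h1]
    have : 0 < ‖grad ρ z‖ ^ 2 := by positivity
    linarith
  have h1 := ray_neg (hρ z) hz hdg
  have h2 : Tendsto (fun t : ℝ => z + t * (-grad ρ z)) (𝓝[>] 0) (𝓝 z) := by
    have h1 : Continuous (fun t : ℝ => z + t * (-grad ρ z)) := by fun_prop
    have h2 := h1.tendsto 0
    simp only [Complex.ofReal_zero, zero_mul, add_zero] at h2
    exact h2.mono_left nhdsWithin_le_nhds
  exact mem_closure_of_tendsto h2 h1

/-- No holes: the exterior of the domain is connected. -/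
theorem no_holes {ρ : ℂ → ℝ} (hρ : ContDiff ℝ 1 ρ)
    (hgrad : ∀ z, ρ z = 0 → fderiv ℝ ρ z ≠ 0) (hbdd : IsBounded {z : ℂ | ρ z < 0})
    {G : ℂ → ℂ} (hG : Differentiable ℂ G) {σ : ℝ}
    (hbc : ∀ z, ρ z = 0 → (deriv G z * grad ρ z).re = σ * (G z).re * ‖grad ρ z‖)
    (hne : ∃ z w, ρ z < 0 ∧ ρ w < 0 ∧ (G z).re ≠ (G w).re) :
    IsConnected {z : ℂ | 0 < ρ z} := by
  have hρd : Differentiable ℝ ρ := hρ.differentiable (by simp)
  have hσ := sigma_pos hρd hgrad hbdd hG hbc hne
  have hnc : ∃ a b, G a ≠ G b := by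
    obtain ⟨a, b, -, -, hab⟩ := hne
    exact ⟨a, b, fun h => hab (by rw [h])⟩
  set O : Set ℂ := {z : ℂ | 0 < ρ z} with hO
  have hOo : IsOpen O := isOpen_lt continuous_const hρ.continuous
  obtain ⟨R, hR⟩ := hbdd.exists_norm_le
  have hRpos : ∀ z : ℂ, |R| < ‖z‖ → z ∈ O := by
    intro z hz
    by_contra hcon
    have h0 : ρ z ≤ 0 := not_lt.1 hcon
    have hcl : z ∈ closure {w : ℂ | ρ w < 0} := by
      rcases lt_or_eq_of_le h0 with h | h
      · exact subset_closure h
      · exact zero_subset_closure hρd h (hgrad z h)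
    have h1 : closure {w : ℂ | ρ w < 0} ⊆ closedBall 0 |R| := by
      apply closure_minimal _ isClosed_closedBall
      intro w hw
      rw [mem_closedBall, dist_zero_right]
      exact (hR w hw).trans (le_abs_self R)
    have h2 := h1 hcl
    rw [mem_closedBall, dist_zero_right] at h2
    linarith
  set x₀ : ℂ := ((|R| + 1 : ℝ) : ℂ) with hx₀
  have hx₀n : |R| < ‖x₀‖ := by
    rw [hx₀, Complex.norm_real, Real.norm_eq_abs]
    have := le_abs_self (|R| + 1)
    linarith
  have hx₀O : x₀ ∈ O := hRpos x₀ hx₀n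
  have hExt : IsPreconnected {z : ℂ | |R| < ‖z‖} := by
    have := preconn_ext (0 : ℂ) (abs_nonneg R)
    simpa using this
  suffices hall : ∀ y ∈ O, y ∈ connectedComponentIn O x₀ by
    have h1 : O = connectedComponentIn O x₀ :=
      Subset.antisymm hall (connectedComponentIn_subset _ _)
    rw [h1]
    exact isConnected_connectedComponentIn_iff.2 hx₀O
  intro y hy
  by_contra hyC
  set K := connectedComponentIn O y with hK
  have hyK : y ∈ K := mem_connectedComponentIn hy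
  have hKo : IsOpen K := hOo.connectedComponentIn
  have hKpre : IsPreconnected K := isPreconnected_connectedComponentIn
  have hKO : K ⊆ O := connectedComponentIn_subset _ _
  -- `K` avoids the exterior
  have hKb : ∀ z ∈ K, ‖z‖ ≤ |R| := by
    intro z hz
    by_contra hcon
    push Not at hcon
    apply hyC
    have h1 : z ∈ connectedComponentIn O x₀ :=
      hExt.subset_connectedComponentIn hx₀n (fun w hw => hRpos w hw) hcon
    rw [connectedComponentIn_eq h1]
    rw [← connectedComponentIn_eq hz]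
    exact hyK
  have hKbdd : IsBounded K := isBounded_iff_forall_norm_le.2 ⟨|R|, hKb⟩
  have hfr : ∀ z ∈ frontier K, ρ z = 0 := by
    intro z hz
    have hzc : z ∈ closure K := hz.1
    have hznK : z ∉ K := by
      rw [frontier, hKo.interior_eq] at hz
      exact hz.2
    have h1 : 0 ≤ ρ z := by
      have h2 : closure K ⊆ {w : ℂ | 0 ≤ ρ w} :=
        closure_minimal (fun w hw => (show 0 < ρ w from hKO hw).le)
          (isClosed_le continuous_const hρ.continuous)
      exact h2 hzc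
    by_contra hne0
    have h2 : z ∈ O := lt_of_le_of_ne h1 (Ne.symm hne0)
    obtain ⟨ε, hε, hball⟩ := Metric.isOpen_iff.1 hOo z h2
    obtain ⟨w, hw1, hw2⟩ := mem_closure_iff.1 hzc (ball z ε) isOpen_ball (mem_ball_self hε)
    apply hznK
    rw [hK, connectedComponentIn_eq hw2]
    exact (convex_ball z ε).isPreconnected.subset_connectedComponentIn hw1 hball
      (mem_ball_self hε)
  have key : ∀ L : ℂ → ℂ, Differentiable ℂ L → (∃ a b, L a ≠ L b) → ∃ z, ρ z = 0 ∧
      ((L y).re ≤ (L z).re) ∧ (deriv L z * grad ρ z).re < 0 := by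
    intro L hL hLnc
    obtain ⟨z, hz, hzm⟩ := Complex.exists_mem_frontier_isMaxOn_norm hKbdd ⟨y, hyK⟩
      (f := fun w => Complex.exp (L w)) (hL.cexp).diffContOnCl
    have hz0 : ρ z = 0 := hfr z hz
    have hm : ∀ w ∈ K, (L w).re ≤ (L z).re := by
      intro w hw
      have h1 : ‖Complex.exp (L w)‖ ≤ ‖Complex.exp (L z)‖ := hzm (subset_closure hw)
      rw [Complex.norm_exp, Complex.norm_exp, Real.exp_le_exp] at h1
      exact h1
    refine ⟨z, hz0, hm y hyK, ?_⟩
    have h1 := comp_local hρ hz0 (hgrad z hz0) hy hz.1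
    have h2 := hopf (ρ := fun w => -ρ w) (z := z) (hρd z).neg (by rw [hz0, neg_zero])
      (by rw [grad_neg]; exact neg_ne_zero.2 (grad_ne_zero (hgrad z hz0))) hL hLnc (by
        filter_upwards [h1] with w hw hw0
        exact hm w (hw (by linarith)))
    rw [grad_neg, mul_neg, Complex.neg_re] at h2
    linarith
  obtain ⟨z₁, hz₁, hm₁, hp₁⟩ := key G hG hnc
  obtain ⟨z₂, hz₂, hm₂, hp₂⟩ := key (fun w => -G w) hG.neg (by
    obtain ⟨a, b, hab⟩ := hnc
    exact ⟨a, b, fun h => hab (neg_injective h)⟩)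
  have hd : deriv (fun w => -G w) z₂ = -deriv G z₂ := by simp
  rw [hd, neg_mul, Complex.neg_re, hbc z₂ hz₂] at hp₂
  rw [hbc z₁ hz₁] at hp₁
  simp only [Complex.neg_re] at hm₂
  have n1 : 0 < ‖grad ρ z₁‖ := norm_pos_iff.2 (grad_ne_zero (hgrad z₁ hz₁))
  have n2 : 0 < ‖grad ρ z₂‖ := norm_pos_iff.2 (grad_ne_zero (hgrad z₂ hz₂))
  have s1 : (G z₁).re < 0 := by
    by_contra h
    push Not at h
    have : 0 ≤ σ * (G z₁).re * ‖grad ρ z₁‖ := by positivity
    linarith
  have s2 : 0 < (G z₂).re := by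
    by_contra h
    push Not at h
    have : 0 ≤ σ * (-(G z₂).re) * ‖grad ρ z₂‖ :=
      mul_nonneg (mul_nonneg hσ.le (by linarith)) n2.le
    nlinarith
  linarith

end Pool.Agent.Stek
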