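import Pool.Agent.Lib.MP_bd8415_an.Growth

/-!
# Entire functions satisfying two scale inequalities are polynomials
-/

open Complex Metric Set

namespace Pool.Agent.Stek

/-- Key growth lemma. -/
theorem growth_of_two {G : ℂ → ℂ} (hG : Differentiable ℂ G) (hne : ∃ z, G z ≠ 0)
    {a₂ C r₀ : ℝ} (ha0 : 0 < a₂) (ha1 : a₂ < 1) (hC : 0 < C)
    (S1 : ∀ z, r₀ ≤ ‖z‖ → ‖G z‖ ≤ C * ‖z‖ ^ 2 * mx G (a₂ * ‖z‖))
    (S2 : ∀ z, r₀ ≤ ‖z‖ → ‖G z‖ ≤ C * (‖deriv G z‖ + mx G (a₂ * ‖z‖))) :
    ∃ (K : ℝ) (D : ℕ), 0 ≤ K ∧ ∀ r, 1 ≤ r → mx G r ≤ K * r ^ D := by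
  have hGc : Continuous G := hG.continuous
  obtain ⟨z₁, hz₁⟩ := hne
  set β := (1 + a₂) / 2 with hβ
  have hβ0 : 0 < β := by positivity
  have hβ1 : β < 1 := by rw [hβ]; linarith
  have haβ : a₂ < β := by rw [hβ]; linarith
  set κ := β / a₂ with hκ
  have hκ1 : 1 < κ := by rw [hκ, lt_div_iff₀ ha0]; linarith
  have haκ : a₂ * κ = β := by rw [hκ]; field_simp
  set ε := κ - 1 with hε
  have hε0 : 0 < ε := by linarith
  set ρ := 4 * C with hρ
  have hρ0 : 0 < ρ := by positivity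
  set C' := max C 1 with hC'
  have hC'0 : 0 < C' := lt_of_lt_of_le hC (le_max_left _ _)
  -- S1 for `mx`
  have T1 : ∀ r, max (r₀ / a₂) (max 1 r₀) ≤ r → mx G r ≤ C' * r ^ 2 * mx G (a₂ * r) := by
    intro r hr
    have hr1 : 1 ≤ r := (le_max_left _ _).trans ((le_max_right _ _).trans hr)
    have hr2 : r₀ ≤ a₂ * r := by
      have := (le_max_left _ _).trans hr
      rw [div_le_iff₀ ha0] at this
      linarith
    obtain ⟨z, hz, he⟩ := exists_mx hGc (r := r) (by linarith)
    rw [← he]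
    have hm0 : 0 ≤ mx G (a₂ * r) := mx_nonneg hGc (by positivity)
    by_cases hzr : r₀ ≤ ‖z‖
    · calc ‖G z‖ ≤ C * ‖z‖ ^ 2 * mx G (a₂ * ‖z‖) := S1 z hzr
        _ ≤ C' * r ^ 2 * mx G (a₂ * r) := by
          have h1 : mx G (a₂ * ‖z‖) ≤ mx G (a₂ * r) :=
            mx_mono hGc (by positivity) (mul_le_mul_of_nonneg_left hz ha0.le)
          have h2 : C * ‖z‖ ^ 2 ≤ C' * r ^ 2 := by
            apply mul_le_mul (le_max_left _ _) _ (by positivity) hC'0.le
            exact pow_le_pow_left₀ (norm_nonneg _) hz 2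
          exact mul_le_mul h2 h1 (mx_nonneg hGc (by positivity)) (by positivity)
    · push Not at hzr
      calc ‖G z‖ ≤ mx G (a₂ * r) := norm_le_mx hGc (hzr.le.trans hr2)
        _ = 1 * mx G (a₂ * r) := (one_mul _).symm
        _ ≤ C' * r ^ 2 * mx G (a₂ * r) := by
          apply mul_le_mul_of_nonneg_right _ hm0
          have : (1 : ℝ) ≤ C' := le_max_right _ _
          nlinarith [one_le_pow₀ hr1 (n := 2)]
  obtain ⟨R₁, hR₁⟩ := exists_pow_floor_gt (ε / ρ) (C' * κ ^ 2) (by positivity)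
  set R := max (max R₁ (max (r₀ / a₂) (max 1 r₀))) (max (‖z₁‖) (r₀ / β)) with hR
  refine poly_of_scale (f := mx G) (fun r s hr hrs => mx_mono hGc hr hrs)
    (fun r hr => mx_nonneg hGc hr) (β := β) (C := max (2 * C) 1) (r₀ := R) hβ0 hβ1 ?_
  intro r hr
  have hrR1 : R₁ ≤ r := (le_max_left _ _).trans ((le_max_left _ _).trans hr)
  have hrT : max (r₀ / a₂) (max 1 r₀) ≤ r := (le_max_right _ _).trans ((le_max_left _ _).trans hr)
  have hr1 : 1 ≤ r := (le_max_left _ _).trans ((le_max_right _ _).trans hrT)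
  have hrz : ‖z₁‖ ≤ r := (le_max_left _ _).trans ((le_max_right _ _).trans hr)
  have hrβ : r₀ ≤ β * r := by
    have := (le_max_right _ _).trans ((le_max_right _ _).trans hr)
    rw [div_le_iff₀ hβ0] at this
    linarith
  have hr0 : 0 < r := by linarith
  have hpos : 0 < mx G r := lt_of_lt_of_le (norm_pos_iff.2 hz₁) (norm_le_mx hGc hrz)
  -- there is a good radius
  have hgood : ∃ s, r ≤ s ∧ s ≤ κ * r ∧ mx G (s + ρ) ≤ 2 * mx G s := by
    by_contra hcon
    push Not at hcon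
    have hstep : ∀ j : ℕ, (j : ℝ) * ρ ≤ ε * r → 2 ^ j * mx G r ≤ mx G (r + j * ρ) := by
      intro j
      induction j with
      | zero => intro _; simp
      | succ j ih =>
        intro hj
        push_cast at hj
        have hj' : (j : ℝ) * ρ ≤ ε * r := by nlinarith
        have h1 := ih hj'
        have h2 := hcon (r + j * ρ) (by have := Nat.cast_nonneg (α := ℝ) j; nlinarith)
          (by rw [hε] at hj'; nlinarith)
        push_cast
        calc 2 ^ (j + 1) * mx G r = 2 * (2 ^ j * mx G r) := by ring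
          _ ≤ 2 * mx G (r + j * ρ) := by linarith
          _ ≤ mx G (r + j * ρ + ρ) := h2.le
          _ = mx G (r + (j + 1) * ρ) := by ring_nf
    set J := ⌊ε / ρ * r⌋₊ with hJ
    have hJle : (J : ℝ) ≤ ε / ρ * r := Nat.floor_le (by positivity)
    have hJ2 : (J : ℝ) * ρ ≤ ε * r := by
      calc (J : ℝ) * ρ ≤ ε / ρ * r * ρ := mul_le_mul_of_nonneg_right hJle hρ0.le
        _ = ε * r := by field_simp
    have h1 := hstep J hJ2
    have h2 : mx G (r + J * ρ) ≤ mx G (κ * r) :=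
      mx_mono hGc (by positivity) (by rw [hε] at hJ2; linarith)
    have h3 : mx G (κ * r) ≤ C' * (κ * r) ^ 2 * mx G (a₂ * (κ * r)) :=
      T1 _ (hrT.trans (by nlinarith))
    have h4 : mx G (a₂ * (κ * r)) ≤ mx G r := by
      rw [← mul_assoc, haκ]
      exact mx_mono hGc (by positivity) (by nlinarith)
    have h5 := hR₁ r hrR1
    have h6 : 2 ^ J * mx G r ≤ C' * κ ^ 2 * r ^ 2 * mx G r := by
      calc 2 ^ J * mx G r ≤ mx G (κ * r) := h1.trans h2
        _ ≤ C' * (κ * r) ^ 2 * mx G (a₂ * (κ * r)) := h3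
        _ ≤ C' * (κ * r) ^ 2 * mx G r := by
          apply mul_le_mul_of_nonneg_left h4 (by positivity)
        _ = _ := by ring
    have h7 : C' * κ ^ 2 * r ^ 2 * mx G r < 2 ^ J * mx G r :=
      mul_lt_mul_of_pos_right h5 hpos
    linarith
  obtain ⟨s, hs1, hs2, hs3⟩ := hgood
  have hs0 : 0 ≤ s := by linarith
  have h1 : mx G r ≤ mx G s := mx_mono hGc hr0.le hs1
  have hβr : a₂ * s ≤ β * r := by
    calc a₂ * s ≤ a₂ * (κ * r) := mul_le_mul_of_nonneg_left hs2 ha0.le
      _ = β * r := by rw [← mul_assoc, haκ]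
  have hm0 : 0 ≤ mx G (β * r) := mx_nonneg hGc (by positivity)
  refine h1.trans ?_
  obtain ⟨z, hz, he⟩ := exists_mx hGc hs0
  by_cases hzr : r₀ ≤ ‖z‖
  · have h2 := S2 z hzr
    have h3 : ‖deriv G z‖ ≤ mx G (s + ρ) / ρ :=
      norm_deriv_le_mx hG hρ0 (by linarith)
    have h4 : mx G (a₂ * ‖z‖) ≤ mx G (β * r) :=
      mx_mono hGc (by positivity) ((mul_le_mul_of_nonneg_left hz ha0.le).trans hβr)
    have h5 : mx G (s + ρ) / ρ ≤ 2 * mx G s / ρ := div_le_div_of_nonneg_right hs3 hρ0.le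
    have h6 : C * (2 * mx G s / ρ) = mx G s / 2 := by rw [hρ]; field_simp; ring
    have h7 : mx G s ≤ mx G s / 2 + C * mx G (β * r) := by
      calc mx G s = ‖G z‖ := he.symm
        _ ≤ C * (‖deriv G z‖ + mx G (a₂ * ‖z‖)) := h2
        _ ≤ C * (2 * mx G s / ρ + mx G (β * r)) := by
          apply mul_le_mul_of_nonneg_left _ hC.le
          linarith
        _ = mx G s / 2 + C * mx G (β * r) := by rw [mul_add, h6]
    calc mx G s ≤ 2 * C * mx G (β * r) := by linarith
      _ ≤ max (2 * C) 1 * mx G (β * r) :=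
        mul_le_mul_of_nonneg_right (le_max_left _ _) hm0
  · push Not at hzr
    calc mx G s = ‖G z‖ := he.symm
      _ ≤ mx G (β * r) := norm_le_mx hGc (hzr.le.trans hrβ)
      _ = 1 * mx G (β * r) := (one_mul _).symm
      _ ≤ max (2 * C) 1 * mx G (β * r) :=
        mul_le_mul_of_nonneg_right (le_max_right _ _) hm0

/-- Entire functions of polynomial growth are polynomials. -/
theorem exists_polynomial {G : ℂ → ℂ} (hG : Differentiable ℂ G) {K : ℝ} {D : ℕ} (hK : 0 ≤ K)
    (h : ∀ r, 1 ≤ r → mx G r ≤ K * r ^ D) : ∃ P : Polynomial ℂ, ∀ z, G z = P.eval z := by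
  have hz : ∀ n, D < n → iteratedDeriv n G 0 = 0 := by
    intro n hn
    by_contra hne
    have hpos : 0 < ‖iteratedDeriv n G 0‖ := norm_pos_iff.2 hne
    have hb : ∀ r : ℝ, 1 ≤ r → ‖iteratedDeriv n G 0‖ ≤ n.factorial * K / r := by
      intro r hr
      have hr0 : 0 < r := by linarith
      have h1 : ‖iteratedDeriv n G 0‖ ≤ n.factorial * (K * r ^ D) / r ^ n := by
        apply Complex.norm_iteratedDeriv_le_of_forall_mem_sphere_norm_le n hr0 hG.diffContOnCl
        intro w hw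
        refine (norm_le_mx hG.continuous ?_).trans (h r hr)
        simpa [dist_eq_norm] using hw.le
      refine h1.trans ?_
      have h2 : r ^ D * r ≤ r ^ n := by
        rw [← pow_succ]
        exact pow_le_pow_right₀ hr hn
      rw [div_le_div_iff₀ (by positivity) hr0]
      calc n.factorial * (K * r ^ D) * r = n.factorial * K * (r ^ D * r) := by ring
        _ ≤ n.factorial * K * r ^ n := by
          apply mul_le_mul_of_nonneg_left h2 (by positivity)
    have h3 := hb (max 1 (2 * (n.factorial * K) / ‖iteratedDeriv n G 0‖ + 1)) (le_max_left _ _)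
    set r := max 1 (2 * (n.factorial * K) / ‖iteratedDeriv n G 0‖ + 1) with hr
    have hr1 : 1 ≤ r := le_max_left _ _
    have hr2 : 2 * (n.factorial * K) / ‖iteratedDeriv n G 0‖ + 1 ≤ r := le_max_right _ _
    rw [le_div_iff₀ (by linarith)] at h3
    have h4 : 2 * (n.factorial * K) / ‖iteratedDeriv n G 0‖ < r := by linarith
    rw [div_lt_iff₀ hpos] at h4
    have h5 : (0 : ℝ) ≤ n.factorial * K := by positivity
    nlinarith [mul_pos hpos (show (0 : ℝ) < r by linarith)]
  refine ⟨∑ n ∈ Finset.range (D + 1),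
    Polynomial.C ((n.factorial : ℂ)⁻¹ * iteratedDeriv n G 0) * Polynomial.X ^ n, fun z => ?_⟩
  have hs := Complex.hasSum_taylorSeries_of_entire hG 0 z
  have hs2 : HasSum (fun n : ℕ => (n.factorial : ℂ)⁻¹ • (z - 0) ^ n • iteratedDeriv n G 0)
      (∑ n ∈ Finset.range (D + 1), (n.factorial : ℂ)⁻¹ • (z - 0) ^ n • iteratedDeriv n G 0) := by
    apply hasSum_sum_of_ne_finset_zero
    intro n hn
    have : D < n := by
      simp only [Finset.mem_range, not_lt] at hn
      omega
    simp [hz n this]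
  rw [hs.unique hs2, Polynomial.eval_finsetSum]
  apply Finset.sum_congr rfl
  intro n _
  simp only [sub_zero, smul_eq_mul, Polynomial.eval_mul, Polynomial.eval_C, Polynomial.eval_pow,
    Polynomial.eval_X]
  ring

end Pool.Agent.Stek
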