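import Pool.Agent.Lib.MP_bd8415_an.Ineq
import Pool.Agent.Lib.MP_bd8415_an.Poly

/-!
# A holomorphic completion satisfying the relation has real part zero (generic case)
-/

open Complex Metric Set Filter Topology Bornology

namespace Pool.Agent.Stek

theorem poly_lim (P : Polynomial ℂ) (n : ℕ) (hn : P.natDegree ≤ n) {l : Filter ℂ}
    {w z : ℂ → ℂ} {β : ℂ} (hz : Tendsto (fun t => (z t)⁻¹) l (𝓝 0)) (hz0 : ∀ᶠ t in l, z t ≠ 0)
    (hw : Tendsto (fun t => w t / z t) l (𝓝 β)) :
    Tendsto (fun t => P.eval (w t) / z t ^ n) l (𝓝 (P.coeff n * β ^ n)) := by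
  have hterm : ∀ i ∈ Finset.range (n + 1), Tendsto (fun t => P.coeff i * w t ^ i / z t ^ n) l
      (𝓝 (if i = n then P.coeff n * β ^ n else 0)) := by
    intro i hi
    by_cases hin : i = n
    · subst hin
      simp only [if_true]
      refine ((hw.pow i).const_mul (P.coeff i)).congr fun t => ?_
      rw [div_pow]; ring
    · simp only [hin, if_false]
      have hlt : i < n := by
        rw [Finset.mem_range] at hi; omega
      have h1 := (hw.pow i).mul (hz.pow (n - i))
      rw [zero_pow (by omega), mul_zero] at h1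
      have h2 := h1.const_mul (P.coeff i)
      rw [mul_zero] at h2
      refine h2.congr' ?_
      filter_upwards [hz0] with t ht
      have e : z t ^ n = z t ^ i * z t ^ (n - i) := by rw [← pow_add]; congr 1; omega
      rw [e, div_pow, inv_pow]
      field_simp
  have hsum := tendsto_finsetSum _ hterm
  rw [Finset.sum_ite_eq' _ n, if_pos (by simp)] at hsum
  refine hsum.congr fun t => ?_
  rw [Polynomial.eval_eq_sum_range' (n := n + 1) (by omega), Finset.sum_div]

theorem core_poly {G : ℂ → ℂ} {σ : ℝ} (hσ : σ ≠ 0)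
    (M : ℕ) (hM : 1 ≤ M) (c d y : ℤ → ℂ) (α : ℂ) (ha : c M ≠ 0) (hα : ‖α‖ < 1)
    (hd : ∀ j, d j = α * c j + y j) (e : ℤ) (heM : e < M) (heM' : -(M : ℤ) ≤ e)
    (he0 : ¬ (M : ℤ) ∣ e) (hye : y e ≠ 0)
    (hy : ∀ j, e < j → j ≤ M → (j : ℂ) * y j = 0) (hrel : Rel G σ M c d)
    (P : Polynomial ℂ) (hP : ∀ z, G z = P.eval z) : ∀ z, (G z).re = 0 := by
  have hMC : (M : ℂ) ≠ 0 := by exact_mod_cast (by omega : M ≠ 0)
  have heC : (e : ℂ) ≠ 0 := by
    intro h
    have : e = 0 := by exact_mod_cast h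
    exact he0 (this ▸ dvd_zero _)
  have heM2 : -(M : ℤ) < e := by
    rcases lt_or_eq_of_le heM' with h | h
    · exact h
    · exfalso; apply he0; rw [← h]; exact (dvd_neg.2 dvd_rfl)
  set κ : ℂ := (e : ℂ) * y e / (M * c M) with hκ
  have hκ0 : κ ≠ 0 := div_ne_zero (mul_ne_zero heC hye) (mul_ne_zero hMC ha)
  obtain ⟨Y, -, hF, hwlim, hL⟩ := branch_facts M hM c d y α ha hd e heM heM' hy
    (α₁ := ‖α‖ + 1) (by linarith) (ω := 1) (one_pow M)
  rw [one_zpow, mul_one, ← hκ] at hL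
  set m : ℂ → ℂ := fun t => lau M (fun j => (j : ℂ) * d j) (t * Y t) /
        lau M (fun j => (j : ℂ) * c j) (t * Y t) with hm
  have hLm : Tendsto (fun t => (m t - α) / t ^ (e - (M : ℤ))) (cobounded ℂ) (𝓝 κ) := hL
  set z : ℂ → ℂ := fun t => c M * t ^ M with hz
  set w : ℂ → ℂ := fun t => lau M d (t * Y t) with hw
  have hne : ∀ᶠ t : ℂ in cobounded ℂ, t ≠ 0 := eventually_ne_cobounded 0
  have hz0 : ∀ᶠ t in cobounded ℂ, z t ≠ 0 := by
    filter_upwards [hne] with t ht using mul_ne_zero ha (pow_ne_zero _ ht)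
  have hzinv : Tendsto (fun t => (z t)⁻¹) (cobounded ℂ) (𝓝 0) := by
    have h1 := (tendsto_zpow_neg (k := -(M : ℤ)) (by omega)).const_mul (c M)⁻¹
    rw [mul_zero] at h1
    refine h1.congr fun t => ?_
    rw [zpow_neg, zpow_natCast, hz, mul_inv]
  have hzz : Tendsto (fun t => z t / z t) (cobounded ℂ) (𝓝 1) := by
    refine tendsto_const_nhds.congr' ?_
    filter_upwards [hz0] with t ht
    rw [div_self ht]
  -- `m` tends to `α`
  have hmlim : Tendsto m (cobounded ℂ) (𝓝 α) := by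
    have h1 := hL.mul (tendsto_zpow_neg (k := e - M) (by omega))
    rw [mul_zero] at h1
    have h2 : Tendsto (fun t => m t - α) (cobounded ℂ) (𝓝 0) := by
      refine h1.congr' ?_
      filter_upwards [hne] with t ht
      have : t ^ (e - (M : ℤ)) ≠ 0 := zpow_ne_zero _ ht
      exact div_mul_cancel₀ _ this
    simpa using h2.add_const α
  -- `1 / (m z²)` tends to `0`
  have hmz : Tendsto (fun t => 1 / (m t * z t ^ 2)) (cobounded ℂ) (𝓝 0) := by
    by_cases hα0 : α = 0
    · rw [hα0] at hLm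
      simp only [sub_zero] at hLm
      have h1 := ((hLm.inv₀ hκ0).mul (tendsto_zpow_neg (k := -(M : ℤ) - e) (by omega))).mul_const
        ((c M) ^ 2)⁻¹
      rw [mul_zero, zero_mul] at h1
      refine h1.congr' ?_
      filter_upwards [hne] with t ht
      have e1 : t ^ (-(M : ℤ) - e) = (t ^ (e - (M : ℤ)))⁻¹ * ((t ^ M) ^ 2)⁻¹ := by
        rw [← zpow_neg, ← pow_mul, ← zpow_natCast, ← zpow_neg, ← zpow_add₀ ht]
        congr 1
        push_cast
        ring
      have h5 : t ^ (e - (M : ℤ)) ≠ 0 := zpow_ne_zero _ ht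
      show (m t / t ^ (e - (M : ℤ)))⁻¹ * t ^ (-(M : ℤ) - e) * ((c M) ^ 2)⁻¹ =
        1 / (m t * (c M * t ^ M) ^ 2)
      rw [e1, inv_div, one_div, mul_inv, mul_pow, mul_inv]
      field_simp
    · have h1 := (hmlim.inv₀ hα0).mul (hzinv.pow 2)
      rw [zero_pow (by norm_num), mul_zero] at h1
      refine h1.congr fun t => ?_
      show (m t)⁻¹ * ((z t)⁻¹) ^ 2 = 1 / (m t * z t ^ 2)
      rw [one_div, mul_inv (m t), inv_pow]
  -- polynomial limits
  set n := P.natDegree with hn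
  have hderiv : ∀ x, deriv G x = P.derivative.eval x := by
    intro x
    have : G = fun x => P.eval x := funext hP
    rw [this]
    exact P.deriv
  set Pc := P.map (starRingEnd ℂ) with hPc
  have hconjeval : ∀ (Q : Polynomial ℂ) (x : ℂ),
      (starRingEnd ℂ) (Q.eval ((starRingEnd ℂ) x)) = (Q.map (starRingEnd ℂ)).eval x := by
    intro Q x
    have := Polynomial.eval_map_apply (p := Q) (f := starRingEnd ℂ) ((starRingEnd ℂ) x)
    rw [Complex.conj_conj] at this
    exact this.symm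
  have L1 : Tendsto (fun t => P.eval (z t) / z t ^ n) (cobounded ℂ) (𝓝 (P.coeff n)) := by
    have := poly_lim P n le_rfl hzinv hz0 hzz
    simpa using this
  have L2 : Tendsto (fun t => Pc.eval (w t) / z t ^ n) (cobounded ℂ)
      (𝓝 ((starRingEnd ℂ) (P.coeff n) * α ^ n)) := by
    have := poly_lim Pc n (by rw [hPc, Polynomial.natDegree_map]) hzinv hz0 hwlim
    rwa [hPc, Polynomial.coeff_map] at this
  set Pd := P.derivative with hPd
  set Pdc := Pd.map (starRingEnd ℂ) with hPdc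
  have hPd0 : Pd.coeff n = 0 := by
    rw [hPd, Polynomial.coeff_derivative]
    have : P.coeff (n + 1) = 0 := Polynomial.coeff_eq_zero_of_natDegree_lt (by omega)
    rw [this, zero_mul]
  have hPdn : Pd.natDegree ≤ n := (Polynomial.natDegree_derivative_le P).trans (by omega)
  have L3 : Tendsto (fun t => Pd.eval (z t) / z t ^ n) (cobounded ℂ) (𝓝 0) := by
    have := poly_lim Pd n hPdn hzinv hz0 hzz
    rwa [hPd0, zero_mul] at this
  have L4 : Tendsto (fun t => Pdc.eval (w t) / z t ^ n) (cobounded ℂ) (𝓝 0) := by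
    have := poly_lim Pdc n (by rw [hPdc, Polynomial.natDegree_map]; exact hPdn) hzinv hz0 hwlim
    rwa [hPdc, Polynomial.coeff_map, hPd0, map_zero, zero_mul] at this
  have L5 : Tendsto (fun t => (Polynomial.X * Pd).eval (z t) / z t ^ n) (cobounded ℂ)
      (𝓝 ((Polynomial.X * Pd).coeff n)) := by
    have hdeg : (Polynomial.X * Pd).natDegree ≤ n := by
      by_cases hn0 : n = 0
      · have : Pd = 0 := by
          rw [hPd]
          apply Polynomial.derivative_of_natDegree_zero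
          omega
        rw [this]; simp
      · refine (Polynomial.natDegree_mul_le).trans ?_
        rw [Polynomial.natDegree_X]
        have h9 : Pd.natDegree ≤ n - 1 := Polynomial.natDegree_derivative_le P
        omega
    have := poly_lim (Polynomial.X * Pd) n hdeg hzinv hz0 hzz
    simpa using this
  -- the relation
  have hlim0 : Tendsto (fun t => (P.eval (z t) / z t ^ n + Pc.eval (w t) / z t ^ n) ^ 2)
      (cobounded ℂ) (𝓝 0) := by
    have h1 : Tendsto (fun t => -(((σ : ℂ) ^ 2)⁻¹ *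
        (((Polynomial.X * Pd).eval (z t) / z t ^ n) ^ 2 * (1 / (m t * z t ^ 2)) -
          2 * (Pd.eval (z t) / z t ^ n) * (Pdc.eval (w t) / z t ^ n) +
          m t * (Pdc.eval (w t) / z t ^ n) ^ 2))) (cobounded ℂ) (𝓝 0) := by
      have h2 := ((((L5.pow 2).mul hmz).sub ((L3.const_mul 2).mul L4)).add
        (hmlim.mul (L4.pow 2))).const_mul ((σ : ℂ) ^ 2)⁻¹
      have h3 := h2.neg
      simpa using h3
    refine h1.congr' ?_
    have hm0 : ∀ᶠ t in cobounded ℂ, m t ≠ 0 := by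
      by_cases hα0 : α = 0
      · rw [hα0] at hLm
        simp only [sub_zero] at hLm
        filter_upwards [hLm.eventually_ne hκ0] with t ht h
        apply ht
        rw [h, zero_div]
      · exact hmlim.eventually_ne hα0
    filter_upwards [hF, hm0, hz0] with t h1 h2 h3
    obtain ⟨h1a, h1b, h1c, -⟩ := h1
    have r1 := rel_div h1c (hrel _ h1a)
    rw [h1b, hP, hderiv, hP, hderiv, hconjeval, hconjeval] at r1
    have r2 : (Pd.eval (z t) - m t * Pdc.eval (w t)) ^ 2 =
      -((σ : ℂ) ^ 2 * m t * (P.eval (z t) + Pc.eval (w t)) ^ 2) := r1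
    have hσC : (σ : ℂ) ≠ 0 := by exact_mod_cast hσ
    have h4 : z t ^ n ≠ 0 := pow_ne_zero _ h3
    rw [Polynomial.eval_mul, Polynomial.eval_X]
    field_simp
    linear_combination (-1 : ℂ) * r2
  have hsum : P.coeff n + (starRingEnd ℂ) (P.coeff n) * α ^ n = 0 := by
    have h1 := (L1.add L2).pow 2
    have h2 := tendsto_nhds_unique h1 hlim0
    exact pow_eq_zero_iff (two_ne_zero) |>.1 h2
  by_cases hn0 : n = 0
  · have hconst : P = Polynomial.C (P.coeff 0) := Polynomial.eq_C_of_natDegree_eq_zero hn0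
    intro x
    rw [hP, hconst, Polynomial.eval_C]
    rw [hn0, pow_zero, mul_one] at hsum
    have := congrArg Complex.re hsum
    simp at this
    linarith
  · exfalso
    have hnorm : ‖P.coeff n‖ = ‖P.coeff n‖ * ‖α‖ ^ n := by
      have h1 : P.coeff n = -((starRingEnd ℂ) (P.coeff n) * α ^ n) := by linear_combination hsum
      calc ‖P.coeff n‖ = ‖-((starRingEnd ℂ) (P.coeff n) * α ^ n)‖ := by rw [← h1]
        _ = _ := by rw [norm_neg, norm_mul, norm_pow, RCLike.norm_conj]
    have hlc : P.coeff n ≠ 0 := by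
      rw [hn]
      intro h
      have : P = 0 := Polynomial.leadingCoeff_eq_zero.1 h
      rw [hn, this] at hn0
      simp at hn0
    have h2 : 0 < ‖P.coeff n‖ := norm_pos_iff.2 hlc
    have h3 : ‖α‖ ^ n < 1 := pow_lt_one₀ (norm_nonneg _) hα hn0
    nlinarith

/-- The generic case. -/
theorem core_generic {G : ℂ → ℂ} (hG : Differentiable ℂ G) {σ : ℝ} (hσ : σ ≠ 0)
    (M : ℕ) (hM : 1 ≤ M) (c d y : ℤ → ℂ) (α : ℂ) (ha : c M ≠ 0) (hα : ‖α‖ < 1)
    (hd : ∀ j, d j = α * c j + y j) (e : ℤ) (heM : e < M) (heM' : -(M : ℤ) ≤ e)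
    (he0 : ¬ (M : ℤ) ∣ e) (hye : y e ≠ 0)
    (hy : ∀ j, e < j → j ≤ M → (j : ℂ) * y j = 0) (hrel : Rel G σ M c d) :
    ∀ z, (G z).re = 0 := by
  by_cases hne : ∃ z, G z ≠ 0
  swap
  · push Not at hne
    intro z
    rw [hne z, Complex.zero_re]
  obtain ⟨a₂, C, ha0, ha1, hC, hev⟩ := scale_eventually hG hσ M hM c d y α ha hα hd e heM heM'
    he0 hye hy hrel
  obtain ⟨R, -, hR⟩ := hasBasis_cobounded_norm.eventually_iff.1 hev
  have hcM : 0 < ‖c M‖ := norm_pos_iff.2 ha
  set R' := max R 1 with hR'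
  have hR'0 : 0 ≤ R' := le_trans zero_le_one (le_max_right _ _)
  have hz : ∀ z : ℂ, ‖c M‖ * R' ^ M ≤ ‖z‖ → ∃ t : ℂ, R ≤ ‖t‖ ∧ c M * t ^ M = z := by
    intro z hz
    obtain ⟨t, ht⟩ := IsAlgClosed.exists_pow_nat_eq (z / c M) (n := M) (by omega)
    refine ⟨t, ?_, by rw [ht]; field_simp⟩
    have h1 : ‖t‖ ^ M = ‖z‖ / ‖c M‖ := by rw [← norm_pow, ht, norm_div]
    have h2 : R' ^ M ≤ ‖t‖ ^ M := by
      rw [h1, le_div_iff₀ hcM]; linarith
    exact (le_max_left _ _).trans (le_of_pow_le_pow_left₀ (by omega) (norm_nonneg _) h2)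
  obtain ⟨K, D, hK, hKD⟩ := growth_of_two hG hne ha0 ha1 hC (r₀ := ‖c M‖ * R' ^ M)
    (fun z h => by
      obtain ⟨t, ht1, rfl⟩ := hz z h
      exact (hR ht1).1)
    (fun z h => by
      obtain ⟨t, ht1, rfl⟩ := hz z h
      exact (hR ht1).2)
  obtain ⟨P, hP⟩ := exists_polynomial hG hK hKD
  exact core_poly hσ M hM c d y α ha hα hd e heM heM' he0 hye hy hrel P hP

end Pool.Agent.Stek
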