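import Pool.Agent.Lib.MP_bd8415_an.CsProd
import Pool.Agent.Lib.MP_bd8415_an.Core

/-!
# The pole lemma
-/

open Complex Metric Set Filter Topology

namespace Pool.Agent.Stek

/-- Polynomial growth at infinity. -/
theorem poly_of_growth {S : ℂ → ℂ} (hS : Differentiable ℂ S) {w₀ : ℂ} {R C : ℝ} {M : ℕ}
    (hC : 0 ≤ C) (h : ∀ w, R ≤ ‖w - w₀‖ → ‖S w‖ ≤ C * ‖w - w₀‖ ^ M) :
    ∃ P : Polynomial ℂ, ∀ z, S z = P.eval z := by
  obtain ⟨B, hB⟩ := ((isCompact_closedBall w₀ R).image hS.continuous).isBounded.exists_norm_le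
  set K := C * (1 + ‖w₀‖) ^ M + |B| with hK
  have hK0 : 0 ≤ K := by positivity
  apply exists_polynomial hS (K := K) (D := M) hK0
  intro r hr
  obtain ⟨z, hz, he⟩ := exists_mx hS.continuous (r := r) (by linarith)
  rw [← he]
  have hr1 : (1 : ℝ) ≤ r ^ M := one_le_pow₀ hr
  by_cases hzr : R ≤ ‖z - w₀‖
  · have h1 : ‖z - w₀‖ ≤ (1 + ‖w₀‖) * r := by
      calc ‖z - w₀‖ ≤ ‖z‖ + ‖w₀‖ := norm_sub_le _ _
        _ ≤ r + ‖w₀‖ * r := by
          have : ‖w₀‖ ≤ ‖w₀‖ * r := by nlinarith [norm_nonneg w₀]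
          linarith
        _ = _ := by ring
    calc ‖S z‖ ≤ C * ‖z - w₀‖ ^ M := h z hzr
      _ ≤ C * ((1 + ‖w₀‖) * r) ^ M := by gcongr
      _ = (C * (1 + ‖w₀‖) ^ M) * r ^ M := by rw [mul_pow]; ring
      _ ≤ K * r ^ M := by
        gcongr
        rw [hK]
        linarith [abs_nonneg B]
  · push Not at hzr
    have h1 : ‖S z‖ ≤ B := hB _ ⟨z, by rw [mem_closedBall, dist_eq_norm]; exact hzr.le, rfl⟩
    calc ‖S z‖ ≤ |B| := h1.trans (le_abs_self B)
      _ ≤ |B| * r ^ M := by nlinarith [abs_nonneg B]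
      _ ≤ K * r ^ M := by
        gcongr
        rw [hK]
        have : 0 ≤ C * (1 + ‖w₀‖) ^ M := by positivity
        linarith

/-- Extension of a relation from the complement of a countable set to a punctured neighbourhood. -/
theorem extend_punctured {F : Set ℂ} (hF : F.Countable) {g f : ℂ → ℂ} {x c : ℂ}
    (hg : AnalyticAt ℂ g x) (hg0 : ∃ᶠ z in 𝓝 x, g z ≠ 0)
    (hf : ∀ᶠ z in 𝓝 x, g z ≠ 0 → ContinuousAt f z) (h : ∀ᶠ z in 𝓝 x, z ∉ F → f z = c) :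
    ∀ᶠ z in 𝓝[≠] x, g z ≠ 0 ∧ f z = c := by
  have h1 : ∀ᶠ z in 𝓝[≠] x, g z ≠ 0 := by
    rcases hg.eventually_eq_zero_or_eventually_ne_zero with h2 | h2
    · exact absurd h2 (not_ev hg0)
    · exact h2
  filter_upwards [h1, nhdsWithin_le_nhds hf, nhdsWithin_le_nhds h.eventually_nhds] with z a1 a2 a3
  refine ⟨a1, ?_⟩
  have hne := neBot_compl hF z
  have t1 : Tendsto f (𝓝[Fᶜ] z) (𝓝 (f z)) := (a2 a1).tendsto.mono_left nhdsWithin_le_nhds
  refine tendsto_nhds_unique t1 (tendsto_const_nhds.congr' ?_)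
  rw [Filter.EventuallyEq, eventually_nhdsWithin_iff]
  filter_upwards [a3] with w hw hwF using (hw hwF).symm

/-- The pole lemma. -/
theorem pole_lemma {T p q g : ℂ → ℂ} {x w₀ c₀ μ : ℂ} {F : Set ℂ} (hT : Differentiable ℂ T)
    (hTd : Differentiable ℂ (deriv T)) (hF : F.Countable) (hp : AnalyticAt ℂ p x)
    (hg : AnalyticAt ℂ g x) (hgx : g x = 0)
    (hgq : ∀ᶠ z in 𝓝 x, z ∉ F → g z ≠ 0 ∧ q z = w₀ + (g z)⁻¹)
    (h0 : ∀ z, z ∉ F → T (p z) * sh T (q z) = c₀)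
    (h1 : ∀ z, z ∉ F → deriv T (p z) * deriv (sh T) (q z) = μ) (hc₀ : c₀ ≠ 0) (hμ : μ ≠ 0) :
    ∃ (a z₀ : ℂ) (D : ℕ), 1 ≤ D ∧ a ≠ 0 ∧ ∀ z, T z = a * (z - z₀) ^ D := by
  have hsT := sh_differentiable hT
  have hsTd : Differentiable ℂ (deriv (sh T)) := by
    rw [deriv_sh' hT]; exact sh_differentiable hTd
  have hg0 : ∃ᶠ z in 𝓝 x, g z ≠ 0 := by
    have hne := neBot_compl hF x
    have h2 : ∀ᶠ z in 𝓝[Fᶜ] x, g z ≠ 0 := by
      rw [eventually_nhdsWithin_iff]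
      filter_upwards [hgq] with z h3 h4 using (h3 h4).1
    exact h2.frequently.filter_mono nhdsWithin_le_nhds
  -- 1. punctured relations
  have r0 : ∀ᶠ z in 𝓝[≠] x, g z ≠ 0 ∧ T (p z) * sh T (w₀ + (g z)⁻¹) = c₀ := by
    apply extend_punctured hF hg hg0
    · filter_upwards [hp.eventually_analyticAt, hg.eventually_analyticAt] with z a1 a2 a3
      have b1 : ContinuousAt (fun z => w₀ + (g z)⁻¹) z :=
        continuousAt_const.add (a2.continuousAt.inv₀ a3)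
      have b2 : ContinuousAt (fun z => sh T (w₀ + (g z)⁻¹)) z :=
        ContinuousAt.comp' (hsT.continuous.continuousAt) b1
      exact (ContinuousAt.comp' (hT.continuous.continuousAt) a1.continuousAt).mul b2
    · filter_upwards [hgq] with z a1 a2
      rw [← (a1 a2).2]; exact h0 z a2
  have r1 : ∀ᶠ z in 𝓝[≠] x, g z ≠ 0 ∧ deriv T (p z) * deriv (sh T) (w₀ + (g z)⁻¹) = μ := by
    apply extend_punctured hF hg hg0
    · filter_upwards [hp.eventually_analyticAt, hg.eventually_analyticAt] with z a1 a2 a3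
      have b1 : ContinuousAt (fun z => w₀ + (g z)⁻¹) z :=
        continuousAt_const.add (a2.continuousAt.inv₀ a3)
      have b2 : ContinuousAt (fun z => deriv (sh T) (w₀ + (g z)⁻¹)) z :=
        ContinuousAt.comp' (hsTd.continuous.continuousAt) b1
      exact (ContinuousAt.comp' (hTd.continuous.continuousAt) a1.continuousAt).mul b2
    · filter_upwards [hgq] with z a1 a2
      rw [← (a1 a2).2]; exact h1 z a2
  -- 2. the growth of `sh T`
  have hTp : AnalyticAt ℂ (fun z => T (p z)) x :=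
    (hT.analyticAt (p x)).fun_comp hp
  have hTp0 : ∃ᶠ z in 𝓝 x, T (p z) ≠ 0 := by
    have h3 : ∀ᶠ z in 𝓝[≠] x, T (p z) ≠ 0 := by
      filter_upwards [r0] with z hz h4
      rw [h4, zero_mul] at hz
      exact hc₀ hz.2.symm
    exact h3.frequently.filter_mono nhdsWithin_le_nhds
  obtain ⟨M, U, hU, hUx, hUe⟩ := hTp.exists_eventuallyEq_pow_smul_nonzero_iff.2 (not_ev hTp0)
  obtain ⟨n, V, hV, hVx, hVe⟩ := hg.exists_eventuallyEq_pow_smul_nonzero_iff.2 (not_ev hg0)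
  have hn : 1 ≤ n := by
    rcases Nat.eq_zero_or_pos n with h | h
    · exfalso
      have := hVe.self_of_nhds
      rw [hgx, h] at this
      simp at this
      exact hVx this.symm
    · exact h
  have hU0 : 0 < ‖U x‖ := norm_pos_iff.2 hUx
  set C := (‖V x‖ + 1) ^ M * (‖c₀‖ * (2 / ‖U x‖)) with hC
  have hgrow : ∀ᶠ z in 𝓝[≠] x, g z ≠ 0 ∧ ‖sh T (w₀ + (g z)⁻¹)‖ ≤ C * ‖(g z)⁻¹‖ ^ M := by
    have a1 := hU.continuousAt.norm.eventually
      (le_mem_nhds (show ‖U x‖ / 2 < ‖U x‖ by linarith))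
    filter_upwards [r0, nhdsWithin_le_nhds a1, nhdsWithin_le_nhds hUe, nhdsWithin_le_nhds hVe,
      nhdsWithin_le_nhds (eventually_norm_le hV.continuousAt),
      nhdsWithin_le_nhds (ball_mem_nhds x one_pos), self_mem_nhdsWithin]
      with z b1 b2 b3 b4 b5 b6 b7
    refine ⟨b1.1, ?_⟩
    have hz : ‖z - x‖ < 1 := by rwa [mem_ball, dist_eq_norm] at b6
    have hzx : 0 < ‖z - x‖ := norm_pos_iff.2 (sub_ne_zero.2 b7)
    have hg1 : 0 < ‖g z‖ := norm_pos_iff.2 b1.1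
    have hgle : ‖g z‖ ≤ (‖V x‖ + 1) * ‖z - x‖ := by
      rw [b4, smul_eq_mul, norm_mul, norm_pow]
      have : ‖z - x‖ ^ n ≤ ‖z - x‖ ^ 1 := pow_le_pow_of_le_one (norm_nonneg _) hz.le hn
      rw [pow_one] at this
      calc ‖z - x‖ ^ n * ‖V z‖ ≤ ‖z - x‖ * (‖V x‖ + 1) := by gcongr
        _ = _ := by ring
    have e1 : ‖T (p z)‖ * ‖sh T (w₀ + (g z)⁻¹)‖ = ‖c₀‖ := by rw [← norm_mul, b1.2]
    have e2 : ‖z - x‖ ^ M * (‖U x‖ / 2) ≤ ‖T (p z)‖ := by
      rw [b3, smul_eq_mul, norm_mul, norm_pow]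
      gcongr
    have e3 : (‖z - x‖ ^ M) * ‖sh T (w₀ + (g z)⁻¹)‖ ≤ ‖c₀‖ * (2 / ‖U x‖) := by
      have e4 : (‖z - x‖ ^ M * (‖U x‖ / 2)) * ‖sh T (w₀ + (g z)⁻¹)‖ ≤ ‖c₀‖ := by
        rw [← e1]; gcongr
      calc (‖z - x‖ ^ M) * ‖sh T (w₀ + (g z)⁻¹)‖ =
          ((‖z - x‖ ^ M * (‖U x‖ / 2)) * ‖sh T (w₀ + (g z)⁻¹)‖) * (2 / ‖U x‖) := by
            field_simp
        _ ≤ ‖c₀‖ * (2 / ‖U x‖) := by gcongr
    have e5 : ‖g z‖ ^ M * ‖sh T (w₀ + (g z)⁻¹)‖ ≤ C := by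
      calc ‖g z‖ ^ M * ‖sh T (w₀ + (g z)⁻¹)‖ ≤
          ((‖V x‖ + 1) * ‖z - x‖) ^ M * ‖sh T (w₀ + (g z)⁻¹)‖ := by gcongr
        _ = (‖V x‖ + 1) ^ M * ((‖z - x‖ ^ M) * ‖sh T (w₀ + (g z)⁻¹)‖) := by
          rw [mul_pow]; ring
        _ ≤ (‖V x‖ + 1) ^ M * (‖c₀‖ * (2 / ‖U x‖)) := by gcongr
        _ = C := rfl
    rw [norm_inv, inv_pow]
    calc ‖sh T (w₀ + (g z)⁻¹)‖ = (‖g z‖ ^ M * ‖sh T (w₀ + (g z)⁻¹)‖) * (‖g z‖ ^ M)⁻¹ := by
          field_simp
      _ ≤ C * (‖g z‖ ^ M)⁻¹ := by gcongr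
  have hopen : 𝓝 (0 : ℂ) ≤ Filter.map g (𝓝 x) := by
    rcases hg.eventually_constant_or_nhds_le_map_nhds with h3 | h3
    · exfalso
      apply not_ev hg0
      filter_upwards [h3] with z hz
      rw [hz, hgx]
    · rwa [hgx] at h3
  obtain ⟨P, hP⟩ : ∃ P : Polynomial ℂ, ∀ z, sh T z = P.eval z := by
    rw [eventually_nhdsWithin_iff] at hgrow
    have h3 : ∀ᶠ y in 𝓝 (0 : ℂ), ∃ z, (z ∈ ({x}ᶜ : Set ℂ) →
        g z ≠ 0 ∧ ‖sh T (w₀ + (g z)⁻¹)‖ ≤ C * ‖(g z)⁻¹‖ ^ M) ∧ g z = y := by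
      have := hopen (image_mem_map hgrow)
      filter_upwards [this] with y hy
      obtain ⟨z, hz, rfl⟩ := hy
      exact ⟨z, hz, rfl⟩
    obtain ⟨δ, hδ, hball⟩ := Metric.eventually_nhds_iff_ball.1 h3
    apply poly_of_growth hsT (w₀ := w₀) (R := 2 / δ) (C := C) (M := M) (by positivity)
    intro w hw
    have hw0 : 0 < ‖w - w₀‖ := lt_of_lt_of_le (by positivity) hw
    obtain ⟨z, hz1, hz2⟩ := hball (w - w₀)⁻¹ (by
      rw [mem_ball, dist_zero_right, norm_inv]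
      calc ‖w - w₀‖⁻¹ ≤ (2 / δ)⁻¹ := inv_anti₀ (by positivity) hw
        _ = δ / 2 := by rw [inv_div]
        _ < δ := by linarith)
    have hzx : z ∈ ({x}ᶜ : Set ℂ) := by
      intro h4
      have h5 : z = x := h4
      rw [h5, hgx] at hz2
      have := inv_ne_zero (norm_pos_iff.1 hw0)
      exact this hz2.symm
    obtain ⟨-, h6⟩ := hz1 hzx
    rw [hz2, inv_inv, add_sub_cancel] at h6
    exact h6
  -- 3. polynomials
  set P' := P.map (starRingEnd ℂ) with hP'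
  have hTP : ∀ z, T z = P'.eval z := by
    intro z
    have h3 : T z = (starRingEnd ℂ) (sh T ((starRingEnd ℂ) z)) := by simp [sh]
    rw [h3, hP]
    have := Polynomial.eval_map_apply (p := P) (f := starRingEnd ℂ) ((starRingEnd ℂ) z)
    rw [Complex.conj_conj] at this
    exact this.symm
  have hTdP : ∀ z, deriv T z = P'.derivative.eval z := by
    intro z
    have : T = fun x => P'.eval x := funext hTP
    rw [this]; exact P'.deriv
  have hSdP : ∀ z, deriv (sh T) z = P.derivative.eval z := by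
    intro z
    have : sh T = fun x => P.eval x := funext hP
    rw [this]; exact P.deriv
  have hdeg : P'.natDegree = P.natDegree := by rw [hP', Polynomial.natDegree_map]
  set D := P.natDegree with hD
  have hxne : (𝓝[≠] x).NeBot := inferInstance
  have hD1 : 1 ≤ D := by
    by_contra hlt
    have h3 : P.derivative = 0 := Polynomial.derivative_of_natDegree_zero (by omega)
    obtain ⟨z, hz⟩ := r1.exists
    rw [hSdP, h3, Polynomial.eval_zero, mul_zero] at hz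
    exact hμ hz.2.symm
  have hP0 : P ≠ 0 := by
    rintro rfl
    rw [hD, Polynomial.natDegree_zero] at hD1
    omega
  have hlc : P.coeff D ≠ 0 := by
    rw [hD, Polynomial.coeff_natDegree]
    exact Polynomial.leadingCoeff_ne_zero.2 hP0
  -- 4. limits
  have hginv : Tendsto (fun z => ((g z)⁻¹)⁻¹) (𝓝[≠] x) (𝓝 0) := by
    have := hg.continuousAt.tendsto.mono_left (nhdsWithin_le_nhds (s := ({x}ᶜ : Set ℂ)))
    rw [hgx] at this
    simpa using this
  have hgne : ∀ᶠ z in 𝓝[≠] x, g z ≠ 0 := r0.mono fun z hz => hz.1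
  have hginv0 : ∀ᶠ z in 𝓝[≠] x, (g z)⁻¹ ≠ 0 := hgne.mono fun z hz => inv_ne_zero hz
  have hratio : Tendsto (fun z => (w₀ + (g z)⁻¹) / (g z)⁻¹) (𝓝[≠] x) (𝓝 1) := by
    have h3 := (hginv.const_mul w₀).add_const 1
    rw [mul_zero, zero_add] at h3
    refine h3.congr' ?_
    filter_upwards [hgne] with z hz
    field_simp
  have L1 : Tendsto (fun z => P.eval (w₀ + (g z)⁻¹) / (g z)⁻¹ ^ D) (𝓝[≠] x) (𝓝 (P.coeff D)) := by
    have := poly_lim P D le_rfl hginv hginv0 hratio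
    simpa using this
  have L2 : Tendsto (fun z => P.derivative.eval (w₀ + (g z)⁻¹) / (g z)⁻¹ ^ (D - 1)) (𝓝[≠] x)
      (𝓝 (P.derivative.coeff (D - 1))) := by
    have := poly_lim P.derivative (D - 1) (Polynomial.natDegree_derivative_le P) hginv hginv0 hratio
    simpa using this
  have hlc2 : P.derivative.coeff (D - 1) ≠ 0 := by
    rw [Polynomial.coeff_derivative]
    have h3 : D - 1 + 1 = D := by omega
    rw [h3]
    apply mul_ne_zero hlc
    exact_mod_cast (by omega : D - 1 + 1 ≠ 0)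
  -- the limit of `T(p) u^D`
  have L3 : Tendsto (fun z => T (p z) * (g z)⁻¹ ^ D) (𝓝[≠] x) (𝓝 (c₀ / P.coeff D)) := by
    have h3 := (tendsto_const_nhds (x := c₀)).div L1 hlc
    refine h3.congr' ?_
    filter_upwards [r0, hginv0] with z a1 a2
    have h4 : T (p z) * P.eval (w₀ + (g z)⁻¹) = c₀ := by rw [← hP]; exact a1.2
    have h5 : P.eval (w₀ + (g z)⁻¹) ≠ 0 := by
      intro h6; rw [h6, mul_zero] at h4; exact hc₀ h4.symm
    show c₀ / (P.eval (w₀ + (g z)⁻¹) / (g z)⁻¹ ^ D) = T (p z) * (g z)⁻¹ ^ D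
    rw [← h4, div_div_eq_mul_div, mul_right_comm, mul_div_assoc, div_self h5, mul_one]
  have L4 : Tendsto (fun z => deriv T (p z) * (g z)⁻¹ ^ (D - 1)) (𝓝[≠] x)
      (𝓝 (μ / P.derivative.coeff (D - 1))) := by
    have h3 := (tendsto_const_nhds (x := μ)).div L2 hlc2
    refine h3.congr' ?_
    filter_upwards [r1, hginv0] with z a1 a2
    have h4 : deriv T (p z) * P.derivative.eval (w₀ + (g z)⁻¹) = μ := by rw [← hSdP]; exact a1.2
    have h5 : P.derivative.eval (w₀ + (g z)⁻¹) ≠ 0 := by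
      intro h6; rw [h6, mul_zero] at h4; exact hμ h4.symm
    show μ / (P.derivative.eval (w₀ + (g z)⁻¹) / (g z)⁻¹ ^ (D - 1)) =
      deriv T (p z) * (g z)⁻¹ ^ (D - 1)
    rw [← h4, div_div_eq_mul_div, mul_right_comm, mul_div_assoc, div_self h5, mul_one]
  have hTx : T (p x) = 0 := by
    have h3 : Tendsto (fun z => T (p z)) (𝓝[≠] x) (𝓝 (T (p x))) :=
      hTp.continuousAt.tendsto.mono_left nhdsWithin_le_nhds
    have h4 := L3.mul (hginv.pow D)
    rw [zero_pow (by omega), mul_zero] at h4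
    refine tendsto_nhds_unique h3 (h4.congr' ?_)
    filter_upwards [hginv0] with z hz
    rw [inv_pow ((g z)⁻¹), mul_assoc, mul_inv_cancel₀ (pow_ne_zero D hz), mul_one]
  -- factor
  have hP'0 : P' ≠ 0 := by
    intro h3
    have : P'.natDegree = 0 := by rw [h3, Polynomial.natDegree_zero]
    omega
  obtain ⟨P₁, hP₁, hnd⟩ := P'.exists_eq_pow_rootMultiplicity_mul_and_not_dvd hP'0 (p x)
  set m := P'.rootMultiplicity (p x) with hm
  set z₀ := p x with hz₀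
  have hm1 : 1 ≤ m := by
    rw [hm]
    have h3 : P'.IsRoot z₀ := by
      rw [Polynomial.IsRoot, ← hTP]; exact hTx
    exact (Polynomial.rootMultiplicity_pos hP'0).2 h3
  have hP₁x : P₁.eval z₀ ≠ 0 := by
    intro h3
    exact hnd (Polynomial.dvd_iff_isRoot.2 h3)
  have hP₁0 : P₁ ≠ 0 := by rintro rfl; simp at hP₁x
  have hdegm : P'.natDegree = m + P₁.natDegree := by
    rw [hP₁, Polynomial.natDegree_mul (pow_ne_zero _ (Polynomial.X_sub_C_ne_zero z₀)) hP₁0,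
      Polynomial.natDegree_pow, Polynomial.natDegree_X_sub_C, mul_one]
  have hTf : ∀ z, T z = (z - z₀) ^ m * P₁.eval z := by
    intro z
    rw [hTP, hP₁]
    simp
  have hTdf : ∀ z, deriv T z = (z - z₀) ^ (m - 1) * (m * P₁.eval z +
      (z - z₀) * P₁.derivative.eval z) := by
    intro z
    have h3 : (m - 1) + 1 = m := by omega
    rw [hTdP, hP₁, Polynomial.derivative_mul, Polynomial.derivative_X_sub_C_pow]
    simp only [Polynomial.eval_add, Polynomial.eval_mul, Polynomial.eval_pow, Polynomial.eval_sub,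
      Polynomial.eval_X, Polynomial.eval_C]
    have h4 : (z - z₀) ^ m = (z - z₀) ^ (m - 1) * (z - z₀) := by
      rw [← pow_succ, h3]
    rw [h4]
    ring
  have hpx : Tendsto p (𝓝[≠] x) (𝓝 z₀) := hp.continuousAt.tendsto.mono_left nhdsWithin_le_nhds
  have hPe : ∀ Q : Polynomial ℂ, Tendsto (fun z => Q.eval (p z)) (𝓝[≠] x) (𝓝 (Q.eval z₀)) :=
    fun Q => (Q.continuous.tendsto z₀).comp hpx
  have hW : Tendsto (fun z => (m * P₁.eval (p z) + (p z - z₀) * P₁.derivative.eval (p z)))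
      (𝓝[≠] x) (𝓝 (m * P₁.eval z₀)) := by
    have h3 := ((hPe P₁).const_mul (m : ℂ)).add ((hpx.sub_const z₀).mul (hPe P₁.derivative))
    simpa using h3
  have hmP : (m : ℂ) * P₁.eval z₀ ≠ 0 :=
    mul_ne_zero (by exact_mod_cast (by omega : m ≠ 0)) hP₁x
  set l₁ := c₀ / P.coeff D / P₁.eval z₀ with hl₁
  set l₂ := μ / P.derivative.coeff (D - 1) / (m * P₁.eval z₀) with hl₂
  have hl₁0 : l₁ ≠ 0 := div_ne_zero (div_ne_zero hc₀ hlc) hP₁x
  have hl₂0 : l₂ ≠ 0 := div_ne_zero (div_ne_zero hμ hlc2) hmP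
  have L5 : Tendsto (fun z => (p z - z₀) ^ m * (g z)⁻¹ ^ D) (𝓝[≠] x) (𝓝 l₁) := by
    have h3 := L3.div (hPe P₁) hP₁x
    refine h3.congr' ?_
    filter_upwards [(hPe P₁).eventually_ne hP₁x] with z hz
    show T (p z) * (g z)⁻¹ ^ D / P₁.eval (p z) = (p z - z₀) ^ m * (g z)⁻¹ ^ D
    rw [hTf, mul_right_comm, mul_div_assoc, div_self hz, mul_one]
  have L6 : Tendsto (fun z => (p z - z₀) ^ (m - 1) * (g z)⁻¹ ^ (D - 1)) (𝓝[≠] x) (𝓝 l₂) := by
    have h3 := L4.div hW hmP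
    refine h3.congr' ?_
    filter_upwards [hW.eventually_ne hmP] with z hz
    show deriv T (p z) * (g z)⁻¹ ^ (D - 1) / (m * P₁.eval (p z) +
      (p z - z₀) * P₁.derivative.eval (p z)) = (p z - z₀) ^ (m - 1) * (g z)⁻¹ ^ (D - 1)
    rw [hTdf, mul_right_comm, mul_div_assoc, div_self hz, mul_one]
  have L7 : Tendsto (fun z => (p z - z₀) * (g z)⁻¹) (𝓝[≠] x) (𝓝 (l₁ / l₂)) := by
    have h3 := L5.div L6 hl₂0
    refine h3.congr' ?_
    filter_upwards [L6.eventually_ne hl₂0] with z hz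
    show ((p z - z₀) ^ m * (g z)⁻¹ ^ D) / ((p z - z₀) ^ (m - 1) * (g z)⁻¹ ^ (D - 1)) =
      (p z - z₀) * (g z)⁻¹
    rw [div_eq_iff hz]
    have e1 : (p z - z₀) ^ m = (p z - z₀) ^ (m - 1) * (p z - z₀) := by
      rw [← pow_succ]; congr 1; omega
    have e2 : (g z)⁻¹ ^ D = (g z)⁻¹ ^ (D - 1) * (g z)⁻¹ := by
      rw [← pow_succ]; congr 1; omega
    rw [e1, e2]
    ring
  have hmD : D = m := by
    have hle : m ≤ D := by omega
    by_contra hne
    have hlt : 1 ≤ D - m := by omega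
    have h3 := L7.pow m
    have h4 := L5.mul (hginv.pow (D - m))
    rw [zero_pow (by omega), mul_zero] at h4
    have h5 : (l₁ / l₂) ^ m = 0 := by
      refine tendsto_nhds_unique h3 (h4.congr' ?_)
      filter_upwards [hginv0] with z hz
      have e1 : (g z)⁻¹ ^ D = (g z)⁻¹ ^ m * (g z)⁻¹ ^ (D - m) := by
        rw [← pow_add]; congr 1; omega
      rw [e1, inv_pow ((g z)⁻¹), mul_pow, mul_assoc, mul_assoc,
        mul_inv_cancel₀ (pow_ne_zero _ hz), mul_one]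
    exact pow_ne_zero m (div_ne_zero hl₁0 hl₂0) h5
  have hP₁d : P₁.natDegree = 0 := by omega
  refine ⟨P₁.eval z₀, z₀, m, hm1, hP₁x, fun z => ?_⟩
  rw [hTf z]
  rw [Polynomial.eq_C_of_natDegree_eq_zero hP₁d]
  simp
  ring

end Pool.Agent.Stek
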