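import Pool.Agent.Lib.MP_bd8415_an.CsFinal
import Pool.Agent.Lib.MP_bd8415_an.CsHopf

/-!
# The theorem for domains of arbitrary connectivity, one of whose boundary curves is `p(circle)`
-/

open Complex Metric Set Filter Topology Bornology

namespace Pool.Agent.Stek

/-- Constant sign on preconnected sets without zeros. -/
theorem const_sign {ρ : ℂ → ℝ} (hρ : Continuous ρ) {S : Set ℂ} (hS : IsPreconnected S)
    (h0 : ∀ z ∈ S, ρ z ≠ 0) : (∀ z ∈ S, ρ z < 0) ∨ (∀ z ∈ S, 0 < ρ z) := by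
  by_contra hcon
  push Not at hcon
  obtain ⟨⟨z, hz, h1⟩, ⟨w, hw, h2⟩⟩ := hcon
  have : (0 : ℝ) ∈ ρ '' S := hS.intermediate_value hw hz hρ.continuousOn ⟨h2, h1⟩
  obtain ⟨x, hx, hx0⟩ := this
  exact h0 x hx hx0

/-- Polar sectors. -/
noncomputable def polar (z₀ v : ℂ) (x : ℝ × ℝ) : ℂ := z₀ + x.1 * Complex.exp (x.2 * I) * v

theorem polar_continuous (z₀ v : ℂ) : Continuous (polar z₀ v) := by
  unfold polar
  fun_prop

theorem polar_one (z₀ v : ℂ) : polar z₀ v (1, 0) = z₀ + v := by simp [polar]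

theorem polar_norm (z₀ v : ℂ) (s θ : ℝ) : ‖polar z₀ v (s, θ) - z₀‖ = |s| * ‖v‖ := by
  simp only [polar, add_sub_cancel_left, norm_mul, Complex.norm_exp_ofReal_mul_I, mul_one,
    Complex.norm_real, Real.norm_eq_abs]

/-- Points near `z₀ + v` are in small polar sectors. -/
theorem polar_surj {z₀ v : ℂ} (hv : v ≠ 0) {δ : ℝ} (hδ : 0 < δ) :
    ∀ᶠ w in 𝓝 (z₀ + v), ∃ s θ : ℝ, |s - 1| < δ ∧ |θ| < δ ∧ w = polar z₀ v (s, θ) ∧
      ‖w - z₀‖ = s * ‖v‖ := by
  have hc1 : ContinuousAt (fun w : ℂ => ‖(w - z₀) / v‖) (z₀ + v) := by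
    fun_prop
  have hc2 : ContinuousAt (fun w : ℂ => Complex.arg ((w - z₀) / v)) (z₀ + v) := by
    have h1 : ContinuousAt (fun w : ℂ => (w - z₀) / v) (z₀ + v) := by fun_prop
    have h2 : ContinuousAt Complex.arg ((fun w : ℂ => (w - z₀) / v) (z₀ + v)) := by
      apply Complex.continuousAt_arg
      simp [hv]
    exact ContinuousAt.comp' (f := fun w : ℂ => (w - z₀) / v) h2 h1
  have e1 : ‖(z₀ + v - z₀) / v‖ = 1 := by simp [hv]
  have e2 : Complex.arg ((z₀ + v - z₀) / v) = 0 := by simp [hv]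
  have h1 := Metric.tendsto_nhds.1 hc1.tendsto δ hδ
  have h2 := Metric.tendsto_nhds.1 hc2.tendsto δ hδ
  filter_upwards [h1, h2] with w a1 a2
  rw [e1, Real.dist_eq] at a1
  rw [e2, Real.dist_eq, sub_zero] at a2
  refine ⟨_, _, a1, a2, ?_, ?_⟩
  · have h3 := Complex.norm_mul_exp_arg_mul_I ((w - z₀) / v)
    simp only [polar]
    rw [h3]
    field_simp
    ring
  · rw [norm_div]
    have : ‖v‖ ≠ 0 := norm_ne_zero_iff.2 hv
    field_simp

/-- If the zero set of `ρ` lies on a circle near one of its points, it fills the circle there. -/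
theorem fill_circle {ρ : ℂ → ℝ} (hρ : Differentiable ℝ ρ) {z z₀ : ℂ} {r : ℝ}
    (hzr : ‖z - z₀‖ = r) (hr : 0 < r) (hd : fderiv ℝ ρ z ≠ 0) (hz : ρ z = 0)
    (h : ∀ᶠ w in 𝓝 z, ρ w = 0 → ‖w - z₀‖ = r) : ∀ᶠ w in 𝓝 z, ‖w - z₀‖ = r → ρ w = 0 := by
  set v := z - z₀ with hv
  have hv0 : v ≠ 0 := by
    rw [← norm_pos_iff, hzr]; exact hr
  have hzv : z₀ + v = z := by rw [hv]; ring
  -- a box
  have hc := (polar_continuous z₀ v).continuousAt (x := ((1 : ℝ), (0 : ℝ)))
  rw [← hzv, ← polar_one] at h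
  have h1 := hc.tendsto.eventually h
  obtain ⟨δ, hδ, hbox⟩ := Metric.eventually_nhds_iff.1 h1
  have hbox' : ∀ s θ : ℝ, |s - 1| < δ → |θ| < δ → ρ (polar z₀ v (s, θ)) = 0 → |s| = 1 := by
    intro s θ hs hθ h0
    have h2 := hbox (y := (s, θ)) (by
      rw [Prod.dist_eq, Real.dist_eq, Real.dist_eq, sub_zero]
      exact max_lt hs hθ) h0
    rw [polar_norm, hzr] at h2
    field_simp at h2
    exact h2
  set δ' := min δ 1 with hδ'
  have hδ'0 : 0 < δ' := lt_min hδ one_pos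
  have hδ'1 : δ' ≤ 1 := min_le_right _ _
  have hbox2 : ∀ s θ : ℝ, |s - 1| < δ' → |θ| < δ' → ρ (polar z₀ v (s, θ)) = 0 → s = 1 := by
    intro s θ hs hθ h0
    have h2 := hbox' s θ (hs.trans_le (min_le_left _ _)) (hθ.trans_le (min_le_left _ _)) h0
    have h3 := abs_lt.1 hs
    rw [abs_of_pos (by linarith)] at h2
    exact h2
  -- inner and outer parts
  have hin : IsPreconnected (polar z₀ v '' (Ioo (1 - δ') 1 ×ˢ Ioo (-δ') δ')) :=
    (isPreconnected_Ioo.prod isPreconnected_Ioo).image _ (polar_continuous z₀ v).continuousOn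
  have hout : IsPreconnected (polar z₀ v '' (Ioo 1 (1 + δ') ×ˢ Ioo (-δ') δ')) :=
    (isPreconnected_Ioo.prod isPreconnected_Ioo).image _ (polar_continuous z₀ v).continuousOn
  have sin := const_sign hρ.continuous hin (by
    rintro _ ⟨⟨s, θ⟩, ⟨hs, hθ⟩, rfl⟩ h0
    have := hbox2 s θ (by rw [abs_lt]; constructor <;> linarith [hs.1, hs.2])
      (abs_lt.2 hθ) h0
    exact absurd this (ne_of_lt hs.2))
  have sout := const_sign hρ.continuous hout (by
    rintro _ ⟨⟨s, θ⟩, ⟨hs, hθ⟩, rfl⟩ h0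
    have := hbox2 s θ (by rw [abs_lt]; constructor <;> linarith [hs.1, hs.2])
      (abs_lt.2 hθ) h0
    exact absurd this (ne_of_gt hs.1))
  -- continuity in `s` at `s = 1`
  have hlim : ∀ θ : ℝ, Tendsto (fun s : ℝ => ρ (polar z₀ v (s, θ))) (𝓝 1)
      (𝓝 (ρ (polar z₀ v (1, θ)))) := by
    intro θ
    have h2 : Continuous (fun s : ℝ => ρ (polar z₀ v (s, θ))) :=
      hρ.continuous.comp ((polar_continuous z₀ v).comp (by fun_prop))
    exact h2.tendsto 1
  have hleft : ∀ᶠ s : ℝ in 𝓝[<] 1, s ∈ Ioo (1 - δ') 1 := Ioo_mem_nhdsLT (by linarith)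
  have hright : ∀ᶠ s : ℝ in 𝓝[>] 1, s ∈ Ioo 1 (1 + δ') := Ioo_mem_nhdsGT (by linarith)
  -- same signs are impossible
  have hsame : ∀ ε : ℝ, ε ≠ 0 → (∀ w ∈ polar z₀ v '' (Ioo (1 - δ') 1 ×ˢ Ioo (-δ') δ'), 0 < ε * ρ w) →
      (∀ w ∈ polar z₀ v '' (Ioo 1 (1 + δ') ×ˢ Ioo (-δ') δ'), 0 < ε * ρ w) → False := by
    intro ε hε h2 h3
    apply hd
    have hmin : IsLocalMin (fun w => ε * ρ w) z := by
      have h4 := polar_surj (z₀ := z₀) hv0 hδ'0
      rw [hzv] at h4
      show ∀ᶠ w in 𝓝 z, ε * ρ z ≤ ε * ρ w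
      filter_upwards [h4] with w hw
      obtain ⟨s, θ, hs, hθ, rfl, -⟩ := hw
      rw [hz, mul_zero]
      have hs' := abs_lt.1 hs
      have hθ' := abs_lt.1 hθ
      rcases lt_trichotomy s 1 with h5 | h5 | h5
      · exact (h2 _ ⟨(s, θ), ⟨⟨by linarith [hs'.1], h5⟩, hθ'⟩, rfl⟩).le
      · rw [h5]
        have h6 : Tendsto (fun s : ℝ => ε * ρ (polar z₀ v (s, θ))) (𝓝[<] 1)
            (𝓝 (ε * ρ (polar z₀ v (1, θ)))) := ((hlim θ).const_mul ε).mono_left nhdsWithin_le_nhds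
        apply ge_of_tendsto h6
        filter_upwards [hleft] with s' hs'
        exact (h2 _ ⟨(s', θ), ⟨hs', hθ'⟩, rfl⟩).le
      · exact (h3 _ ⟨(s, θ), ⟨⟨h5, by linarith [hs'.2]⟩, hθ'⟩, rfl⟩).le
    have h5 := hmin.fderiv_eq_zero
    rw [fderiv_const_mul (hρ z) ε] at h5
    exact (smul_eq_zero.1 h5).resolve_left hε
  -- opposite signs
  have hopp : ∀ θ ∈ Ioo (-δ') δ', ρ (polar z₀ v (1, θ)) = 0 := by
    intro θ hθ
    have l1 : Tendsto (fun s : ℝ => ρ (polar z₀ v (s, θ))) (𝓝[<] 1)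
        (𝓝 (ρ (polar z₀ v (1, θ)))) := (hlim θ).mono_left nhdsWithin_le_nhds
    have l2 : Tendsto (fun s : ℝ => ρ (polar z₀ v (s, θ))) (𝓝[>] 1)
        (𝓝 (ρ (polar z₀ v (1, θ)))) := (hlim θ).mono_left nhdsWithin_le_nhds
    rcases sin with s1 | s1 <;> rcases sout with s2 | s2
    · exfalso
      apply hsame (-1) (by norm_num)
      · intro w hw; have := s1 w hw; linarith
      · intro w hw; have := s2 w hw; linarith
    · apply le_antisymm
      · apply le_of_tendsto l1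
        filter_upwards [hleft] with s hs using (s1 _ ⟨(s, θ), ⟨hs, hθ⟩, rfl⟩).le
      · apply ge_of_tendsto l2
        filter_upwards [hright] with s hs using (s2 _ ⟨(s, θ), ⟨hs, hθ⟩, rfl⟩).le
    · apply le_antisymm
      · apply le_of_tendsto l2
        filter_upwards [hright] with s hs using (s2 _ ⟨(s, θ), ⟨hs, hθ⟩, rfl⟩).le
      · apply ge_of_tendsto l1
        filter_upwards [hleft] with s hs using (s1 _ ⟨(s, θ), ⟨hs, hθ⟩, rfl⟩).le
    · exfalso
      apply hsame 1 (by norm_num)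
      · intro w hw; have := s1 w hw; linarith
      · intro w hw; have := s2 w hw; linarith
  have h4 := polar_surj (z₀ := z₀) hv0 hδ'0
  rw [hzv] at h4
  filter_upwards [h4] with w hw hwr
  obtain ⟨s, θ, hs, hθ, rfl, hn⟩ := hw
  have hs1 : s = 1 := by
    rw [hn, hzr] at hwr
    field_simp at hwr
    exact hwr
  rw [hs1]
  exact hopp θ (abs_lt.1 hθ)

/-- Zeros of `ρ` are not isolated. -/
theorem zero_frequently {ρ : ℂ → ℝ} (hρ : Differentiable ℝ ρ) {z : ℂ} (hz : ρ z = 0)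
    (hd : fderiv ℝ ρ z ≠ 0) : ∃ᶠ w in 𝓝[≠] z, ρ w = 0 := by
  by_contra hcon
  rw [not_frequently, eventually_nhdsWithin_iff] at hcon
  obtain ⟨r, hr, hball⟩ := Metric.eventually_nhds_iff_ball.1 hcon
  have hpre : IsPreconnected (polar z 1 '' (Ioo 0 r ×ˢ univ)) :=
    (isPreconnected_Ioo.prod isPreconnected_univ).image _ (polar_continuous z 1).continuousOn
  have hmem : ∀ w ∈ ball z r, w ≠ z → w ∈ polar z 1 '' (Ioo 0 r ×ˢ univ) := by
    intro w hw hwz
    refine ⟨(‖w - z‖, Complex.arg (w - z)), ⟨⟨norm_pos_iff.2 (sub_ne_zero.2 hwz), ?_⟩,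
      mem_univ _⟩, ?_⟩
    · rwa [mem_ball, dist_eq_norm] at hw
    · simp only [polar, mul_one, Complex.norm_mul_exp_arg_mul_I]
      ring
  have hs := const_sign hρ.continuous hpre (by
    rintro _ ⟨⟨s, θ⟩, ⟨hs, -⟩, rfl⟩
    apply hball
    · rw [mem_ball, dist_eq_norm, polar_norm, norm_one, mul_one, abs_of_pos hs.1]
      exact hs.2
    · intro h
      have h1 : polar z 1 (s, θ) = z := h
      have h2 := polar_norm z 1 s θ
      rw [h1, sub_self, norm_zero, norm_one, mul_one, abs_of_pos hs.1] at h2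
      exact absurd h2 (ne_of_lt hs.1))
  have hg0 := grad_ne_zero hd
  have hgn : 0 < ‖grad ρ z‖ ^ 2 := by
    have := norm_pos_iff.2 hg0
    positivity
  have hval : fderiv ℝ ρ z (grad ρ z) = ‖grad ρ z‖ ^ 2 := by
    rw [fderiv_eq_grad, ← Complex.normSq_eq_norm_sq, Complex.normSq_apply]
  have r1 := ray_neg (hρ z) hz (e := -grad ρ z) (by rw [map_neg, hval]; linarith)
  have r2 := ray_neg (ρ := fun w => -ρ w) (e := grad ρ z) (hρ z).neg (by rw [hz, neg_zero]) (by
    rw [fderiv_fun_neg, _root_.neg_apply, hval]; linarith)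
  have ht : ∀ e : ℂ, ∀ᶠ t : ℝ in 𝓝[>] 0, z + t * e ∈ ball z r := by
    intro e
    have h1 : Continuous (fun t : ℝ => z + t * e) := by fun_prop
    have h2 := h1.tendsto 0
    simp only [Complex.ofReal_zero, zero_mul, add_zero] at h2
    exact (h2.mono_left nhdsWithin_le_nhds).eventually (ball_mem_nhds z hr)
  obtain ⟨t₁, a1, b1⟩ := (r1.and (ht _)).exists
  obtain ⟨t₂, a2, b2⟩ := (r2.and (ht _)).exists
  have n1 : z + t₁ * (-grad ρ z) ≠ z := by intro h; rw [h, hz] at a1; exact lt_irrefl _ a1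
  have n2 : z + t₂ * grad ρ z ≠ z := by
    intro h; rw [h, hz, neg_zero] at a2; exact lt_irrefl _ a2
  rcases hs with h | h
  · have := h _ (hmem _ b2 n2); linarith
  · have := h _ (hmem _ b1 n1); linarith

/-- The final theorem, any connectivity. -/
theorem csfinal2 (ρ : ℂ → ℝ) (hρ : ContDiff ℝ ((⊤ : ℕ∞) : WithTop ℕ∞) ρ)
    (hgrad : ∀ z : ℂ, ρ z = 0 → fderiv ℝ ρ z ≠ 0)
    (hbdd : Bornology.IsBounded {z : ℂ | ρ z < 0})
    (hconn : IsConnected {z : ℂ | ρ z < 0})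
    (p q : ℂ → ℂ) (F₁ F₂ : Set ℂ) (h1 : IsClosed F₁) (h1c : F₁.Countable)
    (h2 : IsClosed F₂) (h2c : F₂.Countable) (hdisj : Disjoint F₁ F₂)
    (u1 : ∀ ζ ∈ F₁, ‖ζ‖ ≠ 1) (u2 : ∀ ζ ∈ F₂, ‖ζ‖ ≠ 1)
    (hp : DifferentiableOn ℂ p F₁ᶜ) (hq : DifferentiableOn ℂ q F₂ᶜ)
    (hpq : ∀ ζ : ℂ, ‖ζ‖ = 1 → q ζ = (starRingEnd ℂ) (p ζ))
    (V : Set ℂ) (hV : IsOpen V) (hpar : {z : ℂ | ρ z = 0} ∩ V = p '' sphere 0 1)
    (U : ℂ → ℝ) (hU : InnerProductSpace.HarmonicOnNhd U Set.univ) (σ : ℝ)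
    (hbc : ∀ z : ℂ, ρ z = 0 →
      fderiv ℝ U z (((fderiv ℝ ρ z 1 : ℝ) : ℂ) + ((fderiv ℝ ρ z Complex.I : ℝ) : ℂ) * Complex.I)
        = σ * U z *
          ‖((fderiv ℝ ρ z 1 : ℝ) : ℂ) + ((fderiv ℝ ρ z Complex.I : ℝ) : ℂ) * Complex.I‖)
    (hne : ∃ z w : ℂ, ρ z < 0 ∧ ρ w < 0 ∧ U z ≠ U w) :
    ∃ (z₀ : ℂ) (r : ℝ), {z : ℂ | ρ z < 0} = Metric.ball z₀ r := by
  obtain ⟨G, hGa, hGU⟩ := hU.exists_analyticOnNhd_univ_re_eq
  have hG : Differentiable ℂ G := fun z => (hGa z (mem_univ z)).differentiableAt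
  have hGd := deriv_differentiable hG
  have hρd : Differentiable ℝ ρ := hρ.differentiable (by simp)
  have hρ1 : ContDiff ℝ 1 ρ := hρ.of_le (by exact_mod_cast le_top)
  have hbc' : ∀ z, ρ z = 0 → (deriv G z * grad ρ z).re = σ * (G z).re * ‖grad ρ z‖ := by
    intro z hz
    have h1 := hbc z hz
    rw [← hGU, fderiv_re hG] at h1
    exact h1
  have hne' : ∃ z w, ρ z < 0 ∧ ρ w < 0 ∧ (G z).re ≠ (G w).re := by
    obtain ⟨z, w, h1, h2, h3⟩ := hne
    refine ⟨z, w, h1, h2, ?_⟩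
    rw [← hGU] at h3
    exact h3
  have hσ0 : 0 < σ := sigma_pos hρd hgrad hbdd hG hbc' hne'
  have hholes := no_holes hρ1 hgrad hbdd hG hbc' hne'
  have hGnc : ¬ ∃ b, ∀ z, G z = b := by
    rintro ⟨b, hb⟩
    obtain ⟨z, w, -, -, h3⟩ := hne'
    exact h3 (by rw [hb z, hb w])
  have hGnc' : ∃ w₀, deriv G w₀ ≠ 0 := by
    by_contra hcon
    push Not at hcon
    exact hGnc ⟨G 0, fun z => is_const_of_deriv_eq_zero hG hcon z 0⟩
  have hpar1 : ∀ ζ : ℂ, ‖ζ‖ = 1 → ρ (p ζ) = 0 ∧ p ζ ∈ V := by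
    intro ζ hζ
    have : p ζ ∈ {z : ℂ | ρ z = 0} ∩ V := by
      rw [hpar]; exact ⟨ζ, by simpa using hζ, rfl⟩
    exact this
  have hpar2 : ∀ z, ρ z = 0 → z ∈ V → ∃ ζ : ℂ, ‖ζ‖ = 1 ∧ p ζ = z := by
    intro z hz hzV
    have : z ∈ p '' sphere 0 1 := by rw [← hpar]; exact ⟨hz, hzV⟩
    obtain ⟨ζ, hζ, rfl⟩ := this
    exact ⟨ζ, by simpa using hζ, rfl⟩
  have hone : ‖(1 : ℂ)‖ = 1 := by simp
  -- `G` is not constant on the boundary curve
  have hGcurve : ∀ b : ℂ, ¬ ∀ ζ : ℂ, ‖ζ‖ = 1 → G (p ζ) = b := by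
    intro b hb
    apply hGnc
    refine ⟨b, ?_⟩
    have hz := (hpar1 1 hone).1
    have hfr : ∃ᶠ w in 𝓝[≠] (p 1), G w = b := by
      have h3 := (zero_frequently hρd hz (hgrad _ hz)).and_eventually
        (nhdsWithin_le_nhds (hV.mem_nhds (hpar1 1 hone).2))
      refine h3.mono ?_
      rintro w ⟨hw1, hw2⟩
      obtain ⟨ζ, hζ, rfl⟩ := hpar2 w hw1 hw2
      exact hb ζ hζ
    have h4 := AnalyticOnNhd.eqOn_of_preconnected_of_frequently_eq
      (f := G) (g := fun _ => b) (U := univ) (fun z _ => hG.analyticAt z)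
      (fun z _ => analyticAt_const) isPreconnected_univ (mem_univ (p 1)) hfr
    exact fun z => h4 (mem_univ z)
  have hsG := sh_differentiable hG
  have hsGd : Differentiable ℂ (deriv (sh G)) := by
    rw [deriv_sh' hG]; exact sh_differentiable hGd
  set F := F₁ ∪ F₂ with hF
  have hFcl : IsClosed F := h1.union h2
  have hFc : F.Countable := h1c.union h2c
  have hpa : ∀ z, z ∉ F₁ → AnalyticAt ℂ p z := fun z hz =>
    hp.analyticAt (h1.isOpen_compl.mem_nhds hz)
  have hqa : ∀ z, z ∉ F₂ → AnalyticAt ℂ q z := fun z hz =>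
    hq.analyticAt (h2.isOpen_compl.mem_nhds hz)
  have hunit : ∀ ζ : ℂ, ‖ζ‖ = 1 → ζ ∉ F := by
    rintro ζ hζ (h | h)
    · exact u1 ζ h hζ
    · exact u2 ζ h hζ
  have mem1 : (1 : ℂ) ∈ Fᶜ := hunit 1 (by simp)
  have n1 : ∀ z, z ∈ Fᶜ → z ∉ F₁ := fun z hz h => hz (Or.inl h)
  have n2 : ∀ z, z ∈ Fᶜ → z ∉ F₂ := fun z hz h => hz (Or.inr h)
  have a1 : AnalyticOnNhd ℂ (fun z => G (p z)) Fᶜ := fun z hz =>
    (hG.analyticAt (p z)).fun_comp (hpa z (n1 z hz))
  have a2 : AnalyticOnNhd ℂ (fun z => sh G (q z)) Fᶜ := fun z hz =>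
    (hsG.analyticAt (q z)).fun_comp (hqa z (n2 z hz))
  have a3 : AnalyticOnNhd ℂ (fun z => deriv G (p z)) Fᶜ := fun z hz =>
    (hGd.analyticAt (p z)).fun_comp (hpa z (n1 z hz))
  have a4 : AnalyticOnNhd ℂ (fun z => deriv (sh G) (q z)) Fᶜ := fun z hz =>
    (hsGd.analyticAt (q z)).fun_comp (hqa z (n2 z hz))
  have a5 : AnalyticOnNhd ℂ (deriv p) Fᶜ := fun z hz => (hpa z (n1 z hz)).deriv
  have a6 : AnalyticOnNhd ℂ (deriv q) Fᶜ := fun z hz => (hqa z (n2 z hz)).deriv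
  have aD : AnalyticOnNhd ℂ (fun z => deriv G (p z) * deriv p z -
      deriv (sh G) (q z) * deriv q z) Fᶜ := (a3.mul a5).sub (a4.mul a6)
  have hpre := preconn_compl hFc
  -- the relation
  have hrel : ∀ z, z ∉ F → (deriv G (p z) * deriv p z - deriv (sh G) (q z) * deriv q z) ^ 2 =
      (-(σ : ℂ) ^ 2) * (deriv p z * deriv q z) * (G (p z) + sh G (q z)) ^ 2 := by
    have aL : AnalyticOnNhd ℂ (fun z => (deriv G (p z) * deriv p z -
      deriv (sh G) (q z) * deriv q z) ^ 2) Fᶜ := aD.pow 2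
    have aR : AnalyticOnNhd ℂ (fun z => (-(σ : ℂ) ^ 2) * (deriv p z * deriv q z) *
        (G (p z) + sh G (q z)) ^ 2) Fᶜ :=
      ((analyticOnNhd_const (v := (-(σ : ℂ) ^ 2))).mul (a5.mul a6)).mul ((a1.add a2).pow 2)
    have := aL.eqOn_of_preconnected_of_frequently_eq aR hpre mem1
      (circle_frequently fun ζ hζ => rel_circle hρd hgrad hG hbc' (fun ζ hζ => (hpar1 ζ hζ).1)
        hpq hζ (hpa ζ (n1 ζ (hunit ζ hζ))).differentiableAt
        (hqa ζ (n2 ζ (hunit ζ hζ))).differentiableAt)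
    intro z hz
    exact this hz
  have hσ : -(σ : ℂ) ^ 2 ≠ 0 := by
    apply neg_ne_zero.2
    apply pow_ne_zero
    exact_mod_cast hσ0.ne'
  have hdh : ∀ z ∈ Fᶜ, HasDerivAt (fun z => G (p z)) (deriv G (p z) * deriv p z) z := fun z hz =>
    (hG (p z)).hasDerivAt.comp z (hpa z (n1 z hz)).differentiableAt.hasDerivAt
  have hdk : ∀ z ∈ Fᶜ, HasDerivAt (fun z => sh G (q z)) (deriv (sh G) (q z) * deriv q z) z :=
    fun z hz => (hsG (q z)).hasDerivAt.comp z (hqa z (n2 z hz)).differentiableAt.hasDerivAt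
  -- `D` does not vanish identically
  have hDne : ¬ EqOn (fun z => deriv G (p z) * deriv p z -
      deriv (sh G) (q z) * deriv q z) 0 Fᶜ := by
    intro hD0
    have hh : EqOn (fun z => deriv G (p z) * deriv p z) 0 Fᶜ := by
      intro z₁ hz₁
      by_contra hcon
      have hcon' : deriv G (p z₁) * deriv p z₁ ≠ 0 := hcon
      have aM := (a3.mul a5) z₁ hz₁
      have h3 : ∀ᶠ z in 𝓝 z₁, z ∈ Fᶜ ∧ deriv G (p z) * deriv p z ≠ 0 := by
        filter_upwards [hFcl.isOpen_compl.mem_nhds hz₁, aM.continuousAt.eventually_ne hcon']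
          with z h4 h5 using ⟨h4, h5⟩
      have h4 : ∀ᶠ z in 𝓝 z₁, G (p z) + sh G (q z) = 0 := by
        filter_upwards [h3] with z hz
        have e1 := hrel z hz.1
        have e2 : deriv G (p z) * deriv p z - deriv (sh G) (q z) * deriv q z = 0 := hD0 hz.1
        have e3 : deriv p z ≠ 0 := right_ne_zero_of_mul hz.2
        have e4 : deriv (sh G) (q z) * deriv q z ≠ 0 := by
          rw [← sub_eq_zero.1 e2]; exact hz.2
        have e5 : deriv q z ≠ 0 := right_ne_zero_of_mul e4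
        rw [e2, zero_pow two_ne_zero] at e1
        have e6 := (mul_eq_zero.1 e1.symm).resolve_left
          (mul_ne_zero hσ (mul_ne_zero e3 e5))
        exact pow_eq_zero_iff two_ne_zero |>.1 e6
      have h5 : HasDerivAt (fun z => G (p z) + sh G (q z)) 0 z₁ :=
        (hasDerivAt_const z₁ (0 : ℂ)).congr_of_eventuallyEq h4
      have h6 := (hdh z₁ hz₁).add (hdk z₁ hz₁)
      have h7 := h6.unique h5
      have e2 : deriv G (p z₁) * deriv p z₁ - deriv (sh G) (q z₁) * deriv q z₁ = 0 := hD0 hz₁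
      apply hcon'
      have h8 : 2 * (deriv G (p z₁) * deriv p z₁) = 0 := by linear_combination h7 + e2
      exact (mul_eq_zero.1 h8).resolve_left two_ne_zero
    obtain ⟨b, hb⟩ := hFcl.isOpen_compl.exists_is_const_of_deriv_eq_zero hpre
      (f := fun z => G (p z))
      (fun z hz => (hdh z hz).differentiableAt.differentiableWithinAt)
      (fun z hz => by rw [(hdh z hz).deriv]; exact hh hz)
    exact hGcurve b fun ζ hζ => hb ζ (hunit ζ hζ)
  -- the enlarged exceptional set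
  set Z : Set ℂ := {z | z ∈ Fᶜ ∧ deriv G (p z) * deriv p z -
      deriv (sh G) (q z) * deriv q z = 0} with hZ
  have hZc : Z.Countable := by
    apply countable_zeros (f := fun z => deriv G (p z) * deriv p z -
      deriv (sh G) (q z) * deriv q z)
    intro x hx
    rcases (aD x hx).eventually_eq_zero_or_eventually_ne_zero with h | h
    · exfalso
      exact hDne (aD.eqOn_zero_of_preconnected_of_eventuallyEq_zero hpre hx h)
    · exact h
  set F' := F ∪ Z with hF'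
  have hF'c : F'.Countable := hFc.union hZc
  have hF'cl : IsClosed F' := by
    rw [← isOpen_compl_iff, isOpen_iff_mem_nhds]
    intro x hx
    have hxF : x ∈ Fᶜ := fun h => hx (Or.inl h)
    have hxD : deriv G (p x) * deriv p x - deriv (sh G) (q x) * deriv q x ≠ 0 :=
      fun h => hx (Or.inr ⟨hxF, h⟩)
    filter_upwards [hFcl.isOpen_compl.mem_nhds hxF,
      (aD x hxF).continuousAt.eventually_ne hxD] with y hy1 hy2
    rintro (h | h)
    · exact hy1 h
    · exact hy2 h.2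
  have hFF : ∀ z, z ∉ F' → z ∉ F := fun z hz h => hz (Or.inl h)
  have hdata : Data G p q (-(σ : ℂ) ^ 2) F' :=
    { hG := hG
      hGd := hGd
      hF := hF'c
      hFc := hF'cl
      hreg := fun x => by
        by_cases hx : x ∈ F₁
        · right
          exact hqa x (fun h => (Set.disjoint_left.1 hdisj) hx h)
        · left
          exact hpa x hx
      hp := fun z hz => hpa z (n1 z (hFF z hz))
      hq := fun z hz => hqa z (n2 z (hFF z hz))
      hrel := fun z hz => hrel z (hFF z hz)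
      hD := fun z hz h => hz (Or.inr ⟨hFF z hz, h⟩)
      hκ := hσ
      hrefl := fun z hz0 hz hRz => reflect_of_circle h1 h1c h2 h2c u1 u2 hp hq hpq z hz0
        (n2 z (hFF z hz)) (n1 _ (hFF _ hRz))
      hnc := hGnc' }
  obtain ⟨c, hcc, hEc⟩ := EE_const hdata
  obtain ⟨c₀, hprod, hprod'⟩ := prod_const hdata hEc
  -- the product relation on the circle
  have hcirc : ∀ ζ : ℂ, ‖ζ‖ = 1 → (G (p ζ) + c) * (starRingEnd ℂ) (G (p ζ) + c) = c₀ := by
    intro ζ hζ
    have hne := neBot_compl hF'c ζ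
    have hζF : ζ ∈ Fᶜ := hunit ζ hζ
    have t1 : Tendsto (fun z => (G (p z) + c) * (sh G (q z) - c)) (𝓝[F'ᶜ] ζ)
        (𝓝 ((G (p ζ) + c) * (sh G (q ζ) - c))) :=
      (((a1 ζ hζF).continuousAt.tendsto.add_const c).mul
        ((a2 ζ hζF).continuousAt.tendsto.sub_const c)).mono_left nhdsWithin_le_nhds
    have h3 : (G (p ζ) + c) * (sh G (q ζ) - c) = c₀ := by
      refine tendsto_nhds_unique t1 (tendsto_const_nhds.congr' ?_)
      rw [Filter.EventuallyEq, eventually_nhdsWithin_iff]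
      exact Eventually.of_forall fun z hz => (hprod z hz).symm
    rw [← h3, map_add, hcc]
    congr 1
    rw [sh, hpq ζ hζ, Complex.conj_conj]
    ring
  have hcirc2 : ∀ ζ : ℂ, ‖ζ‖ = 1 → ((‖G (p ζ) + c‖ ^ 2 : ℝ) : ℂ) = c₀ := by
    intro ζ hζ
    rw [← hcirc ζ hζ, Complex.mul_conj, Complex.normSq_eq_norm_sq]
  have hc₀ : c₀ ≠ 0 := by
    intro h0
    apply hGcurve (-c)
    intro ζ hζ
    have h4 := hcirc2 ζ hζ
    rw [h0] at h4
    have h5 : ‖G (p ζ) + c‖ ^ 2 = 0 := by exact_mod_cast h4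
    have h6 : G (p ζ) + c = 0 := by
      rw [← norm_eq_zero]
      exact pow_eq_zero_iff two_ne_zero |>.1 h5
    linear_combination h6
  obtain ⟨a, z₀, D, hD1, ha, hform⟩ := power_form hdata hcc hprod hc₀ (hprod' hc₀)
  -- the modulus on the circle
  have hmod : ∀ ζ : ℂ, ‖ζ‖ = 1 → ‖p ζ - z₀‖ = ‖p 1 - z₀‖ := by
    intro ζ hζ
    have h3 := hcirc2 ζ hζ
    have h4 := hcirc2 1 (by simp)
    rw [← h4] at h3
    have h5 : ‖G (p ζ) + c‖ ^ 2 = ‖G (p 1) + c‖ ^ 2 := by exact_mod_cast h3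
    have h6 : ‖G (p ζ) + c‖ = ‖G (p 1) + c‖ :=
      (pow_left_inj₀ (norm_nonneg _) (norm_nonneg _) two_ne_zero).1 h5
    rw [hform, hform, norm_mul, norm_mul, norm_pow, norm_pow] at h6
    have h7 := mul_left_cancel₀ (norm_ne_zero_iff.2 ha) h6
    exact (pow_left_inj₀ (norm_nonneg _) (norm_nonneg _) (by omega)).1 h7
  have hr : 0 < ‖p 1 - z₀‖ := by
    rw [norm_pos_iff]
    intro h0
    apply hc₀
    rw [← hcirc2 1 (by simp), hform, h0, zero_pow (by omega), mul_zero, norm_zero]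
    simp
  set r := ‖p 1 - z₀‖ with hrdef
  have hΓ : ∀ z, ρ z = 0 → z ∈ V → ‖z - z₀‖ = r := by
    intro z hz hzV
    obtain ⟨ζ, hζ, rfl⟩ := hpar2 z hz hzV
    exact hmod ζ hζ
  have hΓcl : IsClosed ({z : ℂ | ρ z = 0} ∩ V) := by
    rw [hpar]
    apply IsCompact.isClosed
    apply (isCompact_sphere (0 : ℂ) 1).image_of_continuousOn
    intro ζ hζ
    exact (hpa ζ (n1 ζ (hunit ζ (by simpa using hζ)))).continuousAt.continuousWithinAt
  have hfill : ∀ z, ρ z = 0 → z ∈ V → ∀ᶠ w in 𝓝 z, ‖w - z₀‖ = r → (ρ w = 0 ∧ w ∈ V) := by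
    intro z hz hzV
    have h3 := fill_circle hρd (hΓ z hz hzV) hr (hgrad z hz) hz (by
      filter_upwards [hV.mem_nhds hzV] with w hw hw0
      exact hΓ w hw0 hw)
    filter_upwards [h3, hV.mem_nhds hzV] with w h4 h5 h6 using ⟨h4 h6, h5⟩
  -- the whole circle
  have hall : ∀ w, ‖w - z₀‖ = r → ρ w = 0 := by
    set v := p 1 - z₀ with hv
    set S : Set ℝ := {θ : ℝ | polar z₀ v (1, θ) ∈ {z : ℂ | ρ z = 0} ∩ V} with hS
    have hcont : Continuous (fun θ : ℝ => polar z₀ v (1, θ)) :=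
      (polar_continuous z₀ v).comp (by fun_prop)
    have hScl : IsClosed S := hΓcl.preimage hcont
    have hSo : IsOpen S := by
      rw [isOpen_iff_mem_nhds]
      rintro θ ⟨h3, h4⟩
      have h5 := hcont.continuousAt.tendsto.eventually (hfill _ h3 h4)
      filter_upwards [h5] with θ' hθ'
      have h6 := hθ' (by rw [polar_norm, abs_one, one_mul])
      exact h6
    have hSne : S.Nonempty := ⟨0, by
      show polar z₀ v (1, 0) ∈ {z : ℂ | ρ z = 0} ∩ V
      rw [polar_one, hv, add_sub_cancel]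
      exact hpar1 1 hone⟩
    have hSu : S = univ := IsClopen.eq_univ ⟨hScl, hSo⟩ hSne
    intro w hw
    have hv0 : v ≠ 0 := norm_pos_iff.1 hr
    have h3 : Complex.arg ((w - z₀) / v) ∈ S := by rw [hSu]; trivial
    have h4 := h3.1
    have h5 : polar z₀ v (1, Complex.arg ((w - z₀) / v)) = w := by
      have h6 := Complex.norm_mul_exp_arg_mul_I ((w - z₀) / v)
      have h7 : ‖(w - z₀) / v‖ = 1 := by
        rw [norm_div, hw]; exact div_self hr.ne'
      rw [h7] at h6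
      simp only [polar]
      rw [h6]
      field_simp
      ring
    rw [h5] at h4
    exact h4
  -- conclusion
  have hsep : ∀ S : Set ℂ, IsPreconnected S → (∀ z ∈ S, ρ z ≠ 0) →
      (S ⊆ ball z₀ r ∨ S ⊆ {z | r < ‖z - z₀‖}) := by
    intro S hS hS0
    have hcover : S ⊆ ball z₀ r ∪ {z | r < ‖z - z₀‖} := by
      intro z hz
      rcases lt_trichotomy ‖z - z₀‖ r with h | h | h
      · left; rwa [mem_ball, dist_eq_norm]
      · exact absurd (hall z h) (hS0 z hz)
      · right; exact h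
    have hdisj' : Disjoint (ball z₀ r) {z | r < ‖z - z₀‖} := by
      rw [Set.disjoint_left]
      intro z hz hz2
      rw [mem_ball, dist_eq_norm] at hz
      exact absurd hz2 (not_lt.2 hz.le)
    exact hS.subset_or_subset isOpen_ball (isOpen_lt continuous_const (by fun_prop)) hdisj' hcover
  -- the positive set lies outside
  have hpos : {z : ℂ | 0 < ρ z} ⊆ {z | r < ‖z - z₀‖} := by
    rcases hsep _ hholes.isPreconnected (fun z hz => ne_of_gt hz) with h | h
    · exfalso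
      obtain ⟨R, hR⟩ := hbdd.exists_norm_le
      -- a far point
      set x₀ : ℂ := z₀ + ((r + |R| + ‖z₀‖ + 1 : ℝ) : ℂ) with hx₀
      have hx₀n : ‖x₀ - z₀‖ = r + |R| + ‖z₀‖ + 1 := by
        rw [hx₀, add_sub_cancel_left, Complex.norm_real, Real.norm_eq_abs]
        apply abs_of_pos
        positivity
      have hx₀R : |R| < ‖x₀‖ := by
        have := norm_sub_le x₀ z₀
        rw [hx₀n] at this
        linarith
      have hx₀pos : 0 ≤ ρ x₀ := by
        by_contra hcon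
        push Not at hcon
        have := (hR x₀ hcon).trans (le_abs_self R)
        linarith
      have hx₀out : r < ‖x₀ - z₀‖ := by
        rw [hx₀n]
        have := abs_nonneg R
        have := norm_nonneg z₀
        linarith
      rcases lt_or_eq_of_le hx₀pos with h3 | h3
      · have := h h3
        rw [mem_ball, dist_eq_norm] at this
        linarith
      · have h4 := zero_subset_closure (ρ := ρ) hρd h3.symm (hgrad x₀ h3.symm)
        have h5 : closure {w : ℂ | ρ w < 0} ⊆ closedBall 0 |R| := by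
          apply closure_minimal _ isClosed_closedBall
          intro w hw
          rw [mem_closedBall, dist_zero_right]
          exact (hR w hw).trans (le_abs_self R)
        have h6 := h5 h4
        rw [mem_closedBall, dist_zero_right] at h6
        linarith
    · exact h
  have hball : ball z₀ r ⊆ {z : ℂ | ρ z < 0} := by
    intro z hz
    have hz' : ‖z - z₀‖ < r := by rwa [mem_ball, dist_eq_norm] at hz
    rcases lt_trichotomy (ρ z) 0 with h | h | h
    · exact h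
    · exfalso
      have h3 := zero_subset_closure (ρ := fun w => -ρ w) hρd.neg (z := z) (by rw [h, neg_zero]) (by
        rw [fderiv_fun_neg]
        exact neg_ne_zero.2 (hgrad z h))
      obtain ⟨w, hw1, hw2⟩ := mem_closure_iff.1 h3 (ball z₀ r) isOpen_ball hz
      have h4 : 0 < ρ w := by
        have : -ρ w < 0 := hw2
        linarith
      have h5 : r < ‖w - z₀‖ := hpos h4
      rw [mem_ball, dist_eq_norm] at hw1
      linarith
    · exfalso
      have h5 : r < ‖z - z₀‖ := hpos h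
      linarith
  refine ⟨z₀, r, Subset.antisymm ?_ hball⟩
  rcases hsep _ hconn.isPreconnected (fun z hz => ne_of_lt hz) with h | h
  · exact h
  · exfalso
    have h3 : z₀ ∈ {z : ℂ | ρ z < 0} := hball (mem_ball_self hr)
    have h4 := h h3
    simp only [mem_ofPred_eq, sub_self, norm_zero] at h4
    linarith

end Pool.Agent.Stek
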