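import Pool.Agent.Lib.MP_bd8415_an.Core

/-!
# The elliptic case and the selection of the leading exponent
-/

open Complex Metric Set Filter Topology Bornology

namespace Pool.Agent.Stek

theorem preconn_ne_zero : IsPreconnected ({0}ᶜ : Set ℂ) :=
  (isConnected_compl_singleton_of_one_lt_rank
    (by rw [Complex.rank_real_complex]; norm_num) 0).isPreconnected

theorem lau_analyticOnNhd (M : ℕ) (c : ℤ → ℂ) : AnalyticOnNhd ℂ (lau M c) ({0}ᶜ : Set ℂ) := by
  apply DifferentiableOn.analyticOnNhd _ isOpen_compl_singleton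
  intro ζ hζ
  exact (lau_hasDerivAt M c hζ).differentiableAt.differentiableWithinAt

theorem conj_differentiable {G : ℂ → ℂ} (hG : Differentiable ℂ G) :
    Differentiable ℂ (fun z => (starRingEnd ℂ) (G ((starRingEnd ℂ) z))) := by
  intro z
  have := (hG ((starRingEnd ℂ) z)).conj_conj
  rwa [Complex.conj_conj] at this

theorem comp_analyticOnNhd {g : ℂ → ℂ} (hg : Differentiable ℂ g) (M : ℕ) (c : ℤ → ℂ) :
    AnalyticOnNhd ℂ (fun ζ => g (lau M c ζ)) ({0}ᶜ : Set ℂ) := by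
  apply DifferentiableOn.analyticOnNhd _ isOpen_compl_singleton
  intro ζ hζ
  exact ((hg _).comp ζ (lau_hasDerivAt M c hζ).differentiableAt).differentiableWithinAt

theorem deriv_differentiable {G : ℂ → ℂ} (hG : Differentiable ℂ G) :
    Differentiable ℂ (deriv G) := by
  have h := hG.contDiff (n := 2)
  exact ((contDiff_succ_iff_deriv (n := 1)).1 h).2.2.differentiable (by norm_num)

theorem lau_two (M : ℕ) (hM : 1 ≤ M) (c : ℤ → ℂ)
    (hc : ∀ j : ℤ, -(M : ℤ) < j → j < M → j ≠ 0 → c j = 0) (ζ : ℂ) :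
    lau M c ζ = c M * ζ ^ (M : ℤ) + c 0 + c (-M) * ζ ^ (-(M : ℤ)) := by
  have hsub : ({(M : ℤ), 0, -(M : ℤ)} : Finset ℤ) ⊆ Finset.Icc (-(M : ℤ)) M := by
    intro x hx
    simp only [Finset.mem_insert, Finset.mem_singleton] at hx
    simp only [Finset.mem_Icc]
    omega
  rw [lau, ← Finset.sum_subset hsub, Finset.sum_insert, Finset.sum_insert, Finset.sum_singleton]
  · simp [add_assoc]
  · simp only [Finset.mem_singleton]; omega
  · simp only [Finset.mem_insert, Finset.mem_singleton]; omega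
  · intro x hx hx2
    simp only [Finset.mem_Icc] at hx
    simp only [Finset.mem_insert, Finset.mem_singleton] at hx2
    push Not at hx2
    rw [hc x (by omega) (by omega) hx2.2.1, zero_mul]

/-- The elliptic case: the sum of the completion and its conjugate vanishes. -/
theorem core_ellipse {G : ℂ → ℂ} (hG : Differentiable ℂ G) {σ : ℝ} (hσ : σ ≠ 0)
    (M : ℕ) (hM : 1 ≤ M) (c d : ℤ → ℂ) (hd : ∀ j, d j = (starRingEnd ℂ) (c (-j)))
    (hb : c (-M) ≠ 0) (hlt : ‖c (-M)‖ < ‖c M‖)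
    (hc : ∀ j : ℤ, -(M : ℤ) < j → j < M → j ≠ 0 → c j = 0) (hrel : Rel G σ M c d) :
    ∀ ζ : ℂ, ζ ≠ 0 → G (lau M c ζ) + (starRingEnd ℂ) (G ((starRingEnd ℂ) (lau M d ζ))) = 0 := by
  have ha : c M ≠ 0 := norm_pos_iff.1 ((norm_nonneg _).trans_lt hlt)
  have hMC : (M : ℂ) ≠ 0 := by exact_mod_cast (by omega : M ≠ 0)
  obtain ⟨ζ₀, hζ₀⟩ := IsAlgClosed.exists_pow_nat_eq (c (-M) / c M) (n := 2 * M) (by omega)
  have hζ0 : ζ₀ ≠ 0 := by
    rintro rfl
    rw [zero_pow (by omega)] at hζ₀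
    exact div_ne_zero hb ha hζ₀.symm
  set x := ζ₀ ^ M with hx
  have hx0 : x ≠ 0 := pow_ne_zero _ hζ0
  have hx2 : x ^ 2 = c (-M) / c M := by rw [hx, ← pow_mul, mul_comm, hζ₀]
  have hxz : ζ₀ ^ (M : ℤ) = x := zpow_natCast _ _
  have hxn : ζ₀ ^ (-(M : ℤ)) = x⁻¹ := by rw [zpow_neg, hxz]
  have hcM : c (-M) = c M * x ^ 2 := by rw [hx2]; field_simp
  set p1 := lau M (fun j => (j : ℂ) * c j) with hp1
  set q1 := lau M (fun j => (j : ℂ) * d j) with hq1
  have hp1_0 : p1 ζ₀ = 0 := by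
    rw [hp1, lau_two M hM (fun j => (j : ℂ) * c j)
      (fun j h1 h2 h3 => by rw [hc j h1 h2 h3, mul_zero]), hxz, hxn]
    push_cast
    rw [hcM]
    field_simp
    ring
  have hp1_d : deriv p1 ζ₀ ≠ 0 := by
    rw [hp1, (lau_hasDerivAt M _ hζ0).deriv]
    rw [lau_two M hM (fun j => (j : ℂ) * ((j : ℂ) * c j))
      (fun j h1 h2 h3 => by rw [hc j h1 h2 h3, mul_zero, mul_zero]), hxz, hxn]
    push_cast
    rw [hcM]
    have : ((M : ℂ) * (M * c M) * x + 0 * (0 * c 0) + -(M : ℂ) * (-(M : ℂ) * (c M * x ^ 2)) * x⁻¹)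
        / ζ₀ = 2 * M ^ 2 * c M * x / ζ₀ := by
      field_simp
      ring
    rw [this]
    exact div_ne_zero (mul_ne_zero (mul_ne_zero (mul_ne_zero two_ne_zero (pow_ne_zero _ hMC)) ha)
      hx0) hζ0
  have hq1_0 : q1 ζ₀ ≠ 0 := by
    rw [hq1, lau_two M hM (fun j => (j : ℂ) * d j)
      (fun j h1 h2 h3 => by
        rw [hd, hc (-j) (by omega) (by omega) (by omega), map_zero, mul_zero]), hxz, hxn]
    push_cast
    rw [hd M, hd (-M), neg_neg, hcM, map_mul, map_pow]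
    intro h
    have h1 : (starRingEnd ℂ) (c M) * ((starRingEnd ℂ) x ^ 2 * x ^ 2 - 1) = 0 := by
      have h2 : (M : ℂ) * ((starRingEnd ℂ) (c M) * (starRingEnd ℂ) x ^ 2) * x +
          0 * d 0 + -(M : ℂ) * (starRingEnd ℂ) (c M) * x⁻¹ =
          (M : ℂ) * x⁻¹ * ((starRingEnd ℂ) (c M) * ((starRingEnd ℂ) x ^ 2 * x ^ 2 - 1)) := by
        field_simp
        ring
      rw [h2] at h
      exact (mul_eq_zero.1 h).resolve_left (mul_ne_zero hMC (inv_ne_zero hx0))
    have h3 : (starRingEnd ℂ) x ^ 2 * x ^ 2 = 1 := by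
      have := (mul_eq_zero.1 h1).resolve_left ((map_ne_zero _).2 ha)
      linear_combination this
    have h4 : ‖x‖ ^ 4 = 1 := by
      have := congrArg norm h3
      rw [norm_mul, norm_pow, norm_pow, RCLike.norm_conj, norm_one] at this
      nlinarith
    have h5 : ‖x‖ ^ 2 < 1 := by
      have : ‖x‖ ^ 2 = ‖c (-M)‖ / ‖c M‖ := by rw [← norm_pow, hx2, norm_div]
      rw [this, div_lt_one ((norm_nonneg _).trans_lt hlt)]
      exact hlt
    nlinarith [sq_nonneg ‖x‖]
  -- the functions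
  have hGd := deriv_differentiable hG
  have aP : AnalyticOnNhd ℂ p1 ({0}ᶜ : Set ℂ) := lau_analyticOnNhd M _
  have aQ : AnalyticOnNhd ℂ q1 ({0}ᶜ : Set ℂ) := lau_analyticOnNhd M _
  have a1 := comp_analyticOnNhd hG M c
  have a2 := comp_analyticOnNhd (conj_differentiable hG) M d
  have a3 := comp_analyticOnNhd hGd M c
  have a4 := comp_analyticOnNhd (conj_differentiable hGd) M d
  set H : ℂ → ℂ := fun ζ => G (lau M c ζ) + (starRingEnd ℂ) (G ((starRingEnd ℂ) (lau M d ζ)))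
    with hH
  set F : ℂ → ℂ := fun ζ => p1 ζ * deriv G (lau M c ζ) -
      q1 ζ * (starRingEnd ℂ) (deriv G ((starRingEnd ℂ) (lau M d ζ))) with hF
  have aH : AnalyticOnNhd ℂ H ({0}ᶜ : Set ℂ) := a1.add a2
  have aF : AnalyticOnNhd ℂ F ({0}ᶜ : Set ℂ) := (aP.mul a3).sub (aQ.mul a4)
  have hmem : ζ₀ ∈ ({0}ᶜ : Set ℂ) := hζ0
  have hrelF : ∀ᶠ ζ in 𝓝 ζ₀, (F ^ 2) ζ =
      ((fun _ : ℂ => -((σ : ℂ) ^ 2)) * (p1 * q1) * H ^ 2) ζ := by
    filter_upwards [isOpen_compl_singleton.mem_nhds hmem] with ζ hζ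
    have := hrel ζ hζ
    simp only [Pi.pow_apply, Pi.mul_apply]
    rw [hF, hH]
    simp only
    rw [this]
    ring
  have hord := analyticOrderAt_congr hrelF
  have hσC : -((σ : ℂ) ^ 2) ≠ 0 := by
    have : (σ : ℂ) ≠ 0 := by exact_mod_cast hσ
    exact neg_ne_zero.2 (pow_ne_zero _ this)
  have aC : AnalyticAt ℂ (fun _ : ℂ => -((σ : ℂ) ^ 2)) ζ₀ := analyticAt_const
  have o1 : analyticOrderAt p1 ζ₀ = 1 :=
    (aP ζ₀ hmem).analyticOrderAt_eq_one_of_zero_deriv_ne_zero hp1_0 hp1_d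
  have o2 : analyticOrderAt q1 ζ₀ = 0 := (aQ ζ₀ hmem).analyticOrderAt_eq_zero.2 hq1_0
  have o3 : analyticOrderAt (fun _ : ℂ => -((σ : ℂ) ^ 2)) ζ₀ = 0 :=
    aC.analyticOrderAt_eq_zero.2 hσC
  rw [analyticOrderAt_pow (aF ζ₀ hmem), analyticOrderAt_mul (aC.mul ((aP ζ₀ hmem).mul
    (aQ ζ₀ hmem))) ((aH ζ₀ hmem).pow 2), analyticOrderAt_mul aC ((aP ζ₀ hmem).mul
    (aQ ζ₀ hmem)), analyticOrderAt_mul (aP ζ₀ hmem) (aQ ζ₀ hmem), o1, o2, o3,
    analyticOrderAt_pow (aH ζ₀ hmem)] at hord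
  have hHtop : analyticOrderAt H ζ₀ = ⊤ := by
    by_contra hne
    obtain ⟨n, hn⟩ := ENat.ne_top_iff_exists.1 hne
    rw [← hn] at hord
    by_cases hFt : analyticOrderAt F ζ₀ = ⊤
    · rw [hFt] at hord
      norm_num at hord
      norm_cast at hord
    · obtain ⟨k, hk⟩ := ENat.ne_top_iff_exists.1 hFt
      rw [← hk] at hord
      norm_num at hord
      norm_cast at hord
      omega
  have hev : ∀ᶠ ζ in 𝓝 ζ₀, H ζ = 0 := analyticOrderAt_eq_top.1 hHtop
  have := aH.eqOn_zero_of_preconnected_of_eventuallyEq_zero preconn_ne_zero hmem hev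
  intro ζ hζ
  exact this hζ

/-- All cases. -/
theorem core_all {G : ℂ → ℂ} (hG : Differentiable ℂ G) {σ : ℝ} (hσ : σ ≠ 0)
    (M : ℕ) (hM : 1 ≤ M) (c d : ℤ → ℂ) (hd : ∀ j, d j = (starRingEnd ℂ) (c (-j)))
    (hlt : ‖c (-M)‖ < ‖c M‖) (hrel : Rel G σ M c d) :
    (∀ ζ : ℂ, ‖ζ‖ = 1 → (G (lau M c ζ)).re = 0) ∨
      (c (-M) = 0 ∧ ∀ j : ℤ, -(M : ℤ) < j → j < M → j ≠ 0 → c j = 0) := by
  have ha : c M ≠ 0 := norm_pos_iff.1 ((norm_nonneg _).trans_lt hlt)
  set α : ℂ := d M / c M with hα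
  have hα1 : ‖α‖ < 1 := by
    rw [hα, norm_div, hd, RCLike.norm_conj, div_lt_one ((norm_nonneg _).trans_lt hlt)]
    exact hlt
  set y : ℤ → ℂ := fun j => d j - α * c j with hy
  by_cases hex : ∃ j : ℤ, (-(M : ℤ) < j ∧ j < M ∧ j ≠ 0) ∧ y j ≠ 0
  · left
    -- the greatest such exponent
    have hbd : ∃ b : ℤ, ∀ j : ℤ, ((-(M : ℤ) < j ∧ j < M ∧ j ≠ 0) ∧ y j ≠ 0) → j ≤ b :=
      ⟨M, fun j hj => hj.1.2.1.le⟩
    obtain ⟨e, ⟨⟨he1, he2, he3⟩, he4⟩, hmax⟩ := Int.exists_greatest_of_bdd hbd hex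
    have hnd : ¬ (M : ℤ) ∣ e := by
      intro h
      rcases lt_or_gt_of_ne he3 with h1 | h1
      · have := Int.le_of_dvd (by omega : (0 : ℤ) < -e) ((dvd_neg).2 h)
        omega
      · have := Int.le_of_dvd h1 h
        omega
    have hy' : ∀ j : ℤ, e < j → j ≤ M → (j : ℂ) * y j = 0 := by
      intro j h1 h2
      rcases lt_or_eq_of_le h2 with h3 | h3
      · by_cases h4 : j = 0
        · rw [h4]; simp
        · have : y j = 0 := by
            by_contra h5
            have := hmax j ⟨⟨by omega, h3, h4⟩, h5⟩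
            omega
          rw [this, mul_zero]
      · rw [h3]
        have : y M = 0 := by
          rw [hy]
          simp only
          rw [hα]
          field_simp
          ring
        rw [this, mul_zero]
    have := core_generic hG hσ M hM c d y α ha hα1 (fun j => by rw [hy]; ring) e he2 (by omega)
      hnd he4 hy' hrel
    intro ζ _
    exact this _
  · push Not at hex
    have hc : ∀ j : ℤ, -(M : ℤ) < j → j < M → j ≠ 0 → c j = 0 := by
      intro j h1 h2 h3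
      have e1 : d j = α * c j := by
        have := hex j ⟨h1, h2, h3⟩
        rw [hy] at this
        linear_combination this
      have e2 : d (-j) = α * c (-j) := by
        have := hex (-j) ⟨by omega, by omega, by omega⟩
        rw [hy] at this
        linear_combination this
      rw [hd] at e1 e2
      rw [neg_neg] at e2
      -- conj (c (-j)) = α c j, conj (c j) = α c (-j)
      have e3 : c (-j) = (starRingEnd ℂ) α * (starRingEnd ℂ) (c j) := by
        have := congrArg (starRingEnd ℂ) e1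
        rw [Complex.conj_conj, map_mul] at this
        exact this
      by_contra h0
      have h4 : ‖c j‖ = ‖α‖ ^ 2 * ‖c j‖ := by
        calc ‖c j‖ = ‖(starRingEnd ℂ) (c j)‖ := (RCLike.norm_conj _).symm
          _ = ‖α‖ * ‖c (-j)‖ := by rw [e2, norm_mul]
          _ = _ := by rw [e3, norm_mul, RCLike.norm_conj, RCLike.norm_conj]; ring
      have h5 : 0 < ‖c j‖ := norm_pos_iff.2 h0
      have h6 : ‖α‖ ^ 2 < 1 := by
        have := norm_nonneg α
        nlinarith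
      nlinarith
    by_cases hb : c (-M) = 0
    · right; exact ⟨hb, hc⟩
    · left
      have := core_ellipse hG hσ M hM c d hd hb hlt hc hrel
      intro ζ hζ
      have h0 : ζ ≠ 0 := by
        rintro rfl; simp at hζ
      have h1 := this ζ h0
      have h2 : lau M d ζ = (starRingEnd ℂ) (lau M c ζ) := by
        rw [lau_conj M c hζ]
        have : d = fun j => (starRingEnd ℂ) (c (-j)) := funext hd
        rw [this]
      rw [h2, Complex.conj_conj] at h1
      have := congrArg Complex.re h1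
      simp at this
      linarith

end Pool.Agent.Stek
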