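import Pool.Agent.Lib.MP_bd8415_an.Alg.FinalArc

/-!
# One boundary arc parametrised with countably many complex singularities
-/

open Complex Metric Set Filter Topology Bornology

namespace Pool.Agent.Stek

/-- The relation at a boundary point, local hypotheses. -/
theorem rel_circle_loc {ρ : ℂ → ℝ} (hρ : Differentiable ℝ ρ)
    (hgrad : ∀ z, ρ z = 0 → fderiv ℝ ρ z ≠ 0) {G : ℂ → ℂ} (hG : Differentiable ℂ G) {σ : ℝ}
    (hbc : ∀ z, ρ z = 0 → (deriv G z * grad ρ z).re = σ * (G z).re * ‖grad ρ z‖)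
    {p q : ℂ → ℂ} {ζ : ℂ} (hζ : ‖ζ‖ = 1)
    (hpar : ∀ᶠ w in 𝓝 ζ, ‖w‖ = 1 → ρ (p w) = 0 ∧ q w = (starRingEnd ℂ) (p w))
    (hp : DifferentiableAt ℂ p ζ) (hq : DifferentiableAt ℂ q ζ) :
    (deriv G (p ζ) * deriv p ζ - deriv (sh G) (q ζ) * deriv q ζ) ^ 2 =
      (-(σ : ℂ) ^ 2) * (deriv p ζ * deriv q ζ) * (G (p ζ) + sh G (q ζ)) ^ 2 := by
  have hζ0 : ζ ≠ 0 := by rintro rfl; simp at hζ
  have hcirc : ∀ θ : ℝ, ‖ζ * Complex.exp (θ * I)‖ = 1 := by
    intro θ
    rw [norm_mul, hζ, Complex.norm_exp_ofReal_mul_I, one_mul]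
  have hcurve : ∀ᶠ θ : ℝ in 𝓝 0, ρ (p (ζ * Complex.exp (θ * I))) = 0 ∧
      q (ζ * Complex.exp (θ * I)) = (starRingEnd ℂ) (p (ζ * Complex.exp (θ * I))) := by
    have hc : Tendsto (fun θ : ℝ => ζ * Complex.exp (θ * I)) (𝓝 0) (𝓝 ζ) := by
      have h1 : Continuous (fun θ : ℝ => ζ * Complex.exp (θ * I)) := by fun_prop
      have := h1.tendsto 0
      simpa using this
    filter_upwards [hc.eventually hpar] with θ hθ using hθ (hcirc θ)
  set x := deriv p ζ * ζ with hx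
  set y := deriv q ζ * ζ with hy
  set z := p ζ with hz
  -- `y = - conj x`
  have hyx : y = -(starRingEnd ℂ) x := by
    have h1 := circle_hasDerivAt hq
    have h2 : HasDerivAt (fun θ : ℝ => (starRingEnd ℂ) (p (ζ * Complex.exp (θ * I))))
        ((starRingEnd ℂ) (deriv p ζ * ζ * I)) 0 :=
      (Complex.conjCLE.hasFDerivAt).comp_hasDerivAt (0 : ℝ) (circle_hasDerivAt hp)
    have h3 : (fun θ : ℝ => q (ζ * Complex.exp (θ * I))) =ᶠ[𝓝 0]
        fun θ : ℝ => (starRingEnd ℂ) (p (ζ * Complex.exp (θ * I))) :=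
      hcurve.mono fun θ hθ => hθ.2
    have h4 := h1.unique (h2.congr_of_eventuallyEq h3)
    rw [map_mul, Complex.conj_I] at h4
    have h5 : y * I = -((starRingEnd ℂ) x) * I := by rw [hy, h4, hx]; ring
    exact mul_right_cancel₀ Complex.I_ne_zero h5
  -- tangency
  have h0 := hpar.self_of_nhds hζ
  have hρz : ρ z = 0 := h0.1
  have htan : (grad ρ z).re * x.im = (grad ρ z).im * x.re := by
    have h6 : HasFDerivAt ρ (fderiv ℝ ρ z) ((fun θ : ℝ => p (ζ * Complex.exp (θ * I))) 0) := by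
      simpa using (hρ z).hasFDerivAt
    have h7 := h6.comp_hasDerivAt (0 : ℝ) (circle_hasDerivAt hp)
    have h8 : (ρ ∘ fun θ : ℝ => p (ζ * Complex.exp (θ * I))) =ᶠ[𝓝 0] fun _ => (0 : ℝ) :=
      hcurve.mono fun θ hθ => hθ.1
    have h9 := h7.unique ((hasDerivAt_const (0 : ℝ) (0 : ℝ)).congr_of_eventuallyEq h8)
    rw [fderiv_eq_grad, ← hx] at h9
    simp at h9
    linarith
  have hg := grad_ne_zero (hgrad z hρz)
  have hb := hbc z hρz
  set g := grad ρ z with hgdef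
  obtain ⟨μ, hμ⟩ := exists_mu hg htan
  have e1 : q ζ = (starRingEnd ℂ) z := h0.2
  have e2 : deriv (sh G) (q ζ) = (starRingEnd ℂ) (deriv G z) := by
    rw [deriv_sh hG, e1, Complex.conj_conj]
  have e2' : sh G (q ζ) = (starRingEnd ℂ) (G z) := by rw [sh, e1, Complex.conj_conj]
  have e3 : deriv G z * x - (starRingEnd ℂ) (deriv G z) * y =
      ((2 * μ * (deriv G z * g).re : ℝ) : ℂ) := by
    have : deriv G z * x - (starRingEnd ℂ) (deriv G z) * y =
        μ * (deriv G z * g + (starRingEnd ℂ) (deriv G z * g)) := by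
      rw [hyx, hμ, map_mul, map_mul, Complex.conj_ofReal]; ring
    rw [this, Complex.add_conj]
    push_cast
    ring
  have e4 : G z + (starRingEnd ℂ) (G z) = ((2 * (G z).re : ℝ) : ℂ) := Complex.add_conj _
  have e5 : x * y = -((μ ^ 2 * ‖g‖ ^ 2 : ℝ) : ℂ) := by
    have : g * (starRingEnd ℂ) g = ((‖g‖ ^ 2 : ℝ) : ℂ) := by
      rw [Complex.mul_conj, Complex.normSq_eq_norm_sq]
    rw [hyx, hμ, map_mul, Complex.conj_ofReal]
    push_cast at this ⊢
    linear_combination -(μ : ℂ) ^ 2 * this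
  have key : (deriv G z * x - (starRingEnd ℂ) (deriv G z) * y) ^ 2 =
      (-(σ : ℂ) ^ 2) * (x * y) * (G z + (starRingEnd ℂ) (G z)) ^ 2 := by
    rw [e3, e4, e5, hb]
    push_cast
    ring
  rw [e2, e2']
  have h10 : ((deriv G z * deriv p ζ - (starRingEnd ℂ) (deriv G z) * deriv q ζ) ^ 2) * ζ ^ 2 =
      ((-(σ : ℂ) ^ 2) * (deriv p ζ * deriv q ζ) * (G z + (starRingEnd ℂ) (G z)) ^ 2) * ζ ^ 2 := by
    rw [hx, hy] at key
    linear_combination key
  exact mul_right_cancel₀ (pow_ne_zero 2 hζ0) h10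

/-- Points of the unit circle accumulate at each of its points. -/
theorem circle_frequently_at {ζ : ℂ} (hζ : ‖ζ‖ = 1) {P : ℂ → Prop}
    (h : ∀ᶠ w in 𝓝 ζ, ‖w‖ = 1 → P w) : ∃ᶠ w in 𝓝[≠] ζ, P w := by
  have hζ0 : ζ ≠ 0 := by rintro rfl; simp at hζ
  have h2 : HasDerivAt (fun θ : ℝ => ζ * Complex.exp ((θ : ℂ) * I)) (ζ * I) 0 := by
    have h2 : HasDerivAt (fun θ : ℝ => ((θ : ℂ) * I)) (I) 0 := by
      simpa using (Complex.ofRealCLM.hasDerivAt (x := (0 : ℝ))).mul_const I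
    have h3 := h2.cexp.const_mul ζ
    simpa using h3
  have h3 := h2.tendsto_nhdsNE (mul_ne_zero hζ0 Complex.I_ne_zero)
  simp only [Complex.ofReal_zero, zero_mul, Complex.exp_zero, mul_one] at h3
  apply h3.frequently
  apply Eventually.frequently
  have h4 := h3.eventually (h.filter_mono nhdsWithin_le_nhds)
  refine h4.mono fun θ hθ => hθ ?_
  rw [norm_mul, hζ, Complex.norm_exp_ofReal_mul_I, one_mul]

/-- The reflection identity off the exceptional sets, from an arc. -/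
theorem reflect_of_arc {p q : ℂ → ℂ} {F₁ F₂ : Set ℂ} (h1 : IsClosed F₁) (h1c : F₁.Countable)
    (h2 : IsClosed F₂) (h2c : F₂.Countable) (u1 : (1 : ℂ) ∉ F₁) (u2 : (1 : ℂ) ∉ F₂)
    (hp : DifferentiableOn ℂ p F₁ᶜ) (hq : DifferentiableOn ℂ q F₂ᶜ)
    (hpq : ∀ᶠ ζ in 𝓝 (1 : ℂ), ‖ζ‖ = 1 → q ζ = (starRingEnd ℂ) (p ζ)) :
    ∀ z, z ≠ 0 → z ∉ F₂ → RR z ∉ F₁ → q z = (starRingEnd ℂ) (p (RR z)) := by
  set N : Set ℂ := F₂ ∪ ({0} ∪ RR '' F₁) with hN
  have hNc : N.Countable := h2c.union ((countable_singleton 0).union (h1c.image _))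
  have hmem : ∀ z, z ∈ Nᶜ → z ≠ 0 ∧ z ∉ F₂ ∧ RR z ∉ F₁ := by
    intro z hz
    refine ⟨fun h => hz (Or.inr (Or.inl h)), fun h => hz (Or.inl h), fun h => hz (Or.inr (Or.inr
      ⟨RR z, h, RR_RR z⟩))⟩
  have aq : AnalyticOnNhd ℂ q Nᶜ := by
    intro z hz
    exact hq.analyticAt (h2.isOpen_compl.mem_nhds (hmem z hz).2.1)
  have ap : AnalyticOnNhd ℂ (fun z => (starRingEnd ℂ) (p (RR z))) Nᶜ := by
    intro z hz
    rw [Complex.analyticAt_iff_eventually_differentiableAt]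
    obtain ⟨hz0, -, hR⟩ := hmem z hz
    filter_upwards [isOpen_ne.mem_nhds hz0,
      (RR_continuousAt hz0).eventually (h1.isOpen_compl.mem_nhds hR)] with w hw1 hw2
    exact (refl_hasDerivAt hw1
      (hp.differentiableAt (h1.isOpen_compl.mem_nhds hw2))).differentiableAt
  have h1mem : (1 : ℂ) ∈ Nᶜ := by
    rintro (h | h | ⟨w, hw, hw1⟩)
    · exact u2 h
    · exact one_ne_zero h
    · have : w = 1 := by rw [← RR_RR w, hw1, RR_unit (by simp)]
      exact u1 (this ▸ hw)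
  have key := aq.eqOn_of_preconnected_of_frequently_eq ap (preconn_compl hNc) h1mem
    (circle_frequently_at (by simp) (hpq.and (Eventually.of_forall fun ζ => True.intro) |>.mono
      fun ζ hζ hn => by
        rw [hζ.1 hn, RR_unit hn]))
  intro z hz0 hz2 hzR
  apply key
  rintro (h | h | ⟨w, hw, hw1⟩)
  · exact hz2 h
  · exact hz0 h
  · apply hzR
    rw [← hw1, RR_RR]; exact hw

/-- One boundary arc parametrised with countably many complex singularities. -/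
theorem csarc {ρ : ℂ → ℝ} (hρ : ContDiff ℝ 2 ρ)
    (hgrad : ∀ z : ℂ, ρ z = 0 → fderiv ℝ ρ z ≠ 0)
    (hbdd : Bornology.IsBounded {z : ℂ | ρ z < 0})
    (hconn : IsConnected {z : ℂ | ρ z < 0})
    {p q : ℂ → ℂ} {F₁ F₂ : Set ℂ} (h1 : IsClosed F₁) (h1c : F₁.Countable)
    (h2 : IsClosed F₂) (h2c : F₂.Countable) (hdisj : Disjoint F₁ F₂)
    (u1 : (1 : ℂ) ∉ F₁) (u2 : (1 : ℂ) ∉ F₂)
    (hp : DifferentiableOn ℂ p F₁ᶜ) (hq : DifferentiableOn ℂ q F₂ᶜ)
    (harc : ∀ᶠ ζ in 𝓝 (1 : ℂ), ‖ζ‖ = 1 → ρ (p ζ) = 0 ∧ q ζ = (starRingEnd ℂ) (p ζ))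
    (hp1 : deriv p 1 ≠ 0) {G : ℂ → ℂ} (hG : Differentiable ℂ G) {σ : ℝ}
    (hbc' : ∀ z, ρ z = 0 → (deriv G z * grad ρ z).re = σ * (G z).re * ‖grad ρ z‖)
    (hne' : ∃ z w, ρ z < 0 ∧ ρ w < 0 ∧ (G z).re ≠ (G w).re) :
    ∃ (z₀ : ℂ) (r : ℝ), {z : ℂ | ρ z < 0} = Metric.ball z₀ r := by
  have hGd := deriv_differentiable hG
  have hρd : Differentiable ℝ ρ := hρ.differentiable two_ne_zero
  have hσ0 : 0 < σ := sigma_pos hρd hgrad hbdd hG hbc' hne'
  have hGnc : ¬ ∃ b, ∀ z, G z = b := by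
    rintro ⟨b, hb⟩
    obtain ⟨z, w, -, -, h3⟩ := hne'
    exact h3 (by rw [hb z, hb w])
  have hGnc' : ∃ w₀, deriv G w₀ ≠ 0 := by
    by_contra hcon
    push Not at hcon
    exact hGnc ⟨G 0, fun z => is_const_of_deriv_eq_zero hG hcon z 0⟩
  have hone : ‖(1 : ℂ)‖ = 1 := by simp
  have hsG := sh_differentiable hG
  have hsGd : Differentiable ℂ (deriv (sh G)) := by
    rw [deriv_sh' hG]; exact sh_differentiable hGd
  set F := F₁ ∪ F₂ with hF
  have hFcl : IsClosed F := h1.union h2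
  have hFc : F.Countable := h1c.union h2c
  have hpa : ∀ z, z ∉ F₁ → AnalyticAt ℂ p z := fun z hz =>
    hp.analyticAt (h1.isOpen_compl.mem_nhds hz)
  have hqa : ∀ z, z ∉ F₂ → AnalyticAt ℂ q z := fun z hz =>
    hq.analyticAt (h2.isOpen_compl.mem_nhds hz)
  have mem1 : (1 : ℂ) ∈ Fᶜ := by
    rintro (h | h)
    · exact u1 h
    · exact u2 h
  have n1 : ∀ z, z ∈ Fᶜ → z ∉ F₁ := fun z hz h => hz (Or.inl h)
  have n2 : ∀ z, z ∈ Fᶜ → z ∉ F₂ := fun z hz h => hz (Or.inr h)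
  -- near `1`
  have hnear : ∀ᶠ ζ in 𝓝 (1 : ℂ), ζ ∈ Fᶜ ∧ deriv p ζ ≠ 0 ∧
      ∀ᶠ w in 𝓝 ζ, ‖w‖ = 1 → ρ (p w) = 0 ∧ q w = (starRingEnd ℂ) (p w) := by
    filter_upwards [hFcl.isOpen_compl.mem_nhds mem1,
      (hpa 1 u1).deriv.continuousAt.eventually_ne hp1, harc.eventually_nhds] with ζ a b c
      using ⟨a, b, c⟩
  -- `p` maps the circle near a regular point to accumulating points
  have hpush : ∀ ζ : ℂ, ‖ζ‖ = 1 → ζ ∈ Fᶜ → deriv p ζ ≠ 0 → ∀ P : ℂ → Prop,
      (∀ᶠ w in 𝓝 ζ, ‖w‖ = 1 → P (p w)) → ∃ᶠ z in 𝓝[≠] (p ζ), P z := by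
    intro ζ hζ hζF hd P hP
    have h3 := ((hpa ζ (n1 ζ hζF)).differentiableAt.hasDerivAt).tendsto_nhdsNE hd
    exact h3.frequently (circle_frequently_at hζ hP)
  -- `G` is not constant on the arc
  have hGcurve : ∀ b : ℂ, ¬ ∀ᶠ ζ in 𝓝 (1 : ℂ), ‖ζ‖ = 1 → G (p ζ) = b := by
    intro b hb
    apply hGnc
    refine ⟨b, ?_⟩
    have hfr : ∃ᶠ w in 𝓝[≠] (p 1), G w = b := hpush 1 hone mem1 hp1 (fun z => G z = b) hb
    have h4 := AnalyticOnNhd.eqOn_of_preconnected_of_frequently_eq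
      (f := G) (g := fun _ => b) (U := univ) (fun z _ => hG.analyticAt z)
      (fun z _ => analyticAt_const) isPreconnected_univ (mem_univ (p 1)) hfr
    exact fun z => h4 (mem_univ z)
  have a1 : AnalyticOnNhd ℂ (fun z => G (p z)) Fᶜ := fun z hz =>
    (hG.analyticAt (p z)).fun_comp (hpa z (n1 z hz))
  have a2 : AnalyticOnNhd ℂ (fun z => sh G (q z)) Fᶜ := fun z hz =>
    (hsG.analyticAt (q z)).fun_comp (hqa z (n2 z hz))
  have a3 : AnalyticOnNhd ℂ (fun z => deriv G (p z)) Fᶜ := fun z hz =>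
    (hGd.analyticAt (p z)).fun_comp (hpa z (n1 z hz))
  have a4 : AnalyticOnNhd ℂ (fun z => deriv (sh G) (q z)) Fᶜ := fun z hz =>
    (hsGd.analyticAt (q z)).fun_comp (hqa z (n2 z hz))
  have a5 : AnalyticOnNhd ℂ (deriv p) Fᶜ := fun z hz => (hpa z (n1 z hz)).deriv
  have a6 : AnalyticOnNhd ℂ (deriv q) Fᶜ := fun z hz => (hqa z (n2 z hz)).deriv
  have aD : AnalyticOnNhd ℂ (fun z => deriv G (p z) * deriv p z -
      deriv (sh G) (q z) * deriv q z) Fᶜ := (a3.mul a5).sub (a4.mul a6)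
  have hpre := preconn_compl hFc
  -- the relation
  have hrel : ∀ z, z ∉ F → (deriv G (p z) * deriv p z - deriv (sh G) (q z) * deriv q z) ^ 2 =
      (-(σ : ℂ) ^ 2) * (deriv p z * deriv q z) * (G (p z) + sh G (q z)) ^ 2 := by
    have aL : AnalyticOnNhd ℂ (fun z => (deriv G (p z) * deriv p z -
      deriv (sh G) (q z) * deriv q z) ^ 2) Fᶜ := aD.pow 2
    have aR : AnalyticOnNhd ℂ (fun z => (-(σ : ℂ) ^ 2) * (deriv p z * deriv q z) *
        (G (p z) + sh G (q z)) ^ 2) Fᶜ :=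
      ((analyticOnNhd_const (v := (-(σ : ℂ) ^ 2))).mul (a5.mul a6)).mul ((a1.add a2).pow 2)
    have := aL.eqOn_of_preconnected_of_frequently_eq aR hpre mem1
      (circle_frequently_at hone (hnear.mono fun ζ hζ hn =>
        rel_circle_loc hρd hgrad hG hbc' hn hζ.2.2 (hpa ζ (n1 ζ hζ.1)).differentiableAt
        (hqa ζ (n2 ζ hζ.1)).differentiableAt))
    intro z hz
    exact this hz
  have hσ : -(σ : ℂ) ^ 2 ≠ 0 := by
    apply neg_ne_zero.2
    apply pow_ne_zero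
    exact_mod_cast hσ0.ne'
  have hdh : ∀ z ∈ Fᶜ, HasDerivAt (fun z => G (p z)) (deriv G (p z) * deriv p z) z := fun z hz =>
    (hG (p z)).hasDerivAt.comp z (hpa z (n1 z hz)).differentiableAt.hasDerivAt
  have hdk : ∀ z ∈ Fᶜ, HasDerivAt (fun z => sh G (q z)) (deriv (sh G) (q z) * deriv q z) z :=
    fun z hz => (hsG (q z)).hasDerivAt.comp z (hqa z (n2 z hz)).differentiableAt.hasDerivAt
  -- `D` does not vanish identically
  have hDne : ¬ EqOn (fun z => deriv G (p z) * deriv p z -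
      deriv (sh G) (q z) * deriv q z) 0 Fᶜ := by
    intro hD0
    have hh : EqOn (fun z => deriv G (p z) * deriv p z) 0 Fᶜ := by
      intro z₁ hz₁
      by_contra hcon
      have hcon' : deriv G (p z₁) * deriv p z₁ ≠ 0 := hcon
      have aM := (a3.mul a5) z₁ hz₁
      have h3 : ∀ᶠ z in 𝓝 z₁, z ∈ Fᶜ ∧ deriv G (p z) * deriv p z ≠ 0 := by
        filter_upwards [hFcl.isOpen_compl.mem_nhds hz₁, aM.continuousAt.eventually_ne hcon']
          with z h4 h5 using ⟨h4, h5⟩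
      have h4 : ∀ᶠ z in 𝓝 z₁, G (p z) + sh G (q z) = 0 := by
        filter_upwards [h3] with z hz
        have e1 := hrel z hz.1
        have e2 : deriv G (p z) * deriv p z - deriv (sh G) (q z) * deriv q z = 0 := hD0 hz.1
        have e3 : deriv p z ≠ 0 := right_ne_zero_of_mul hz.2
        have e4 : deriv (sh G) (q z) * deriv q z ≠ 0 := by
          rw [← sub_eq_zero.1 e2]; exact hz.2
        have e5 : deriv q z ≠ 0 := right_ne_zero_of_mul e4
        rw [e2, zero_pow two_ne_zero] at e1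
        have e6 := (mul_eq_zero.1 e1.symm).resolve_left
          (mul_ne_zero hσ (mul_ne_zero e3 e5))
        exact pow_eq_zero_iff two_ne_zero |>.1 e6
      have h5 : HasDerivAt (fun z => G (p z) + sh G (q z)) 0 z₁ :=
        (hasDerivAt_const z₁ (0 : ℂ)).congr_of_eventuallyEq h4
      have h6 := (hdh z₁ hz₁).add (hdk z₁ hz₁)
      have h7 := h6.unique h5
      have e2 : deriv G (p z₁) * deriv p z₁ - deriv (sh G) (q z₁) * deriv q z₁ = 0 := hD0 hz₁
      apply hcon'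
      have h8 : 2 * (deriv G (p z₁) * deriv p z₁) = 0 := by linear_combination h7 + e2
      exact (mul_eq_zero.1 h8).resolve_left two_ne_zero
    obtain ⟨b, hb⟩ := hFcl.isOpen_compl.exists_is_const_of_deriv_eq_zero hpre
      (f := fun z => G (p z))
      (fun z hz => (hdh z hz).differentiableAt.differentiableWithinAt)
      (fun z hz => by rw [(hdh z hz).deriv]; exact hh hz)
    exact hGcurve b (hnear.mono fun ζ hζ _ => hb ζ hζ.1)
  -- the enlarged exceptional set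
  set Z : Set ℂ := {z | z ∈ Fᶜ ∧ deriv G (p z) * deriv p z -
      deriv (sh G) (q z) * deriv q z = 0} with hZ
  have hZc : Z.Countable := by
    apply countable_zeros (f := fun z => deriv G (p z) * deriv p z -
      deriv (sh G) (q z) * deriv q z)
    intro x hx
    rcases (aD x hx).eventually_eq_zero_or_eventually_ne_zero with h | h
    · exfalso
      exact hDne (aD.eqOn_zero_of_preconnected_of_eventuallyEq_zero hpre hx h)
    · exact h
  set F' := F ∪ Z with hF'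
  have hF'c : F'.Countable := hFc.union hZc
  have hF'cl : IsClosed F' := by
    rw [← isOpen_compl_iff, isOpen_iff_mem_nhds]
    intro x hx
    have hxF : x ∈ Fᶜ := fun h => hx (Or.inl h)
    have hxD : deriv G (p x) * deriv p x - deriv (sh G) (q x) * deriv q x ≠ 0 :=
      fun h => hx (Or.inr ⟨hxF, h⟩)
    filter_upwards [hFcl.isOpen_compl.mem_nhds hxF,
      (aD x hxF).continuousAt.eventually_ne hxD] with y hy1 hy2
    rintro (h | h)
    · exact hy1 h
    · exact hy2 h.2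
  have hFF : ∀ z, z ∉ F' → z ∉ F := fun z hz h => hz (Or.inl h)
  have hdata : Data G p q (-(σ : ℂ) ^ 2) F' :=
    { hG := hG
      hGd := hGd
      hF := hF'c
      hFc := hF'cl
      hreg := fun x => by
        by_cases hx : x ∈ F₁
        · right
          exact hqa x (fun h => (Set.disjoint_left.1 hdisj) hx h)
        · left
          exact hpa x hx
      hp := fun z hz => hpa z (n1 z (hFF z hz))
      hq := fun z hz => hqa z (n2 z (hFF z hz))
      hrel := fun z hz => hrel z (hFF z hz)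
      hD := fun z hz h => hz (Or.inr ⟨hFF z hz, h⟩)
      hκ := hσ
      hrefl := fun z hz0 hz hRz => reflect_of_arc h1 h1c h2 h2c u1 u2 hp hq
        (harc.mono fun ζ hζ hn => (hζ hn).2) z hz0 (n2 z (hFF z hz)) (n1 _ (hFF _ hRz))
      hnc := hGnc' }
  obtain ⟨c, hcc, hEc⟩ := EE_const hdata
  obtain ⟨c₀, hprod, hprod'⟩ := prod_const hdata hEc
  -- the product relation on the arc
  have hcirc : ∀ᶠ ζ in 𝓝 (1 : ℂ), ‖ζ‖ = 1 → ((‖G (p ζ) + c‖ ^ 2 : ℝ) : ℂ) = c₀ := by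
    filter_upwards [hnear] with ζ hζn hζ
    have hne := neBot_compl hF'c ζ
    have hζF : ζ ∈ Fᶜ := hζn.1
    have t1 : Tendsto (fun z => (G (p z) + c) * (sh G (q z) - c)) (𝓝[F'ᶜ] ζ)
        (𝓝 ((G (p ζ) + c) * (sh G (q ζ) - c))) :=
      (((a1 ζ hζF).continuousAt.tendsto.add_const c).mul
        ((a2 ζ hζF).continuousAt.tendsto.sub_const c)).mono_left nhdsWithin_le_nhds
    have h3 : (G (p ζ) + c) * (sh G (q ζ) - c) = c₀ := by
      refine tendsto_nhds_unique t1 (tendsto_const_nhds.congr' ?_)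
      rw [Filter.EventuallyEq, eventually_nhdsWithin_iff]
      exact Eventually.of_forall fun z hz => (hprod z hz).symm
    have h4 : (G (p ζ) + c) * (starRingEnd ℂ) (G (p ζ) + c) = c₀ := by
      rw [← h3, map_add, hcc]
      congr 1
      rw [sh, (hζn.2.2.self_of_nhds hζ).2, Complex.conj_conj]
      ring
    rw [← h4, Complex.mul_conj, Complex.normSq_eq_norm_sq]
  have hc₀ : c₀ ≠ 0 := by
    intro h0
    apply hGcurve (-c)
    filter_upwards [hcirc] with ζ hζn hζ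
    have h4 := hζn hζ
    rw [h0] at h4
    have h5 : ‖G (p ζ) + c‖ ^ 2 = 0 := by exact_mod_cast h4
    have h6 : G (p ζ) + c = 0 := by
      rw [← norm_eq_zero]
      exact pow_eq_zero_iff two_ne_zero |>.1 h5
    linear_combination h6
  obtain ⟨a, z₀, D, hD1, ha, hform⟩ := power_form hdata hcc hprod hc₀ (hprod' hc₀)
  -- the derivative relation at `1`
  have hder1 : ((‖deriv G (p 1)‖ ^ 2 : ℝ) : ℂ) = (σ : ℂ) ^ 2 * c₀ := by
    have hne := neBot_compl hF'c 1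
    have t1 : Tendsto (fun z => deriv G (p z) * deriv (sh G) (q z)) (𝓝[F'ᶜ] 1)
        (𝓝 (deriv G (p 1) * deriv (sh G) (q 1))) :=
      (((a3 1 mem1).continuousAt.tendsto).mul
        ((a4 1 mem1).continuousAt.tendsto)).mono_left nhdsWithin_le_nhds
    have h3 : deriv G (p 1) * deriv (sh G) (q 1) = -(-(σ : ℂ) ^ 2 * c₀) := by
      refine tendsto_nhds_unique t1 (tendsto_const_nhds.congr' ?_)
      rw [Filter.EventuallyEq, eventually_nhdsWithin_iff]
      exact Eventually.of_forall fun z hz => (hprod' hc₀ z hz).symm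
    rw [deriv_sh hG, (harc.self_of_nhds hone).2, Complex.conj_conj, Complex.mul_conj,
      Complex.normSq_eq_norm_sq] at h3
    rw [h3]
    ring
  -- the radius
  have hG1 : ((‖G (p 1) + c‖ ^ 2 : ℝ) : ℂ) = c₀ := hcirc.self_of_nhds hone
  have hDr : (D : ℝ) = σ * ‖p 1 - z₀‖ := by
    have h3 : ‖deriv G (p 1)‖ ^ 2 = σ ^ 2 * ‖G (p 1) + c‖ ^ 2 := by
      have := hder1
      rw [← hG1] at this
      exact_mod_cast this
    have h4 : ‖deriv G (p 1)‖ = σ * ‖G (p 1) + c‖ := by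
      have h5 : ‖deriv G (p 1)‖ ^ 2 = (σ * ‖G (p 1) + c‖) ^ 2 := by rw [h3]; ring
      exact (pow_left_inj₀ (norm_nonneg _) (by positivity) two_ne_zero).1 h5
    have hpz : p 1 - z₀ ≠ 0 := by
      intro h0
      apply hc₀
      rw [← hG1, hform, h0, zero_pow (by omega), mul_zero, norm_zero]
      simp
    have h6 : deriv G (p 1) = a * (D * (p 1 - z₀) ^ (D - 1)) := by
      have e1 : HasDerivAt (fun y => a * (y - z₀) ^ D) (a * (D * (p 1 - z₀) ^ (D - 1) * 1)) (p 1) :=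
        (((hasDerivAt_id (p 1)).sub_const z₀).pow D).const_mul a
      have e2 : (fun y => a * (y - z₀) ^ D) = fun y => G y + c := by
        funext y; exact (hform y).symm
      rw [e2] at e1
      have e3 := e1.deriv
      rw [deriv_add_const] at e3
      rw [e3, mul_one]
    rw [h6, hform, norm_mul, norm_mul, norm_mul, norm_pow, norm_pow, Complex.norm_natCast] at h4
    obtain ⟨k, rfl⟩ : ∃ k, D = k + 1 := ⟨D - 1, by omega⟩
    rw [Nat.add_sub_cancel, pow_succ] at h4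
    have h7 : (‖a‖ * ‖p 1 - z₀‖ ^ k) * ((k + 1 : ℕ) : ℝ) =
        (‖a‖ * ‖p 1 - z₀‖ ^ k) * (σ * ‖p 1 - z₀‖) := by
      linear_combination h4
    exact mul_left_cancel₀ (mul_ne_zero (norm_ne_zero_iff.2 ha)
      (pow_ne_zero _ (norm_ne_zero_iff.2 hpz))) h7
  have hrD : ‖p 1 - z₀‖ = D / σ := by
    rw [hDr]; field_simp
  have hDpos : (0 : ℝ) < D := by exact_mod_cast hD1
  -- the modulus on the arc
  have hmod : ∀ᶠ ζ in 𝓝 (1 : ℂ), ‖ζ‖ = 1 → ‖p ζ - z₀‖ = D / σ := by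
    filter_upwards [hcirc] with ζ hζn hζ
    have h3 := hζn hζ
    rw [← hG1] at h3
    have h5 : ‖G (p ζ) + c‖ ^ 2 = ‖G (p 1) + c‖ ^ 2 := by exact_mod_cast h3
    have h6 : ‖G (p ζ) + c‖ = ‖G (p 1) + c‖ :=
      (pow_left_inj₀ (norm_nonneg _) (norm_nonneg _) two_ne_zero).1 h5
    rw [hform, hform, norm_mul, norm_mul, norm_pow, norm_pow] at h6
    have h7 := mul_left_cancel₀ (norm_ne_zero_iff.2 ha) h6
    rw [← hrD]
    exact (pow_left_inj₀ (norm_nonneg _) (norm_nonneg _) (by omega)).1 h7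
  have hcre : (-c).re = 0 := by
    have := congrArg Complex.re hcc
    rw [Complex.conj_re, Complex.neg_re] at this
    rw [Complex.neg_re]
    linarith
  have hGf : ∀ y, G y = a * (y - z₀) ^ D + -c := fun y => by rw [← hform]; ring
  have hzf := finite_zeros_circle ha hcre hD1 hGf (r := D / σ) (by positivity)
  -- a point with `Re G ≠ 0`
  have hex : ∃ᶠ ζ in 𝓝[≠] (1 : ℂ), ‖ζ‖ = 1 := circle_frequently_at hone
    (Eventually.of_forall fun _ h => h)
  have hav : ∀ᶠ ζ in 𝓝[≠] (1 : ℂ), p ζ ∉ {z : ℂ | ‖z - z₀‖ = D / σ ∧ (G z).re = 0} :=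
    avoid_finite (hpa 1 u1)
      (((hpa 1 u1).deriv.continuousAt.eventually_ne hp1).filter_mono nhdsWithin_le_nhds) hzf
  obtain ⟨ζ, ⟨hζ, hζ1⟩, hζ2, hζ3⟩ := ((hex.and_eventually hav).and_eventually
    ((hnear.and hmod.eventually_nhds).filter_mono nhdsWithin_le_nhds)).exists
  have hpζ := hζ2.2.2.self_of_nhds hζ
  have hU : (G (p ζ)).re ≠ 0 := fun h => hζ1 ⟨hζ3.self_of_nhds hζ, h⟩
  have hfr : ∃ᶠ w in 𝓝[≠] (p ζ), ρ w = 0 ∧ ‖w - z₀‖ = D / σ :=
    hpush ζ hζ hζ2.1 hζ2.2.1 (fun w => ρ w = 0 ∧ ‖w - z₀‖ = D / σ) (by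
      filter_upwards [hζ2.2.2, hζ3] with w hw1 hw2 hn using ⟨(hw1 hn).1, hw2 hn⟩)
  exact disk_of_common hρ hgrad hbdd hconn hG hσ0 hbc' hD1 ha hcre hGf hpζ.1 hfr hU

end Pool.Agent.Stek
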