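import Pool.Agent.Lib.MP_bd8415_an.Ellipse

/-!
# From the Steklov boundary condition to the continued relation; the final theorem
-/

open Complex Metric Set Filter Topology Bornology

namespace Pool.Agent.Stek

/-- The gradient of `ρ` as a complex number. -/
noncomputable def grad (ρ : ℂ → ℝ) (z : ℂ) : ℂ :=
  ((fderiv ℝ ρ z 1 : ℝ) : ℂ) + ((fderiv ℝ ρ z I : ℝ) : ℂ) * I

theorem fderiv_eq_grad (ρ : ℂ → ℝ) (z v : ℂ) :
    fderiv ℝ ρ z v = (grad ρ z).re * v.re + (grad ρ z).im * v.im := by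
  have h1 : v = v.re • (1 : ℂ) + v.im • I := by
    simp
  calc fderiv ℝ ρ z v = fderiv ℝ ρ z (v.re • (1 : ℂ) + v.im • I) := by rw [← h1]
    _ = v.re * fderiv ℝ ρ z 1 + v.im * fderiv ℝ ρ z I := by
      rw [map_add, map_smul, map_smul, smul_eq_mul, smul_eq_mul]
    _ = _ := by simp [grad]; ring

theorem grad_ne_zero {ρ : ℂ → ℝ} {z : ℂ} (h : fderiv ℝ ρ z ≠ 0) : grad ρ z ≠ 0 := by
  intro h0
  apply h
  ext v
  rw [fderiv_eq_grad, h0]
  simp

theorem fderiv_re {G : ℂ → ℂ} (hG : Differentiable ℂ G) (z v : ℂ) :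
    fderiv ℝ (fun z => (G z).re) z v = (deriv G z * v).re := by
  have h1 : HasFDerivAt G ((ContinuousLinearMap.toSpanSingleton ℂ (deriv G z)).restrictScalars ℝ) z :=
    (hG z).hasDerivAt.hasFDerivAt.restrictScalars ℝ
  have h2 : HasFDerivAt (fun z => (G z).re)
      (Complex.reCLM.comp ((ContinuousLinearMap.toSpanSingleton ℂ (deriv G z)).restrictScalars ℝ)) z :=
    (Complex.reCLM.hasFDerivAt).comp z h1
  rw [h2.fderiv]
  simp [mul_comm]

/-- The tangency relation. -/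
theorem tangent {ρ : ℂ → ℝ} (hρ : Differentiable ℝ ρ) (M : ℕ) (c : ℤ → ℂ)
    (hpar : ∀ ζ : ℂ, ‖ζ‖ = 1 → ρ (lau M c ζ) = 0) {ζ : ℂ} (hζ : ‖ζ‖ = 1) :
    (grad ρ (lau M c ζ)).re * (lau M (fun j => (j : ℂ) * c j) ζ).im =
      (grad ρ (lau M c ζ)).im * (lau M (fun j => (j : ℂ) * c j) ζ).re := by
  have hζ0 : ζ ≠ 0 := by rintro rfl; simp at hζ
  have h1 : HasDerivAt (fun θ : ℝ => ζ * Complex.exp (θ * I)) (ζ * I) 0 := by
    have h2 : HasDerivAt (fun θ : ℝ => ((θ : ℂ) * I)) (I) 0 := by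
      simpa using (Complex.ofRealCLM.hasDerivAt (x := (0 : ℝ))).mul_const I
    have h3 := (h2.cexp).const_mul ζ
    simpa using h3
  have h4 : HasDerivAt (lau M c) (lau M (fun j => (j : ℂ) * c j) ζ / ζ)
      ((fun θ : ℝ => ζ * Complex.exp (θ * I)) 0) := by
    simpa using lau_hasDerivAt M c hζ0
  have h5 : HasDerivAt (fun θ : ℝ => lau M c (ζ * Complex.exp (θ * I)))
      (lau M (fun j => (j : ℂ) * c j) ζ / ζ * (ζ * I)) 0 := by
    have := h4.scomp (0 : ℝ) h1
    simpa [mul_comm, Function.comp_def] using this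
  have h6 : HasFDerivAt ρ (fderiv ℝ ρ (lau M c ζ))
      ((fun θ : ℝ => lau M c (ζ * Complex.exp (θ * I))) 0) := by
    simpa using (hρ (lau M c ζ)).hasFDerivAt
  have h7 := h6.comp_hasDerivAt (0 : ℝ) h5
  have h8 : (ρ ∘ fun θ : ℝ => lau M c (ζ * Complex.exp (θ * I))) = fun _ => (0 : ℝ) := by
    funext θ
    apply hpar
    rw [norm_mul, hζ, Complex.norm_exp_ofReal_mul_I, one_mul]
  rw [h8] at h7
  have h9 := h7.unique (hasDerivAt_const (0 : ℝ) (0 : ℝ))
  rw [fderiv_eq_grad] at h9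
  have h10 : lau M (fun j => (j : ℂ) * c j) ζ / ζ * (ζ * I) =
      lau M (fun j => (j : ℂ) * c j) ζ * I := by field_simp
  rw [h10] at h9
  simp at h9
  linarith

/-- The relation holds on the unit circle, hence everywhere. -/
theorem rel_of_boundary {ρ : ℂ → ℝ} (hρ : Differentiable ℝ ρ)
    (hgrad : ∀ z, ρ z = 0 → fderiv ℝ ρ z ≠ 0) {G : ℂ → ℂ} (hG : Differentiable ℂ G) {σ : ℝ}
    (hbc : ∀ z, ρ z = 0 → (deriv G z * grad ρ z).re = σ * (G z).re * ‖grad ρ z‖)
    (M : ℕ) (c d : ℤ → ℂ) (hd : ∀ j, d j = (starRingEnd ℂ) (c (-j)))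
    (hpar : ∀ ζ : ℂ, ‖ζ‖ = 1 → ρ (lau M c ζ) = 0) : Rel G σ M c d := by
  have hGd := deriv_differentiable hG
  have aP : AnalyticOnNhd ℂ (lau M (fun j => (j : ℂ) * c j)) ({0}ᶜ : Set ℂ) :=
    lau_analyticOnNhd M _
  have aQ : AnalyticOnNhd ℂ (lau M (fun j => (j : ℂ) * d j)) ({0}ᶜ : Set ℂ) :=
    lau_analyticOnNhd M _
  have a1 := comp_analyticOnNhd hG M c
  have a2 := comp_analyticOnNhd (conj_differentiable hG) M d
  have a3 := comp_analyticOnNhd hGd M c
  have a4 := comp_analyticOnNhd (conj_differentiable hGd) M d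
  have aL : AnalyticOnNhd ℂ (fun ζ => (lau M (fun j => (j : ℂ) * c j) ζ * deriv G (lau M c ζ) -
      lau M (fun j => (j : ℂ) * d j) ζ *
        (starRingEnd ℂ) (deriv G ((starRingEnd ℂ) (lau M d ζ)))) ^ 2) ({0}ᶜ : Set ℂ) :=
    ((aP.mul a3).sub (aQ.mul a4)).pow 2
  have aR : AnalyticOnNhd ℂ (fun ζ => -((σ : ℂ) ^ 2 *
      (lau M (fun j => (j : ℂ) * c j) ζ * lau M (fun j => (j : ℂ) * d j) ζ) *
      (G (lau M c ζ) + (starRingEnd ℂ) (G ((starRingEnd ℂ) (lau M d ζ)))) ^ 2))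
      ({0}ᶜ : Set ℂ) :=
    (((analyticOnNhd_const (v := (σ : ℂ) ^ 2)).mul (aP.mul aQ)).mul ((a1.add a2).pow 2)).neg
  have hcirc : ∀ ζ : ℂ, ‖ζ‖ = 1 →
      (lau M (fun j => (j : ℂ) * c j) ζ * deriv G (lau M c ζ) -
      lau M (fun j => (j : ℂ) * d j) ζ *
        (starRingEnd ℂ) (deriv G ((starRingEnd ℂ) (lau M d ζ)))) ^ 2 =
      -((σ : ℂ) ^ 2 * (lau M (fun j => (j : ℂ) * c j) ζ * lau M (fun j => (j : ℂ) * d j) ζ) *
      (G (lau M c ζ) + (starRingEnd ℂ) (G ((starRingEnd ℂ) (lau M d ζ)))) ^ 2) := by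
    intro ζ hζ
    set x := lau M (fun j => (j : ℂ) * c j) ζ with hx
    set z := lau M c ζ with hz
    have e1 : lau M d ζ = (starRingEnd ℂ) z := by
      rw [hz, lau_conj M c hζ]
      have : d = fun j => (starRingEnd ℂ) (c (-j)) := funext hd
      rw [this]
    have e2 : lau M (fun j => (j : ℂ) * d j) ζ = -(starRingEnd ℂ) x := by
      rw [hx, lau_conj M _ hζ, lau, lau, ← Finset.sum_neg_distrib]
      apply Finset.sum_congr rfl
      intro j _
      rw [hd, map_mul, map_intCast]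
      push_cast
      ring
    rw [e1, e2, Complex.conj_conj]
    have htan := tangent hρ M c hpar hζ
    rw [← hx, ← hz] at htan
    have hρz : ρ z = 0 := hpar ζ hζ
    have hg := grad_ne_zero (hgrad z hρz)
    set g := grad ρ z with hgdef
    have hb := hbc z hρz
    rw [← hgdef] at hb
    -- x is a real multiple of g
    obtain ⟨μ, hμ⟩ : ∃ μ : ℝ, x = μ * g := by
      have hn : g.re ^ 2 + g.im ^ 2 ≠ 0 := by
        intro h
        apply hg
        apply Complex.ext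
        · simp only [Complex.zero_re]; nlinarith [sq_nonneg g.re, sq_nonneg g.im]
        · simp only [Complex.zero_im]; nlinarith [sq_nonneg g.re, sq_nonneg g.im]
      refine ⟨(x.re * g.re + x.im * g.im) / (g.re ^ 2 + g.im ^ 2), ?_⟩
      apply Complex.ext
      · rw [Complex.re_ofReal_mul]
        field_simp
        linear_combination -g.im * htan
      · rw [Complex.im_ofReal_mul]
        field_simp
        linear_combination g.re * htan
    have e3 : x * deriv G z - -(starRingEnd ℂ) x * (starRingEnd ℂ) (deriv G z) =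
        ((2 * μ * (deriv G z * g).re : ℝ) : ℂ) := by
      have : x * deriv G z - -(starRingEnd ℂ) x * (starRingEnd ℂ) (deriv G z) =
          μ * (deriv G z * g + (starRingEnd ℂ) (deriv G z * g)) := by
        rw [hμ, map_mul, map_mul, Complex.conj_ofReal]; ring
      rw [this, Complex.add_conj]
      push_cast
      ring
    have e4 : G z + (starRingEnd ℂ) (G z) = ((2 * (G z).re : ℝ) : ℂ) := Complex.add_conj _
    have e5 : x * -(starRingEnd ℂ) x = -((μ ^ 2 * ‖g‖ ^ 2 : ℝ) : ℂ) := by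
      have : g * (starRingEnd ℂ) g = ((‖g‖ ^ 2 : ℝ) : ℂ) := by
        rw [Complex.mul_conj, Complex.normSq_eq_norm_sq]
      rw [hμ, map_mul, Complex.conj_ofReal]
      push_cast at this ⊢
      linear_combination -(μ : ℂ) ^ 2 * this
    rw [e3, e4, e5, hb]
    push_cast
    ring
  have hfreq : ∃ᶠ ζ in 𝓝[≠] (1 : ℂ),
      (lau M (fun j => (j : ℂ) * c j) ζ * deriv G (lau M c ζ) -
      lau M (fun j => (j : ℂ) * d j) ζ *
        (starRingEnd ℂ) (deriv G ((starRingEnd ℂ) (lau M d ζ)))) ^ 2 =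
      -((σ : ℂ) ^ 2 * (lau M (fun j => (j : ℂ) * c j) ζ * lau M (fun j => (j : ℂ) * d j) ζ) *
      (G (lau M c ζ) + (starRingEnd ℂ) (G ((starRingEnd ℂ) (lau M d ζ)))) ^ 2) := by
    have h2 : HasDerivAt (fun θ : ℝ => Complex.exp ((θ : ℂ) * I)) I 0 := by
      have h2 : HasDerivAt (fun θ : ℝ => ((θ : ℂ) * I)) (I) 0 := by
        simpa using (Complex.ofRealCLM.hasDerivAt (x := (0 : ℝ))).mul_const I
      simpa using h2.cexp
    have h3 := h2.tendsto_nhdsNE Complex.I_ne_zero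
    simp only [Complex.ofReal_zero, zero_mul, Complex.exp_zero] at h3
    apply h3.frequently
    apply Eventually.frequently
    exact Eventually.of_forall fun θ => hcirc _ (Complex.norm_exp_ofReal_mul_I θ)
  have := aL.eqOn_of_preconnected_of_frequently_eq aR preconn_ne_zero
    (show (1 : ℂ) ∈ ({0}ᶜ : Set ℂ) by simp) hfreq
  intro ζ hζ
  exact this hζ

/-- The complement of a closed disc is preconnected. -/
theorem preconn_ext (z₀ : ℂ) {r : ℝ} (hr : 0 ≤ r) :
    IsPreconnected {z : ℂ | r < ‖z - z₀‖} := by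
  have h1 : {z : ℂ | r < ‖z - z₀‖} =
      (fun p : ℝ × ℝ => z₀ + p.1 * Complex.exp (p.2 * I)) '' (Ioi r ×ˢ univ) := by
    ext z
    constructor
    · intro hz
      refine ⟨(‖z - z₀‖, Complex.arg (z - z₀)), ⟨hz, mem_univ _⟩, ?_⟩
      simp only [Complex.norm_mul_exp_arg_mul_I]
      ring
    · rintro ⟨⟨t, θ⟩, ⟨ht, -⟩, rfl⟩
      have ht' : r < t := ht
      show r < ‖z₀ + t * Complex.exp (θ * I) - z₀‖
      rw [add_sub_cancel_left, norm_mul, Complex.norm_exp_ofReal_mul_I, mul_one, Complex.norm_real,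
        Real.norm_eq_abs, abs_of_pos (by linarith)]
      exact ht'
  rw [h1]
  apply IsPreconnected.image
  · exact isPreconnected_Ioi.prod isPreconnected_univ
  · fun_prop

/-- A bounded connected sublevel set bounded by a circle is a disc. -/
theorem ball_of_circle {ρ : ℂ → ℝ} (hρ : Continuous ρ) (hbdd : IsBounded {z : ℂ | ρ z < 0})
    (hconn : IsConnected {z : ℂ | ρ z < 0}) {z₀ : ℂ} {r : ℝ} (hr : 0 < r)
    (hc : {z : ℂ | ρ z = 0} = sphere z₀ r) : {z : ℂ | ρ z < 0} = ball z₀ r := by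
  have hne : ∀ z, ‖z - z₀‖ ≠ r → ρ z ≠ 0 := by
    intro z hz h0
    have : z ∈ sphere z₀ r := hc ▸ h0
    rw [mem_sphere_iff_norm] at this
    exact hz this
  -- constant sign on preconnected sets avoiding the circle
  have hsign : ∀ S : Set ℂ, IsPreconnected S → (∀ z ∈ S, ρ z ≠ 0) → (∃ z ∈ S, ρ z < 0) →
      ∀ z ∈ S, ρ z < 0 := by
    intro S hS h0 ⟨z₁, hz₁, h1⟩ z hz
    by_contra hcon
    push Not at hcon
    have : (0 : ℝ) ∈ ρ '' S :=
      hS.intermediate_value hz₁ hz hρ.continuousOn ⟨h1.le, hcon⟩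
    obtain ⟨w, hw, hw0⟩ := this
    exact h0 w hw hw0
  -- no negative point outside
  have hout : ∀ z, r < ‖z - z₀‖ → ¬ ρ z < 0 := by
    intro z hz hneg
    have hall := hsign {z : ℂ | r < ‖z - z₀‖} (preconn_ext z₀ hr.le)
      (fun w hw => hne w (ne_of_gt hw)) ⟨z, hz, hneg⟩
    obtain ⟨R, hR⟩ := hbdd.exists_norm_le
    have h1 := hR (z₀ + ((|R| + r + 1 + ‖z₀‖ : ℝ) : ℂ)) (hall _ (by
      show r < ‖z₀ + ((|R| + r + 1 + ‖z₀‖ : ℝ) : ℂ) - z₀‖
      rw [add_sub_cancel_left, Complex.norm_real, Real.norm_eq_abs, abs_of_pos (by positivity)]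
      have := abs_nonneg R
      have := norm_nonneg z₀
      linarith))
    have h2 : ‖((|R| + r + 1 + ‖z₀‖ : ℝ) : ℂ)‖ ≤
        ‖z₀ + ((|R| + r + 1 + ‖z₀‖ : ℝ) : ℂ)‖ + ‖z₀‖ := by
      calc ‖((|R| + r + 1 + ‖z₀‖ : ℝ) : ℂ)‖ =
            ‖(z₀ + ((|R| + r + 1 + ‖z₀‖ : ℝ) : ℂ)) - z₀‖ := by rw [add_sub_cancel_left]
        _ ≤ _ := norm_sub_le _ _
    rw [Complex.norm_real, Real.norm_eq_abs, abs_of_pos (by positivity)] at h2
    have := le_abs_self R
    linarith
  have hsub : {z : ℂ | ρ z < 0} ⊆ ball z₀ r := by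
    intro z hz
    rw [mem_ball_iff_norm]
    by_contra hcon
    push Not at hcon
    rcases lt_or_eq_of_le hcon with h | h
    · exact hout z h hz
    · have : z ∈ {z : ℂ | ρ z = 0} := by
        rw [hc, mem_sphere_iff_norm]; exact h.symm
      have h0 : ρ z = 0 := this
      have h1 : ρ z < 0 := hz
      linarith
  apply Subset.antisymm hsub
  obtain ⟨z₁, hz₁⟩ := hconn.nonempty
  exact hsign (ball z₀ r) (convex_ball z₀ r).isPreconnected
    (fun w hw => hne w (ne_of_lt (mem_ball_iff_norm.1 hw))) ⟨z₁, hsub hz₁, hz₁⟩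

/-- Vanishing real part on the boundary implies vanishing inside. -/
theorem re_zero_inside {ρ : ℂ → ℝ} (hρ : Continuous ρ) (hbdd : IsBounded {z : ℂ | ρ z < 0})
    {G : ℂ → ℂ} (hG : Differentiable ℂ G) (h : ∀ z, ρ z = 0 → (G z).re = 0) :
    ∀ z, ρ z < 0 → (G z).re = 0 := by
  intro z hz
  have hfr : ∀ w ∈ frontier {z : ℂ | ρ z < 0}, (G w).re = 0 := by
    intro w hw
    exact h w (frontier_lt_subset_eq hρ continuous_const hw)
  have h1 : ∀ (s : ℂ), s = 1 ∨ s = -1 → ‖Complex.exp (s * G z)‖ ≤ 1 := by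
    intro s hs
    apply Complex.norm_le_of_forall_mem_frontier_norm_le hbdd (f := fun w => Complex.exp (s * G w))
    · exact ((hG.const_mul s).cexp).diffContOnCl
    · intro w hw
      have := hfr w hw
      rw [Complex.norm_exp]
      rcases hs with rfl | rfl <;> simp [this]
    · exact subset_closure hz
  have h2 := h1 1 (Or.inl rfl)
  have h3 := h1 (-1) (Or.inr rfl)
  rw [Complex.norm_exp, Real.exp_le_one_iff] at h2 h3
  simp at h2 h3
  linarith

end Pool.Agent.Stek
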