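import Pool.Agent.Lib.MP_bd8415_an.Laurent

/-!
# Branches of the inverse of a Laurent polynomial at infinity
-/

open Complex Metric Set Filter Topology Bornology

namespace Pool.Agent.Stek

theorem lau_eq_range (M : ℕ) (c : ℤ → ℂ) (ζ : ℂ) :
    lau M c ζ = ∑ i ∈ Finset.range (2 * M + 1), c ((i : ℤ) - M) * ζ ^ ((i : ℤ) - M) := by
  rw [lau]
  symm
  apply Finset.sum_nbij' (fun i : ℕ => (i : ℤ) - M) (fun j : ℤ => (j + M).toNat)
  · intro i hi; simp only [Finset.mem_range, Finset.mem_Icc] at hi ⊢; omega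
  · intro j hj; simp only [Finset.mem_range, Finset.mem_Icc] at hj ⊢; omega
  · intro i _; simp
  · intro j hj; simp only [Finset.mem_Icc] at hj; omega
  · intro i _; rfl

/-- The auxiliary polynomial whose roots are the branches. -/
noncomputable def auxQ (M : ℕ) (c : ℤ → ℂ) (t : ℂ) : Polynomial ℂ :=
  Polynomial.X ^ (2 * M) + (∑ i ∈ Finset.range (2 * M),
    Polynomial.C (c ((i : ℤ) - M) / c M * t ^ ((i : ℤ) - 2 * M)) * Polynomial.X ^ i
      - Polynomial.X ^ M)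

theorem auxQ_lower (M : ℕ) (hM : 1 ≤ M) (c : ℤ → ℂ) (t : ℂ) :
    (∑ i ∈ Finset.range (2 * M),
    Polynomial.C (c ((i : ℤ) - M) / c M * t ^ ((i : ℤ) - 2 * M)) * Polynomial.X ^ i
      - Polynomial.X ^ M : Polynomial ℂ).degree < (2 * M : ℕ) := by
  refine lt_of_le_of_lt (Polynomial.degree_sub_le _ _) (max_lt ?_ ?_)
  · refine lt_of_le_of_lt (Polynomial.degree_sum_le _ _) ?_
    rw [Finset.sup_lt_iff (WithBot.bot_lt_coe _)]
    intro i hi
    refine lt_of_le_of_lt (Polynomial.degree_C_mul_X_pow_le _ _) ?_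
    exact_mod_cast Finset.mem_range.1 hi
  · rw [Polynomial.degree_X_pow]
    exact_mod_cast (by omega : M < 2 * M)

theorem auxQ_monic (M : ℕ) (hM : 1 ≤ M) (c : ℤ → ℂ) (t : ℂ) : (auxQ M c t).Monic :=
  Polynomial.monic_X_pow_add (auxQ_lower M hM c t)

theorem auxQ_natDegree (M : ℕ) (hM : 1 ≤ M) (c : ℤ → ℂ) (t : ℂ) :
    (auxQ M c t).natDegree = 2 * M := by
  apply Polynomial.natDegree_eq_of_degree_eq_some
  rw [auxQ, Polynomial.degree_add_eq_left_of_degree_lt, Polynomial.degree_X_pow]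
  rw [Polynomial.degree_X_pow]
  exact auxQ_lower M hM c t

theorem auxQ_eval (M : ℕ) (c : ℤ → ℂ) (ha : c M ≠ 0) {t Y : ℂ} (ht : t ≠ 0) (hY : Y ≠ 0) :
    (auxQ M c t).eval Y = Y ^ M * (lau M c (t * Y) / (c M * t ^ M) - 1) := by
  have h1 : Y ^ M * (lau M c (t * Y) / (c M * t ^ M)) =
      ∑ i ∈ Finset.range (2 * M + 1), c ((i : ℤ) - M) / c M * t ^ ((i : ℤ) - 2 * M) * Y ^ i := by
    rw [lau_eq_range, Finset.sum_div, Finset.mul_sum]
    apply Finset.sum_congr rfl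
    intro i _
    have h2 : t ^ ((i : ℤ) - 2 * M) = t ^ ((i : ℤ) - M) / t ^ M := by
      rw [← zpow_natCast t M, ← zpow_sub₀ ht]
      congr 1
      ring
    have h3 : Y ^ i = Y ^ M * Y ^ ((i : ℤ) - M) := by
      rw [← zpow_natCast Y M, ← zpow_add₀ hY, ← zpow_natCast Y i]
      congr 1
      ring
    rw [h2, h3, mul_zpow]
    have : t ^ M ≠ 0 := pow_ne_zero _ ht
    field_simp
  have h4 : c ((2 * M : ℕ) - M) / c M * t ^ (((2 * M : ℕ) : ℤ) - 2 * M) * Y ^ (2 * M)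
      = Y ^ (2 * M) := by
    have e1 : (((2 * M : ℕ) : ℤ) - M) = M := by push_cast; ring
    have e2 : (((2 * M : ℕ) : ℤ) - 2 * M) = 0 := by push_cast; ring
    rw [e1, e2, div_self ha]
    simp
  rw [mul_sub, h1, Finset.sum_range_succ, h4, auxQ]
  simp only [Polynomial.eval_add, Polynomial.eval_sub, Polynomial.eval_pow, Polynomial.eval_X,
    Polynomial.eval_finsetSum, Polynomial.eval_mul, Polynomial.eval_C]
  ring

/-- The branch of `p⁻¹` at infinity with direction `ω`, an `M`-th root of unity. -/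
theorem exists_branch (M : ℕ) (hM : 1 ≤ M) (c : ℤ → ℂ) (ha : c M ≠ 0) {ω : ℂ} (hω : ω ^ M = 1) :
    ∃ Y : ℂ → ℂ, Tendsto Y (cobounded ℂ) (𝓝 ω) ∧
      ∀ᶠ t in cobounded ℂ, lau M c (t * Y t) = c M * t ^ M := by
  have hω0 : ω ≠ 0 := by
    rintro rfl
    rw [zero_pow (by omega)] at hω
    exact zero_ne_one hω
  have hroot : ∀ t : ℂ, ∃ Y, (auxQ M c t).IsRoot Y ∧
      ‖Y - ω‖ ^ (2 * M) ≤ ‖(auxQ M c t).eval ω‖ := by
    intro t
    have := exists_root_near (auxQ M c t) (auxQ_monic M hM c t)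
      (by rw [auxQ_natDegree M hM]; omega) ω
    rwa [auxQ_natDegree M hM] at this
  choose Y hY1 hY2 using hroot
  have hne : ∀ᶠ t : ℂ in cobounded ℂ, t ≠ 0 := eventually_ne_cobounded 0
  have hlim : Tendsto (fun t => (auxQ M c t).eval ω) (cobounded ℂ) (𝓝 0) := by
    have h1 : Tendsto (fun t => lau M c (t * (fun _ : ℂ => ω) t) / t ^ (M : ℤ)) (cobounded ℂ)
        (𝓝 (c M * ω ^ (M : ℤ))) :=
      tendsto_lau M c M (fun j h1 h2 => absurd h1 (not_lt.2 h2)) (by simp)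
        tendsto_const_nhds hω0
    have h2 : Tendsto (fun t => ω ^ M * (lau M c (t * ω) / (c M * t ^ M) - 1)) (cobounded ℂ)
        (𝓝 (ω ^ M * ((c M * ω ^ (M : ℤ)) / c M - 1))) := by
      apply Tendsto.const_mul
      apply Tendsto.sub_const
      refine (h1.div_const (c M)).congr fun t => ?_
      simp only [zpow_natCast]
      rw [div_div, mul_comm (t ^ M)]
    have h3 : ω ^ M * ((c M * ω ^ (M : ℤ)) / c M - 1) = 0 := by
      rw [zpow_natCast, hω]
      field_simp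
      simp
    rw [h3] at h2
    refine h2.congr' ?_
    filter_upwards [hne] with t ht
    rw [auxQ_eval M c ha ht hω0]
  have hYlim : Tendsto Y (cobounded ℂ) (𝓝 ω) := by
    rw [tendsto_iff_norm_sub_tendsto_zero]
    have h1 : Tendsto (fun t => ‖(auxQ M c t).eval ω‖) (cobounded ℂ) (𝓝 0) := by
      simpa using hlim.norm
    rw [Metric.tendsto_nhds] at h1 ⊢
    intro ε hε
    filter_upwards [h1 (ε ^ (2 * M)) (by positivity)] with t ht
    simp only [dist_zero_right, norm_norm] at ht ⊢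
    exact lt_of_pow_lt_pow_left₀ (2 * M) hε.le ((hY2 t).trans_lt ht)
  refine ⟨Y, hYlim, ?_⟩
  filter_upwards [hne, hYlim.eventually_ne hω0] with t ht hYt
  have h1 := hY1 t
  rw [Polynomial.IsRoot, auxQ_eval M c ha ht hYt] at h1
  rcases mul_eq_zero.1 h1 with h2 | h2
  · exact absurd h2 (pow_ne_zero _ hYt)
  · have h3 : lau M c (t * Y t) / (c M * t ^ M) = 1 := by linear_combination h2
    have h4 : c M * t ^ M ≠ 0 := mul_ne_zero ha (pow_ne_zero _ ht)
    rwa [div_eq_one_iff_eq h4] at h3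

end Pool.Agent.Stek
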