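import Pool.Agent.Lib.MP_bd8415_an.CsLocal

/-!
# Local boundedness of the quotient `E`
-/

open Complex Metric Set Filter Topology

namespace Pool.Agent.Stek

theorem not_ev {u : ℂ → ℂ} {l : Filter ℂ} (h : ∃ᶠ z in l, u z ≠ 0) : ¬ ∀ᶠ z in l, u z = 0 :=
  fun h' => h (h'.mono fun _ hz => not_not.2 hz)

/-- Two analytic functions that do not vanish identically near `x` are comparable. -/
theorem analytic_compare {u v : ℂ → ℂ} {x : ℂ} (hu : AnalyticAt ℂ u x) (hv : AnalyticAt ℂ v x)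
    (hu0 : ∃ᶠ z in 𝓝 x, u z ≠ 0) (hv0 : ∃ᶠ z in 𝓝 x, v z ≠ 0) :
    ∃ M ≥ 0, (∀ᶠ z in 𝓝 x, ‖u z‖ ≤ M * ‖v z‖) ∨ (∀ᶠ z in 𝓝 x, ‖v z‖ ≤ M * ‖u z‖) := by
  obtain ⟨n, U, hU, hUx, hUe⟩ := hu.exists_eventuallyEq_pow_smul_nonzero_iff.2 (not_ev hu0)
  obtain ⟨m, V, hV, hVx, hVe⟩ := hv.exists_eventuallyEq_pow_smul_nonzero_iff.2 (not_ev hv0)
  have key : ∀ (n m : ℕ) (U V u v : ℂ → ℂ), AnalyticAt ℂ U x → AnalyticAt ℂ V x → V x ≠ 0 →
      (∀ᶠ z in 𝓝 x, u z = (z - x) ^ n • U z) → (∀ᶠ z in 𝓝 x, v z = (z - x) ^ m • V z) →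
      m ≤ n → ∃ M ≥ 0, ∀ᶠ z in 𝓝 x, ‖u z‖ ≤ M * ‖v z‖ := by
    intro n m U V u v hU hV hVx hUe hVe hmn
    have hV0 : 0 < ‖V x‖ := norm_pos_iff.2 hVx
    refine ⟨(‖U x‖ + 1) * (2 / ‖V x‖), by positivity, ?_⟩
    have h1 := hV.continuousAt.norm.eventually
      (le_mem_nhds (show ‖V x‖ / 2 < ‖V x‖ by linarith))
    filter_upwards [hUe, hVe, eventually_norm_le hU.continuousAt, h1, ball_mem_nhds x one_pos]
      with z a1 a2 a3 a4 a5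
    have hz : ‖z - x‖ < 1 := by rwa [mem_ball, dist_eq_norm] at a5
    have hpow : ‖z - x‖ ^ n ≤ ‖z - x‖ ^ m :=
      pow_le_pow_of_le_one (norm_nonneg _) hz.le hmn
    rw [a1, a2, smul_eq_mul, smul_eq_mul, norm_mul, norm_mul, norm_pow, norm_pow]
    have h5 : 1 ≤ 2 / ‖V x‖ * ‖V z‖ := by
      rw [div_mul_eq_mul_div, le_div_iff₀ hV0]; linarith
    calc ‖z - x‖ ^ n * ‖U z‖ ≤ ‖z - x‖ ^ m * (‖U x‖ + 1) := by gcongr
      _ = (‖U x‖ + 1) * (‖z - x‖ ^ m * 1) := by ring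
      _ ≤ (‖U x‖ + 1) * (‖z - x‖ ^ m * (2 / ‖V x‖ * ‖V z‖)) := by gcongr
      _ = (‖U x‖ + 1) * (2 / ‖V x‖) * (‖z - x‖ ^ m * ‖V z‖) := by ring
  rcases le_total m n with h | h
  · obtain ⟨M, hM, h1⟩ := key n m U V u v hU hV hVx hUe hVe h
    exact ⟨M, hM, Or.inl h1⟩
  · obtain ⟨M, hM, h1⟩ := key m n V U v u hV hU hUx hVe hUe h
    exact ⟨M, hM, Or.inr h1⟩

/-- For an analytic `g` with `g x = 0`, not identically zero, `g²` is dominated by `g'`. -/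
theorem sq_le_deriv {g : ℂ → ℂ} {x : ℂ} (hg : AnalyticAt ℂ g x) (hgx : g x = 0)
    (h0 : ∃ᶠ z in 𝓝 x, g z ≠ 0) : ∃ M ≥ 0, ∀ᶠ z in 𝓝 x, ‖g z ^ 2‖ ≤ M * ‖deriv g z‖ := by
  obtain ⟨n, V, hV, hVx, hVe⟩ := hg.exists_eventuallyEq_pow_smul_nonzero_iff.2 (not_ev h0)
  obtain ⟨k, rfl⟩ : ∃ k, n = k + 1 := by
    rcases Nat.eq_zero_or_eq_succ_pred n with h | h
    · exfalso
      have := hVe.self_of_nhds
      rw [hgx, h] at this
      simp at this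
      exact hVx this.symm
    · exact ⟨_, h⟩
  have hd : ∀ᶠ z in 𝓝 x, deriv g z = (z - x) ^ k * ((k + 1) * V z + (z - x) * deriv V z) := by
    filter_upwards [hVe.eventually_nhds, hV.eventually_analyticAt] with z h1 h2
    have h3 : HasDerivAt (fun z => (z - x) ^ (k + 1) * V z)
        ((((k + 1 : ℕ) : ℂ) * (z - x) ^ k * 1) * V z + (z - x) ^ (k + 1) * deriv V z) z := by
      have h4 := (((hasDerivAt_id z).sub_const x).fun_pow (k + 1))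
      exact h4.fun_mul h2.differentiableAt.hasDerivAt
    have h5 : g =ᶠ[𝓝 z] fun z => (z - x) ^ (k + 1) * V z := by
      filter_upwards [h1] with w hw
      rw [hw, smul_eq_mul]
    rw [h5.deriv_eq, h3.deriv]
    push_cast
    ring
  set W : ℂ → ℂ := fun z => (k + 1) * V z + (z - x) * deriv V z with hW
  have hWa : AnalyticAt ℂ W x := by
    have := hV.deriv
    fun_prop
  have hWx : W x ≠ 0 := by
    have h1 : ((k : ℂ) + 1) ≠ 0 := by exact_mod_cast Nat.succ_ne_zero k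
    have : W x = (k + 1) * V x := by simp [hW]
    rw [this]
    exact mul_ne_zero h1 hVx
  have hW0 : 0 < ‖W x‖ := norm_pos_iff.2 hWx
  refine ⟨(‖V x‖ + 1) ^ 2 * (2 / ‖W x‖), by positivity, ?_⟩
  have h1 := hWa.continuousAt.norm.eventually
    (le_mem_nhds (show ‖W x‖ / 2 < ‖W x‖ by linarith))
  filter_upwards [hVe, hd, eventually_norm_le hV.continuousAt, h1, ball_mem_nhds x one_pos]
    with z a1 a2 a3 a4 a5
  have hz : ‖z - x‖ < 1 := by rwa [mem_ball, dist_eq_norm] at a5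
  have hpow : ‖z - x‖ ^ (2 * (k + 1)) ≤ ‖z - x‖ ^ k :=
    pow_le_pow_of_le_one (norm_nonneg _) hz.le (by omega)
  have h5 : 1 ≤ 2 / ‖W x‖ * ‖W z‖ := by
    rw [div_mul_eq_mul_div, le_div_iff₀ hW0]; linarith
  rw [a1, a2, smul_eq_mul, mul_pow, norm_mul, norm_mul, norm_pow, norm_pow, norm_pow, norm_pow,
    ← pow_mul, mul_comm (k + 1) 2]
  calc ‖z - x‖ ^ (2 * (k + 1)) * ‖V z‖ ^ 2 ≤ ‖z - x‖ ^ k * (‖V x‖ + 1) ^ 2 := by gcongr
    _ = (‖V x‖ + 1) ^ 2 * (‖z - x‖ ^ k * 1) := by ring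
    _ ≤ (‖V x‖ + 1) ^ 2 * (‖z - x‖ ^ k * (2 / ‖W x‖ * ‖W z‖)) := by gcongr
    _ = (‖V x‖ + 1) ^ 2 * (2 / ‖W x‖) * (‖z - x‖ ^ k * ‖W z‖) := by ring

/-- The quotient. -/
noncomputable def EE (G H p q : ℂ → ℂ) (z : ℂ) : ℂ :=
  (deriv G (p z) * deriv p z * H (q z) + G (p z) * (deriv H (q z) * deriv q z)) /
    (deriv G (p z) * deriv p z - deriv H (q z) * deriv q z)

theorem EE_swap (G H p q : ℂ → ℂ) (z : ℂ) : EE H G q p z = - EE G H p q z := by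
  unfold EE
  rw [← div_neg]
  congr 1 <;> ring

theorem norm_le_of_sq {a b : ℂ} {M N : ℝ} (h : ‖(a + b) ^ 2‖ ≤ M) (hb : ‖b‖ ≤ N) :
    ‖a‖ ≤ 1 + M + N := by
  have h1 : ‖a‖ ≤ ‖a + b‖ + ‖b‖ := by
    calc ‖a‖ = ‖(a + b) - b‖ := by ring_nf
      _ ≤ _ := norm_sub_le _ _
  have h2 : ‖a + b‖ ≤ 1 + ‖a + b‖ ^ 2 := by nlinarith [sq_nonneg (‖a + b‖ - 1)]
  rw [norm_pow] at h
  linarith

/-- `E` is bounded near every point where `p` is regular. -/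
theorem EE_bound {G H p q : ℂ → ℂ} {κ : ℂ} {F : Set ℂ} {x w₀ : ℂ} (hF : F.Countable)
    (hFc : IsClosed F) (hG : Differentiable ℂ G) (hGd : Differentiable ℂ (deriv G))
    (hH : Differentiable ℂ H) (hHd : Differentiable ℂ (deriv H)) (hp : AnalyticAt ℂ p x)
    (hq : ∀ᶠ z in 𝓝 x, z ∉ F → DifferentiableAt ℂ q z)
    (hrel : ∀ᶠ z in 𝓝 x, z ∉ F → (deriv G (p z) * deriv p z - deriv H (q z) * deriv q z) ^ 2 =
      κ * (deriv p z * deriv q z) * (G (p z) + H (q z)) ^ 2)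
    (hD : ∀ᶠ z in 𝓝 x, z ∉ F → deriv G (p z) * deriv p z - deriv H (q z) * deriv q z ≠ 0)
    (hκ : κ ≠ 0) (hw : deriv H w₀ ≠ 0) :
    ∃ M, ∀ᶠ z in 𝓝 x, z ∉ F → ‖EE G H p q z‖ ≤ M := by
  have hκ' : 0 < ‖κ‖ := norm_pos_iff.2 hκ
  have halg : ∀ᶠ z in 𝓝 x, z ∉ F →
      (EE G H p q z + G (p z)) ^ 2 * κ * deriv q z = deriv G (p z) ^ 2 * deriv p z ∧
      (EE G H p q z - H (q z)) ^ 2 * κ * deriv p z = deriv H (q z) ^ 2 * deriv q z ∧
      deriv p z ≠ 0 ∧ deriv q z ≠ 0 := by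
    filter_upwards [hrel, hD] with z h1 h2 h3
    exact E_alg (h1 h3) (h2 h3)
  have hfreq : ∀ {P : ℂ → Prop}, (∀ᶠ z in 𝓝 x, z ∉ F → P z) → ∃ᶠ z in 𝓝 x, P z := by
    intro P hP
    have hne := neBot_compl hF x
    have h1 : ∀ᶠ z in 𝓝[Fᶜ] x, P z := by
      rw [eventually_nhdsWithin_iff]
      exact hP
    exact h1.frequently.filter_mono nhdsWithin_le_nhds
  have c1 := eventually_norm_le (f := fun z => deriv G (p z)) (x := x)
    ((hGd (p x)).continuousAt.comp hp.continuousAt)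
  have c2 := eventually_norm_le (f := fun z => G (p z)) (x := x)
    ((hG (p x)).continuousAt.comp hp.continuousAt)
  -- the conclusion when `‖p'‖ ≤ M ‖q'‖`
  have concl1 : ∀ M ≥ 0, (∀ᶠ z in 𝓝 x, z ∉ F → ‖deriv p z‖ ≤ M * ‖deriv q z‖) →
      ∃ M, ∀ᶠ z in 𝓝 x, z ∉ F → ‖EE G H p q z‖ ≤ M := by
    intro M hM hev
    refine ⟨1 + ‖κ‖⁻¹ * (‖deriv G (p x)‖ + 1) ^ 2 * M + (‖G (p x)‖ + 1), ?_⟩
    filter_upwards [hev, halg, c1, c2] with z h1 h2 h3 h4 h5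
    obtain ⟨e1, -, -, e4⟩ := h2 h5
    have hq0 : 0 < ‖deriv q z‖ := norm_pos_iff.2 e4
    apply norm_le_of_sq (b := G (p z)) _ h4
    have e5 : ‖(EE G H p q z + G (p z)) ^ 2‖ * ‖κ‖ * ‖deriv q z‖ =
        ‖deriv G (p z)‖ ^ 2 * ‖deriv p z‖ := by
      rw [← norm_mul, ← norm_mul, e1, norm_mul, norm_pow]
    have e6 : ‖(EE G H p q z + G (p z)) ^ 2‖ * ‖κ‖ * ‖deriv q z‖ ≤
        ((‖deriv G (p x)‖ + 1) ^ 2 * M) * ‖deriv q z‖ := by
      rw [e5]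
      calc ‖deriv G (p z)‖ ^ 2 * ‖deriv p z‖ ≤ (‖deriv G (p x)‖ + 1) ^ 2 *
            (M * ‖deriv q z‖) := by gcongr; exact h1 h5
        _ = _ := by ring
    have e7 := le_of_mul_le_mul_right e6 hq0
    calc ‖(EE G H p q z + G (p z)) ^ 2‖ = ‖κ‖⁻¹ * (‖(EE G H p q z + G (p z)) ^ 2‖ * ‖κ‖) := by
          field_simp
      _ ≤ ‖κ‖⁻¹ * ((‖deriv G (p x)‖ + 1) ^ 2 * M) := by gcongr
      _ = _ := by ring
  rcases dichotomy hF hFc hG hGd hH hHd hp hq hrel hw with ⟨g, hg, hgq⟩ | ⟨g, hg, hgx, hgq⟩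
  · have hgd : ∀ᶠ z in 𝓝 x, z ∉ F → deriv g z = deriv q z ∧ g z = q z := by
      filter_upwards [hgq.eventually_nhds] with z h1 h2
      have h3 : g =ᶠ[𝓝 z] q := by
        filter_upwards [h1, hFc.isOpen_compl.mem_nhds h2] with w h4 h5 using h4 h5
      exact ⟨h3.deriv_eq, h3.eq_of_nhds⟩
    have hu0 : ∃ᶠ z in 𝓝 x, deriv p z ≠ 0 := hfreq (by
      filter_upwards [halg] with z h1 h2 using (h1 h2).2.2.1)
    have hv0 : ∃ᶠ z in 𝓝 x, deriv g z ≠ 0 := hfreq (by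
      filter_upwards [halg, hgd] with z h1 h2 h3
      rw [(h2 h3).1]; exact (h1 h3).2.2.2)
    obtain ⟨M, hM, h | h⟩ := analytic_compare hp.deriv hg.deriv hu0 hv0
    · apply concl1 M hM
      filter_upwards [h, hgd] with z h1 h2 h3
      rwa [(h2 h3).1] at h1
    · have c3 := eventually_norm_le (f := fun z => deriv H (g z)) (x := x)
        ((hHd (g x)).continuousAt.comp hg.continuousAt)
      have c4 := eventually_norm_le (f := fun z => H (g z)) (x := x)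
        ((hH (g x)).continuousAt.comp hg.continuousAt)
      refine ⟨1 + ‖κ‖⁻¹ * (‖deriv H (g x)‖ + 1) ^ 2 * M + (‖H (g x)‖ + 1), ?_⟩
      filter_upwards [h, halg, hgd, c3, c4] with z h1 h2 h3 h4 h5 h6
      obtain ⟨-, e1, e4, -⟩ := h2 h6
      obtain ⟨f1, f2⟩ := h3 h6
      have hq0 : 0 < ‖deriv p z‖ := norm_pos_iff.2 e4
      apply norm_le_of_sq (b := -H (q z)) _ (by rw [norm_neg, ← f2]; exact h5)
      rw [← sub_eq_add_neg]
      have e5 : ‖(EE G H p q z - H (q z)) ^ 2‖ * ‖κ‖ * ‖deriv p z‖ =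
          ‖deriv H (q z)‖ ^ 2 * ‖deriv q z‖ := by
        rw [← norm_mul, ← norm_mul, e1, norm_mul, norm_pow]
      have e6 : ‖(EE G H p q z - H (q z)) ^ 2‖ * ‖κ‖ * ‖deriv p z‖ ≤
          ((‖deriv H (g x)‖ + 1) ^ 2 * M) * ‖deriv p z‖ := by
        rw [e5, ← f1, ← f2]
        calc ‖deriv H (g z)‖ ^ 2 * ‖deriv g z‖ ≤ (‖deriv H (g x)‖ + 1) ^ 2 *
              (M * ‖deriv p z‖) := by gcongr
          _ = _ := by ring
      have e7 := le_of_mul_le_mul_right e6 hq0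
      calc ‖(EE G H p q z - H (q z)) ^ 2‖ =
            ‖κ‖⁻¹ * (‖(EE G H p q z - H (q z)) ^ 2‖ * ‖κ‖) := by field_simp
        _ ≤ ‖κ‖⁻¹ * ((‖deriv H (g x)‖ + 1) ^ 2 * M) := by gcongr
        _ = _ := by ring
  · have hg0 : ∃ᶠ z in 𝓝 x, g z ≠ 0 := hfreq (by
      filter_upwards [hgq] with z h1 h2 using (h1 h2).1)
    obtain ⟨M, hM, h⟩ := sq_le_deriv hg hgx hg0
    have c3 := eventually_norm_le (f := deriv p) (x := x) hp.deriv.continuousAt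
    apply concl1 ((‖deriv p x‖ + 1) * M) (by positivity)
    filter_upwards [h, hgq.eventually_nhds, hg.eventually_analyticAt, c3] with z h1 h2 h3 h4 h5
    obtain ⟨e1, -⟩ := h2.self_of_nhds h5
    have hd : deriv q z = -deriv g z / g z ^ 2 := by
      have e2 : q =ᶠ[𝓝 z] fun w => w₀ + (g w)⁻¹ := by
        filter_upwards [h2, hFc.isOpen_compl.mem_nhds h5] with w h4 h5 using (h4 h5).2
      rw [e2.deriv_eq]
      exact ((h3.differentiableAt.hasDerivAt.inv e1).const_add w₀).deriv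
    have hg2 : 0 < ‖g z ^ 2‖ := norm_pos_iff.2 (pow_ne_zero 2 e1)
    rw [hd, norm_div, norm_neg]
    have e3 : 1 ≤ M * (‖deriv g z‖ / ‖g z ^ 2‖) := by
      rw [← mul_div_assoc, le_div_iff₀ hg2]; linarith
    calc ‖deriv p z‖ ≤ (‖deriv p x‖ + 1) * 1 := by linarith
      _ ≤ (‖deriv p x‖ + 1) * (M * (‖deriv g z‖ / ‖g z ^ 2‖)) := by gcongr
      _ = _ := by ring

end Pool.Agent.Stek
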