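import Pool.Agent.Lib.MP_bd8415_an.CsBound

/-!
# The quotient `E` is a constant
-/

open Complex Metric Set Filter Topology

namespace Pool.Agent.Stek

/-- `G^#(z) = conj (G (conj z))`. -/
noncomputable def sh (G : ℂ → ℂ) (z : ℂ) : ℂ := (starRingEnd ℂ) (G ((starRingEnd ℂ) z))

/-- Reflection in the unit circle. -/
noncomputable def RR (z : ℂ) : ℂ := ((starRingEnd ℂ) z)⁻¹

theorem RR_RR (z : ℂ) : RR (RR z) = z := by simp [RR]

theorem RR_ne {z : ℂ} (h : z ≠ 0) : RR z ≠ 0 := by simp [RR, h]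

theorem RR_norm (z : ℂ) : ‖RR z‖ = ‖z‖⁻¹ := by simp [RR]

theorem RR_unit {z : ℂ} (h : ‖z‖ = 1) : RR z = z := by
  have hz : z ≠ 0 := by rintro rfl; simp at h
  have h1 : z * (starRingEnd ℂ) z = 1 := by
    rw [Complex.mul_conj, Complex.normSq_eq_norm_sq, h]; norm_num
  rw [RR]
  exact (eq_inv_of_mul_eq_one_left h1).symm

theorem RR_continuousAt {z : ℂ} (h : z ≠ 0) : ContinuousAt RR z := by
  have h1 : (starRingEnd ℂ) z ≠ 0 := by simpa using h
  exact Complex.continuous_conj.continuousAt.inv₀ h1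

theorem sh_hasDerivAt {G : ℂ → ℂ} {G' z : ℂ} (h : HasDerivAt G G' ((starRingEnd ℂ) z)) :
    HasDerivAt (sh G) ((starRingEnd ℂ) G') z := by
  have := h.conj_conj
  rw [Complex.conj_conj] at this
  exact this

theorem sh_differentiable {G : ℂ → ℂ} (hG : Differentiable ℂ G) : Differentiable ℂ (sh G) :=
  fun z => (sh_hasDerivAt (hG ((starRingEnd ℂ) z)).hasDerivAt).differentiableAt

theorem deriv_sh {G : ℂ → ℂ} (hG : Differentiable ℂ G) (z : ℂ) :
    deriv (sh G) z = (starRingEnd ℂ) (deriv G ((starRingEnd ℂ) z)) :=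
  (sh_hasDerivAt (hG ((starRingEnd ℂ) z)).hasDerivAt).deriv

theorem deriv_sh' {G : ℂ → ℂ} (hG : Differentiable ℂ G) : deriv (sh G) = sh (deriv G) :=
  funext fun z => deriv_sh hG z

/-- The derivative of `z ↦ conj (p (RR z))`. -/
theorem refl_hasDerivAt {p : ℂ → ℂ} {z : ℂ} (hz : z ≠ 0) (hp : DifferentiableAt ℂ p (RR z)) :
    HasDerivAt (fun z => (starRingEnd ℂ) (p (RR z)))
      ((starRingEnd ℂ) (deriv p (RR z)) * (-(z ^ 2)⁻¹)) z := by
  have h1 : HasDerivAt p (deriv p (RR z)) ((starRingEnd ℂ) (z⁻¹)) := by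
    have : (starRingEnd ℂ) (z⁻¹) = RR z := by simp [RR]
    rw [this]
    exact hp.hasDerivAt
  have h2 := (sh_hasDerivAt h1).comp z (hasDerivAt_inv hz)
  refine h2.congr_of_eventuallyEq (Eventually.of_forall fun w => ?_)
  simp [sh, RR]

/-- Standing assumptions on the continued data. -/
structure Data (G p q : ℂ → ℂ) (κ : ℂ) (F : Set ℂ) : Prop where
  hG : Differentiable ℂ G
  hGd : Differentiable ℂ (deriv G)
  hF : F.Countable
  hFc : IsClosed F
  hreg : ∀ x, AnalyticAt ℂ p x ∨ AnalyticAt ℂ q x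
  hp : ∀ z, z ∉ F → AnalyticAt ℂ p z
  hq : ∀ z, z ∉ F → AnalyticAt ℂ q z
  hrel : ∀ z, z ∉ F → (deriv G (p z) * deriv p z - deriv (sh G) (q z) * deriv q z) ^ 2 =
      κ * (deriv p z * deriv q z) * (G (p z) + sh G (q z)) ^ 2
  hD : ∀ z, z ∉ F → deriv G (p z) * deriv p z - deriv (sh G) (q z) * deriv q z ≠ 0
  hκ : κ ≠ 0
  hrefl : ∀ z, z ≠ 0 → z ∉ F → RR z ∉ F → q z = (starRingEnd ℂ) (p (RR z))
  hnc : ∃ w₀, deriv G w₀ ≠ 0

theorem EE_refl {G p q : ℂ → ℂ} {κ : ℂ} {F : Set ℂ} (h : Data G p q κ F) {z : ℂ} (hz : z ≠ 0)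
    (hzF : z ∉ F) (hRF : RR z ∉ F) :
    EE G (sh G) p q (RR z) = -(starRingEnd ℂ) (EE G (sh G) p q z) := by
  have hopen : ∀ᶠ w in 𝓝 z, w ≠ 0 ∧ w ∉ F ∧ RR w ∉ F := by
    have h1 := h.hFc.isOpen_compl.mem_nhds hzF
    have h2 := (RR_continuousAt hz).eventually (h.hFc.isOpen_compl.mem_nhds hRF)
    filter_upwards [isOpen_ne.mem_nhds hz, h1, h2] with w a b c using ⟨a, b, c⟩
  have e1 : q =ᶠ[𝓝 z] fun w => (starRingEnd ℂ) (p (RR w)) := by
    filter_upwards [hopen] with w hw using h.hrefl w hw.1 hw.2.1 hw.2.2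
  have e2 : p =ᶠ[𝓝 z] fun w => (starRingEnd ℂ) (q (RR w)) := by
    filter_upwards [hopen] with w hw
    have := h.hrefl (RR w) (RR_ne hw.1) hw.2.2 (by rw [RR_RR]; exact hw.2.1)
    rw [this, RR_RR, Complex.conj_conj]
  have d1 : deriv q z = (starRingEnd ℂ) (deriv p (RR z)) * (-(z ^ 2)⁻¹) := by
    rw [e1.deriv_eq]; exact (refl_hasDerivAt hz (h.hp _ hRF).differentiableAt).deriv
  have d2 : deriv p z = (starRingEnd ℂ) (deriv q (RR z)) * (-(z ^ 2)⁻¹) := by
    rw [e2.deriv_eq]; exact (refl_hasDerivAt hz (h.hq _ hRF).differentiableAt).deriv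
  have v1 : (starRingEnd ℂ) (q z) = p (RR z) := by rw [e1.eq_of_nhds, Complex.conj_conj]
  have v2 : (starRingEnd ℂ) (p z) = q (RR z) := by rw [e2.eq_of_nhds, Complex.conj_conj]
  have hz2 : (z ^ 2)⁻¹ ≠ 0 := inv_ne_zero (pow_ne_zero 2 hz)
  set w := RR z with hw
  have c1 : (starRingEnd ℂ) (deriv p z) = deriv q w * (-(starRingEnd ℂ) ((z ^ 2)⁻¹)) := by
    rw [d2, map_mul, Complex.conj_conj, map_neg]
  have c2 : (starRingEnd ℂ) (deriv q z) = deriv p w * (-(starRingEnd ℂ) ((z ^ 2)⁻¹)) := by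
    rw [d1, map_mul, Complex.conj_conj, map_neg]
  have c3 : (starRingEnd ℂ) (sh G (q z)) = G (p w) := by rw [sh, Complex.conj_conj, v1]
  have c4 : (starRingEnd ℂ) (G (p z)) = sh G (q w) := by rw [sh, ← v2, Complex.conj_conj]
  have c5 : (starRingEnd ℂ) (deriv (sh G) (q z)) = deriv G (p w) := by
    rw [deriv_sh h.hG, Complex.conj_conj, v1]
  have c6 : (starRingEnd ℂ) (deriv G (p z)) = deriv (sh G) (q w) := by
    rw [deriv_sh h.hG, ← v2, Complex.conj_conj]
  have hs : (starRingEnd ℂ) ((z ^ 2)⁻¹) ≠ 0 := by simpa using hz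
  have hD := h.hD w hRF
  unfold EE
  simp only [map_div₀, map_add, map_sub, map_mul]
  rw [c1, c2, c3, c4, c5, c6]
  set s := (starRingEnd ℂ) ((z ^ 2)⁻¹) with hsdef
  rw [← div_neg, div_eq_div_iff hD (by
    have e : -(deriv (sh G) (q w) * (deriv q w * -s) - deriv G (p w) * (deriv p w * -s)) =
      -(s * (deriv G (p w) * deriv p w - deriv (sh G) (q w) * deriv q w)) := by ring
    rw [e]
    exact neg_ne_zero.2 (mul_ne_zero hs hD))]
  ring

/-- `E` is a constant, and the constant is purely imaginary. -/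
theorem EE_const {G p q : ℂ → ℂ} {κ : ℂ} {F : Set ℂ} (h : Data G p q κ F) :
    ∃ c : ℂ, (starRingEnd ℂ) c = -c ∧ ∀ z, z ∉ F → EE G (sh G) p q z = c := by
  obtain ⟨w₀, hw₀⟩ := h.hnc
  have hsG := sh_differentiable h.hG
  have hsGd : Differentiable ℂ (deriv (sh G)) := by
    rw [deriv_sh' h.hG]; exact sh_differentiable h.hGd
  have hshsh : sh (sh G) = G := by funext z; simp [sh]
  have hws : deriv (sh G) ((starRingEnd ℂ) w₀) ≠ 0 := by
    rw [deriv_sh h.hG, Complex.conj_conj]; simpa using hw₀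
  -- local boundedness
  have hb : ∀ x, ∃ M, ∀ᶠ z in 𝓝 x, z ∉ F → ‖EE G (sh G) p q z‖ ≤ M := by
    intro x
    rcases h.hreg x with hx | hx
    · exact EE_bound h.hF h.hFc h.hG h.hGd hsG hsGd hx
        (Eventually.of_forall fun z hz => (h.hq z hz).differentiableAt)
        (Eventually.of_forall fun z hz => h.hrel z hz)
        (Eventually.of_forall fun z hz => h.hD z hz) h.hκ hws
    · obtain ⟨M, hM⟩ := EE_bound (G := sh G) (H := G) (p := q) (q := p) (κ := κ) h.hF h.hFc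
        hsG hsGd h.hG h.hGd hx
        (Eventually.of_forall fun z hz => (h.hp z hz).differentiableAt)
        (Eventually.of_forall fun z hz => by
          have := h.hrel z hz
          linear_combination this)
        (Eventually.of_forall fun z hz => by
          have := h.hD z hz
          rw [← neg_sub]
          exact neg_ne_zero.2 this) h.hκ hw₀
      refine ⟨M, ?_⟩
      filter_upwards [hM] with z h1 h2
      have := h1 h2
      rwa [EE_swap, norm_neg] at this
  have hE : ∀ z, z ∉ F → DifferentiableAt ℂ (EE G (sh G) p q) z := by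
    intro z hz
    have a1 := (h.hp z hz).differentiableAt
    have a2 := (h.hq z hz).differentiableAt
    have a3 := (h.hp z hz).deriv.differentiableAt
    have a4 := (h.hq z hz).deriv.differentiableAt
    have b1 : DifferentiableAt ℂ (fun z => deriv G (p z)) z := (h.hGd (p z)).comp z a1
    have b2 : DifferentiableAt ℂ (fun z => G (p z)) z := (h.hG (p z)).comp z a1
    have b3 : DifferentiableAt ℂ (fun z => deriv (sh G) (q z)) z := (hsGd (q z)).comp z a2
    have b4 : DifferentiableAt ℂ (fun z => sh G (q z)) z := (hsG (q z)).comp z a2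
    unfold EE
    exact (((b1.mul a3).mul b4).add (b2.mul (b3.mul a4))).div ((b1.mul a3).sub (b3.mul a4))
      (h.hD z hz)
  set g := ext F (EE G (sh G) p q) with hg
  have hgx : ∀ x, AnalyticAt ℂ g x ∧ ∀ᶠ y in 𝓝 x, y ∉ F → g y = EE G (sh G) p q y := by
    intro x
    obtain ⟨M, hM⟩ := hb x
    obtain ⟨r, hr, hball⟩ := Metric.eventually_nhds_iff_ball.1 hM
    exact ext_analyticAt h.hF h.hFc isOpen_ball (D := ball x r)
      (fun z hz => (hE z hz.2).differentiableWithinAt)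
      (fun z hz => hball z hz.1 hz.2) x (mem_ball_self hr)
  have hgd : Differentiable ℂ g := fun x => (hgx x).1.differentiableAt
  have hgE : ∀ z, z ∉ F → g z = EE G (sh G) p q z := fun z hz =>
    (hgx z).2.self_of_nhds hz
  -- reflection
  have hgR : ∀ z, z ≠ 0 → g (RR z) = -(starRingEnd ℂ) (g z) := by
    intro z hz
    have hS : (F ∪ RR '' F).Countable := h.hF.union (h.hF.image _)
    have hne := neBot_compl hS z
    have t1 : Tendsto (fun w => g (RR w)) (𝓝[(F ∪ RR '' F)ᶜ] z) (𝓝 (g (RR z))) :=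
      ((hgd (RR z)).continuousAt.tendsto.comp (RR_continuousAt hz).tendsto).mono_left
        nhdsWithin_le_nhds
    have t2 : Tendsto (fun w => -(starRingEnd ℂ) (g w)) (𝓝[(F ∪ RR '' F)ᶜ] z)
        (𝓝 (-(starRingEnd ℂ) (g z))) :=
      (((Complex.continuous_conj.tendsto _).comp (hgd z).continuousAt.tendsto).neg).mono_left
        nhdsWithin_le_nhds
    refine tendsto_nhds_unique t1 (t2.congr' ?_)
    rw [Filter.EventuallyEq, eventually_nhdsWithin_iff]
    filter_upwards [isOpen_ne.mem_nhds hz] with w hw0 hw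
    have hwF : w ∉ F := fun h1 => hw (Or.inl h1)
    have hRwF : RR w ∉ F := fun h1 => hw (Or.inr ⟨RR w, h1, RR_RR w⟩)
    rw [hgE _ hwF, hgE _ hRwF, EE_refl h hw0 hwF hRwF]
  -- bounded
  have hbd : Bornology.IsBounded (range g) := by
    obtain ⟨C, hC⟩ := ((isCompact_closedBall (0 : ℂ) 1).image hgd.continuous).isBounded.exists_norm_le
    rw [isBounded_iff_forall_norm_le]
    refine ⟨C, ?_⟩
    rintro _ ⟨z, rfl⟩
    by_cases hz : ‖z‖ ≤ 1
    · exact hC _ ⟨z, by simpa using hz, rfl⟩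
    · push Not at hz
      have hz0 : z ≠ 0 := by rintro rfl; simp at hz; linarith
      have h1 : ‖g z‖ = ‖g (RR z)‖ := by rw [hgR z hz0, norm_neg, RCLike.norm_conj]
      rw [h1]
      refine hC _ ⟨RR z, ?_, rfl⟩
      rw [mem_closedBall, dist_zero_right, RR_norm]
      exact inv_le_one_of_one_le₀ hz.le
  have hconst := hgd.apply_eq_apply_of_bounded hbd
  refine ⟨g 1, ?_, fun z hz => by rw [← hgE z hz]; exact hconst z 1⟩
  have h1 := hgR 1 one_ne_zero
  rw [RR_unit (by simp)] at h1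
  rw [← neg_eq_iff_eq_neg.2 h1]

end Pool.Agent.Stek
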