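import Pool.Agent.Lib.MP_bd8415_an.Boundary

/-!
# The final theorem
-/

open Complex Metric Set Filter Topology Bornology

namespace Pool.Agent.Stek

theorem exists_mu {x g : ℂ} (hg : g ≠ 0) (htan : g.re * x.im = g.im * x.re) :
    ∃ μ : ℝ, x = μ * g := by
  have hn : g.re ^ 2 + g.im ^ 2 ≠ 0 := by
    intro h
    apply hg
    apply Complex.ext
    · simp only [Complex.zero_re]; nlinarith [sq_nonneg g.re, sq_nonneg g.im]
    · simp only [Complex.zero_im]; nlinarith [sq_nonneg g.re, sq_nonneg g.im]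
  refine ⟨(x.re * g.re + x.im * g.im) / (g.re ^ 2 + g.im ^ 2), ?_⟩
  apply Complex.ext
  · rw [Complex.re_ofReal_mul]
    field_simp
    linear_combination -g.im * htan
  · rw [Complex.im_ofReal_mul]
    field_simp
    linear_combination g.re * htan

/-- The Neumann case: `σ = 0` forces the completion to be constant. -/
theorem neumann {ρ : ℂ → ℝ} (hρ : Differentiable ℝ ρ)
    (hgrad : ∀ z, ρ z = 0 → fderiv ℝ ρ z ≠ 0) (hbdd : IsBounded {z : ℂ | ρ z < 0})
    (hne : ∃ z, ρ z < 0) {G : ℂ → ℂ} (hG : Differentiable ℂ G)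
    (hbc : ∀ z, ρ z = 0 → (deriv G z * grad ρ z).re = 0)
    (M : ℕ) (c : ℤ → ℂ) (hpar : ∀ z : ℂ, ρ z = 0 → ∃ ζ : ℂ, ‖ζ‖ = 1 ∧ lau M c ζ = z)
    (hpar' : ∀ ζ : ℂ, ‖ζ‖ = 1 → ρ (lau M c ζ) = 0) :
    ∀ z w, G z = G w := by
  -- the imaginary part is constant on the boundary
  set f : ℝ → ℂ := fun θ => G (lau M c (Complex.exp (θ * I))) with hf
  have hder : ∀ θ : ℝ, HasDerivAt f (deriv G (lau M c (Complex.exp (θ * I))) *
      (lau M (fun j => (j : ℂ) * c j) (Complex.exp (θ * I)) * I)) θ := by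
    intro θ
    have h0 : Complex.exp (θ * I) ≠ 0 := Complex.exp_ne_zero _
    have h1 : HasDerivAt (fun θ : ℝ => Complex.exp (θ * I)) (Complex.exp (θ * I) * I) θ := by
      have h2 : HasDerivAt (fun θ : ℝ => ((θ : ℂ) * I)) (I) θ := by
        simpa using (Complex.ofRealCLM.hasDerivAt (x := θ)).mul_const I
      exact h2.cexp
    have h3 := (hG (lau M c (Complex.exp (θ * I)))).hasDerivAt.comp (Complex.exp (θ * I))
      (lau_hasDerivAt M c h0)
    have h4 := h3.scomp θ h1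
    have e : (Complex.exp (θ * I) * I) • (deriv G (lau M c (Complex.exp (θ * I))) *
        (lau M (fun j => (j : ℂ) * c j) (Complex.exp (θ * I)) / Complex.exp (θ * I))) =
        deriv G (lau M c (Complex.exp (θ * I))) *
        (lau M (fun j => (j : ℂ) * c j) (Complex.exp (θ * I)) * I) := by
      rw [smul_eq_mul]
      field_simp
    rw [e] at h4
    exact h4
  have him : ∀ θ : ℝ, HasDerivAt (fun θ => (f θ).im) 0 θ := by
    intro θ
    have h1 := (Complex.imCLM.hasFDerivAt (x := f θ)).comp_hasDerivAt θ (hder θ)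
    have hn : ‖Complex.exp (θ * I)‖ = 1 := Complex.norm_exp_ofReal_mul_I θ
    have hz := hpar' _ hn
    obtain ⟨μ, hμ⟩ := exists_mu (grad_ne_zero (hgrad _ hz)) (tangent hρ M c hpar' hn)
    have hb := hbc _ hz
    suffices key : Complex.imCLM (deriv G (lau M c (Complex.exp (θ * I))) *
        (lau M (fun j => (j : ℂ) * c j) (Complex.exp (θ * I)) * I)) = 0 by
      rw [key] at h1
      exact h1
    rw [hμ]
    simp only [Complex.imCLM_apply]
    have : deriv G (lau M c (Complex.exp (θ * I))) *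
        (μ * grad ρ (lau M c (Complex.exp (θ * I))) * I) =
        (μ : ℂ) * ((deriv G (lau M c (Complex.exp (θ * I))) *
          grad ρ (lau M c (Complex.exp (θ * I)))) * I) := by ring
    rw [this, Complex.im_ofReal_mul, Complex.mul_I_im, hb, mul_zero]
  have hconst : ∀ θ : ℝ, (f θ).im = (f 0).im := by
    intro θ
    exact is_const_of_deriv_eq_zero (fun θ => (him θ).differentiableAt) (fun θ => (him θ).deriv) θ 0
  set κ := (f 0).im with hκ
  have hin : ∀ z, ρ z < 0 → (G z).im = κ := by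
    have h1 := re_zero_inside hρ.continuous hbdd (G := fun z => -I * G z - κ)
      ((hG.const_mul (-I)).sub_const _) (by
        intro z hz
        obtain ⟨ζ, hζ, rfl⟩ := hpar z hz
        have h2 : Complex.exp ((Complex.arg ζ : ℂ) * I) = ζ := by
          have := Complex.norm_mul_exp_arg_mul_I ζ
          rwa [hζ, Complex.ofReal_one, one_mul] at this
        have h3 := hconst (Complex.arg ζ)
        rw [hf] at h3
        simp only at h3
        rw [h2] at h3
        simp [h3])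
    intro z hz
    have := h1 z hz
    simp at this
    linarith
  -- derivative vanishes inside
  have hopen : IsOpen {z : ℂ | ρ z < 0} := isOpen_lt hρ.continuous continuous_const
  have hd0 : ∀ z, ρ z < 0 → deriv G z = 0 := by
    intro z hz
    have h1 : HasFDerivAt G
        ((ContinuousLinearMap.toSpanSingleton ℂ (deriv G z)).restrictScalars ℝ) z :=
      (hG z).hasDerivAt.hasFDerivAt.restrictScalars ℝ
    have h2 := (Complex.imCLM.hasFDerivAt (x := G z)).comp z h1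
    have h3 : (Complex.imCLM ∘ G) =ᶠ[𝓝 z] fun _ => κ := by
      filter_upwards [hopen.mem_nhds hz] with w hw
      exact hin w hw
    have h4 := (h2.congr_of_eventuallyEq h3.symm).unique (hasFDerivAt_const κ z)
    have h5 := congrArg (fun L : ℂ →L[ℝ] ℝ => L 1) h4
    have h6 := congrArg (fun L : ℂ →L[ℝ] ℝ => L I) h4
    simp at h5 h6
    exact Complex.ext h6 h5
  obtain ⟨z₁, hz₁⟩ := hne
  have hGd := deriv_differentiable hG
  have h7 : EqOn (deriv G) 0 univ := by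
    apply AnalyticOnNhd.eqOn_zero_of_preconnected_of_eventuallyEq_zero
      (hGd.differentiableOn.analyticOnNhd isOpen_univ) isPreconnected_univ (mem_univ z₁)
    filter_upwards [hopen.mem_nhds hz₁] with w hw
    exact hd0 w hw
  intro z w
  exact is_const_of_deriv_eq_zero hG (fun x => h7 (mem_univ x)) z w

theorem final_half {ρ : ℂ → ℝ} (hρ : Differentiable ℝ ρ)
    (hgrad : ∀ z, ρ z = 0 → fderiv ℝ ρ z ≠ 0) (hbdd : IsBounded {z : ℂ | ρ z < 0})
    (hconn : IsConnected {z : ℂ | ρ z < 0}) {G : ℂ → ℂ} (hG : Differentiable ℂ G) {σ : ℝ}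
    (hbc : ∀ z, ρ z = 0 → (deriv G z * grad ρ z).re = σ * (G z).re * ‖grad ρ z‖)
    (M : ℕ) (c : ℤ → ℂ) (hM : 1 ≤ M)
    (hpar : ∀ z : ℂ, ρ z = 0 ↔ ∃ ζ : ℂ, ‖ζ‖ = 1 ∧ lau M c ζ = z)
    (hlt : ‖c (-M)‖ < ‖c M‖)
    (hne : ∃ z w, ρ z < 0 ∧ ρ w < 0 ∧ (G z).re ≠ (G w).re) :
    ∃ (z₀ : ℂ) (r : ℝ), {z : ℂ | ρ z < 0} = ball z₀ r := by
  have hpar1 : ∀ ζ : ℂ, ‖ζ‖ = 1 → ρ (lau M c ζ) = 0 := fun ζ hζ => (hpar _).2 ⟨ζ, hζ, rfl⟩
  obtain ⟨z₁, w₁, hz₁, hw₁, hzw⟩ := hne
  by_cases hσ : σ = 0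
  · exfalso
    apply hzw
    rw [neumann hρ hgrad hbdd ⟨z₁, hz₁⟩ hG (fun z hz => by rw [hbc z hz, hσ]; ring) M c
      (fun z hz => (hpar z).1 hz) hpar1 z₁ w₁]
  · have hrel := rel_of_boundary hρ hgrad hG hbc M c (fun j => (starRingEnd ℂ) (c (-j)))
      (fun _ => rfl) hpar1
    rcases core_all hG hσ M hM c _ (fun _ => rfl) hlt hrel with h | ⟨h1, h2⟩
    · exfalso
      have h3 := re_zero_inside hρ.continuous hbdd hG (by
        intro z hz
        obtain ⟨ζ, hζ, rfl⟩ := (hpar z).1 hz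
        exact h ζ hζ)
      apply hzw
      rw [h3 z₁ hz₁, h3 w₁ hw₁]
    · have ha : 0 < ‖c M‖ := (norm_nonneg _).trans_lt hlt
      refine ⟨c 0, ‖c M‖, ball_of_circle hρ.continuous hbdd hconn ha ?_⟩
      ext z
      show ρ z = 0 ↔ _
      rw [hpar, mem_sphere_iff_norm]
      constructor
      · rintro ⟨ζ, hζ, rfl⟩
        rw [lau_two M hM c h2, h1, zero_mul, add_zero, add_sub_cancel_right, norm_mul, norm_zpow, hζ,
          one_zpow, mul_one]
      · intro hz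
        obtain ⟨ζ, hζ⟩ := IsAlgClosed.exists_pow_nat_eq ((z - c 0) / c M) (n := M) (by omega)
        have hn : ‖ζ‖ = 1 := by
          have h4 : ‖ζ‖ ^ M = 1 := by
            rw [← norm_pow, hζ, norm_div, hz, div_self ha.ne']
          exact (pow_eq_one_iff_of_nonneg (norm_nonneg _) (by omega)).1 h4
        refine ⟨ζ, hn, ?_⟩
        rw [lau_two M hM c h2, h1, zpow_natCast, hζ]
        have : c M ≠ 0 := norm_pos_iff.1 ha
        field_simp
        ring

theorem lau_neg (M : ℕ) (c : ℤ → ℂ) (ζ : ℂ) :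
    lau M (fun j => c (-j)) ζ = lau M c ζ⁻¹ := by
  rw [lau, lau]
  apply Finset.sum_nbij' (fun j => -j) (fun j => -j)
  · intro j hj; simp only [Finset.mem_Icc] at hj ⊢; omega
  · intro j hj; simp only [Finset.mem_Icc] at hj ⊢; omega
  · intro j _; simp
  · intro j _; simp
  · intro j _
    simp

theorem final (ρ : ℂ → ℝ) (hρ : ContDiff ℝ ((⊤ : ℕ∞) : WithTop ℕ∞) ρ)
    (hgrad : ∀ z : ℂ, ρ z = 0 → fderiv ℝ ρ z ≠ 0)
    (hbdd : Bornology.IsBounded {z : ℂ | ρ z < 0})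
    (hconn : IsConnected {z : ℂ | ρ z < 0})
    (M : ℕ) (c : ℤ → ℂ) (hc : ‖c M‖ ≠ ‖c (-M)‖)
    (hpar : {z : ℂ | ρ z = 0} = Set.range (fun θ : ℝ =>
      ∑ j ∈ Finset.Icc (-(M : ℤ)) M, c j * Complex.exp (j * θ * Complex.I)))
    (U : ℂ → ℝ) (hU : InnerProductSpace.HarmonicOnNhd U Set.univ) (σ : ℝ)
    (hbc : ∀ z : ℂ, ρ z = 0 →
      fderiv ℝ U z (((fderiv ℝ ρ z 1 : ℝ) : ℂ) + ((fderiv ℝ ρ z Complex.I : ℝ) : ℂ) * Complex.I)
        = σ * U z *
          ‖((fderiv ℝ ρ z 1 : ℝ) : ℂ) + ((fderiv ℝ ρ z Complex.I : ℝ) : ℂ) * Complex.I‖)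
    (hne : ∃ z w : ℂ, ρ z < 0 ∧ ρ w < 0 ∧ U z ≠ U w) :
    ∃ (z₀ : ℂ) (r : ℝ), {z : ℂ | ρ z < 0} = Metric.ball z₀ r := by
  have hM : 1 ≤ M := by
    by_contra h
    have : M = 0 := by omega
    subst this
    simp at hc
  obtain ⟨G, hGa, hGU⟩ := hU.exists_analyticOnNhd_univ_re_eq
  have hG : Differentiable ℂ G := fun z => (hGa z (mem_univ z)).differentiableAt
  have hρd : Differentiable ℝ ρ := hρ.differentiable (by simp)
  have hbc' : ∀ z, ρ z = 0 → (deriv G z * grad ρ z).re = σ * (G z).re * ‖grad ρ z‖ := by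
    intro z hz
    have h1 := hbc z hz
    rw [← hGU, fderiv_re hG] at h1
    exact h1
  have hexp : ∀ θ : ℝ, ∑ j ∈ Finset.Icc (-(M : ℤ)) M, c j * Complex.exp (j * θ * Complex.I) =
      lau M c (Complex.exp (θ * I)) := by
    intro θ
    rw [lau]
    apply Finset.sum_congr rfl
    intro j _
    rw [← Complex.exp_int_mul, mul_assoc]
  have hpar' : ∀ z : ℂ, ρ z = 0 ↔ ∃ ζ : ℂ, ‖ζ‖ = 1 ∧ lau M c ζ = z := by
    intro z
    have h1 : ρ z = 0 ↔ z ∈ Set.range (fun θ : ℝ =>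
      ∑ j ∈ Finset.Icc (-(M : ℤ)) M, c j * Complex.exp (j * θ * Complex.I)) := by
      rw [← hpar]; rfl
    rw [h1]
    constructor
    · rintro ⟨θ, rfl⟩
      exact ⟨_, Complex.norm_exp_ofReal_mul_I θ, (hexp θ).symm⟩
    · rintro ⟨ζ, hζ, rfl⟩
      refine ⟨Complex.arg ζ, ?_⟩
      show ∑ j ∈ Finset.Icc (-(M : ℤ)) M, c j * Complex.exp (j * (Complex.arg ζ : ℝ) * Complex.I) = _
      rw [hexp]
      congr 1
      have := Complex.norm_mul_exp_arg_mul_I ζ
      rwa [hζ, Complex.ofReal_one, one_mul] at this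
  have hne' : ∃ z w, ρ z < 0 ∧ ρ w < 0 ∧ (G z).re ≠ (G w).re := by
    obtain ⟨z, w, h1, h2, h3⟩ := hne
    refine ⟨z, w, h1, h2, ?_⟩
    rw [← hGU] at h3
    exact h3
  rcases lt_or_gt_of_ne hc with h | h
  · -- reverse the coefficients
    refine final_half hρd hgrad hbdd hconn hG hbc' M (fun j => c (-j)) hM ?_ (by simpa using h) hne'
    intro z
    rw [hpar']
    constructor
    · rintro ⟨ζ, hζ, rfl⟩
      exact ⟨ζ⁻¹, by rw [norm_inv, hζ, inv_one], by rw [lau_neg, inv_inv]⟩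
    · rintro ⟨ζ, hζ, rfl⟩
      exact ⟨ζ⁻¹, by rw [norm_inv, hζ, inv_one], by rw [lau_neg]⟩
  · exact final_half hρd hgrad hbdd hconn hG hbc' M c hM hpar' h hne'

end Pool.Agent.Stek
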