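import Pool.Agent.Lib.MP_bd8415_an.CsPole
import Pool.Agent.Lib.MP_bd8415_an.Final

/-!
# One entire Steklov eigenfunction, boundaries with countably many complex singularities
-/

open Complex Metric Set Filter Topology Bornology

namespace Pool.Agent.Stek

/-- A bounded connected sublevel set whose zero set lies on a circle is a disc. -/
theorem ball_of_circle' {ρ : ℂ → ℝ} (hρ : Continuous ρ) (hbdd : IsBounded {z : ℂ | ρ z < 0})
    (hconn : IsConnected {z : ℂ | ρ z < 0}) {z₀ : ℂ} {r : ℝ} (hr : 0 < r)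
    (hc : ∀ z, ρ z = 0 → ‖z - z₀‖ = r) : {z : ℂ | ρ z < 0} = ball z₀ r := by
  have hne : ∀ z, ‖z - z₀‖ ≠ r → ρ z ≠ 0 := fun z hz h0 => hz (hc z h0)
  have hsign : ∀ S : Set ℂ, IsPreconnected S → (∀ z ∈ S, ρ z ≠ 0) → (∃ z ∈ S, ρ z < 0) →
      ∀ z ∈ S, ρ z < 0 := by
    intro S hS h0 ⟨z₁, hz₁, h1⟩ z hz
    by_contra hcon
    push Not at hcon
    have : (0 : ℝ) ∈ ρ '' S :=
      hS.intermediate_value hz₁ hz hρ.continuousOn ⟨h1.le, hcon⟩
    obtain ⟨w, hw, hw0⟩ := this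
    exact h0 w hw hw0
  have hout : ∀ z, r < ‖z - z₀‖ → ¬ ρ z < 0 := by
    intro z hz hneg
    have hall := hsign {z : ℂ | r < ‖z - z₀‖} (preconn_ext z₀ hr.le)
      (fun w hw => hne w (ne_of_gt hw)) ⟨z, hz, hneg⟩
    obtain ⟨R, hR⟩ := hbdd.exists_norm_le
    have h1 := hR (z₀ + ((|R| + r + 1 + ‖z₀‖ : ℝ) : ℂ)) (hall _ (by
      show r < ‖z₀ + ((|R| + r + 1 + ‖z₀‖ : ℝ) : ℂ) - z₀‖
      rw [add_sub_cancel_left, Complex.norm_real, Real.norm_eq_abs, abs_of_pos (by positivity)]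
      have := abs_nonneg R
      have := norm_nonneg z₀
      linarith))
    have h2 : ‖((|R| + r + 1 + ‖z₀‖ : ℝ) : ℂ)‖ ≤
        ‖z₀ + ((|R| + r + 1 + ‖z₀‖ : ℝ) : ℂ)‖ + ‖z₀‖ := by
      calc ‖((|R| + r + 1 + ‖z₀‖ : ℝ) : ℂ)‖ =
            ‖(z₀ + ((|R| + r + 1 + ‖z₀‖ : ℝ) : ℂ)) - z₀‖ := by rw [add_sub_cancel_left]
        _ ≤ _ := norm_sub_le _ _
    rw [Complex.norm_real, Real.norm_eq_abs, abs_of_pos (by positivity)] at h2
    have := le_abs_self R
    linarith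
  have hopen : IsOpen {z : ℂ | ρ z < 0} := isOpen_lt hρ continuous_const
  have hsub : {z : ℂ | ρ z < 0} ⊆ ball z₀ r := by
    intro z hz
    rw [mem_ball_iff_norm]
    by_contra hcon
    push Not at hcon
    rcases lt_or_eq_of_le hcon with h | h
    · exact hout z h hz
    · -- move outwards
      have ht : Tendsto (fun t : ℝ => z + t * (z - z₀)) (𝓝[>] 0) (𝓝 z) := by
        have h1 : Continuous (fun t : ℝ => z + t * (z - z₀)) := by fun_prop
        have h2 := h1.tendsto 0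
        simp only [Complex.ofReal_zero, zero_mul, add_zero] at h2
        exact h2.mono_left nhdsWithin_le_nhds
      have h3 := ht.eventually (hopen.mem_nhds hz)
      obtain ⟨t, h4, h5⟩ := (h3.and self_mem_nhdsWithin).exists
      have h5' : (0 : ℝ) < t := h5
      apply hout _ _ h4
      have h6 : z + t * (z - z₀) - z₀ = ((1 + t : ℝ) : ℂ) * (z - z₀) := by push_cast; ring
      rw [h6, norm_mul, Complex.norm_real, Real.norm_eq_abs, abs_of_pos (by linarith), ← h]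
      nlinarith
  apply Subset.antisymm hsub
  obtain ⟨z₁, hz₁⟩ := hconn.nonempty
  exact hsign (ball z₀ r) (convex_ball z₀ r).isPreconnected
    (fun w hw => hne w (ne_of_lt (mem_ball_iff_norm.1 hw))) ⟨z₁, hsub hz₁, hz₁⟩

/-- Constant imaginary part on the boundary forces a constant. -/
theorem im_const {ρ : ℂ → ℝ} (hρ : Continuous ρ) (hbdd : IsBounded {z : ℂ | ρ z < 0})
    (hne : ∃ z, ρ z < 0) {G : ℂ → ℂ} (hG : Differentiable ℂ G) {κ : ℝ}
    (h : ∀ z, ρ z = 0 → (G z).im = κ) : ∀ z w, G z = G w := by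
  have hin : ∀ z, ρ z < 0 → (G z).im = κ := by
    have h1 := re_zero_inside hρ hbdd (G := fun z => -I * G z - κ)
      ((hG.const_mul (-I)).sub_const _) (by
        intro z hz
        simp [h z hz])
    intro z hz
    have := h1 z hz
    simp at this
    linarith
  have hopen : IsOpen {z : ℂ | ρ z < 0} := isOpen_lt hρ continuous_const
  have hd0 : ∀ z, ρ z < 0 → deriv G z = 0 := by
    intro z hz
    have h1 : HasFDerivAt G
        ((ContinuousLinearMap.toSpanSingleton ℂ (deriv G z)).restrictScalars ℝ) z :=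
      (hG z).hasDerivAt.hasFDerivAt.restrictScalars ℝ
    have h2 := (Complex.imCLM.hasFDerivAt (x := G z)).comp z h1
    have h3 : (Complex.imCLM ∘ G) =ᶠ[𝓝 z] fun _ => κ := by
      filter_upwards [hopen.mem_nhds hz] with w hw
      exact hin w hw
    have h4 := (h2.congr_of_eventuallyEq h3.symm).unique (hasFDerivAt_const κ z)
    have h5 := congrArg (fun L : ℂ →L[ℝ] ℝ => L 1) h4
    have h6 := congrArg (fun L : ℂ →L[ℝ] ℝ => L I) h4
    simp at h5 h6
    exact Complex.ext h6 h5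
  obtain ⟨z₁, hz₁⟩ := hne
  have hGd := deriv_differentiable hG
  have h7 : EqOn (deriv G) 0 univ := by
    apply AnalyticOnNhd.eqOn_zero_of_preconnected_of_eventuallyEq_zero
      (hGd.differentiableOn.analyticOnNhd isOpen_univ) isPreconnected_univ (mem_univ z₁)
    filter_upwards [hopen.mem_nhds hz₁] with w hw
    exact hd0 w hw
  intro z w
  exact is_const_of_deriv_eq_zero hG (fun x => h7 (mem_univ x)) z w

/-- Moving along the circle. -/
theorem circle_hasDerivAt {p : ℂ → ℂ} {ζ : ℂ} (hp : DifferentiableAt ℂ p ζ) :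
    HasDerivAt (fun θ : ℝ => p (ζ * Complex.exp (θ * I))) (deriv p ζ * ζ * I) 0 := by
  have h1 : HasDerivAt (fun θ : ℝ => ζ * Complex.exp (θ * I)) (ζ * I) 0 := by
    have h2 : HasDerivAt (fun θ : ℝ => ((θ : ℂ) * I)) (I) 0 := by
      simpa using (Complex.ofRealCLM.hasDerivAt (x := (0 : ℝ))).mul_const I
    have h3 := (h2.cexp).const_mul ζ
    simpa using h3
  have h4 : HasDerivAt p (deriv p ζ) ((fun θ : ℝ => ζ * Complex.exp (θ * I)) 0) := by
    simpa using hp.hasDerivAt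
  have h5 := h4.scomp (0 : ℝ) h1
  have e : deriv p ζ * ζ * I = (ζ * I) • deriv p ζ := by rw [smul_eq_mul]; ring
  rw [e]
  exact h5

/-- The relation at a boundary point. -/
theorem rel_circle {ρ : ℂ → ℝ} (hρ : Differentiable ℝ ρ)
    (hgrad : ∀ z, ρ z = 0 → fderiv ℝ ρ z ≠ 0) {G : ℂ → ℂ} (hG : Differentiable ℂ G) {σ : ℝ}
    (hbc : ∀ z, ρ z = 0 → (deriv G z * grad ρ z).re = σ * (G z).re * ‖grad ρ z‖)
    {p q : ℂ → ℂ} (hpar : ∀ ζ : ℂ, ‖ζ‖ = 1 → ρ (p ζ) = 0)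
    (hpq : ∀ ζ : ℂ, ‖ζ‖ = 1 → q ζ = (starRingEnd ℂ) (p ζ)) {ζ : ℂ} (hζ : ‖ζ‖ = 1)
    (hp : DifferentiableAt ℂ p ζ) (hq : DifferentiableAt ℂ q ζ) :
    (deriv G (p ζ) * deriv p ζ - deriv (sh G) (q ζ) * deriv q ζ) ^ 2 =
      (-(σ : ℂ) ^ 2) * (deriv p ζ * deriv q ζ) * (G (p ζ) + sh G (q ζ)) ^ 2 := by
  have hζ0 : ζ ≠ 0 := by rintro rfl; simp at hζ
  have hcirc : ∀ θ : ℝ, ‖ζ * Complex.exp (θ * I)‖ = 1 := by
    intro θ
    rw [norm_mul, hζ, Complex.norm_exp_ofReal_mul_I, one_mul]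
  set x := deriv p ζ * ζ with hx
  set y := deriv q ζ * ζ with hy
  set z := p ζ with hz
  -- `y = - conj x`
  have hyx : y = -(starRingEnd ℂ) x := by
    have h1 := circle_hasDerivAt hq
    have h2 : HasDerivAt (fun θ : ℝ => (starRingEnd ℂ) (p (ζ * Complex.exp (θ * I))))
        ((starRingEnd ℂ) (deriv p ζ * ζ * I)) 0 :=
      (Complex.conjCLE.hasFDerivAt).comp_hasDerivAt (0 : ℝ) (circle_hasDerivAt hp)
    have h3 : (fun θ : ℝ => q (ζ * Complex.exp (θ * I))) =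
        fun θ : ℝ => (starRingEnd ℂ) (p (ζ * Complex.exp (θ * I))) := by
      funext θ
      exact hpq _ (hcirc θ)
    rw [h3] at h1
    have h4 := h1.unique h2
    rw [map_mul, Complex.conj_I] at h4
    have h5 : y * I = -((starRingEnd ℂ) x) * I := by rw [hy, h4, hx]; ring
    exact mul_right_cancel₀ Complex.I_ne_zero h5
  -- tangency
  have hρz : ρ z = 0 := hpar ζ hζ
  have htan : (grad ρ z).re * x.im = (grad ρ z).im * x.re := by
    have h6 : HasFDerivAt ρ (fderiv ℝ ρ z) ((fun θ : ℝ => p (ζ * Complex.exp (θ * I))) 0) := by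
      simpa using (hρ z).hasFDerivAt
    have h7 := h6.comp_hasDerivAt (0 : ℝ) (circle_hasDerivAt hp)
    have h8 : (ρ ∘ fun θ : ℝ => p (ζ * Complex.exp (θ * I))) = fun _ => (0 : ℝ) := by
      funext θ
      exact hpar _ (hcirc θ)
    rw [h8] at h7
    have h9 := h7.unique (hasDerivAt_const (0 : ℝ) (0 : ℝ))
    rw [fderiv_eq_grad, ← hx] at h9
    simp at h9
    linarith
  have hg := grad_ne_zero (hgrad z hρz)
  have hb := hbc z hρz
  set g := grad ρ z with hgdef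
  obtain ⟨μ, hμ⟩ := exists_mu hg htan
  have e1 : q ζ = (starRingEnd ℂ) z := hpq ζ hζ
  have e2 : deriv (sh G) (q ζ) = (starRingEnd ℂ) (deriv G z) := by
    rw [deriv_sh hG, e1, Complex.conj_conj]
  have e2' : sh G (q ζ) = (starRingEnd ℂ) (G z) := by rw [sh, e1, Complex.conj_conj]
  have e3 : deriv G z * x - (starRingEnd ℂ) (deriv G z) * y =
      ((2 * μ * (deriv G z * g).re : ℝ) : ℂ) := by
    have : deriv G z * x - (starRingEnd ℂ) (deriv G z) * y =
        μ * (deriv G z * g + (starRingEnd ℂ) (deriv G z * g)) := by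
      rw [hyx, hμ, map_mul, map_mul, Complex.conj_ofReal]; ring
    rw [this, Complex.add_conj]
    push_cast
    ring
  have e4 : G z + (starRingEnd ℂ) (G z) = ((2 * (G z).re : ℝ) : ℂ) := Complex.add_conj _
  have e5 : x * y = -((μ ^ 2 * ‖g‖ ^ 2 : ℝ) : ℂ) := by
    have : g * (starRingEnd ℂ) g = ((‖g‖ ^ 2 : ℝ) : ℂ) := by
      rw [Complex.mul_conj, Complex.normSq_eq_norm_sq]
    rw [hyx, hμ, map_mul, Complex.conj_ofReal]
    push_cast at this ⊢
    linear_combination -(μ : ℂ) ^ 2 * this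
  have key : (deriv G z * x - (starRingEnd ℂ) (deriv G z) * y) ^ 2 =
      (-(σ : ℂ) ^ 2) * (x * y) * (G z + (starRingEnd ℂ) (G z)) ^ 2 := by
    rw [e3, e4, e5, hb]
    push_cast
    ring
  rw [e2, e2']
  have h10 : ((deriv G z * deriv p ζ - (starRingEnd ℂ) (deriv G z) * deriv q ζ) ^ 2) * ζ ^ 2 =
      ((-(σ : ℂ) ^ 2) * (deriv p ζ * deriv q ζ) * (G z + (starRingEnd ℂ) (G z)) ^ 2) * ζ ^ 2 := by
    rw [hx, hy] at key
    linear_combination key
  exact mul_right_cancel₀ (pow_ne_zero 2 hζ0) h10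

/-- Points of the unit circle accumulate at `1`. -/
theorem circle_frequently {P : ℂ → Prop} (h : ∀ ζ : ℂ, ‖ζ‖ = 1 → P ζ) :
    ∃ᶠ ζ in 𝓝[≠] (1 : ℂ), P ζ := by
  have h2 : HasDerivAt (fun θ : ℝ => Complex.exp ((θ : ℂ) * I)) I 0 := by
    have h2 : HasDerivAt (fun θ : ℝ => ((θ : ℂ) * I)) (I) 0 := by
      simpa using (Complex.ofRealCLM.hasDerivAt (x := (0 : ℝ))).mul_const I
    simpa using h2.cexp
  have h3 := h2.tendsto_nhdsNE Complex.I_ne_zero
  simp only [Complex.ofReal_zero, zero_mul, Complex.exp_zero] at h3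
  apply h3.frequently
  apply Eventually.frequently
  exact Eventually.of_forall fun θ => h _ (Complex.norm_exp_ofReal_mul_I θ)

/-- The reflection identity off the exceptional sets. -/
theorem reflect_of_circle {p q : ℂ → ℂ} {F₁ F₂ : Set ℂ} (h1 : IsClosed F₁) (h1c : F₁.Countable)
    (h2 : IsClosed F₂) (h2c : F₂.Countable) (u1 : ∀ ζ ∈ F₁, ‖ζ‖ ≠ 1) (u2 : ∀ ζ ∈ F₂, ‖ζ‖ ≠ 1)
    (hp : DifferentiableOn ℂ p F₁ᶜ) (hq : DifferentiableOn ℂ q F₂ᶜ)
    (hpq : ∀ ζ : ℂ, ‖ζ‖ = 1 → q ζ = (starRingEnd ℂ) (p ζ)) :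
    ∀ z, z ≠ 0 → z ∉ F₂ → RR z ∉ F₁ → q z = (starRingEnd ℂ) (p (RR z)) := by
  set N : Set ℂ := F₂ ∪ ({0} ∪ RR '' F₁) with hN
  have hNc : N.Countable := h2c.union ((countable_singleton 0).union (h1c.image _))
  have hmem : ∀ z, z ∈ Nᶜ → z ≠ 0 ∧ z ∉ F₂ ∧ RR z ∉ F₁ := by
    intro z hz
    refine ⟨fun h => hz (Or.inr (Or.inl h)), fun h => hz (Or.inl h), fun h => hz (Or.inr (Or.inr
      ⟨RR z, h, RR_RR z⟩))⟩
  have aq : AnalyticOnNhd ℂ q Nᶜ := by
    intro z hz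
    exact hq.analyticAt (h2.isOpen_compl.mem_nhds (hmem z hz).2.1)
  have ap : AnalyticOnNhd ℂ (fun z => (starRingEnd ℂ) (p (RR z))) Nᶜ := by
    intro z hz
    rw [Complex.analyticAt_iff_eventually_differentiableAt]
    obtain ⟨hz0, -, hR⟩ := hmem z hz
    filter_upwards [isOpen_ne.mem_nhds hz0,
      (RR_continuousAt hz0).eventually (h1.isOpen_compl.mem_nhds hR)] with w hw1 hw2
    exact (refl_hasDerivAt hw1
      (hp.differentiableAt (h1.isOpen_compl.mem_nhds hw2))).differentiableAt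
  have h1mem : (1 : ℂ) ∈ Nᶜ := by
    rintro (h | h | ⟨w, hw, hw1⟩)
    · exact u2 1 h (by simp)
    · exact one_ne_zero h
    · have : w = 1 := by rw [← RR_RR w, hw1, RR_unit (by simp)]
      exact u1 w hw (by rw [this]; simp)
  have key := aq.eqOn_of_preconnected_of_frequently_eq ap (preconn_compl hNc) h1mem
    (circle_frequently fun ζ hζ => by
      rw [hpq ζ hζ, RR_unit hζ])
  intro z hz0 hz2 hzR
  apply key
  rintro (h | h | ⟨w, hw, hw1⟩)
  · exact hz2 h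
  · exact hz0 h
  · apply hzR
    rw [← hw1, RR_RR]; exact hw

/-- If both extend everywhere, then `p` is constant. -/
theorem all_regular {p q : ℂ → ℂ} {F : Set ℂ} (hF : F.Countable)
    (hrefl : ∀ z, z ≠ 0 → z ∉ F → RR z ∉ F → q z = (starRingEnd ℂ) (p (RR z)))
    (hp : ∀ x, ∃ g : ℂ → ℂ, AnalyticAt ℂ g x ∧ ∀ᶠ z in 𝓝 x, z ∉ F → g z = p z)
    (hq : ∀ x, ∃ g : ℂ → ℂ, AnalyticAt ℂ g x ∧ ∀ᶠ z in 𝓝 x, z ∉ F → g z = q z) :
    ∃ c, ∀ z, z ∉ F → p z = c := by
  have hP : ∀ x, AnalyticAt ℂ (ext F p) x ∧ ∀ᶠ z in 𝓝 x, z ∉ F → ext F p z = p z := by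
    intro x
    obtain ⟨g, hg, hgp⟩ := hp x
    have h := ext_eventuallyEq hF hg hgp
    refine ⟨hg.congr h.symm, ?_⟩
    filter_upwards [h, hgp] with y h1 h2 h3
    rw [h1, h2 h3]
  have hQ : ∀ x, AnalyticAt ℂ (ext F q) x ∧ ∀ᶠ z in 𝓝 x, z ∉ F → ext F q z = q z := by
    intro x
    obtain ⟨g, hg, hgp⟩ := hq x
    have h := ext_eventuallyEq hF hg hgp
    refine ⟨hg.congr h.symm, ?_⟩
    filter_upwards [h, hgp] with y h1 h2 h3
    rw [h1, h2 h3]
  set P := ext F p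
  set Q := ext F q
  have hPd : Differentiable ℂ P := fun x => (hP x).1.differentiableAt
  have hQd : Differentiable ℂ Q := fun x => (hQ x).1.differentiableAt
  have hPp : ∀ z, z ∉ F → P z = p z := fun z hz => (hP z).2.self_of_nhds hz
  have hQq : ∀ z, z ∉ F → Q z = q z := fun z hz => (hQ z).2.self_of_nhds hz
  have hR : ∀ z, z ≠ 0 → Q z = (starRingEnd ℂ) (P (RR z)) := by
    intro z hz
    have hS : (F ∪ RR '' F).Countable := hF.union (hF.image _)
    have hne := neBot_compl hS z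
    have t1 : Tendsto (fun w => (starRingEnd ℂ) (P (RR w))) (𝓝[(F ∪ RR '' F)ᶜ] z)
        (𝓝 ((starRingEnd ℂ) (P (RR z)))) :=
      ((Complex.continuous_conj.tendsto _).comp
        ((hPd (RR z)).continuousAt.tendsto.comp (RR_continuousAt hz).tendsto)).mono_left
        nhdsWithin_le_nhds
    have t2 : Tendsto Q (𝓝[(F ∪ RR '' F)ᶜ] z) (𝓝 (Q z)) :=
      (hQd z).continuousAt.tendsto.mono_left nhdsWithin_le_nhds
    refine tendsto_nhds_unique t2 (t1.congr' ?_)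
    rw [Filter.EventuallyEq, eventually_nhdsWithin_iff]
    filter_upwards [isOpen_ne.mem_nhds hz] with w hw0 hw
    have hwF : w ∉ F := fun h1 => hw (Or.inl h1)
    have hRwF : RR w ∉ F := fun h1 => hw (Or.inr ⟨RR w, h1, RR_RR w⟩)
    rw [hPp _ hRwF, hQq _ hwF, hrefl w hw0 hwF hRwF]
  have hbd : IsBounded (range P) := by
    obtain ⟨C, hC⟩ := ((isCompact_closedBall (0 : ℂ) 1).image hPd.continuous).isBounded.exists_norm_le
    obtain ⟨C', hC'⟩ := ((isCompact_closedBall (0 : ℂ) 1).image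
      hQd.continuous).isBounded.exists_norm_le
    rw [isBounded_iff_forall_norm_le]
    refine ⟨max C C', ?_⟩
    rintro _ ⟨z, rfl⟩
    by_cases hz : ‖z‖ ≤ 1
    · exact (hC _ ⟨z, by simpa using hz, rfl⟩).trans (le_max_left _ _)
    · push Not at hz
      have hz0 : z ≠ 0 := by rintro rfl; simp at hz; linarith
      have h1 : ‖P z‖ = ‖Q (RR z)‖ := by
        rw [hR (RR z) (RR_ne hz0), RR_RR, RCLike.norm_conj]
      rw [h1]
      refine (hC' _ ⟨RR z, ?_, rfl⟩).trans (le_max_right _ _)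
      rw [mem_closedBall, dist_zero_right, RR_norm]
      exact inv_le_one_of_one_le₀ hz.le
  have hconst := hPd.apply_eq_apply_of_bounded hbd
  exact ⟨P 0, fun z hz => by rw [← hPp z hz]; exact hconst z 0⟩

/-- The power form. -/
theorem power_form {G p q : ℂ → ℂ} {κ c c₀ : ℂ} {F : Set ℂ} (h : Data G p q κ F)
    (hcc : (starRingEnd ℂ) c = -c)
    (hprod : ∀ z, z ∉ F → (G (p z) + c) * (sh G (q z) - c) = c₀) (hc₀ : c₀ ≠ 0)
    (hprod' : ∀ z, z ∉ F → deriv G (p z) * deriv (sh G) (q z) = -(κ * c₀)) :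
    ∃ (a z₀ : ℂ) (D : ℕ), 1 ≤ D ∧ a ≠ 0 ∧ ∀ z, G z + c = a * (z - z₀) ^ D := by
  obtain ⟨w₀, hw₀⟩ := h.hnc
  have hsG := sh_differentiable h.hG
  have hsGd : Differentiable ℂ (deriv (sh G)) := by
    rw [deriv_sh' h.hG]; exact sh_differentiable h.hGd
  have hws : deriv (sh G) ((starRingEnd ℂ) w₀) ≠ 0 := by
    rw [deriv_sh h.hG, Complex.conj_conj]; simpa using hw₀
  set T : ℂ → ℂ := fun z => G z + c with hT
  have hTd : Differentiable ℂ T := h.hG.add_const c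
  have hTder : deriv T = deriv G := by funext z; simp [hT]
  have hTdd : Differentiable ℂ (deriv T) := by rw [hTder]; exact h.hGd
  have hsT : sh T = fun z => sh G z - c := by
    funext z
    simp only [sh, hT, map_add, hcc]
    ring
  have hsTder : deriv (sh T) = deriv (sh G) := by rw [hsT]; funext z; simp
  have hsTd : Differentiable ℂ (sh T) := sh_differentiable hTd
  have hsTdd : Differentiable ℂ (deriv (sh T)) := by rw [hsTder]; exact hsGd
  have hssT : sh (sh T) = T := by funext z; simp [sh]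
  have hμ : -(κ * c₀) ≠ 0 := neg_ne_zero.2 (mul_ne_zero h.hκ hc₀)
  by_cases hA : ∃ x g, AnalyticAt ℂ p x ∧ AnalyticAt ℂ g x ∧ g x = 0 ∧
      ∀ᶠ z in 𝓝 x, z ∉ F → g z ≠ 0 ∧ q z = (starRingEnd ℂ) w₀ + (g z)⁻¹
  · obtain ⟨x, g, hpx, hgx, hg0, hgq⟩ := hA
    exact pole_lemma hTd hTdd h.hF hpx hgx hg0 hgq
      (fun z hz => by rw [hsT]; exact hprod z hz)
      (fun z hz => by rw [hTder, hsTder]; exact hprod' z hz) hc₀ hμ
  by_cases hB : ∃ x g, AnalyticAt ℂ q x ∧ AnalyticAt ℂ g x ∧ g x = 0 ∧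
      ∀ᶠ z in 𝓝 x, z ∉ F → g z ≠ 0 ∧ p z = w₀ + (g z)⁻¹
  · obtain ⟨x, g, hqx, hgx, hg0, hgq⟩ := hB
    obtain ⟨a, z₀, D, hD, ha, hall⟩ := pole_lemma (T := sh T) (p := q) (q := p) hsTd hsTdd h.hF
      hqx hgx hg0 hgq
      (fun z hz => by rw [hssT, hsT, mul_comm]; exact hprod z hz)
      (fun z hz => by rw [hssT, hTder, hsTder, mul_comm]; exact hprod' z hz) hc₀ hμ
    refine ⟨(starRingEnd ℂ) a, (starRingEnd ℂ) z₀, D, hD, by simpa using ha, fun z => ?_⟩
    have h1 : T z = (starRingEnd ℂ) (sh T ((starRingEnd ℂ) z)) := by simp [sh]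
    show T z = _
    rw [h1, hall]
    simp
  · exfalso
    have hq : ∀ x, ∃ g : ℂ → ℂ, AnalyticAt ℂ g x ∧ ∀ᶠ z in 𝓝 x, z ∉ F → g z = q z := by
      intro x
      rcases h.hreg x with hx | hx
      · rcases dichotomy h.hF h.hFc h.hG h.hGd hsG hsGd hx
          (Eventually.of_forall fun z hz => (h.hq z hz).differentiableAt)
          (Eventually.of_forall fun z hz => h.hrel z hz) hws with h1 | ⟨g, h1, h2, h3⟩
        · exact h1
        · exact absurd ⟨x, g, hx, h1, h2, h3⟩ hA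
      · exact ⟨q, hx, Eventually.of_forall fun _ _ => rfl⟩
    have hp : ∀ x, ∃ g : ℂ → ℂ, AnalyticAt ℂ g x ∧ ∀ᶠ z in 𝓝 x, z ∉ F → g z = p z := by
      intro x
      rcases h.hreg x with hx | hx
      · exact ⟨p, hx, Eventually.of_forall fun _ _ => rfl⟩
      · rcases dichotomy (G := sh G) (H := G) (p := q) (q := p) (κ := κ) h.hF h.hFc hsG hsGd
          h.hG h.hGd hx
          (Eventually.of_forall fun z hz => (h.hp z hz).differentiableAt)
          (Eventually.of_forall fun z hz => by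
            have := h.hrel z hz
            linear_combination this) hw₀ with h1 | ⟨g, h1, h2, h3⟩
        · exact h1
        · exact absurd ⟨x, g, hx, h1, h2, h3⟩ hB
    obtain ⟨c', hc'⟩ := all_regular h.hF h.hrefl hp hq
    obtain ⟨z, hz⟩ : ∃ z, z ∉ F := by
      have : (Fᶜ).Nonempty := (h.hF.dense_compl ℝ).nonempty
      exact this
    have h1 : p =ᶠ[𝓝 z] fun _ => c' := by
      filter_upwards [h.hFc.isOpen_compl.mem_nhds hz] with w hw using hc' w hw
    have h2 : deriv p z = 0 := by rw [h1.deriv_eq, deriv_const]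
    exact (E_alg (h.hrel z hz) (h.hD z hz)).2.2.1 h2

/-- The final theorem. -/
theorem csfinal (ρ : ℂ → ℝ) (hρ : ContDiff ℝ ((⊤ : ℕ∞) : WithTop ℕ∞) ρ)
    (hgrad : ∀ z : ℂ, ρ z = 0 → fderiv ℝ ρ z ≠ 0)
    (hbdd : Bornology.IsBounded {z : ℂ | ρ z < 0})
    (hconn : IsConnected {z : ℂ | ρ z < 0})
    (p q : ℂ → ℂ) (F₁ F₂ : Set ℂ) (h1 : IsClosed F₁) (h1c : F₁.Countable)
    (h2 : IsClosed F₂) (h2c : F₂.Countable) (hdisj : Disjoint F₁ F₂)
    (u1 : ∀ ζ ∈ F₁, ‖ζ‖ ≠ 1) (u2 : ∀ ζ ∈ F₂, ‖ζ‖ ≠ 1)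
    (hp : DifferentiableOn ℂ p F₁ᶜ) (hq : DifferentiableOn ℂ q F₂ᶜ)
    (hpq : ∀ ζ : ℂ, ‖ζ‖ = 1 → q ζ = (starRingEnd ℂ) (p ζ))
    (hpar : {z : ℂ | ρ z = 0} = p '' sphere 0 1)
    (U : ℂ → ℝ) (hU : InnerProductSpace.HarmonicOnNhd U Set.univ) (σ : ℝ)
    (hbc : ∀ z : ℂ, ρ z = 0 →
      fderiv ℝ U z (((fderiv ℝ ρ z 1 : ℝ) : ℂ) + ((fderiv ℝ ρ z Complex.I : ℝ) : ℂ) * Complex.I)
        = σ * U z *
          ‖((fderiv ℝ ρ z 1 : ℝ) : ℂ) + ((fderiv ℝ ρ z Complex.I : ℝ) : ℂ) * Complex.I‖)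
    (hne : ∃ z w : ℂ, ρ z < 0 ∧ ρ w < 0 ∧ U z ≠ U w) :
    ∃ (z₀ : ℂ) (r : ℝ), {z : ℂ | ρ z < 0} = Metric.ball z₀ r := by
  obtain ⟨G, hGa, hGU⟩ := hU.exists_analyticOnNhd_univ_re_eq
  have hG : Differentiable ℂ G := fun z => (hGa z (mem_univ z)).differentiableAt
  have hGd := deriv_differentiable hG
  have hρd : Differentiable ℝ ρ := hρ.differentiable (by simp)
  have hbc' : ∀ z, ρ z = 0 → (deriv G z * grad ρ z).re = σ * (G z).re * ‖grad ρ z‖ := by
    intro z hz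
    have h1 := hbc z hz
    rw [← hGU, fderiv_re hG] at h1
    exact h1
  obtain ⟨z₁, w₁, hz₁, hw₁, hzw⟩ := hne
  rw [← hGU] at hzw
  have hzw' : (G z₁).re ≠ (G w₁).re := hzw
  have hpar1 : ∀ ζ : ℂ, ‖ζ‖ = 1 → ρ (p ζ) = 0 := by
    intro ζ hζ
    have : p ζ ∈ {z : ℂ | ρ z = 0} := by
      rw [hpar]; exact ⟨ζ, by simpa using hζ, rfl⟩
    exact this
  have hpar2 : ∀ z, ρ z = 0 → ∃ ζ : ℂ, ‖ζ‖ = 1 ∧ p ζ = z := by
    intro z hz
    have : z ∈ p '' sphere 0 1 := by rw [← hpar]; exact hz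
    obtain ⟨ζ, hζ, rfl⟩ := this
    exact ⟨ζ, by simpa using hζ, rfl⟩
  have hsG := sh_differentiable hG
  have hsGd : Differentiable ℂ (deriv (sh G)) := by
    rw [deriv_sh' hG]; exact sh_differentiable hGd
  set F := F₁ ∪ F₂ with hF
  have hFcl : IsClosed F := h1.union h2
  have hFc : F.Countable := h1c.union h2c
  have hpa : ∀ z, z ∉ F₁ → AnalyticAt ℂ p z := fun z hz =>
    hp.analyticAt (h1.isOpen_compl.mem_nhds hz)
  have hqa : ∀ z, z ∉ F₂ → AnalyticAt ℂ q z := fun z hz =>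
    hq.analyticAt (h2.isOpen_compl.mem_nhds hz)
  have hunit : ∀ ζ : ℂ, ‖ζ‖ = 1 → ζ ∉ F := by
    rintro ζ hζ (h | h)
    · exact u1 ζ h hζ
    · exact u2 ζ h hζ
  have mem1 : (1 : ℂ) ∈ Fᶜ := hunit 1 (by simp)
  have n1 : ∀ z, z ∈ Fᶜ → z ∉ F₁ := fun z hz h => hz (Or.inl h)
  have n2 : ∀ z, z ∈ Fᶜ → z ∉ F₂ := fun z hz h => hz (Or.inr h)
  have a1 : AnalyticOnNhd ℂ (fun z => G (p z)) Fᶜ := fun z hz =>
    (hG.analyticAt (p z)).fun_comp (hpa z (n1 z hz))
  have a2 : AnalyticOnNhd ℂ (fun z => sh G (q z)) Fᶜ := fun z hz =>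
    (hsG.analyticAt (q z)).fun_comp (hqa z (n2 z hz))
  have a3 : AnalyticOnNhd ℂ (fun z => deriv G (p z)) Fᶜ := fun z hz =>
    (hGd.analyticAt (p z)).fun_comp (hpa z (n1 z hz))
  have a4 : AnalyticOnNhd ℂ (fun z => deriv (sh G) (q z)) Fᶜ := fun z hz =>
    (hsGd.analyticAt (q z)).fun_comp (hqa z (n2 z hz))
  have a5 : AnalyticOnNhd ℂ (deriv p) Fᶜ := fun z hz => (hpa z (n1 z hz)).deriv
  have a6 : AnalyticOnNhd ℂ (deriv q) Fᶜ := fun z hz => (hqa z (n2 z hz)).deriv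
  have aD : AnalyticOnNhd ℂ (fun z => deriv G (p z) * deriv p z -
      deriv (sh G) (q z) * deriv q z) Fᶜ := (a3.mul a5).sub (a4.mul a6)
  have hpre := preconn_compl hFc
  -- the relation
  have hrel : ∀ z, z ∉ F → (deriv G (p z) * deriv p z - deriv (sh G) (q z) * deriv q z) ^ 2 =
      (-(σ : ℂ) ^ 2) * (deriv p z * deriv q z) * (G (p z) + sh G (q z)) ^ 2 := by
    have aL : AnalyticOnNhd ℂ (fun z => (deriv G (p z) * deriv p z -
      deriv (sh G) (q z) * deriv q z) ^ 2) Fᶜ := aD.pow 2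
    have aR : AnalyticOnNhd ℂ (fun z => (-(σ : ℂ) ^ 2) * (deriv p z * deriv q z) *
        (G (p z) + sh G (q z)) ^ 2) Fᶜ :=
      ((analyticOnNhd_const (v := (-(σ : ℂ) ^ 2))).mul (a5.mul a6)).mul ((a1.add a2).pow 2)
    have := aL.eqOn_of_preconnected_of_frequently_eq aR hpre mem1
      (circle_frequently fun ζ hζ => rel_circle hρd hgrad hG hbc' hpar1 hpq hζ
        (hpa ζ (n1 ζ (hunit ζ hζ))).differentiableAt
        (hqa ζ (n2 ζ (hunit ζ hζ))).differentiableAt)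
    intro z hz
    exact this hz
  have hGne : ∃ w₀, deriv G w₀ ≠ 0 := by
    by_contra hcon
    push Not at hcon
    exact hzw' (by rw [is_const_of_deriv_eq_zero hG hcon z₁ w₁])
  -- `D` does not vanish identically
  have hDne : ¬ EqOn (fun z => deriv G (p z) * deriv p z -
      deriv (sh G) (q z) * deriv q z) 0 Fᶜ := by
    intro hD0
    have hd : ∀ z ∈ Fᶜ, HasDerivAt (fun z => G (p z) - sh G (q z))
        (deriv G (p z) * deriv p z - deriv (sh G) (q z) * deriv q z) z := by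
      intro z hz
      exact ((hG (p z)).hasDerivAt.comp z (hpa z (n1 z hz)).differentiableAt.hasDerivAt).sub
        ((hsG (q z)).hasDerivAt.comp z (hqa z (n2 z hz)).differentiableAt.hasDerivAt)
    obtain ⟨b, hb⟩ := hFcl.isOpen_compl.exists_is_const_of_deriv_eq_zero hpre
      (f := fun z => G (p z) - sh G (q z))
      (fun z hz => (hd z hz).differentiableAt.differentiableWithinAt)
      (fun z hz => by rw [(hd z hz).deriv]; exact hD0 hz)
    have him : ∀ z, ρ z = 0 → (G z).im = b.im / 2 := by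
      intro z hz
      obtain ⟨ζ, hζ, rfl⟩ := hpar2 z hz
      have h3 := hb ζ (hunit ζ hζ)
      simp only [sh] at h3
      rw [hpq ζ hζ, Complex.conj_conj] at h3
      have h4 := congrArg Complex.im h3
      simp at h4
      linarith
    exact hzw' (by rw [im_const hρ.continuous hbdd ⟨z₁, hz₁⟩ hG him z₁ w₁])
  have hσ : -(σ : ℂ) ^ 2 ≠ 0 := by
    intro h0
    apply hDne
    intro z hz
    have := hrel z hz
    rw [h0, zero_mul, zero_mul] at this
    exact pow_eq_zero_iff two_ne_zero |>.1 this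
  -- the enlarged exceptional set
  set Z : Set ℂ := {z | z ∈ Fᶜ ∧ deriv G (p z) * deriv p z -
      deriv (sh G) (q z) * deriv q z = 0} with hZ
  have hZc : Z.Countable := by
    apply countable_zeros (f := fun z => deriv G (p z) * deriv p z -
      deriv (sh G) (q z) * deriv q z)
    intro x hx
    rcases (aD x hx).eventually_eq_zero_or_eventually_ne_zero with h | h
    · exfalso
      exact hDne (aD.eqOn_zero_of_preconnected_of_eventuallyEq_zero hpre hx h)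
    · exact h
  set F' := F ∪ Z with hF'
  have hF'c : F'.Countable := hFc.union hZc
  have hF'cl : IsClosed F' := by
    rw [← isOpen_compl_iff, isOpen_iff_mem_nhds]
    intro x hx
    have hxF : x ∈ Fᶜ := fun h => hx (Or.inl h)
    have hxD : deriv G (p x) * deriv p x - deriv (sh G) (q x) * deriv q x ≠ 0 :=
      fun h => hx (Or.inr ⟨hxF, h⟩)
    filter_upwards [hFcl.isOpen_compl.mem_nhds hxF,
      (aD x hxF).continuousAt.eventually_ne hxD] with y hy1 hy2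
    rintro (h | h)
    · exact hy1 h
    · exact hy2 h.2
  have hFF : ∀ z, z ∉ F' → z ∉ F := fun z hz h => hz (Or.inl h)
  have hdata : Data G p q (-(σ : ℂ) ^ 2) F' :=
    { hG := hG
      hGd := hGd
      hF := hF'c
      hFc := hF'cl
      hreg := fun x => by
        by_cases hx : x ∈ F₁
        · right
          exact hqa x (fun h => (Set.disjoint_left.1 hdisj) hx h)
        · left
          exact hpa x hx
      hp := fun z hz => hpa z (n1 z (hFF z hz))
      hq := fun z hz => hqa z (n2 z (hFF z hz))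
      hrel := fun z hz => hrel z (hFF z hz)
      hD := fun z hz h => hz (Or.inr ⟨hFF z hz, h⟩)
      hκ := hσ
      hrefl := fun z hz0 hz hRz => reflect_of_circle h1 h1c h2 h2c u1 u2 hp hq hpq z hz0
        (n2 z (hFF z hz)) (n1 _ (hFF _ hRz))
      hnc := hGne }
  obtain ⟨c, hcc, hEc⟩ := EE_const hdata
  obtain ⟨c₀, hprod, hprod'⟩ := prod_const hdata hEc
  -- the product relation on the circle
  have hcirc : ∀ ζ : ℂ, ‖ζ‖ = 1 → (G (p ζ) + c) * (starRingEnd ℂ) (G (p ζ) + c) = c₀ := by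
    intro ζ hζ
    have hne := neBot_compl hF'c ζ
    have hζF : ζ ∈ Fᶜ := hunit ζ hζ
    have t1 : Tendsto (fun z => (G (p z) + c) * (sh G (q z) - c)) (𝓝[F'ᶜ] ζ)
        (𝓝 ((G (p ζ) + c) * (sh G (q ζ) - c))) :=
      (((a1 ζ hζF).continuousAt.tendsto.add_const c).mul
        ((a2 ζ hζF).continuousAt.tendsto.sub_const c)).mono_left nhdsWithin_le_nhds
    have h3 : (G (p ζ) + c) * (sh G (q ζ) - c) = c₀ := by
      refine tendsto_nhds_unique t1 (tendsto_const_nhds.congr' ?_)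
      rw [Filter.EventuallyEq, eventually_nhdsWithin_iff]
      exact Eventually.of_forall fun z hz => (hprod z hz).symm
    rw [← h3, map_add, hcc]
    congr 1
    rw [sh, hpq ζ hζ, Complex.conj_conj]
    ring
  have hcirc2 : ∀ ζ : ℂ, ‖ζ‖ = 1 → ((‖G (p ζ) + c‖ ^ 2 : ℝ) : ℂ) = c₀ := by
    intro ζ hζ
    rw [← hcirc ζ hζ, Complex.mul_conj, Complex.normSq_eq_norm_sq]
  have hcre : c.re = 0 := by
    have := congrArg Complex.re hcc
    simp at this
    linarith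
  have hc₀ : c₀ ≠ 0 := by
    intro h0
    have h3 := re_zero_inside hρ.continuous hbdd hG (by
      intro z hz
      obtain ⟨ζ, hζ, rfl⟩ := hpar2 z hz
      have h4 := hcirc2 ζ hζ
      rw [h0] at h4
      have h5 : ‖G (p ζ) + c‖ ^ 2 = 0 := by exact_mod_cast h4
      have h6 : G (p ζ) + c = 0 := by
        rw [← norm_eq_zero]
        exact pow_eq_zero_iff two_ne_zero |>.1 h5
      have h7 := congrArg Complex.re h6
      simp [hcre] at h7
      exact h7)
    exact hzw' (by rw [h3 z₁ hz₁, h3 w₁ hw₁])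
  obtain ⟨a, z₀, D, hD1, ha, hform⟩ := power_form hdata hcc hprod hc₀ (hprod' hc₀)
  -- the modulus on the circle
  have hmod : ∀ ζ : ℂ, ‖ζ‖ = 1 → ‖p ζ - z₀‖ = ‖p 1 - z₀‖ := by
    intro ζ hζ
    have h3 := hcirc2 ζ hζ
    have h4 := hcirc2 1 (by simp)
    rw [← h4] at h3
    have h5 : ‖G (p ζ) + c‖ ^ 2 = ‖G (p 1) + c‖ ^ 2 := by exact_mod_cast h3
    have h6 : ‖G (p ζ) + c‖ = ‖G (p 1) + c‖ :=
      (pow_left_inj₀ (norm_nonneg _) (norm_nonneg _) two_ne_zero).1 h5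
    rw [hform, hform, norm_mul, norm_mul, norm_pow, norm_pow] at h6
    have h7 := mul_left_cancel₀ (norm_ne_zero_iff.2 ha) h6
    exact (pow_left_inj₀ (norm_nonneg _) (norm_nonneg _) (by omega)).1 h7
  have hr : 0 < ‖p 1 - z₀‖ := by
    rw [norm_pos_iff]
    intro h0
    apply hc₀
    rw [← hcirc2 1 (by simp), hform, h0, zero_pow (by omega), mul_zero, norm_zero]
    simp
  refine ⟨z₀, ‖p 1 - z₀‖, ball_of_circle' hρ.continuous hbdd hconn hr ?_⟩
  intro z hz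
  obtain ⟨ζ, hζ, rfl⟩ := hpar2 z hz
  exact hmod ζ hζ

end Pool.Agent.Stek
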