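import Pool.Agent.Lib.MP_bd8415_an.CsSeg

/-!
# The local analysis near a point where one of the two coordinates is regular
-/

open Complex Metric Set Filter Topology

namespace Pool.Agent.Stek

theorem quad_bound {a b c X : ℂ} {A B C b0 : ℝ} (h : (a - b * X) ^ 2 = c * X) (ha : ‖a‖ ≤ A)
    (hb : ‖b‖ ≤ B) (hb0 : b0 ≤ ‖b‖) (h0 : 0 < b0) (hc : ‖c‖ ≤ C) :
    ‖X‖ ≤ 1 + (C + 2 * A * B + A ^ 2) / b0 ^ 2 := by
  have hA : 0 ≤ A := (norm_nonneg _).trans ha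
  have hB : 0 ≤ B := (norm_nonneg _).trans hb
  have hC : 0 ≤ C := (norm_nonneg _).trans hc
  have hX : 0 ≤ ‖X‖ := norm_nonneg X
  have e : (b * X) ^ 2 = c * X + 2 * (a * b) * X - a ^ 2 := by linear_combination h
  have h1 : (‖b‖ * ‖X‖) ^ 2 ≤ C * ‖X‖ + 2 * (A * B) * ‖X‖ + A ^ 2 := by
    calc (‖b‖ * ‖X‖) ^ 2 = ‖(b * X) ^ 2‖ := by rw [norm_pow, norm_mul]
      _ = ‖c * X + 2 * (a * b) * X - a ^ 2‖ := by rw [e]
      _ ≤ ‖c * X + 2 * (a * b) * X‖ + ‖a ^ 2‖ := norm_sub_le _ _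
      _ ≤ ‖c * X‖ + ‖2 * (a * b) * X‖ + ‖a ^ 2‖ := by gcongr; exact norm_add_le _ _
      _ = ‖c‖ * ‖X‖ + 2 * (‖a‖ * ‖b‖) * ‖X‖ + ‖a‖ ^ 2 := by
        simp only [norm_mul, norm_pow, Complex.norm_ofNat]
      _ ≤ C * ‖X‖ + 2 * (A * B) * ‖X‖ + A ^ 2 := by gcongr
  have h2 : b0 ^ 2 * ‖X‖ ^ 2 ≤ (‖b‖ * ‖X‖) ^ 2 := by
    rw [mul_pow]
    gcongr
  by_cases hX1 : ‖X‖ ≤ 1
  · have : 0 ≤ (C + 2 * A * B + A ^ 2) / b0 ^ 2 := by positivity
    linarith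
  · push Not at hX1
    have h3 : b0 ^ 2 * ‖X‖ ^ 2 ≤ (C + 2 * A * B + A ^ 2) * ‖X‖ := by
      have : A ^ 2 ≤ A ^ 2 * ‖X‖ := by nlinarith [sq_nonneg A]
      nlinarith
    have h4 : b0 ^ 2 * ‖X‖ ≤ C + 2 * A * B + A ^ 2 := by
      have hXp : 0 < ‖X‖ := by linarith
      have : (b0 ^ 2 * ‖X‖) * ‖X‖ ≤ (C + 2 * A * B + A ^ 2) * ‖X‖ := by nlinarith
      exact le_of_mul_le_mul_right this hXp
    have h5 : ‖X‖ ≤ (C + 2 * A * B + A ^ 2) / b0 ^ 2 := by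
      rw [le_div_iff₀ (by positivity)]; linarith
    linarith

theorem E_alg {A B P Q h k κ : ℂ} (hrel : (A * P - B * Q) ^ 2 = κ * (P * Q) * (h + k) ^ 2)
    (hD : A * P - B * Q ≠ 0) :
    ((A * P * k + h * (B * Q)) / (A * P - B * Q) + h) ^ 2 * κ * Q = A ^ 2 * P ∧
    ((A * P * k + h * (B * Q)) / (A * P - B * Q) - k) ^ 2 * κ * P = B ^ 2 * Q ∧
    P ≠ 0 ∧ Q ≠ 0 := by
  have hD2 : κ * (P * Q) * (h + k) ^ 2 ≠ 0 := by
    rw [← hrel]; exact pow_ne_zero 2 hD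
  have hκ : κ ≠ 0 := by rintro rfl; simp at hD2
  have hP : P ≠ 0 := by rintro rfl; simp at hD2
  have hQ : Q ≠ 0 := by rintro rfl; simp at hD2
  have hs : h + k ≠ 0 := by intro h0; rw [h0] at hD2; simp at hD2
  set E := (A * P * k + h * (B * Q)) / (A * P - B * Q) with hE
  have e1 : (E + h) * (A * P - B * Q) = A * P * (h + k) := by
    rw [hE, add_mul, div_mul_cancel₀ _ hD]; ring
  have e2 : (E - k) * (A * P - B * Q) = B * Q * (h + k) := by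
    rw [hE, sub_mul, div_mul_cancel₀ _ hD]; ring
  refine ⟨?_, ?_, hP, hQ⟩
  · have h3 : ((E + h) ^ 2 * κ * Q) * (P * (h + k) ^ 2) = (A ^ 2 * P) * (P * (h + k) ^ 2) := by
      calc ((E + h) ^ 2 * κ * Q) * (P * (h + k) ^ 2)
          = (E + h) ^ 2 * (κ * (P * Q) * (h + k) ^ 2) := by ring
        _ = (E + h) ^ 2 * (A * P - B * Q) ^ 2 := by rw [hrel]
        _ = ((E + h) * (A * P - B * Q)) ^ 2 := by ring
        _ = (A * P * (h + k)) ^ 2 := by rw [e1]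
        _ = _ := by ring
    exact mul_right_cancel₀ (mul_ne_zero hP (pow_ne_zero 2 hs)) h3
  · have h3 : ((E - k) ^ 2 * κ * P) * (Q * (h + k) ^ 2) = (B ^ 2 * Q) * (Q * (h + k) ^ 2) := by
      calc ((E - k) ^ 2 * κ * P) * (Q * (h + k) ^ 2)
          = (E - k) ^ 2 * (κ * (P * Q) * (h + k) ^ 2) := by ring
        _ = (E - k) ^ 2 * (A * P - B * Q) ^ 2 := by rw [hrel]
        _ = ((E - k) * (A * P - B * Q)) ^ 2 := by ring
        _ = (B * Q * (h + k)) ^ 2 := by rw [e2]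
        _ = _ := by ring
    exact mul_right_cancel₀ (mul_ne_zero hQ (pow_ne_zero 2 hs)) h3

theorem eventually_norm_le {f : ℂ → ℂ} {x : ℂ} (h : ContinuousAt f x) :
    ∀ᶠ z in 𝓝 x, ‖f z‖ ≤ ‖f x‖ + 1 := by
  have := h.norm.eventually (ge_mem_nhds (show ‖f x‖ < ‖f x‖ + 1 by linarith))
  exact this

theorem slope_bound {G H p q : ℂ → ℂ} {κ : ℂ} {F : Set ℂ} {x w₀ : ℂ} (hG : Differentiable ℂ G)
    (hGd : Differentiable ℂ (deriv G))
    (hH : Differentiable ℂ H) (hHd : Differentiable ℂ (deriv H)) (hp : AnalyticAt ℂ p x)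
    (hrel : ∀ᶠ z in 𝓝 x, z ∉ F → (deriv G (p z) * deriv p z - deriv H (q z) * deriv q z) ^ 2 =
      κ * (deriv p z * deriv q z) * (G (p z) + H (q z)) ^ 2)
    (hw : deriv H w₀ ≠ 0) :
    ∃ ε > 0, ∃ K ≥ 0, ∀ᶠ z in 𝓝 x, z ∉ F → ‖q z - w₀‖ ≤ ε → ‖deriv q z‖ ≤ K := by
  have hw' : 0 < ‖deriv H w₀‖ := norm_pos_iff.2 hw
  have h1 : ∀ᶠ w in 𝓝 w₀, ‖deriv H w₀‖ / 2 ≤ ‖deriv H w‖ ∧ ‖deriv H w‖ ≤ ‖deriv H w₀‖ + 1 ∧
      ‖H w‖ ≤ ‖H w₀‖ + 1 := by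
    have a1 := (hHd w₀).continuousAt.norm.eventually
      (le_mem_nhds (show ‖deriv H w₀‖ / 2 < ‖deriv H w₀‖ by linarith))
    filter_upwards [a1, eventually_norm_le (hHd w₀).continuousAt,
      eventually_norm_le (hH w₀).continuousAt] with w b1 b2 b3 using ⟨b1, b2, b3⟩
  obtain ⟨ε, hε, hball⟩ := Metric.nhds_basis_closedBall.eventually_iff.1 h1
  set A := (‖deriv G (p x)‖ + 1) * (‖deriv p x‖ + 1) with hA
  set B := ‖deriv H w₀‖ + 1 with hB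
  set C := ‖κ‖ * (‖deriv p x‖ + 1) * ((‖G (p x)‖ + 1) + (‖H w₀‖ + 1)) ^ 2 with hC
  refine ⟨ε, hε, 1 + (C + 2 * A * B + A ^ 2) / (‖deriv H w₀‖ / 2) ^ 2, by positivity, ?_⟩
  have c1 := eventually_norm_le (f := fun z => deriv G (p z)) (x := x)
    ((hGd (p x)).continuousAt.comp hp.continuousAt)
  have c2 := eventually_norm_le (f := fun z => G (p z)) (x := x)
    ((hG (p x)).continuousAt.comp hp.continuousAt)
  have c3 := eventually_norm_le (f := deriv p) (x := x) hp.deriv.continuousAt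
  filter_upwards [hrel, c1, c2, c3] with z hz d1 d2 d3 hzF hqz
  obtain ⟨e1, e2, e3⟩ := hball (show q z ∈ closedBall w₀ ε by
    rw [mem_closedBall, dist_eq_norm]; exact hqz)
  apply quad_bound (a := deriv G (p z) * deriv p z) (b := deriv H (q z))
    (c := κ * deriv p z * (G (p z) + H (q z)) ^ 2)
  · rw [hz hzF]; ring
  · rw [norm_mul, hA]; gcongr
  · exact e2
  · exact e1
  · positivity
  · rw [norm_mul, norm_mul, norm_pow, hC]
    gcongr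
    exact (norm_add_le _ _).trans (add_le_add d2 e3)

/-- The dichotomy: `q` extends analytically or has a pole. -/
theorem dichotomy {G H p q : ℂ → ℂ} {κ : ℂ} {F : Set ℂ} {x w₀ : ℂ} (hF : F.Countable)
    (hFc : IsClosed F) (hG : Differentiable ℂ G) (hGd : Differentiable ℂ (deriv G))
    (hH : Differentiable ℂ H) (hHd : Differentiable ℂ (deriv H)) (hp : AnalyticAt ℂ p x)
    (hq : ∀ᶠ z in 𝓝 x, z ∉ F → DifferentiableAt ℂ q z)
    (hrel : ∀ᶠ z in 𝓝 x, z ∉ F → (deriv G (p z) * deriv p z - deriv H (q z) * deriv q z) ^ 2 =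
      κ * (deriv p z * deriv q z) * (G (p z) + H (q z)) ^ 2)
    (hw : deriv H w₀ ≠ 0) :
    (∃ g : ℂ → ℂ, AnalyticAt ℂ g x ∧ ∀ᶠ z in 𝓝 x, z ∉ F → g z = q z) ∨
    (∃ g : ℂ → ℂ, AnalyticAt ℂ g x ∧ g x = 0 ∧
      ∀ᶠ z in 𝓝 x, z ∉ F → g z ≠ 0 ∧ q z = w₀ + (g z)⁻¹) := by
  by_cases hA : ∃ δ > 0, ∀ᶠ z in 𝓝 x, z ∉ F → δ ≤ ‖q z - w₀‖
  · obtain ⟨δ, hδ, hev⟩ := hA
    obtain ⟨r, hr, hball⟩ := Metric.eventually_nhds_iff_ball.1 (hev.and hq)
    have hne : ∀ z ∈ ball x r \ F, q z - w₀ ≠ 0 := by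
      intro z hz h0
      have := (hball z hz.1).1 hz.2
      rw [h0, norm_zero] at this
      linarith
    have hd : DifferentiableOn ℂ (fun z => (q z - w₀)⁻¹) (ball x r \ F) := by
      intro z hz
      exact (((hball z hz.1).2 hz.2).sub_const w₀).inv (hne z hz) |>.differentiableWithinAt
    obtain ⟨h1, h2⟩ := ext_analyticAt hF hFc isOpen_ball hd (M := δ⁻¹) (by
      intro z hz
      rw [norm_inv]
      exact inv_anti₀ hδ ((hball z hz.1).1 hz.2)) x (mem_ball_self hr)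
    set g := ext F (fun z => (q z - w₀)⁻¹) with hg
    have h3 : ∀ᶠ z in 𝓝 x, z ∉ F → g z ≠ 0 ∧ q z = w₀ + (g z)⁻¹ := by
      filter_upwards [h2, ball_mem_nhds x hr] with z h4 h5 h6
      rw [h4 h6]
      exact ⟨inv_ne_zero (hne z ⟨h5, h6⟩), by rw [inv_inv]; ring⟩
    by_cases hgx : g x = 0
    · right
      exact ⟨g, h1, hgx, h3⟩
    · left
      refine ⟨fun z => w₀ + (g z)⁻¹, analyticAt_const.add (h1.inv hgx), ?_⟩
      filter_upwards [h3] with z h4 h5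
      rw [(h4 h5).2]
  · push Not at hA
    left
    obtain ⟨ε, hε, K, hK, hev⟩ := slope_bound hG hGd hH hHd hp hrel hw
    obtain ⟨r, hr, hball⟩ := Metric.eventually_nhds_iff_ball.1 (hev.and hq)
    obtain ⟨ρ, hρ0, hρr, hρK⟩ : ∃ ρ > 0, ρ ≤ r ∧ K * (2 * ρ) < ε / 2 := by
      refine ⟨min r (ε / (8 * (K + 1))), lt_min hr (by positivity), min_le_left _ _, ?_⟩
      have h1 : min r (ε / (8 * (K + 1))) ≤ ε / (8 * (K + 1)) := min_le_right _ _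
      have h2 : K * (2 * min r (ε / (8 * (K + 1)))) ≤ K * (2 * (ε / (8 * (K + 1)))) := by gcongr
      have h3 : K * (2 * (ε / (8 * (K + 1)))) = (K / (K + 1)) * (ε / 4) := by
        field_simp; ring
      have h4 : K / (K + 1) ≤ 1 := by rw [div_le_one (by positivity)]; linarith
      have h5 : (K / (K + 1)) * (ε / 4) ≤ 1 * (ε / 4) := by gcongr
      linarith
    have hfr := hA (ε / 2) (by positivity)
    obtain ⟨a, ⟨haF, haq⟩, ha⟩ := (hfr.and_eventually (ball_mem_nhds x hρ0)).exists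
    have hb := seg_bound hF (q := q) (x := x) (w₀ := w₀) (ρ := ρ) (ε := ε) (K := K)
      (fun z hz => (hball z (ball_subset_ball hρr hz.1)).2 hz.2)
      (fun z hz => (hball z (ball_subset_ball hρr hz.1)).1 hz.2) hK hρK ⟨ha, haF⟩ haq.le
    obtain ⟨h1, h2⟩ := ext_analyticAt hF hFc (isOpen_ball (x := x) (ε := ρ)) (f := q)
      (fun z hz => ((hball z (ball_subset_ball hρr hz.1)).2 hz.2).differentiableWithinAt)
      (M := ε + ‖w₀‖) (by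
        intro z hz
        calc ‖q z‖ = ‖(q z - w₀) + w₀‖ := by ring_nf
          _ ≤ ‖q z - w₀‖ + ‖w₀‖ := norm_add_le _ _
          _ ≤ ε + ‖w₀‖ := by gcongr; exact hb z hz) x (mem_ball_self hρ0)
    exact ⟨_, h1, h2⟩

end Pool.Agent.Stek
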