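import Pool.Agent.Lib.MP_bd8415_an.CsConst

/-!
# The product relation
-/

open Complex Metric Set Filter Topology

namespace Pool.Agent.Stek

theorem preconn_compl {F : Set ℂ} (hF : F.Countable) : IsPreconnected Fᶜ :=
  (hF.isConnected_compl_of_one_lt_rank (by rw [Complex.rank_real_complex]; norm_num)).isPreconnected

/-- `(G(p) + c)(G^#(q) - c)` is constant. -/
theorem prod_const {G p q : ℂ → ℂ} {κ : ℂ} {F : Set ℂ} (h : Data G p q κ F) {c : ℂ}
    (hc : ∀ z, z ∉ F → EE G (sh G) p q z = c) :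
    ∃ c₀ : ℂ, (∀ z, z ∉ F → (G (p z) + c) * (sh G (q z) - c) = c₀) ∧
      (c₀ ≠ 0 → ∀ z, z ∉ F → deriv G (p z) * deriv (sh G) (q z) = -(κ * c₀)) := by
  have hsG := sh_differentiable h.hG
  have hd : ∀ z, z ∉ F → HasDerivAt (fun z => (G (p z) + c) * (sh G (q z) - c))
      (deriv G (p z) * deriv p z * (sh G (q z) - c) +
        (G (p z) + c) * (deriv (sh G) (q z) * deriv q z)) z := by
    intro z hz
    have a1 : HasDerivAt (fun z => G (p z)) (deriv G (p z) * deriv p z) z :=
      (h.hG (p z)).hasDerivAt.comp z (h.hp z hz).differentiableAt.hasDerivAt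
    have a2 : HasDerivAt (fun z => sh G (q z)) (deriv (sh G) (q z) * deriv q z) z :=
      (hsG (q z)).hasDerivAt.comp z (h.hq z hz).differentiableAt.hasDerivAt
    exact (a1.add_const c).mul (a2.sub_const c)
  have hz0 : ∀ z, z ∉ F → deriv G (p z) * deriv p z * (sh G (q z) - c) +
        (G (p z) + c) * (deriv (sh G) (q z) * deriv q z) = 0 := by
    intro z hz
    have h1 := hc z hz
    unfold EE at h1
    rw [div_eq_iff (h.hD z hz)] at h1
    linear_combination h1
  obtain ⟨c₀, hc₀⟩ := h.hFc.isOpen_compl.exists_is_const_of_deriv_eq_zero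
    (preconn_compl h.hF) (f := fun z => (G (p z) + c) * (sh G (q z) - c))
    (fun z hz => (hd z hz).differentiableAt.differentiableWithinAt)
    (fun z hz => by rw [(hd z hz).deriv]; exact hz0 z hz)
  refine ⟨c₀, fun z hz => hc₀ z hz, fun hne z hz => ?_⟩
  have e1 := hz0 z hz
  have e2 := hc₀ z hz
  have e3 := h.hrel z hz
  have e4 := h.hD z hz
  set A := deriv G (p z)
  set B := deriv (sh G) (q z)
  set P := deriv p z
  set Q := deriv q z
  set u := G (p z)
  set v := sh G (q z)
  have hP : P ≠ 0 := (E_alg e3 e4).2.2.1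
  have hQ : Q ≠ 0 := (E_alg e3 e4).2.2.2
  have hs : u + v ≠ 0 := by
    intro h0
    rw [h0] at e3
    apply e4
    exact pow_eq_zero_iff two_ne_zero |>.1 (by rw [e3]; ring)
  have hv : v - c ≠ 0 := by
    intro h0; rw [h0, mul_zero] at e2; exact hne e2.symm
  -- `(B Q)² = κ P Q (v - c)²`
  have e5 : (B * Q) ^ 2 = κ * (P * Q) * (v - c) ^ 2 := by
    have e6 : ((B * Q) ^ 2) * (u + v) ^ 2 = (κ * (P * Q) * (v - c) ^ 2) * (u + v) ^ 2 := by
      have e7 : (A * P - B * Q) * (v - c) = -(B * Q) * (u + v) := by linear_combination e1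
      calc ((B * Q) ^ 2) * (u + v) ^ 2 = ((A * P - B * Q) * (v - c)) ^ 2 := by rw [e7]; ring
        _ = (A * P - B * Q) ^ 2 * (v - c) ^ 2 := by ring
        _ = _ := by rw [e3]; ring
    exact mul_right_cancel₀ (pow_ne_zero 2 hs) e6
  have e8 : (A * B) * (P * Q * (v - c)) = (-(κ * c₀)) * (P * Q * (v - c)) := by
    calc (A * B) * (P * Q * (v - c)) = (A * P * (v - c)) * (B * Q) := by ring
      _ = -((u + c) * (B * Q)) * (B * Q) := by
        have : A * P * (v - c) = -((u + c) * (B * Q)) := by linear_combination e1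
        rw [this]
      _ = -(u + c) * (B * Q) ^ 2 := by ring
      _ = -(u + c) * (κ * (P * Q) * (v - c) ^ 2) := by rw [e5]
      _ = -(κ * ((u + c) * (v - c))) * (P * Q * (v - c)) := by ring
      _ = _ := by rw [e2]
  exact mul_right_cancel₀ (mul_ne_zero (mul_ne_zero hP hQ) hv) e8

end Pool.Agent.Stek
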