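import Pool.Agent.Lib.MP_bd8415_an.CsTop

/-!
# Generic segments and the continuity method
-/

open Complex Metric Set Filter Topology

namespace Pool.Agent.Stek

theorem line_null (a v : ℂ) : MeasureTheory.volume {y : ℂ | ∃ s : ℝ, y = a + s * v} = 0 := by
  have h1 : (AffineSubspace.mk' a (Submodule.span ℝ {v})) ≠ ⊤ := by
    intro h
    have h2 : (AffineSubspace.mk' a (Submodule.span ℝ {v})).direction = ⊤ := by
      rw [h, AffineSubspace.direction_top]
    rw [AffineSubspace.direction_mk'] at h2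
    have h3 : Module.finrank ℝ (Submodule.span ℝ {v}) ≤ 1 := by
      simpa using finrank_span_le_card (R := ℝ) ({v} : Set ℂ)
    have h4 : Module.finrank ℝ (Submodule.span ℝ {v}) = 2 := by
      rw [h2, finrank_top, Complex.finrank_real_complex]
    omega
  have h5 := MeasureTheory.Measure.addHaar_affineSubspace MeasureTheory.volume _ h1
  refine MeasureTheory.measure_mono_null ?_ h5
  rintro y ⟨s, rfl⟩
  simp only [SetLike.mem_coe, AffineSubspace.mem_mk']
  rw [vsub_eq_sub, add_sub_cancel_left, Submodule.mem_span_singleton]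
  exact ⟨s, by simp⟩

theorem dense_segment {F : Set ℂ} (hF : F.Countable) {a : ℂ} (ha : a ∉ F) :
    Dense {y : ℂ | ∀ t ∈ Icc (0 : ℝ) 1, a + t * (y - a) ∉ F} := by
  apply MeasureTheory.Measure.dense_of_ae (μ := MeasureTheory.volume)
  rw [MeasureTheory.ae_iff]
  have h1 : MeasureTheory.volume (⋃ f ∈ F, {y : ℂ | ∃ s : ℝ, y = a + s * (f - a)}) = 0 := by
    rw [MeasureTheory.measure_biUnion_null_iff hF]
    intro f _
    exact line_null a (f - a)
  refine MeasureTheory.measure_mono_null ?_ h1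
  intro y hy
  simp only [mem_ofPred_eq, not_forall, not_not] at hy
  obtain ⟨t, ht, hf⟩ := hy
  simp only [mem_iUnion]
  refine ⟨_, hf, t⁻¹, ?_⟩
  have ht0 : (t : ℂ) ≠ 0 := by
    intro h
    apply ha
    rw [h] at hf
    simpa using hf
  rw [add_sub_cancel_left]
  push_cast
  field_simp
  ring

/-- Continuity method along generic segments. -/
theorem seg_bound {F : Set ℂ} (hF : F.Countable) {q : ℂ → ℂ} {x w₀ : ℂ} {ρ ε K : ℝ}
    (hq : ∀ z ∈ ball x ρ \ F, DifferentiableAt ℂ q z)
    (hK : ∀ z ∈ ball x ρ \ F, ‖q z - w₀‖ ≤ ε → ‖deriv q z‖ ≤ K) (hK0 : 0 ≤ K)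
    (hsmall : K * (2 * ρ) < ε / 2) {a : ℂ} (ha : a ∈ ball x ρ \ F) (haq : ‖q a - w₀‖ ≤ ε / 2) :
    ∀ y ∈ ball x ρ \ F, ‖q y - w₀‖ ≤ ε := by
  have good : ∀ y ∈ ball x ρ, (∀ t ∈ Icc (0 : ℝ) 1, a + t * (y - a) ∉ F) → ‖q y - w₀‖ ≤ ε := by
    intro y hy hyF
    have hseg : ∀ t ∈ Icc (0 : ℝ) 1, a + t * (y - a) ∈ ball x ρ \ F := by
      intro t ht
      refine ⟨?_, hyF t ht⟩
      have h1 := (convex_ball x ρ) ha.1 hy (sub_nonneg.2 ht.2) ht.1 (by ring)
      have h2 : (1 - t) • a + t • y = a + t * (y - a) := by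
        rw [Complex.real_smul, Complex.real_smul]; push_cast; ring
      rwa [h2] at h1
    have hγ : ∀ t : ℝ, HasDerivAt (fun t : ℝ => a + t * (y - a)) (y - a) t := by
      intro t
      have h1 := (Complex.ofRealCLM.hasDerivAt (x := t)).mul_const (y - a)
      simpa using h1.const_add a
    have hf : ∀ t ∈ Icc (0 : ℝ) 1, HasDerivAt (fun t : ℝ => q (a + t * (y - a)) - w₀)
        (deriv q (a + t * (y - a)) * (y - a)) t := by
      intro t ht
      have h1 := (hq _ (hseg t ht)).hasDerivAt.scomp t (hγ t)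
      have h2 := h1.sub_const w₀
      simpa [mul_comm, Function.comp_def] using h2
    have hya : ‖y - a‖ ≤ 2 * ρ := by
      have h1 : dist y x < ρ := hy
      have h2 : dist a x < ρ := ha.1
      have h3 := dist_triangle_right y a x
      rw [dist_eq_norm] at h3
      linarith
    have key := image_norm_le_of_norm_deriv_right_lt_deriv_boundary'
      (f := fun t : ℝ => q (a + t * (y - a)) - w₀)
      (f' := fun t => deriv q (a + t * (y - a)) * (y - a)) (a := 0) (b := 1)
      (fun t ht => (hf t ht).continuousAt.continuousWithinAt)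
      (fun t ht => (hf t ⟨ht.1, ht.2.le⟩).hasDerivWithinAt)
      (B := fun t => ε / 2 + ε / 2 * t) (B' := fun _ => ε / 2)
      (by simpa using haq) (by fun_prop)
      (fun t _ => by
        have := ((hasDerivAt_id t).const_mul (ε / 2)).const_add (ε / 2)
        simpa using this.hasDerivWithinAt)
      (by
        intro t ht heq
        have hle : ‖q (a + t * (y - a)) - w₀‖ ≤ ε := by
          rw [heq]
          have hε : 0 < ε := by
            have : 0 ≤ ρ := dist_nonneg.trans (le_of_lt (show dist y x < ρ from hy))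
            have h9 : 0 ≤ K * (2 * ρ) := by positivity
            linarith
          nlinarith [ht.2]
        have h1 := hK _ (hseg t ⟨ht.1, ht.2.le⟩) hle
        rw [norm_mul]
        calc ‖deriv q (a + t * (y - a))‖ * ‖y - a‖ ≤ K * (2 * ρ) := by gcongr
          _ < ε / 2 := hsmall)
    have := key (x := 1) ⟨zero_le_one, le_rfl⟩
    simp only [Complex.ofReal_one, one_mul, add_sub_cancel, mul_one] at this
    linarith
  intro y hy
  have hd := dense_segment hF ha.2
  have hne : (𝓝[{y : ℂ | ∀ t ∈ Icc (0 : ℝ) 1, a + t * (y - a) ∉ F}] y).NeBot := by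
    rw [← mem_closure_iff_nhdsWithin_neBot]
    exact hd y
  have h1 : Tendsto (fun z => ‖q z - w₀‖) (𝓝[{y : ℂ | ∀ t ∈ Icc (0 : ℝ) 1,
      a + t * (y - a) ∉ F}] y) (𝓝 ‖q y - w₀‖) := by
    have := (hq y hy).continuousAt.tendsto
    exact ((this.sub_const w₀).norm).mono_left nhdsWithin_le_nhds
  apply le_of_tendsto h1
  rw [eventually_nhdsWithin_iff]
  filter_upwards [isOpen_ball.mem_nhds hy.1] with z hz hzF
  exact good z hz hzF

end Pool.Agent.Stek
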