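import Pool.Agent.Lib.MP_bd8415_an.Scale

/-!
# The two scale inequalities for the holomorphic completion
-/

open Complex Metric Set Filter Topology Bornology

namespace Pool.Agent.Stek

/-- The boundary relation continued to `ζ ≠ 0`: here `c` are the Laurent coefficients of the
parametrisation, `d` those of its conjugate. -/
def Rel (G : ℂ → ℂ) (σ : ℝ) (M : ℕ) (c d : ℤ → ℂ) : Prop :=
  ∀ ζ : ℂ, ζ ≠ 0 →
    (lau M (fun j => (j : ℂ) * c j) ζ * deriv G (lau M c ζ) -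
      lau M (fun j => (j : ℂ) * d j) ζ *
        (starRingEnd ℂ) (deriv G ((starRingEnd ℂ) (lau M d ζ)))) ^ 2 =
    -((σ : ℂ) ^ 2 * (lau M (fun j => (j : ℂ) * c j) ζ * lau M (fun j => (j : ℂ) * d j) ζ) *
      (G (lau M c ζ) + (starRingEnd ℂ) (G ((starRingEnd ℂ) (lau M d ζ)))) ^ 2)

theorem rel_div {p1 q1 A A' B B' : ℂ} {σ : ℝ} (hp : p1 ≠ 0)
    (h : (p1 * A' - q1 * B') ^ 2 = -((σ : ℂ) ^ 2 * (p1 * q1) * (A + B) ^ 2)) :
    (A' - q1 / p1 * B') ^ 2 = -((σ : ℂ) ^ 2 * (q1 / p1) * (A + B) ^ 2) := by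
  have e1 : A' - q1 / p1 * B' = (p1 * A' - q1 * B') / p1 := by field_simp
  rw [e1, div_pow, h]
  field_simp

theorem scale_eventually {G : ℂ → ℂ} (hG : Differentiable ℂ G) {σ : ℝ} (hσ : σ ≠ 0)
    (M : ℕ) (hM : 1 ≤ M) (c d y : ℤ → ℂ) (α : ℂ) (ha : c M ≠ 0) (hα : ‖α‖ < 1)
    (hd : ∀ j, d j = α * c j + y j) (e : ℤ) (heM : e < M) (heM' : -(M : ℤ) ≤ e)
    (he0 : ¬ (M : ℤ) ∣ e) (hye : y e ≠ 0)
    (hy : ∀ j, e < j → j ≤ M → (j : ℂ) * y j = 0) (hrel : Rel G σ M c d) :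
    ∃ a₂ C : ℝ, 0 < a₂ ∧ a₂ < 1 ∧ 0 < C ∧ ∀ᶠ t in cobounded ℂ,
      ‖G (c M * t ^ M)‖ ≤ C * ‖c M * t ^ M‖ ^ 2 * mx G (a₂ * ‖c M * t ^ M‖) ∧
      ‖G (c M * t ^ M)‖ ≤ C * (‖deriv G (c M * t ^ M)‖ + mx G (a₂ * ‖c M * t ^ M‖)) := by
  have hGc := hG.continuous
  set α₁ : ℝ := (‖α‖ + 1) / 2 with hα₁
  have hα0 : 0 ≤ ‖α‖ := norm_nonneg _
  have hα₁1 : ‖α‖ < α₁ := by rw [hα₁]; linarith
  have hα₁2 : α₁ < 1 := by rw [hα₁]; linarith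
  have hα₁0 : 0 < α₁ := by rw [hα₁]; linarith
  set a₂ : ℝ := (α₁ + 1) / 2 with ha₂
  have ha₂1 : α₁ < a₂ := by rw [ha₂]; linarith
  have ha₂2 : a₂ < 1 := by rw [ha₂]; linarith
  have ha₂0 : 0 < a₂ := by linarith
  have hMC : (M : ℂ) ≠ 0 := by exact_mod_cast (by omega : M ≠ 0)
  have heC : (e : ℂ) ≠ 0 := by
    intro h
    have : e = 0 := by exact_mod_cast h
    exact he0 (this ▸ dvd_zero _)
  set ω : ℂ := exp (2 * Real.pi * I / M) with hωdef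
  have hprim : IsPrimitiveRoot ω M := Complex.isPrimitiveRoot_exp M (by omega)
  have hωM : ω ^ M = 1 := hprim.pow_eq_one
  have hωe : ω ^ e ≠ 1 := by
    intro h
    exact he0 ((hprim.zpow_eq_one_iff_dvd e).1 h)
  set κ : ℂ := (e : ℂ) * y e / (M * c M) with hκ
  have hκ0 : κ ≠ 0 := div_ne_zero (mul_ne_zero heC hye) (mul_ne_zero hMC ha)
  obtain ⟨Y₁, -, hF1, -, hL1⟩ := branch_facts M hM c d y α ha hd e heM heM' hy hα₁1
    (ω := 1) (one_pow M)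
  obtain ⟨Y₂, -, hF2, -, hL2⟩ := branch_facts M hM c d y α ha hd e heM heM' hy hα₁1 hωM
  rw [one_zpow, mul_one] at hL1
  rw [← hκ] at hL1 hL2
  set m₁ : ℂ → ℂ := fun t => lau M (fun j => (j : ℂ) * d j) (t * Y₁ t) /
        lau M (fun j => (j : ℂ) * c j) (t * Y₁ t) with hm₁
  set m₂ : ℂ → ℂ := fun t => lau M (fun j => (j : ℂ) * d j) (t * Y₂ t) /
        lau M (fun j => (j : ℂ) * c j) (t * Y₂ t) with hm₂
  have hne : ∀ᶠ t : ℂ in cobounded ℂ, t ≠ 0 := eventually_ne_cobounded 0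
  have hbig : ∀ R : ℝ, ∀ᶠ t : ℂ in cobounded ℂ, R ≤ ‖t‖ := fun R =>
    (tendsto_norm_cobounded_atTop).eventually_ge_atTop R
  -- lower bound of the difference
  have hdiff : ∀ᶠ t in cobounded ℂ, ‖κ * (1 - ω ^ e)‖ / 2 * ‖t ^ (e - M)‖ ≤ ‖m₁ t - m₂ t‖ := by
    have h1 : Tendsto (fun t => (m₁ t - α) / t ^ (e - (M : ℤ)) - (m₂ t - α) / t ^ (e - (M : ℤ)))
        (cobounded ℂ) (𝓝 (κ - κ * ω ^ e)) := hL1.sub hL2
    have h2 : κ - κ * ω ^ e = κ * (1 - ω ^ e) := by ring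
    rw [h2] at h1
    have h3 : 0 < ‖κ * (1 - ω ^ e)‖ :=
      norm_pos_iff.2 (mul_ne_zero hκ0 (sub_ne_zero.2 (Ne.symm hωe)))
    have h4 := h1.norm.eventually (lt_mem_nhds (show ‖κ * (1 - ω ^ e)‖ / 2 < ‖κ * (1 - ω ^ e)‖ by
      linarith))
    filter_upwards [h4, hne] with t h5 h6
    have h7 : (m₁ t - α) / t ^ (e - (M : ℤ)) - (m₂ t - α) / t ^ (e - (M : ℤ)) =
        (m₁ t - m₂ t) / t ^ (e - (M : ℤ)) := by ring
    rw [h7, norm_div, lt_div_iff₀ (norm_pos_iff.2 (zpow_ne_zero _ h6))] at h5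
    exact h5.le
  -- upper bounds
  have hup : ∀ (m : ℂ → ℂ) (l : ℂ), Tendsto (fun t => (m t - α) / t ^ (e - (M : ℤ)))
      (cobounded ℂ) (𝓝 l) → ∀ᶠ t in cobounded ℂ,
        ‖m t - α‖ ≤ (‖l‖ + 1) * ‖t ^ (e - (M : ℤ))‖ := by
    intro m l h
    have h4 := h.norm.eventually (gt_mem_nhds (show ‖l‖ < ‖l‖ + 1 by linarith))
    filter_upwards [h4, hne] with t h5 h6
    rw [norm_div, div_lt_iff₀ (norm_pos_iff.2 (zpow_ne_zero _ h6))] at h5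
    exact h5.le
  have hup1 := hup m₁ κ hL1
  have hup2 := hup m₂ _ hL2
  set K : ℝ := max (‖κ‖ + 1) (‖κ * ω ^ e‖ + 1) with hK
  have hK0 : 0 < K := lt_of_lt_of_le (by positivity) (le_max_left _ _)
  have hsmall : ∀ᶠ t : ℂ in cobounded ℂ, ‖t ^ (e - (M : ℤ))‖ ≤ 1 / K := by
    have h1 := (tendsto_zpow_neg (k := e - M) (by omega)).norm
    rw [norm_zero] at h1
    filter_upwards [h1.eventually (gt_mem_nhds (show (0 : ℝ) < 1 / K by positivity))] with t ht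
      using ht.le
  set K₀ : ℝ := ‖α‖ + 1 with hK₀
  have hm1K : ∀ᶠ t in cobounded ℂ, ‖m₁ t‖ ≤ K₀ ∧ ‖m₁ t - α‖ ≤ K * ‖t ^ (e - (M : ℤ))‖ := by
    filter_upwards [hup1, hsmall] with t h1 h2
    have h3 : ‖m₁ t - α‖ ≤ K * ‖t ^ (e - (M : ℤ))‖ :=
      h1.trans (mul_le_mul_of_nonneg_right (le_max_left _ _) (norm_nonneg _))
    refine ⟨?_, h3⟩
    have h4 : K * ‖t ^ (e - (M : ℤ))‖ ≤ 1 := by
      calc K * ‖t ^ (e - (M : ℤ))‖ ≤ K * (1 / K) := mul_le_mul_of_nonneg_left h2 hK0.le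
        _ = 1 := by field_simp
    calc ‖m₁ t‖ = ‖α + (m₁ t - α)‖ := by ring_nf
      _ ≤ ‖α‖ + ‖m₁ t - α‖ := norm_add_le _ _
      _ ≤ K₀ := by linarith
  have hm2K : ∀ᶠ t in cobounded ℂ, ‖m₂ t‖ ≤ K₀ ∧ ‖m₂ t - α‖ ≤ K * ‖t ^ (e - (M : ℤ))‖ := by
    filter_upwards [hup2, hsmall] with t h1 h2
    have h3 : ‖m₂ t - α‖ ≤ K * ‖t ^ (e - (M : ℤ))‖ :=
      h1.trans (mul_le_mul_of_nonneg_right (le_max_right _ _) (norm_nonneg _))
    refine ⟨?_, h3⟩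
    have h4 : K * ‖t ^ (e - (M : ℤ))‖ ≤ 1 := by
      calc K * ‖t ^ (e - (M : ℤ))‖ ≤ K * (1 / K) := mul_le_mul_of_nonneg_left h2 hK0.le
        _ = 1 := by field_simp
    calc ‖m₂ t‖ = ‖α + (m₂ t - α)‖ := by ring_nf
      _ ≤ ‖α‖ + ‖m₂ t - α‖ := norm_add_le _ _
      _ ≤ K₀ := by linarith
  -- bounds of the conjugate terms
  have hroom : ∀ᶠ t : ℂ in cobounded ℂ,
      α₁ * ‖c M * t ^ M‖ + 1 ≤ a₂ * ‖c M * t ^ M‖ := by
    filter_upwards [hbig (max 1 (1 / ((a₂ - α₁) * ‖c M‖)))] with t ht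
    have h1 : 1 ≤ ‖t‖ := (le_max_left _ _).trans ht
    have h2 : 1 / ((a₂ - α₁) * ‖c M‖) ≤ ‖t‖ := (le_max_right _ _).trans ht
    have h3 : ‖t‖ ≤ ‖t‖ ^ M := le_self_pow₀ h1 (by omega)
    have h4 : 0 < (a₂ - α₁) * ‖c M‖ := mul_pos (by linarith) (norm_pos_iff.2 ha)
    rw [div_le_iff₀ h4] at h2
    rw [norm_mul, norm_pow]
    nlinarith [mul_le_mul_of_nonneg_left h3 h4.le]
  have hconj : ∀ {w : ℂ} {r : ℝ}, ‖w‖ + 1 ≤ r →
      ‖(starRingEnd ℂ) (G ((starRingEnd ℂ) w))‖ ≤ mx G r ∧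
      ‖(starRingEnd ℂ) (deriv G ((starRingEnd ℂ) w))‖ ≤ mx G r := by
    intro w r hw
    rw [RCLike.norm_conj, RCLike.norm_conj]
    constructor
    · apply norm_le_mx hGc
      rw [RCLike.norm_conj]; linarith
    · have := norm_deriv_le_mx hG (z := (starRingEnd ℂ) w) (r := r) one_pos
        (by rw [RCLike.norm_conj]; exact hw)
      simpa using this
  have hσ' : 0 < |σ| := abs_pos.2 hσ
  set c₀ : ℝ := ‖κ * (1 - ω ^ e)‖ / 2 with hc₀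
  have hc₀0 : 0 < c₀ := by
    have : 0 < ‖κ * (1 - ω ^ e)‖ :=
      norm_pos_iff.2 (mul_ne_zero hκ0 (sub_ne_zero.2 (Ne.symm hωe)))
    positivity
  have hK₀0 : 0 < K₀ := by positivity
  set K₁ : ℝ := 2 * (1 + 4 * K₀ + |σ|) with hK₁
  have hK₁0 : 0 < K₁ := by positivity
  -- the fundamental inequality
  have hfund : ∀ᶠ t in cobounded ℂ, |σ| * (c₀ * ‖t ^ (e - (M : ℤ))‖) * ‖G (c M * t ^ M)‖ ≤
      K₁ * (‖m₁ t‖ + ‖m₂ t‖) * mx G (a₂ * ‖c M * t ^ M‖) := by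
    filter_upwards [hF1, hF2, hm1K, hm2K, hroom, hdiff] with t h1 h2 h3 h4 h5 h6
    obtain ⟨h1a, h1b, h1c, h1d⟩ := h1
    obtain ⟨h2a, h2b, h2c, h2d⟩ := h2
    have r1 := rel_div h1c (hrel _ h1a)
    have r2 := rel_div h2c (hrel _ h2a)
    rw [h1b] at r1
    rw [h2b] at r2
    obtain ⟨b1, b1'⟩ := hconj (show ‖lau M d (t * Y₁ t)‖ + 1 ≤ a₂ * ‖c M * t ^ M‖ by linarith)
    obtain ⟨b2, b2'⟩ := hconj (show ‖lau M d (t * Y₂ t)‖ + 1 ≤ a₂ * ‖c M * t ^ M‖ by linarith)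
    have := two_branch r1 r2 b1 b1' b2 b2' h3.1 h4.1
    refine le_trans ?_ this
    gcongr
  -- S1
  have hS1 : ∀ᶠ t in cobounded ℂ, ‖G (c M * t ^ M)‖ ≤
      (2 * K₁ * K₀ / (|σ| * c₀) / ‖c M‖ ^ 2) * ‖c M * t ^ M‖ ^ 2 *
        mx G (a₂ * ‖c M * t ^ M‖) := by
    filter_upwards [hfund, hm1K, hm2K, hbig 1, hne] with t h1 h2 h3 h4 h5
    have hb0 : 0 ≤ mx G (a₂ * ‖c M * t ^ M‖) := mx_nonneg hGc (by positivity)
    have h6 : ‖t ^ (e - (M : ℤ))‖ * ‖t‖ ^ (2 * M) ≥ 1 := by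
      rw [norm_zpow, ← zpow_natCast, ← zpow_add₀ (norm_ne_zero_iff.2 h5)]
      apply one_le_zpow₀ h4
      push_cast
      omega
    have h7 : |σ| * c₀ * ‖G (c M * t ^ M)‖ ≤
        2 * K₁ * K₀ * ‖t‖ ^ (2 * M) * mx G (a₂ * ‖c M * t ^ M‖) := by
      have h8 : |σ| * c₀ * ‖G (c M * t ^ M)‖ ≤
          (‖t ^ (e - (M : ℤ))‖ * ‖t‖ ^ (2 * M)) * (|σ| * c₀ * ‖G (c M * t ^ M)‖) := by
        have h9 : 0 ≤ |σ| * c₀ * ‖G (c M * t ^ M)‖ := by positivity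
        nlinarith
      calc |σ| * c₀ * ‖G (c M * t ^ M)‖ ≤
          (‖t ^ (e - (M : ℤ))‖ * ‖t‖ ^ (2 * M)) * (|σ| * c₀ * ‖G (c M * t ^ M)‖) := h8
        _ = ‖t‖ ^ (2 * M) * (|σ| * (c₀ * ‖t ^ (e - (M : ℤ))‖) * ‖G (c M * t ^ M)‖) := by ring
        _ ≤ ‖t‖ ^ (2 * M) * (K₁ * (‖m₁ t‖ + ‖m₂ t‖) * mx G (a₂ * ‖c M * t ^ M‖)) := by
          gcongr
        _ ≤ ‖t‖ ^ (2 * M) * (K₁ * (K₀ + K₀) * mx G (a₂ * ‖c M * t ^ M‖)) := by
          gcongr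
          · exact h2.1
          · exact h3.1
        _ = _ := by ring
    have h9 : ‖c M * t ^ M‖ ^ 2 = ‖c M‖ ^ 2 * ‖t‖ ^ (2 * M) := by
      rw [norm_mul, norm_pow]; ring
    have hcM : 0 < ‖c M‖ := norm_pos_iff.2 ha
    rw [h9]
    have h10 : 2 * K₁ * K₀ / (|σ| * c₀) / ‖c M‖ ^ 2 * (‖c M‖ ^ 2 * ‖t‖ ^ (2 * M)) *
        mx G (a₂ * ‖c M * t ^ M‖) =
        (2 * K₁ * K₀ * ‖t‖ ^ (2 * M) * mx G (a₂ * ‖c M * t ^ M‖)) / (|σ| * c₀) := by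
      field_simp
    rw [h10, le_div_iff₀ (by positivity)]
    linarith
  -- S2
  have hS2 : ∃ C₂ : ℝ, 0 < C₂ ∧ ∀ᶠ t in cobounded ℂ, ‖G (c M * t ^ M)‖ ≤
      C₂ * (‖deriv G (c M * t ^ M)‖ + mx G (a₂ * ‖c M * t ^ M‖)) := by
    by_cases hα00 : α = 0
    · refine ⟨2 * K₁ * K / (|σ| * c₀), by positivity, ?_⟩
      filter_upwards [hfund, hm1K, hm2K, hne] with t h1 h2 h3 h5
      have hb0 : 0 ≤ mx G (a₂ * ‖c M * t ^ M‖) := mx_nonneg hGc (by positivity)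
      have h6 : 0 < ‖t ^ (e - (M : ℤ))‖ := norm_pos_iff.2 (zpow_ne_zero _ h5)
      have h2' := h2.2
      have h3' := h3.2
      rw [hα00, sub_zero] at h2' h3'
      have h7 : |σ| * (c₀ * ‖t ^ (e - (M : ℤ))‖) * ‖G (c M * t ^ M)‖ ≤
          K₁ * (K * ‖t ^ (e - (M : ℤ))‖ + K * ‖t ^ (e - (M : ℤ))‖) *
            mx G (a₂ * ‖c M * t ^ M‖) := by
        refine h1.trans ?_
        gcongr
      have h8 : |σ| * c₀ * ‖G (c M * t ^ M)‖ ≤ 2 * K₁ * K * mx G (a₂ * ‖c M * t ^ M‖) := by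
        have h9 : ‖t ^ (e - (M : ℤ))‖ * (|σ| * c₀ * ‖G (c M * t ^ M)‖) ≤
            ‖t ^ (e - (M : ℤ))‖ * (2 * K₁ * K * mx G (a₂ * ‖c M * t ^ M‖)) := by
          nlinarith
        exact le_of_mul_le_mul_left h9 h6
      have h10 : ‖G (c M * t ^ M)‖ ≤
          2 * K₁ * K / (|σ| * c₀) * mx G (a₂ * ‖c M * t ^ M‖) := by
        have : 2 * K₁ * K / (|σ| * c₀) * mx G (a₂ * ‖c M * t ^ M‖) =
            (2 * K₁ * K * mx G (a₂ * ‖c M * t ^ M‖)) / (|σ| * c₀) := by ring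
        rw [this, le_div_iff₀ (by positivity)]
        linarith
      refine h10.trans ?_
      have : 0 ≤ 2 * K₁ * K / (|σ| * c₀) := by positivity
      have h11 := norm_nonneg (deriv G (c M * t ^ M))
      nlinarith
    · have hαpos : 0 < ‖α‖ := norm_pos_iff.2 hα00
      set s : ℝ := Real.sqrt (‖α‖ / 2) with hs
      have hs0 : 0 < s := Real.sqrt_pos.2 (by positivity)
      have hss : s ^ 2 = ‖α‖ / 2 := Real.sq_sqrt (by positivity)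
      refine ⟨(1 + (K₀ + |σ| * (1 + K₀))) / (|σ| * s), by positivity, ?_⟩
      have hlow : ∀ᶠ t in cobounded ℂ, ‖α‖ / 2 ≤ ‖m₁ t‖ := by
        have h1 := (tendsto_zpow_neg (k := e - M) (by omega)).norm
        rw [norm_zero] at h1
        filter_upwards [hm1K, h1.eventually
          (gt_mem_nhds (show (0 : ℝ) < ‖α‖ / 2 / K by positivity))] with t h2 h3
        have h4 : K * ‖t ^ (e - (M : ℤ))‖ ≤ ‖α‖ / 2 := by
          calc K * ‖t ^ (e - (M : ℤ))‖ ≤ K * (‖α‖ / 2 / K) :=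
                mul_le_mul_of_nonneg_left h3.le hK0.le
            _ = ‖α‖ / 2 := by field_simp
        have h5 : ‖α‖ ≤ ‖m₁ t‖ + ‖m₁ t - α‖ := by
          calc ‖α‖ = ‖m₁ t - (m₁ t - α)‖ := by ring_nf
            _ ≤ _ := norm_sub_le _ _
        linarith [h2.2]
      filter_upwards [hF1, hm1K, hroom, hlow] with t h1 h3 h5 h6
      obtain ⟨h1a, h1b, h1c, h1d⟩ := h1
      have r1 := rel_div h1c (hrel _ h1a)
      rw [h1b] at r1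
      obtain ⟨b1, b1'⟩ := hconj (show ‖lau M d (t * Y₁ t)‖ + 1 ≤ a₂ * ‖c M * t ^ M‖ by linarith)
      obtain ⟨τ, hτ1, hτ2⟩ := exists_tau r1
      set b := mx G (a₂ * ‖c M * t ^ M‖) with hb
      have hb0 : 0 ≤ b := mx_nonneg hGc (by positivity)
      have hτn : ‖τ‖ ^ 2 = ‖m₁ t‖ := by
        rw [← norm_pow, hτ1, norm_neg]
      have hτs : s ≤ ‖τ‖ := by
        apply le_of_sq_le_sq _ (norm_nonneg _)
        rw [hss, hτn]; exact h6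
      have hτ1' : ‖τ‖ ≤ 1 + K₀ := by
        have := h3.1
        nlinarith [sq_nonneg (‖τ‖ - 1), norm_nonneg τ]
      have hτK : ‖τ‖ ^ 2 ≤ K₀ := hτn ▸ h3.1
      have e1 : σ * τ * G (c M * t ^ M) = deriv G (c M * t ^ M) +
          (τ ^ 2 * (starRingEnd ℂ) (deriv G ((starRingEnd ℂ) (lau M d (t * Y₁ t)))) -
            σ * τ * (starRingEnd ℂ) (G ((starRingEnd ℂ) (lau M d (t * Y₁ t))))) := by
        linear_combination -hτ2
      have e2 : |σ| * ‖τ‖ * ‖G (c M * t ^ M)‖ ≤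
          ‖deriv G (c M * t ^ M)‖ + (‖τ‖ ^ 2 + |σ| * ‖τ‖) * b := by
        calc |σ| * ‖τ‖ * ‖G (c M * t ^ M)‖ = ‖σ * τ * G (c M * t ^ M)‖ := by
              rw [norm_mul, norm_mul, Complex.norm_real, Real.norm_eq_abs]
          _ ≤ ‖deriv G (c M * t ^ M)‖ + _ := by rw [e1]; exact norm_add_le _ _
          _ ≤ _ := by
              gcongr
              exact norm_single_le b1 b1'
      have e3 : |σ| * s * ‖G (c M * t ^ M)‖ ≤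
          ‖deriv G (c M * t ^ M)‖ + (K₀ + |σ| * (1 + K₀)) * b := by
        calc |σ| * s * ‖G (c M * t ^ M)‖ ≤ |σ| * ‖τ‖ * ‖G (c M * t ^ M)‖ := by gcongr
          _ ≤ _ := e2
          _ ≤ _ := by gcongr
      have h11 := norm_nonneg (deriv G (c M * t ^ M))
      have h12 : (1 + (K₀ + |σ| * (1 + K₀))) / (|σ| * s) * (‖deriv G (c M * t ^ M)‖ + b) =
          ((1 + (K₀ + |σ| * (1 + K₀))) * (‖deriv G (c M * t ^ M)‖ + b)) / (|σ| * s) := by ring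
      rw [h12, le_div_iff₀ (by positivity)]
      have h13 : 0 ≤ K₀ + |σ| * (1 + K₀) := by positivity
      nlinarith [mul_nonneg h13 h11]
  obtain ⟨C₂, hC₂, hS2⟩ := hS2
  set C₁ : ℝ := 2 * K₁ * K₀ / (|σ| * c₀) / ‖c M‖ ^ 2 with hC₁
  have hcM : 0 < ‖c M‖ := norm_pos_iff.2 ha
  have hC₁0 : 0 < C₁ := by positivity
  refine ⟨a₂, max C₁ C₂, ha₂0, ha₂2, lt_of_lt_of_le hC₁0 (le_max_left _ _), ?_⟩
  filter_upwards [hS1, hS2] with t h1 h2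
  have hb0 : 0 ≤ mx G (a₂ * ‖c M * t ^ M‖) := mx_nonneg hGc (by positivity)
  constructor
  · refine h1.trans ?_
    gcongr
    exact le_max_left _ _
  · refine h2.trans ?_
    gcongr
    exact le_max_right _ _

end Pool.Agent.Stek
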