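import Mathlib

/-!
# Laurent polynomials: asymptotics at infinity and roots
-/

open Complex Metric Set Filter Topology Bornology

namespace Pool.Agent.Stek

/-- A monic polynomial of positive degree has a root close to any point where it is small. -/
theorem exists_root_near (Q : Polynomial ℂ) (hm : Q.Monic) (hd : 0 < Q.natDegree) (z₀ : ℂ) :
    ∃ Y, Q.IsRoot Y ∧ ‖Y - z₀‖ ^ Q.natDegree ≤ ‖Q.eval z₀‖ := by
  by_contra hcon
  push Not at hcon
  have hsplit : Q.Splits := IsAlgClosed.splits Q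
  have hcard : Multiset.card Q.roots = Q.natDegree := hsplit.natDegree_eq_card_roots.symm
  have heval : Q.eval z₀ = (Q.roots.map (fun a => z₀ - a)).prod := by
    have := hsplit.eval_eq_prod_roots_of_monic hm z₀
    simpa using this
  have hne : Q ≠ 0 := hm.ne_zero
  set s : ℝ := ‖Q.eval z₀‖ with hs
  have hs0 : 0 ≤ s := norm_nonneg _
  have hnorm : s = (Q.roots.map (fun a => ‖z₀ - a‖)).prod := by
    rw [hs, heval]
    have h1 := map_multiset_prod (normHom : ℂ →*₀ ℝ) (Q.roots.map (fun a => z₀ - a))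
    rw [Multiset.map_map] at h1
    exact h1
  -- each factor is at least `s ^ (1/n)`
  set n := Q.natDegree with hn
  set x : ℝ := s ^ ((n : ℝ)⁻¹) with hx
  have hx0 : 0 ≤ x := Real.rpow_nonneg hs0 _
  have hxn : x ^ n = s := Real.rpow_inv_natCast_pow hs0 (by omega)
  have hlt : ∀ a ∈ Q.roots, x < ‖z₀ - a‖ := by
    intro a ha
    have h1 := hcon a ((Polynomial.mem_roots hne).1 ha)
    rw [← hxn, norm_sub_rev] at h1
    exact lt_of_pow_lt_pow_left₀ n (norm_nonneg _) h1
  have hprod : ∀ S : Multiset ℂ, (∀ a ∈ S, x < ‖z₀ - a‖) → S ≠ 0 →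
      x ^ (Multiset.card S) < (S.map (fun a => ‖z₀ - a‖)).prod := by
    intro S
    induction S using Multiset.induction_on with
    | empty => intro _ h; exact absurd rfl h
    | cons a S ih =>
      intro h _
      have ha : x < ‖z₀ - a‖ := h a (Multiset.mem_cons_self a S)
      rw [Multiset.card_cons, Multiset.map_cons, Multiset.prod_cons, pow_succ, mul_comm]
      by_cases hS : S = 0
      · subst hS
        simpa using ha
      · have h1 := ih (fun b hb => h b (Multiset.mem_cons_of_mem hb)) hS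
        exact mul_lt_mul'' ha h1 hx0 (pow_nonneg hx0 _)
  have hroots : Q.roots ≠ 0 := by
    intro h0
    rw [h0] at hcard
    simp at hcard
    omega
  have := hprod Q.roots hlt hroots
  rw [hcard, hxn, ← hnorm] at this
  exact lt_irrefl _ this

/-- The Laurent polynomial `∑_{|j| ≤ M} c j ζ ^ j`. -/
noncomputable def lau (M : ℕ) (c : ℤ → ℂ) (ζ : ℂ) : ℂ :=
  ∑ j ∈ Finset.Icc (-(M : ℤ)) M, c j * ζ ^ j

theorem lau_hasDerivAt (M : ℕ) (c : ℤ → ℂ) {ζ : ℂ} (h : ζ ≠ 0) :
    HasDerivAt (lau M c) (lau M (fun j => (j : ℂ) * c j) ζ / ζ) ζ := by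
  have h1 : HasDerivAt (fun ζ => ∑ j ∈ Finset.Icc (-(M : ℤ)) M, c j * ζ ^ j)
      (∑ j ∈ Finset.Icc (-(M : ℤ)) M, c j * ((j : ℂ) * ζ ^ (j - 1))) ζ := by
    apply HasDerivAt.fun_sum
    intro j _
    exact (hasDerivAt_zpow j ζ (Or.inl h)).const_mul (c j)
  have h2 : lau M (fun j => (j : ℂ) * c j) ζ / ζ =
      ∑ j ∈ Finset.Icc (-(M : ℤ)) M, c j * ((j : ℂ) * ζ ^ (j - 1)) := by
    rw [lau, Finset.sum_div]
    apply Finset.sum_congr rfl
    intro j _
    rw [zpow_sub_one₀ h]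
    field_simp
  rw [h2]
  exact h1

theorem lau_conj (M : ℕ) (c : ℤ → ℂ) {ζ : ℂ} (h : ‖ζ‖ = 1) :
    (starRingEnd ℂ) (lau M c ζ) = lau M (fun j => (starRingEnd ℂ) (c (-j))) ζ := by
  have hz : (starRingEnd ℂ) ζ = ζ⁻¹ := by
    rw [Complex.inv_def, Complex.normSq_eq_norm_sq, h]
    simp
  rw [lau, map_sum, lau]
  apply Finset.sum_nbij' (fun j => -j) (fun j => -j)
  · intro j hj; simp only [Finset.mem_Icc] at hj ⊢; omega
  · intro j hj; simp only [Finset.mem_Icc] at hj ⊢; omega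
  · intro j _; simp
  · intro j _; simp
  · intro j _
    simp [map_mul, map_zpow₀, hz]

theorem tendsto_zpow_neg {k : ℤ} (hk : k < 0) :
    Tendsto (fun t : ℂ => t ^ k) (cobounded ℂ) (𝓝 0) := by
  obtain ⟨n, hn⟩ : ∃ n : ℕ, k = -((n : ℤ) + 1) := ⟨(-k - 1).toNat, by omega⟩
  have h1 : Tendsto (fun t : ℂ => t⁻¹) (cobounded ℂ) (𝓝 0) := tendsto_inv₀_cobounded
  have h2 := h1.pow (n + 1)
  simp only [zero_pow (Nat.succ_ne_zero n)] at h2
  refine h2.congr fun t => ?_
  rw [hn, zpow_neg, inv_pow]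
  norm_cast

/-- Leading asymptotics of a Laurent polynomial along `t Y(t)`. -/
theorem tendsto_lau (M : ℕ) (c : ℤ → ℂ) (e : ℤ) (he : ∀ j, e < j → j ≤ M → c j = 0)
    (hmem : e ∈ Finset.Icc (-(M : ℤ)) M) {Y : ℂ → ℂ} {ω : ℂ}
    (hY : Tendsto Y (cobounded ℂ) (𝓝 ω)) (hω : ω ≠ 0) :
    Tendsto (fun t => lau M c (t * Y t) / t ^ e) (cobounded ℂ) (𝓝 (c e * ω ^ e)) := by
  have hterm : ∀ j ∈ Finset.Icc (-(M : ℤ)) M,
      Tendsto (fun t => c j * (t * Y t) ^ j / t ^ e) (cobounded ℂ)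
        (𝓝 (if j = e then c e * ω ^ e else 0)) := by
    intro j hj
    have hY2 : Tendsto (fun t => Y t ^ j) (cobounded ℂ) (𝓝 (ω ^ j)) :=
      hY.zpow₀ j (Or.inl hω)
    by_cases hje : j = e
    · subst hje
      simp only [if_true]
      have h1 : ∀ᶠ t : ℂ in cobounded ℂ, t ≠ 0 := eventually_ne_cobounded 0
      refine (hY2.const_mul (c j)).congr' ?_
      filter_upwards [h1] with t ht
      rw [mul_zpow]
      have : t ^ j ≠ 0 := zpow_ne_zero _ ht
      field_simp
    · simp only [hje, if_false]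
      rcases lt_or_gt_of_ne hje with hlt | hgt
      · have h1 : ∀ᶠ t : ℂ in cobounded ℂ, t ≠ 0 := eventually_ne_cobounded 0
        have h2 : Tendsto (fun t : ℂ => t ^ (j - e)) (cobounded ℂ) (𝓝 0) :=
          tendsto_zpow_neg (by omega)
        have h3 := (h2.mul hY2).const_mul (c j)
        rw [zero_mul, mul_zero] at h3
        refine h3.congr' ?_
        filter_upwards [h1] with t ht
        rw [mul_zpow, zpow_sub₀ ht]
        ring
      · simp only [Finset.mem_Icc] at hj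
        simp [he j hgt hj.2]
  have hsum := tendsto_finsetSum _ hterm
  rw [Finset.sum_ite_eq' _ e] at hsum
  rw [if_pos hmem] at hsum
  refine hsum.congr fun t => ?_
  rw [lau, Finset.sum_div]

end Pool.Agent.Stek
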