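import Mathlib
import Pool.Agent.Lib.MP_bd8415_an.CsFinal2

/-!
# One entire Steklov eigenfunction forces a disk, when the boundary parametrisation has countably
many complex singularities

`Ω = {ρ < 0}` is a bounded connected planar domain with smooth boundary `{ρ = 0}`, of any
connectivity. One of its boundary curves is parametrised by `ζ ↦ p ζ`, `|ζ| = 1`, with complex
conjugate `q ζ`, where `p` is holomorphic in the plane off a countable closed set `F₁`, `q` is
holomorphic in the plane off a countable closed set `F₂`, and `F₁`, `F₂` are disjoint and do not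
meet the unit circle. If one nonconstant Steklov eigenfunction of `Ω` is the restriction of a
harmonic function on the whole plane, then `Ω` is a disk.
-/

namespace Pool.Agent.Results.MP_bd8415_an.CountableSingularities

/-- The gradient of `ρ`, as a complex number; on `{ρ = 0}` it is a positive multiple of the outward
unit normal of `{ρ < 0}` when the derivative does not vanish. -/
noncomputable def grad (ρ : ℂ → ℝ) (z : ℂ) : ℂ :=
  ((fderiv ℝ ρ z 1 : ℝ) : ℂ) + ((fderiv ℝ ρ z Complex.I : ℝ) : ℂ) * Complex.I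

/-- Let `Ω = {ρ < 0}` be bounded and connected, with `ρ` smooth and `dρ ≠ 0` on `{ρ = 0}`, and
suppose that a relatively open part `{ρ = 0} ∩ V` of the boundary is the image of the unit circle
under `p`. Let `p` be holomorphic off the countable closed set `F₁` and `q` holomorphic off the
countable closed set `F₂`, with `q = conj p` on the unit circle; `F₁` and `F₂` are disjoint and do
not meet the unit circle. Let `U` be harmonic on the whole plane, nonconstant on `Ω`, with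
`∂U/∂ν = σ U` on the boundary of `Ω` for some real `σ`. Then `Ω` is a disk. -/
theorem result (ρ : ℂ → ℝ) (hρ : ContDiff ℝ ((⊤ : ℕ∞) : WithTop ℕ∞) ρ)
    (hgrad : ∀ z : ℂ, ρ z = 0 → fderiv ℝ ρ z ≠ 0)
    (hbdd : Bornology.IsBounded {z : ℂ | ρ z < 0})
    (hconn : IsConnected {z : ℂ | ρ z < 0})
    (p q : ℂ → ℂ) (F₁ F₂ : Set ℂ) (hF₁ : IsClosed F₁) (hF₁c : F₁.Countable)
    (hF₂ : IsClosed F₂) (hF₂c : F₂.Countable) (hdisj : Disjoint F₁ F₂)
    (hu₁ : ∀ ζ ∈ F₁, ‖ζ‖ ≠ 1) (hu₂ : ∀ ζ ∈ F₂, ‖ζ‖ ≠ 1)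
    (hp : DifferentiableOn ℂ p F₁ᶜ) (hq : DifferentiableOn ℂ q F₂ᶜ)
    (hpq : ∀ ζ : ℂ, ‖ζ‖ = 1 → q ζ = (starRingEnd ℂ) (p ζ))
    (V : Set ℂ) (hV : IsOpen V) (hpar : {z : ℂ | ρ z = 0} ∩ V = p '' Metric.sphere 0 1)
    (U : ℂ → ℝ) (hU : InnerProductSpace.HarmonicOnNhd U Set.univ) (σ : ℝ)
    (hbc : ∀ z : ℂ, ρ z = 0 → fderiv ℝ U z (grad ρ z) = σ * U z * ‖grad ρ z‖)
    (hne : ∃ z w : ℂ, ρ z < 0 ∧ ρ w < 0 ∧ U z ≠ U w) :
    ∃ (z₀ : ℂ) (r : ℝ), {z : ℂ | ρ z < 0} = Metric.ball z₀ r :=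
  Pool.Agent.Stek.csfinal2 ρ hρ hgrad hbdd hconn p q F₁ F₂ hF₁ hF₁c hF₂ hF₂c hdisj hu₁ hu₂ hp hq
    hpq V hV hpar U hU σ hbc hne

end Pool.Agent.Results.MP_bd8415_an.CountableSingularities
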