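import Mathlib
import Pool.Agent.Lib.MP_bd8415_an.CsHopf

/-!
# One entire Steklov eigenfunction forces the domain to be simply connected

`Ω = {ρ < 0}` is a bounded planar domain with smooth boundary `{ρ = 0}`. If one nonconstant Steklov
eigenfunction of `Ω` is the restriction of a harmonic function on the whole plane, then the exterior
`{ρ > 0}` is connected, that is, `Ω` has no holes.
-/

namespace Pool.Agent.Results.MP_bd8415_an.NoHoles

/-- The gradient of `ρ`, as a complex number; on `{ρ = 0}` it is a positive multiple of the outward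
unit normal of `{ρ < 0}` when the derivative does not vanish. -/
noncomputable def grad (ρ : ℂ → ℝ) (z : ℂ) : ℂ :=
  ((fderiv ℝ ρ z 1 : ℝ) : ℂ) + ((fderiv ℝ ρ z Complex.I : ℝ) : ℂ) * Complex.I

/-- Let `Ω = {ρ < 0}` be bounded, with `ρ` smooth and `dρ ≠ 0` on `{ρ = 0}`. Let `U` be harmonic on
the whole plane, nonconstant on `Ω`, with `∂U/∂ν = σ U` on the boundary of `Ω` for some real `σ`.
Then the exterior `{ρ > 0}`, which is the complement of the closure of `Ω`, is connected. -/
theorem result (ρ : ℂ → ℝ) (hρ : ContDiff ℝ ((⊤ : ℕ∞) : WithTop ℕ∞) ρ)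
    (hgrad : ∀ z : ℂ, ρ z = 0 → fderiv ℝ ρ z ≠ 0)
    (hbdd : Bornology.IsBounded {z : ℂ | ρ z < 0})
    (U : ℂ → ℝ) (hU : InnerProductSpace.HarmonicOnNhd U Set.univ) (σ : ℝ)
    (hbc : ∀ z : ℂ, ρ z = 0 → fderiv ℝ U z (grad ρ z) = σ * U z * ‖grad ρ z‖)
    (hne : ∃ z w : ℂ, ρ z < 0 ∧ ρ w < 0 ∧ U z ≠ U w) :
    IsConnected (closure {z : ℂ | ρ z < 0})ᶜ := by
  obtain ⟨G, hGa, hGU⟩ := hU.exists_analyticOnNhd_univ_re_eq
  have hG : Differentiable ℂ G := fun z => (hGa z (Set.mem_univ z)).differentiableAt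
  have hρd : Differentiable ℝ ρ := hρ.differentiable (by simp)
  have hbc' : ∀ z, ρ z = 0 → (deriv G z * Pool.Agent.Stek.grad ρ z).re =
      σ * (G z).re * ‖Pool.Agent.Stek.grad ρ z‖ := by
    intro z hz
    have h1 := hbc z hz
    rw [← hGU, Pool.Agent.Stek.fderiv_re hG] at h1
    exact h1
  have hcl : (closure {z : ℂ | ρ z < 0})ᶜ = {z : ℂ | 0 < ρ z} := by
    ext z
    rw [Set.mem_compl_iff]
    constructor
    · intro h
      by_contra hcon
      have h0 : ρ z ≤ 0 := not_lt.1 hcon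
      apply h
      rcases lt_or_eq_of_le h0 with h1 | h1
      · exact subset_closure h1
      · exact Pool.Agent.Stek.zero_subset_closure hρd h1 (hgrad z h1)
    · intro h h1
      have h2 : closure {z : ℂ | ρ z < 0} ⊆ {z : ℂ | ρ z ≤ 0} :=
        closure_minimal (fun w hw => (show ρ w ≤ 0 from le_of_lt hw)) (isClosed_le hρd.continuous continuous_const)
      exact absurd (show (0 : ℝ) < ρ z from h) (not_lt.2 (h2 h1))
  rw [hcl]
  apply Pool.Agent.Stek.no_holes (hρ.of_le (by exact_mod_cast le_top)) hgrad hbdd hG hbc'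
  obtain ⟨z, w, h1, h2, h3⟩ := hne
  refine ⟨z, w, h1, h2, ?_⟩
  rw [← hGU] at h3
  exact h3

end Pool.Agent.Results.MP_bd8415_an.NoHoles
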