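import Mathlib
import Pool.Agent.Lib.MP_bd8415_an.Final

/-!
# One entire Steklov eigenfunction forces a disk, for trigonometric polynomial boundaries

`Ω = {ρ < 0}` is a bounded connected planar domain with smooth boundary `{ρ = 0}`. Suppose that the
boundary is the trace of a trigonometric polynomial `θ ↦ ∑_{|j| ≤ M} c j e^{i j θ}` whose extreme
coefficients have different moduli. If one nonconstant Steklov eigenfunction of `Ω` is the
restriction of a harmonic function on the whole plane, then `Ω` is a disk.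
-/

namespace Pool.Agent.Results.MP_bd8415_an.TrigonometricBoundary

/-- The gradient of `ρ`, as a complex number; on `{ρ = 0}` it is a positive multiple of the outward
unit normal of `{ρ < 0}` when the derivative does not vanish. -/
noncomputable def grad (ρ : ℂ → ℝ) (z : ℂ) : ℂ :=
  ((fderiv ℝ ρ z 1 : ℝ) : ℂ) + ((fderiv ℝ ρ z Complex.I : ℝ) : ℂ) * Complex.I

/-- Let `Ω = {ρ < 0}` be bounded and connected, with `ρ` smooth and `dρ ≠ 0` on `{ρ = 0}`, and
suppose that the boundary `{ρ = 0}` is the set of all `∑_{|j| ≤ M} c j e^{i j θ}`, where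
`|c M| ≠ |c (-M)|`. Let `U` be harmonic on the whole plane, nonconstant on `Ω`, with
`∂U/∂ν = σ U` on the boundary for some real `σ`. Then `Ω` is a disk. -/
theorem result (ρ : ℂ → ℝ) (hρ : ContDiff ℝ ((⊤ : ℕ∞) : WithTop ℕ∞) ρ)
    (hgrad : ∀ z : ℂ, ρ z = 0 → fderiv ℝ ρ z ≠ 0)
    (hbdd : Bornology.IsBounded {z : ℂ | ρ z < 0})
    (hconn : IsConnected {z : ℂ | ρ z < 0})
    (M : ℕ) (c : ℤ → ℂ) (hc : ‖c M‖ ≠ ‖c (-M)‖)
    (hpar : {z : ℂ | ρ z = 0} = Set.range (fun θ : ℝ =>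
      ∑ j ∈ Finset.Icc (-(M : ℤ)) M, c j * Complex.exp (j * θ * Complex.I)))
    (U : ℂ → ℝ) (hU : InnerProductSpace.HarmonicOnNhd U Set.univ) (σ : ℝ)
    (hbc : ∀ z : ℂ, ρ z = 0 → fderiv ℝ U z (grad ρ z) = σ * U z * ‖grad ρ z‖)
    (hne : ∃ z w : ℂ, ρ z < 0 ∧ ρ w < 0 ∧ U z ≠ U w) :
    ∃ (z₀ : ℂ) (r : ℝ), {z : ℂ | ρ z < 0} = Metric.ball z₀ r :=
  Pool.Agent.Stek.final ρ hρ hgrad hbdd hconn M c hc hpar U hU σ hbc hne

end Pool.Agent.Results.MP_bd8415_an.TrigonometricBoundary
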